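import Pool.Agent.Lib.MP_732f67_ag.G.Ord

/-!
The test of regularity by prime divisors for the local rings of a projective variety.
-/

namespace Pool.Agent.KM

variable {k L : Type*} [Field k] [Field L] [Algebra k L]

private theorem ordP_ne_zero {A : Subalgebra k L} (P : Ideal A) {b : A} (hb : b ∉ P) :
    (b : L) ≠ 0 := fun h => hb (by
  rw [show b = 0 from Subtype.ext h]
  exact P.zero_mem)

/-- as `mem_of_primDiv`, for the local rings of a chart -/
theorem mem_of_primDiv_loc {A O : Subalgebra k L} (hA : A.FG) (hO : LocAt A O) (hfr : FracEq O)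
    (hn : ∀ x : L, IsIntegral O x → x ∈ O) {x : L}
    (h : ∀ P : Subalgebra k L, LocAt O P → PrimDiv P → x ∈ P) : x ∈ O := by
  by_contra hx
  have := isFractionRing_of_fracEq hfr
  have := isIntegrallyClosed_of_normal hfr hn
  have := hO.isNoetherianRing hA
  obtain ⟨p, hp, hh, hF, hv⟩ := _root_.KM.h1 (C := O) (L := L) (F := x) fun c hc => hx (by
    rw [← hc]
    exact c.2)
  have hloc := locAt_ordLoc O p
  have hloc' := hO.trans hloc
  have hlr := hloc.isLocalRing
  have hnr := hloc'.isNoetherianRing hA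
  have hval : ∀ y : L, y ∈ ordLoc O p ∨ y⁻¹ ∈ ordLoc O p := fun y => hv y
  have hfrac : FracEq (ordLoc O p) := by
    intro y
    obtain ⟨a, b, hb, hab⟩ := hfr y
    exact ⟨⟨a, hloc.le a.2⟩, ⟨b, hloc.le b.2⟩, hb, hab⟩
  have hpv : PreValuationRing (ordLoc O p) := by
    refine ⟨fun a b => ?_⟩
    by_cases ha : a = 0
    · exact ⟨0, Or.inr (by rw [mul_zero, ha])⟩
    by_cases hb : b = 0
    · exact ⟨0, Or.inl (by rw [mul_zero, hb])⟩
    have ha' : (a : L) ≠ 0 := fun h => ha (Subtype.ext h)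
    have hb' : (b : L) ≠ 0 := fun h => hb (Subtype.ext h)
    rcases hval ((b : L) / a) with hc | hc
    · refine ⟨⟨_, hc⟩, Or.inl (Subtype.ext ?_)⟩
      show (a : L) * (b / a) = b
      exact mul_div_cancel₀ _ ha'
    · rw [inv_div] at hc
      refine ⟨⟨_, hc⟩, Or.inr (Subtype.ext ?_)⟩
      show (b : L) * (a / b) = a
      exact mul_div_cancel₀ _ hb'
  have hvr : ValuationRing (ordLoc O p) := { hpv with }
  have hnf : ¬ IsField (ordLoc O p) := by
    intro hf
    have hp0 : p ≠ ⊥ := by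
      intro h0
      rw [h0, Ideal.height_bot] at hh
      exact zero_ne_one hh
    obtain ⟨c, hc, hc0⟩ := Submodule.exists_mem_ne_zero_of_ne_bot hp0
    have hc0' : (c : L) ≠ 0 := fun h => hc0 (Subtype.ext h)
    obtain ⟨d, hd⟩ := hf.mul_inv_cancel (a := (⟨c, hloc.le c.2⟩ : ordLoc O p))
      (fun h => hc0' (congrArg Subtype.val h))
    have hd' : (c : L) * d = 1 := congrArg Subtype.val hd
    obtain ⟨a, b, hb, hab⟩ := (mem_ordLoc p _).1 d.2
    rw [hab, ← mul_div_assoc, div_eq_one_iff_eq (ordP_ne_zero p hb)] at hd'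
    have h2 : c * a = b := Subtype.ext hd'
    exact hb (by
      rw [← h2]
      exact p.mul_mem_right _ hc)
  have hdvr : IsDiscreteValuationRing (ordLoc O p) :=
    ((IsDiscreteValuationRing.TFAE (ordLoc O p) hnf).out 0 1).2 hvr
  obtain ⟨a, b, hb, hab⟩ := (mem_ordLoc p x).1 (h _ hloc ⟨hdvr, hfrac, A, hA, hloc'⟩)
  exact hF a b hb hab

/-- the local rings of a projective variety: chart, finite type, field of fractions -/
theorem IsProj.exists_chart {X : Set (Subalgebra k L)} (hX : IsProj X) {O : Subalgebra k L}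
    (hO : O ∈ X) : ∃ A : Subalgebra k L, A.FG ∧ FracEq A ∧ LocAt A O ∧
      ∀ O', LocAt A O' → O' ∈ X := by
  obtain ⟨V, hV, -, hfr, rfl⟩ := hX
  obtain ⟨v, hv, hv0, hl⟩ := hO
  exact ⟨cht V v, cht_fg hV v, hfr v hv hv0, hl, fun O' hl' => ⟨v, hv, hv0, hl'⟩⟩

theorem IsProj.fracEq {X : Set (Subalgebra k L)} (hX : IsProj X) {O : Subalgebra k L}
    (hO : O ∈ X) : FracEq O := by
  obtain ⟨A, -, hfr, hl, -⟩ := hX.exists_chart hO
  intro x
  obtain ⟨a, b, hb, hab⟩ := hfr x
  exact ⟨⟨a, hl.le a.2⟩, ⟨b, hl.le b.2⟩, hb, hab⟩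

theorem IsProj.isLocalRing {X : Set (Subalgebra k L)} (hX : IsProj X) {O : Subalgebra k L}
    (hO : O ∈ X) : IsLocalRing O := by
  obtain ⟨A, -, -, hl, -⟩ := hX.exists_chart hO
  exact hl.isLocalRing

/-- localizations of points are points -/
theorem IsProj.loc_mem {X : Set (Subalgebra k L)} (hX : IsProj X) {O O' : Subalgebra k L}
    (hO : O ∈ X) (h : LocAt O O') : O' ∈ X := by
  obtain ⟨A, -, -, hl, hmem⟩ := hX.exists_chart hO
  exact hmem O' (hl.trans h)

/-- a valuation ring has a unique center -/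
theorem IsProj.exists_center {X : Set (Subalgebra k L)} (hX : IsProj X) (R : ValuationSubring L)
    (hR : ∀ c : k, algebraMap k L c ∈ R) :
    ∃ O ∈ X, (∀ x ∈ O, x ∈ R) ∧ ∀ x ∈ O, x⁻¹ ∈ R → x⁻¹ ∈ O := by
  obtain ⟨V, hV, hV0, -, rfl⟩ := hX
  obtain ⟨v, hv, hv0, hle⟩ := exists_cht_le V hV hV0 R hR
  let R' : Subalgebra k L := { R.toSubring with algebraMap_mem' := hR }
  have hR' : IsLocalRing R' := (inferInstance : IsLocalRing R)
  have hle' : cht V v ≤ R' := fun x hx => hle x hx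
  obtain ⟨O, hO, hd⟩ := Pool.Agent.KM.exists_center hv hv0 hR' hle'
  exact ⟨O, hO, fun x hx => hd.1 hx, fun x hx hx' => hd.2 x hx hx'⟩

theorem IsProj.eq_of_dom {X : Set (Subalgebra k L)} (hX : IsProj X) {O O' R : Subalgebra k L}
    (hO : O ∈ X) (hO' : O' ∈ X) (h : Dom O R) (h' : Dom O' R) : O = O' := by
  obtain ⟨V, -, -, -, rfl⟩ := hX
  exact Pts.eq_of_dom hO hO' h h'

/-- an inclusion of two points is a localization -/
theorem IsProj.locAt_of_le {X : Set (Subalgebra k L)} (hX : IsProj X) {O O' : Subalgebra k L}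
    (hO : O ∈ X) (hO' : O' ∈ X) (h : O ≤ O') : LocAt O O' := by
  obtain ⟨V, -, -, -, rfl⟩ := hX
  obtain ⟨v, hv, hv0, hl⟩ := hO
  exact (Pts.locAt hO' hv hv0 (hl.le.trans h)).of_le hl.le h

/-- the same for regularity -/
theorem IsProj.mem_of_primDiv {X : Set (Subalgebra k L)} (hX : IsProj X) (hn : Normal X)
    {O : Subalgebra k L} (hO : O ∈ X) {x : L} (h : ∀ P ∈ X, PrimDiv P → O ≤ P → x ∈ P) : x ∈ O := by
  obtain ⟨A, hA, -, hl, hmem⟩ := hX.exists_chart hO
  exact mem_of_primDiv_loc hA hl (hX.fracEq hO) (hn O hO) fun P hP hP' =>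
    h P (hX.loc_mem hO hP) hP' hP.le

/-- On a normal projective variety an element is a unit at a point if it is a unit at all
prime divisors through the point -/
theorem IsProj.un_of_primDiv {X : Set (Subalgebra k L)} (hX : IsProj X) (hn : Normal X)
    {O : Subalgebra k L} (hO : O ∈ X) {x : L} (hx : x ≠ 0)
    (h : ∀ P ∈ X, PrimDiv P → O ≤ P → Un P x) : Un O x :=
  ⟨hx, hX.mem_of_primDiv hn hO fun P hP hP' hle => (h P hP hP' hle).2.1,
    hX.mem_of_primDiv hn hO fun P hP hP' hle => (h P hP hP' hle).2.2⟩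

/-- local equations of a Cartier divisor at a point and at a generization -/
theorem IsCar.un_of_le {X : Set (Subalgebra k L)} {D : Subalgebra k L → Lˣ} (hD : IsCar X D)
    {O O' : Subalgebra k L} (hO : O ∈ X) (hO' : O' ∈ X) (h : O ≤ O') :
    Un O' (D O / D O' : Lˣ) := by
  obtain ⟨S, hS, hS'⟩ := hD O hO
  exact hS' O' hO' fun s hs => h (hS s hs)

end Pool.Agent.KM
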