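import Pool.Agent.Lib.MP_732f67_ag.G.RatA
import Pool.Agent.Lib.MP_732f67_ag.G.OrdP

/-!
From real to rational decompositions.
-/

namespace Pool.Agent.KM

variable {k L : Type*} [Field k] [Field L] [Algebra k L]

/-- `- q' κ ~ ∑ c i M i`, with the rational function `u` -/
def QDec {r : ℕ} (X : Set (Subalgebra k L)) (κ : Subalgebra k L → Lˣ) (q' : ℕ) (c : Fin r → ℕ)
    (u : Lˣ) (M : Fin r → Subalgebra k L → Lˣ) : Prop :=
  ∀ O ∈ X, Un O (u * κ O ^ q' * ∏ i, M i O ^ c i : Lˣ)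

/-- a positive number which is at most `δ` and at most all the `a i` -/
theorem rat_exists_delta {r : ℕ} {a : Fin r → ℝ} (ha : ∀ i, 0 < a i) {δ : ℝ} (hδ : 0 < δ) :
    ∃ δ' : ℝ, 0 < δ' ∧ δ' ≤ δ ∧ ∀ i, δ' ≤ a i := by
  have h1 : ∀ᶠ x : ℝ in nhds 0, x < δ ∧ ∀ i, x < a i :=
    (eventually_lt_nhds hδ).and (Filter.eventually_all.2 fun i => eventually_lt_nhds (ha i))
  have h2 : ∀ᶠ x : ℝ in nhdsWithin 0 (Set.Ioi 0), (x < δ ∧ ∀ i, x < a i) ∧ 0 < x :=
    (h1.filter_mono nhdsWithin_le_nhds).and self_mem_nhdsWithin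
  obtain ⟨x, ⟨hx, hx'⟩, hx0⟩ := h2.exists
  exact ⟨x, hx0, hx.le, fun i => (hx' i).le⟩

/-- clearing denominators -/
theorem rat_exists_int {x : ℚ} {q : ℕ} (m : ℕ) (h : x.den ∣ q) :
    ∃ g : ℤ, (g : ℚ) = m * q * x := by
  obtain ⟨t, rfl⟩ := h
  refine ⟨m * t * x.num, ?_⟩
  have h1 : x * x.den = x.num := Rat.mul_den_eq_num x
  push_cast
  rw [← h1]
  ring

theorem rat_exists_nat {x : ℚ} (hx : 0 < x) {q m : ℕ} (hm : 1 ≤ m) (hq : 1 ≤ q) (h : x.den ∣ q) :
    ∃ g : ℕ, 0 < g ∧ (g : ℚ) = m * q * x := by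
  obtain ⟨g, hg⟩ := rat_exists_int m h
  have h1 : (0 : ℚ) < m * q * x := by
    have : (0 : ℚ) < m := by exact_mod_cast hm
    have : (0 : ℚ) < q := by exact_mod_cast hq
    positivity
  have h2 : 0 < g := by
    rw [← hg] at h1
    exact_mod_cast h1
  obtain ⟨n, rfl⟩ := Int.eq_ofNat_of_zero_le h2.le
  refine ⟨n, by exact_mod_cast h2, ?_⟩
  rw [← hg]
  rfl

/-- PROOF. `rational_approx` for the prime divisors `O ∈ X` with the orders of `M i`, `u j` and `κ`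
(`PrimDiv.exists_ord`; they are unique) gives rational `a'`, `b'`, `a' i > 0` if `δ` is small. Let `N` be a
common multiple of the denominators and of `m`, `q' = N / m`, `c i = N a' i`, and
`u = ∏ u_j ^ (N b'_j)`. Then `u κ ^ q' ∏ M i ^ (c i)` is a unit at all prime divisors of `X`, and so at all
points by normality (`IsProj.un_of_primDiv`, `IsCar.un_of_le`). -/
theorem exists_qdec {r m : ℕ} {X : Set (Subalgebra k L)} (hX : IsProj X) (hn : Normal X)
    {κ : Subalgebra k L → Lˣ} (hκ : IsCar X κ) (hm : 1 ≤ m) {M : Fin r → Subalgebra k L → Lˣ}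
    (hM : ∀ i, IsCar X (M i)) {a : Fin r → ℝ} (ha : ∀ i, 0 < a i) (h : RLin X m κ a M)
    (δ : ℝ) (hδ : 0 < δ) :
    ∃ (q' : ℕ) (c : Fin r → ℕ) (u : Lˣ), 1 ≤ q' ∧ (∀ i, 0 < c i) ∧ QDec X κ q' c u M ∧
      (∀ i, |(c i : ℝ) / (m * q') - a i| < δ) ∧
      ∀ B : ℚ, ∑ i, a i = B → ∑ i, (c i : ℝ) / (m * q') = B := by
  obtain ⟨s, b, u, hu⟩ := h
  obtain ⟨δ', hδ', hδδ, hδa⟩ := rat_exists_delta ha hδ
  have hord : ∀ (o : {O : Subalgebra k L // O ∈ X ∧ PrimDiv O}) (x : Lˣ),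
      ∃ e : ℤ, IsOrd o.1 (x : L) e := by
    intro o x
    obtain ⟨π, hπ⟩ := o.2.2.exists_unif
    obtain ⟨e, he⟩ := hπ.exists_ord o.2.2 x.ne_zero
    exact ⟨e, π, hπ, he⟩
  choose ord hord using hord
  have hm0 : (m : ℝ) ≠ 0 := by
    have : m ≠ 0 := by omega
    exact_mod_cast this
  have hmq : (m : ℚ) ≠ 0 := by
    have : m ≠ 0 := by omega
    exact_mod_cast this
  obtain ⟨a', b', h1, h2, h3⟩ := rational_approx
    (fun o i => ord o (M i o.1)) (fun o j => ord o (u j))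
    (fun o => -(ord o (κ o.1) : ℚ) / m) a b (fun o => by
      have := hu o.1 o.2.1 o.2.2 _ _ _ (hord o (κ o.1)) (fun i => hord o (M i o.1))
        (fun j => hord o (u j))
      rw [← this]
      push_cast
      rfl) δ' hδ'
  have ha' : ∀ i, 0 < a' i := by
    intro i
    have h4 := (abs_lt.1 (h2 i)).1
    have h5 := hδa i
    have h6 : (0 : ℝ) < a' i := by linarith
    exact_mod_cast h6
  let q' : ℕ := (∏ i, (a' i).den) * ∏ j, (b' j).den
  have hq' : 1 ≤ q' := by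
    have h4 : 0 < ∏ i, (a' i).den := Finset.prod_pos fun i _ => (a' i).den_pos
    have h5 : 0 < ∏ j, (b' j).den := Finset.prod_pos fun j _ => (b' j).den_pos
    exact Nat.mul_pos h4 h5
  have hqa : ∀ i, (a' i).den ∣ q' := fun i =>
    (Finset.dvd_prod_of_mem (fun i => (a' i).den) (Finset.mem_univ i)).mul_right _
  have hqb : ∀ j, (b' j).den ∣ q' := fun j =>
    (Finset.dvd_prod_of_mem (fun j => (b' j).den) (Finset.mem_univ j)).mul_left _
  choose c hc0 hc using fun i => rat_exists_nat (ha' i) hm hq' (hqa i)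
  choose g hg using fun j => rat_exists_int m (hqb j)
  have hqq : (q' : ℚ) ≠ 0 := by
    have : q' ≠ 0 := by omega
    exact_mod_cast this
  have hcr : ∀ i, (c i : ℝ) / (m * q') = a' i := by
    intro i
    have h4 : ((c i : ℚ) : ℝ) = ((m * q' * a' i : ℚ) : ℝ) := by rw [hc i]
    push_cast at h4
    rw [h4]
    have h5 : (q' : ℝ) ≠ 0 := by exact_mod_cast hqq
    field_simp
  refine ⟨q', c, ∏ j, u j ^ g j, hq', hc0, ?_, fun i => ?_, fun B hB => ?_⟩
  · intro O hO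
    refine hX.un_of_primDiv hn hO (Units.ne_zero _) fun P hP hP' hle => ?_
    have hsum : (∑ j, g j * ord ⟨P, hP, hP'⟩ (u j)) + q' * ord ⟨P, hP, hP'⟩ (κ P) +
        ∑ i, (c i : ℤ) * ord ⟨P, hP, hP'⟩ (M i P) = 0 := by
      have h4 := h1 ⟨P, hP, hP'⟩
      simp only at h4
      have h5 : ((m : ℚ) * q') * (∑ i, a' i * (ord ⟨P, hP, hP'⟩ (M i P) : ℚ) +
          ∑ j, b' j * (ord ⟨P, hP, hP'⟩ (u j) : ℚ)) =
          ((m : ℚ) * q') * (-(ord ⟨P, hP, hP'⟩ (κ P) : ℚ) / m) := by rw [h4]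
      rw [mul_add, Finset.mul_sum, Finset.mul_sum] at h5
      have h6 : ∑ i, ((m : ℚ) * q') * (a' i * (ord ⟨P, hP, hP'⟩ (M i P) : ℚ)) =
          ∑ i, (c i : ℚ) * (ord ⟨P, hP, hP'⟩ (M i P) : ℚ) :=
        Finset.sum_congr rfl fun i _ => by rw [hc i]; ring
      have h7 : ∑ j, ((m : ℚ) * q') * (b' j * (ord ⟨P, hP, hP'⟩ (u j) : ℚ)) =
          ∑ j, (g j : ℚ) * (ord ⟨P, hP, hP'⟩ (u j) : ℚ) :=
        Finset.sum_congr rfl fun j _ => by rw [hg j]; ring
      rw [h6, h7] at h5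
      have h8 : ((m : ℚ) * q') * (-(ord ⟨P, hP, hP'⟩ (κ P) : ℚ) / m) =
          -(q' * (ord ⟨P, hP, hP'⟩ (κ P) : ℚ)) := by
        field_simp
      rw [h8] at h5
      have h9 : (((∑ j, g j * ord ⟨P, hP, hP'⟩ (u j)) + q' * ord ⟨P, hP, hP'⟩ (κ P) +
        ∑ i, (c i : ℤ) * ord ⟨P, hP, hP'⟩ (M i P) : ℤ) : ℚ) = 0 := by
        push_cast
        linarith
      exact_mod_cast h9
    have hP0 : Un P (((∏ j, u j ^ g j) * κ P ^ q' * ∏ i, M i P ^ c i : Lˣ) : L) := by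
      rw [← isOrd_zero_iff hP', ← hsum]
      rw [Units.val_mul, Units.val_mul]
      refine IsOrd.mul hP' (IsOrd.mul hP' ?_ ?_) ?_
      · rw [Units.coe_prod]
        refine IsOrd.prod hP' _ fun j _ => ?_
        rw [Units.val_zpow_eq_zpow_val]
        exact (hord ⟨P, hP, hP'⟩ (u j)).zpow hP' _
      · have := (hord ⟨P, hP, hP'⟩ (κ P)).zpow hP' (q' : ℤ)
        rw [zpow_natCast] at this
        rw [Units.val_pow_eq_pow_val]
        exact this
      · rw [Units.coe_prod]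
        refine IsOrd.prod hP' _ fun i _ => ?_
        have := (hord ⟨P, hP, hP'⟩ (M i P)).zpow hP' (c i : ℤ)
        rw [zpow_natCast] at this
        rw [Units.val_pow_eq_pow_val]
        exact this
    have hκP : Un P ((κ O / κ P : Lˣ) : L) := hκ.un_of_le hO hP hle
    have hMP : ∀ i, Un P ((M i O / M i P : Lˣ) : L) := fun i => (hM i).un_of_le hO hP hle
    have hfin : (∏ j, u j ^ g j) * κ O ^ q' * ∏ i, M i O ^ c i =
        ((∏ j, u j ^ g j) * κ P ^ q' * ∏ i, M i P ^ c i) *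
          ((κ O / κ P) ^ q' * ∏ i, (M i O / M i P) ^ c i) := by
      have h4 : ∏ i, (M i O / M i P) ^ c i = (∏ i, M i O ^ c i) / ∏ i, M i P ^ c i := by
        rw [← Finset.prod_div_distrib]
        exact Finset.prod_congr rfl fun i _ => div_pow _ _ _
      rw [h4, div_pow]
      have h5 : ∀ A B C D E : Lˣ, A * B * C = A * D * E * (B / D * (C / E)) := by
        intro A B C D E
        rw [mul_div_assoc' (B / D), div_mul_eq_mul_div, mul_div_assoc', mul_div_assoc',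
          eq_div_iff_mul_eq', eq_div_iff_mul_eq']
        ac_rfl
      exact h5 _ _ _ _ _
    rw [hfin, Units.val_mul]
    refine hP0.mul ?_
    rw [Units.val_mul, Units.val_pow_eq_pow_val, Units.coe_prod]
    refine (hκP.pow _).mul (Un.prod _ fun i _ => ?_)
    rw [Units.val_pow_eq_pow_val]
    exact (hMP i).pow _
  · rw [hcr]
    exact (h2 i).trans_le hδδ
  · rw [Finset.sum_congr rfl fun i _ => hcr i, ← h3 B hB]
    push_cast
    rfl

/-- the bound for rational decompositions implies the bound for real ones -/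
theorem sum_le_of_qdec {r m : ℕ} {X : Set (Subalgebra k L)} (hX : IsProj X) (hn : Normal X)
    {κ : Subalgebra k L → Lˣ} (hκ : IsCar X κ) (hm : 1 ≤ m) {M : Fin r → Subalgebra k L → Lˣ}
    (hM : ∀ i, IsCar X (M i)) {a : Fin r → ℝ} (ha : ∀ i, 0 < a i) (h : RLin X m κ a M) (B : ℕ)
    (hB : ∀ (q' : ℕ) (c : Fin r → ℕ) (u : Lˣ), 1 ≤ q' → (∀ i, 0 < c i) → QDec X κ q' c u M →
      ∑ i, (c i : ℝ) / (m * q') ≤ B) :
    ∑ i, a i ≤ B ∧ (∑ i, a i = B → ∃ (q' : ℕ) (c : Fin r → ℕ) (u : Lˣ), 1 ≤ q' ∧ (∀ i, 0 < c i) ∧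
      QDec X κ q' c u M ∧ ∑ i, (c i : ℝ) / (m * q') = B) := by
  constructor
  · by_contra hlt
    push Not at hlt
    have hd : 0 < (∑ i, a i - B) / (r + 1) := by
      have : (0 : ℝ) < r + 1 := by positivity
      exact div_pos (sub_pos.2 hlt) this
    obtain ⟨q', c, u, hq', hc, hq, hcl, -⟩ := exists_qdec hX hn hκ hm hM ha h _ hd
    have h1 := hB q' c u hq' hc hq
    have h2 : ∑ i, a i ≤ ∑ i, ((c i : ℝ) / (m * q') + (∑ i, a i - B) / (r + 1)) :=
      Finset.sum_le_sum fun i _ => by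
        have := (abs_lt.1 (hcl i)).1
        linarith
    rw [Finset.sum_add_distrib, Finset.sum_const, Finset.card_univ, Fintype.card_fin,
      nsmul_eq_mul] at h2
    have h3 : (r : ℝ) * ((∑ i, a i - B) / (r + 1)) < ∑ i, a i - B := by
      have h4 : (0 : ℝ) < r + 1 := by positivity
      rw [mul_div_assoc', div_lt_iff₀ h4]
      nlinarith [sub_pos.2 hlt]
    linarith
  · intro hE
    obtain ⟨q', c, u, hq', hc, hq, -, hS⟩ := exists_qdec hX hn hκ hm hM ha h 1 one_pos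
    refine ⟨q', c, u, hq', hc, hq, ?_⟩
    have := hS (B : ℚ) (by rw [hE]; push_cast; rfl)
    rw [this]
    push_cast
    rfl

end Pool.Agent.KM
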