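import Pool.Agent.Lib.MP_732f67_ag.G.Pre
import Pool.Agent.Lib.MP_732f67_ag.G.Rat
import Pool.Agent.Lib.MP_732f67_ag.KM.AtGen

/-!
The sum of the divisors `M i` is big (used in `Big.lean`).
-/

namespace Pool.Agent.KM

variable {L : Type} [Field L] [Algebra ℂ L] {n s r : ℕ}

private theorem bigB_int {A : Subalgebra ℂ L} {x : L}
    (h : ∀ R : ValuationSubring L, (∀ y ∈ A, y ∈ R) → x ∈ R) : IsAlgebraic A x := by
  have h1 : IsIntegral A.toSubring x := _root_.KM.AtGen.integral_of_val fun R hR => h R hR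
  have h2 : IsIntegral A x := h1
  exact h2.isAlgebraic

/-- The sum of the divisors `M i` is big. -/
theorem bigB_main {X W : Set (Subalgebra ℂ L)} {cen : Subalgebra ℂ L → Subalgebra ℂ L}
    {E : Fin s → Subalgebra ℂ L → Lˣ}
    {M : Fin r → Subalgebra ℂ L → Lˣ} {m₀ : ℕ} {DD : Subalgebra ℂ L → Lˣ}
    (Y : Pre n X W cen E M m₀ DD) {D : Fin n → Derivation ℂ L L} {m : ℕ}
    {κ : Subalgebra ℂ L → Lˣ} (hX : KltFano X D m κ) (hW : IsProj W)
    (hc : ∀ O ∈ W, cen O ∈ X ∧ Dom (cen O) O) (hm : 1 ≤ m₀) {q' : ℕ} (hq : 1 ≤ q')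
    {c : Fin r → ℕ} {u : Lˣ} (hu : QDec X κ q' c u M) (x : L) :
    IsAlgebraic (Algebra.adjoin ℂ {w | ∃ i, ∃ a b, Y.f b i ≠ 0 ∧ w = Y.f a i / Y.f b i}) x := by
  obtain ⟨m1, hm1, hF, hP⟩ := hX.fano
  obtain ⟨V1, hV1⟩ := exists_va hX.proj (pol_car_pow (pol_car_inv hX.can.1) m1) hF hP
  have hV2 := VA.pow hX.proj hV1 (d := q' * m₀) (Nat.mul_pos hq hm)
  have hfne : ∀ a i, Y.f a i ≠ 0 := fun a i => left_ne_zero_of_mul (Y.f_un hW a i).1
  obtain ⟨Q0, hQ0, -, -⟩ := hW.exists_center (⊤ : ValuationSubring L) (fun c => trivial)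
  obtain ⟨a0, ha0⟩ := Y.exists_le hW hQ0
  set K₁ := Algebra.adjoin ℂ {w | ∃ i, ∃ a b, Y.f b i ≠ 0 ∧ w = Y.f a i / Y.f b i} with hK₁
  obtain ⟨S, hS⟩ : ∃ S : L, S = ∏ i, Y.f a0 i ^ (c i * m1) := ⟨_, rfl⟩
  have hS0 : S ≠ 0 := by
    rw [hS]
    exact Finset.prod_ne_zero_iff.2 fun i _ => pow_ne_zero _ (hfne a0 i)
  have key : ∀ w ∈ V1 ^ (q' * m₀), IsAlgebraic K₁ (w * (u : L) ^ (m1 * m₀) / S) := by
    intro w hw
    refine bigB_int fun R hR => ?_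
    obtain ⟨Q, hQ, hQR, -⟩ := hW.exists_center R (fun c => hR _ (K₁.algebraMap_mem c))
    obtain ⟨a, ha⟩ := Y.exists_le hW hQ
    obtain ⟨hO, hd⟩ := hc Q hQ
    have h1 : w * ((κ (cen Q) : L)⁻¹ ^ m1) ^ (q' * m₀) ∈ cen Q := by
      have h := hV2.sec hw (cen Q) hO
      simpa using h
    have h2 : Un (cen Q) ((u : L) * (κ (cen Q) : L) ^ q' * ∏ i, (M i (cen Q) : L) ^ c i) := by
      have h := hu (cen Q) hO
      simpa using h
    have h3 : ∀ i, (Y.f a0 i * (M i (cen Q) : L) ^ m₀)⁻¹ ∈ R := by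
      intro i
      have h4 := (Y.nb a).2.2.2.2.2.2.1 i Q hQ ha
      have h5 : (Y.f a0 i * (M i (cen Q) : L) ^ m₀)⁻¹ =
          Y.f a i / Y.f a0 i * (Y.f a i * (M i (cen Q) : L) ^ m₀)⁻¹ := by
        have e1 := hfne a i
        have e2 := hfne a0 i
        have e3 := (M i (cen Q)).ne_zero
        field_simp
      rw [h5]
      exact R.mul_mem _ _ (hR _ (Algebra.subset_adjoin ⟨i, a, a0, hfne a0 i, rfl⟩))
        (hQR _ h4.2.2)
    have h6 : w * (u : L) ^ (m1 * m₀) / S =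
        w * ((κ (cen Q) : L)⁻¹ ^ m1) ^ (q' * m₀) *
          ((u : L) * (κ (cen Q) : L) ^ q' * ∏ i, (M i (cen Q) : L) ^ c i) ^ (m1 * m₀) *
          ∏ i, ((Y.f a0 i * (M i (cen Q) : L) ^ m₀)⁻¹) ^ (c i * m1) := by
      have e1 := (κ (cen Q)).ne_zero
      have e3 : ∏ i, ((Y.f a0 i * (M i (cen Q) : L) ^ m₀)⁻¹) ^ (c i * m1) =
          S⁻¹ * ((∏ i, (M i (cen Q) : L) ^ c i) ^ (m1 * m₀))⁻¹ := by
        rw [hS, ← Finset.prod_pow, ← Finset.prod_inv_distrib, ← Finset.prod_inv_distrib,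
          ← Finset.prod_mul_distrib]
        refine Finset.prod_congr rfl fun i _ => ?_
        rw [inv_pow, mul_pow, mul_inv, ← pow_mul, ← pow_mul]
        congr 3
        ring
      have e4 : (∏ i, (M i (cen Q) : L) ^ c i) ^ (m1 * m₀) ≠ 0 :=
        pow_ne_zero _ (Finset.prod_ne_zero_iff.2 fun i _ => pow_ne_zero _ (M i (cen Q)).ne_zero)
      have e5 : ((κ (cen Q) : L)⁻¹ ^ m1) ^ (q' * m₀) * ((κ (cen Q) : L) ^ q') ^ (m1 * m₀) = 1 := by
        rw [← pow_mul, ← pow_mul, inv_pow]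
        have e6 : q' * (m1 * m₀) = m1 * (q' * m₀) := by ring
        rw [e6]
        exact inv_mul_cancel₀ (pow_ne_zero _ e1)
      rw [e3, mul_pow, mul_pow]
      calc w * (u : L) ^ (m1 * m₀) / S =
          w * (u : L) ^ (m1 * m₀) * S⁻¹ * 1 * 1 := by rw [mul_one, mul_one, div_eq_mul_inv]
        _ = w * (u : L) ^ (m1 * m₀) * S⁻¹ *
            (((κ (cen Q) : L)⁻¹ ^ m1) ^ (q' * m₀) * ((κ (cen Q) : L) ^ q') ^ (m1 * m₀)) *
            ((∏ i, (M i (cen Q) : L) ^ c i) ^ (m1 * m₀) *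
              ((∏ i, (M i (cen Q) : L) ^ c i) ^ (m1 * m₀))⁻¹) := by
          rw [e5, mul_inv_cancel₀ e4]
        _ = _ := by ring
    rw [h6]
    refine R.mul_mem _ _ (R.mul_mem _ _ (hQR _ (hd.1 h1)) ?_) ?_
    · exact hQR _ (hd.1 ((cen Q).pow_mem h2.2.1 _))
    · exact prod_mem fun i _ => pow_mem (h3 i) _
  have hratio : ∀ w ∈ V1 ^ (q' * m₀), ∀ w' ∈ V1 ^ (q' * m₀), w' ≠ 0 →
      IsAlgebraic K₁ (w / w') := by
    intro w hw w' hw' hw0
    have hu0 : (u : L) ^ (m1 * m₀) ≠ 0 := pow_ne_zero _ u.ne_zero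
    have h1 : w / w' = (w * (u : L) ^ (m1 * m₀) / S) * (w' * (u : L) ^ (m1 * m₀) / S)⁻¹ := by
      field_simp
    rw [h1]
    exact (key w hw).mul (key w' hw').inv
  have hO := (hc Q0 hQ0).1
  have hfr := hX.proj.fracEq hO
  have hO' := hO
  rw [hV2.eq] at hO'
  obtain ⟨v, hv, hv0, hl⟩ := hO'
  have hcht : ∀ y ∈ cht (V1 ^ (q' * m₀)) v, IsAlgebraic K₁ y := by
    intro y hy
    induction hy using Algebra.adjoin_induction with
    | mem y hy =>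
      obtain ⟨w, hw, rfl⟩ := hy
      exact hratio w hw v hv hv0
    | algebraMap c => exact isAlgebraic_algebraMap (algebraMap ℂ K₁ c)
    | add y z _ _ hy hz => exact hy.add hz
    | mul y z _ _ hy hz => exact hy.mul hz
  have hloc : ∀ y ∈ cen Q0, IsAlgebraic K₁ y := by
    intro y hy
    obtain ⟨I, -, hI⟩ := hl
    obtain ⟨a, b, -, hab⟩ := (hI y).1 hy
    rw [hab, div_eq_mul_inv]
    exact (hcht _ a.2).mul (hcht _ b.2).inv
  obtain ⟨a, b, -, hab⟩ := hfr x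
  rw [hab, div_eq_mul_inv]
  exact (hloc _ a.2).mul (hloc _ b.2).inv

end Pool.Agent.KM
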