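import Pool.Agent.Lib.MP_732f67_ag.G.Pre
import Pool.Agent.Lib.MP_732f67_ag.G.Rat
import Pool.Agent.Lib.MP_732f67_ag.KM.AtGen
import Pool.Agent.Lib.MP_732f67_ag.G.BigB

/-!
Sections of the divisors `M i`: non-trivial ratios, bigness, and the codimension of the image of
the exceptional divisors.
-/

namespace Pool.Agent.KM

variable {L : Type} [Field L] [Algebra ℂ L] {n s r : ℕ}

section

variable {X W : Set (Subalgebra ℂ L)} {cen : Subalgebra ℂ L → Subalgebra ℂ L}
  {P : Fin s → Subalgebra ℂ L} {E : Fin s → Subalgebra ℂ L → Lˣ}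
  {M : Fin r → Subalgebra ℂ L → Lˣ} {m₀ : ℕ} {DD : Subalgebra ℂ L → Lˣ}
  (Y : Pre n X W cen E M m₀ DD) {D : Fin n → Derivation ℂ L L} {m : ℕ} {κ : Subalgebra ℂ L → Lˣ}

/-- every point of `X` is the center of a point of `W`

PROOF. A valuation ring which dominates `O ∈ X` (`exists_val`) has a center `Q ∈ W`; `cen Q` and `O` are
both dominated by it, so they are equal. -/
theorem exists_cen_eq (hX : IsProj X) (hW : IsProj W)
    (hc : ∀ O ∈ W, cen O ∈ X ∧ Dom (cen O) O) {O : Subalgebra ℂ L} (hO : O ∈ X) :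
    ∃ Q ∈ W, cen Q = O := by
  obtain ⟨R, hR1, hR2⟩ := exists_val (hX.isLocalRing hO)
  have hRk : ∀ c : ℂ, algebraMap ℂ L c ∈ R := fun c => hR1 _ (O.algebraMap_mem c)
  obtain ⟨Q, hQ, h1, h2⟩ := hW.exists_center R hRk
  let R' : Subalgebra ℂ L := { R.toSubring with algebraMap_mem' := hRk }
  have hQR : Dom Q R' := ⟨fun x hx => h1 x hx, fun x hx hx' => h2 x hx hx'⟩
  have hOR : Dom O R' := ⟨fun x hx => hR1 x hx, fun x hx hx' => hR2 x hx hx'⟩
  exact ⟨Q, hQ, hX.eq_of_dom (hc Q hQ).1 hO ((hc Q hQ).2.trans hQR) hOR⟩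

/-- elements which are not transcendental are constants -/
theorem big_const {x : L} (h : ¬ Transcendental ℂ x) : ∃ c : ℂ, algebraMap ℂ L c = x := by
  have h1 : IsAlgebraic ℂ x := not_not.1 h
  have h2 := h1.isIntegral
  exact minpoly.mem_range_of_degree_eq_one ℂ x
    (IsAlgClosed.degree_eq_one_of_irreducible ℂ (minpoly.irreducible h2))

/-- If the ratios of the sections `f a i` are constants then `m₀ M i` is trivial.

PROOF. Elements of `L` which are not transcendental over `ℂ` are constants. Fix a chart `a0`; then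
`f a i` is a constant multiple of `f a0 i`, so `f a0 i * M i O ^ m₀` is a unit at all `O = cen Q`
(`exists_cen_eq`, `Pre.exists_le`, and domination). -/
theorem Pre.two (hX : IsProj X) (hW : IsProj W) (hc : ∀ O ∈ W, cen O ∈ X ∧ Dom (cen O) O)
    (hm : 1 ≤ m₀) {i : Fin r} (hi : ¬ Triv X (M i)) :
    ∃ a b, Y.f b i ≠ 0 ∧ Transcendental ℂ (Y.f a i / Y.f b i) := by
  by_contra hcon
  push Not at hcon
  apply hi
  have hfne : ∀ a, Y.f a i ≠ 0 := fun a => left_ne_zero_of_mul (Y.f_un hW a i).1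
  refine ⟨m₀, hm, ?_⟩
  by_cases hne : Nonempty (Fin Y.k)
  · obtain ⟨a0⟩ := hne
    refine ⟨Units.mk0 (Y.f a0 i) (hfne a0), fun O hO => ?_⟩
    obtain ⟨Q, hQ, hQO⟩ := exists_cen_eq hX hW hc hO
    obtain ⟨a, ha⟩ := Y.exists_le hW hQ
    obtain ⟨c, hc'⟩ := big_const (hcon a0 a (hfne a))
    have h1 := (Y.nb a).2.2.2.2.2.2.1 i Q hQ ha
    have hf : Y.f a0 i = algebraMap ℂ L c * Y.f a i := by
      rw [hc', div_mul_cancel₀ _ (hfne a)]
    have hc0 : c ≠ 0 := by
      rintro rfl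
      rw [map_zero, zero_mul] at hf
      exact hfne a0 hf
    have h2 : Un Q (algebraMap ℂ L c) := by
      refine ⟨(map_ne_zero _).2 hc0, Q.algebraMap_mem c, ?_⟩
      rw [← map_inv₀]
      exact Q.algebraMap_mem _
    have h3 : Un Q (Y.f a0 i * (M i O : L) ^ m₀) := by
      rw [hf, mul_assoc, ← hQO]
      exact h2.mul h1
    have h4 : Y.f a0 i * (M i O : L) ^ m₀ ∈ O := by
      have h5 := (Y.nb a0).2.2.2.2.2.1 i O hO
      rwa [Pi.pow_apply, Units.val_pow_eq_pow_val] at h5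
    rw [Units.val_mul, Units.val_mk0, Units.val_pow_eq_pow_val]
    refine ⟨h3.1, h4, ?_⟩
    have h6 := (hc Q hQ).2
    rw [hQO] at h6
    exact h6.2 _ h4 h3.2.2
  · refine ⟨1, fun O hO => ?_⟩
    obtain ⟨Q, hQ, -⟩ := exists_cen_eq hX hW hc hO
    obtain ⟨a, -⟩ := Y.exists_le hW hQ
    exact absurd ⟨a⟩ hne

/-- The sum of the divisors `M i` is big.

PROOF. `Free X (κ⁻¹ ^ m1)` and `X = Pts (Sec X (κ⁻¹ ^ m1))` (`hX.fano`), `V1` by `exists_va`,
`V2 = V1 ^ (q' m₀)` (`VA.pow`). Let `w ∈ V2`; by `QDec`, `F = w * u ^ (- m1 m₀)` (up to the sign of the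
exponent) has the property `F * ∏ i, M i O ^ (c i m1 m₀) ∈ O` for all `O ∈ X`. For a choice of `l i`, a
section `f (l i) i`, `l : Fin r → Fin Y.k`, put `S = ∏ i, f (l i) i ^ (c i m1)`. Claim: `F / S` belongs
to every valuation ring `R ⊇ ℂ` which contains the ratios `f a i / f (l i) i`: let `Q ∈ W` be the center of
`R`, `a` a chart with `A a ≤ Q`; then `f a i * M i (cen Q) ^ m₀` is a unit, `f (l i) i * M i (cen Q) ^ m₀ ∈ Q`,
and `f a i / f (l i) i ∈ R`, so `f (l i) i * M i (cen Q) ^ m₀` is a unit of `R`, and `F / S ∈ R`. So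
`F / S` is integral over the ring generated by `ℂ` and these ratios
(`iInf_valuationSubring_superset`, `KM.integral_of_val`), and `w / w'` is algebraic over the field
generated by the ratios. `L` is the field of fractions of `cht V2 w'`. -/
theorem Pre.big (hX : KltFano X D m κ) (hW : IsProj W)
    (hc : ∀ O ∈ W, cen O ∈ X ∧ Dom (cen O) O) (hm : 1 ≤ m₀) {q' : ℕ} (hq : 1 ≤ q')
    {c : Fin r → ℕ} {u : Lˣ} (hu : QDec X κ q' c u M) (x : L) :
    IsAlgebraic (Algebra.adjoin ℂ {w | ∃ i, ∃ a b, Y.f b i ≠ 0 ∧ w = Y.f a i / Y.f b i}) x :=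
  bigB_main Y hX hW hc hm hq hu x

/-- The exceptional divisors are contracted to codimension at least two.

PROOF. If `A a ≤ P j` is false then `x l` is a unit of `A a` (`un_A`, `ord_eps`) and `P = 1` will do.
Let `A a ≤ P j`, `O' = cen (P j)`. The `r i` belong to `O'`: `g * M ^ m₀` is a unit of `P j` and
belongs to `O'`, so it is a unit of `O'` by domination. If `aeval r Q / x l` does not belong to `A a`
then by `Pre.mem_A_of_primDiv` it does not belong to some prime divisor, which must be `P j`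
(`x l` is a unit at the others), so `aeval r Q` is a unit of `P j`, hence of `O'`. If this is so
for all `Q ≠ 0`, then `P j = O'` (`eq_of_dom_of_indep`), which is impossible since `P j ∉ X`. -/
theorem Pre.cod (hX : KltFano X D m κ) (hW : LogRes n X W P E)
    (hc : ∀ O ∈ W, cen O ∈ X ∧ Dom (cen O) O) (a : Fin Y.k) (j : Fin s) (l : Fin n)
    (hl : Y.co a j = some l) (ρ : Fin (n - 1) → L)
    (hρ : ∀ i, ∃ i' : Fin r, ∃ f ∈ Sec X (M i' ^ m₀), ∃ g ∈ Sec X (M i' ^ m₀),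
      Un (Y.A a) (g * Y.d a i' ^ m₀) ∧ ρ i = f / g) :
    ∃ Q : MvPolynomial (Fin (n - 1)) ℂ, Q ≠ 0 ∧ ∃ w ∈ Y.A a,
      MvPolynomial.aeval ρ Q = Y.x a l * w := by
  have hWp := hW.proj
  obtain ⟨hPW, hPd, hPX⟩ := (hW.exc (P j)).1 ⟨j, rfl⟩
  have hun : ∀ Q ∈ W, Y.A a ≤ Q → Un Q (E j Q / Y.x a l) := by
    intro Q hQ hQ'
    have h1 := (Y.nb a).2.1 j Q hQ hQ'
    rw [hl] at h1
    exact h1
  have hx0 : Y.x a l ≠ 0 := by
    intro h0
    have h1 := (hun _ (Y.exists_pt hWp a).choose_spec.1 (Y.exists_pt hWp a).choose_spec.2).1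
    rw [h0, div_zero] at h1
    exact h1 rfl
  have hother : ∀ Q ∈ W, PrimDiv Q → Y.A a ≤ Q → Q ≠ P j → Un Q (Y.x a l) := by
    intro Q hQ hQp hQa hne
    have h1 := (hW.eqn j Q hQ hQp).2 hne
    have h2 := hun Q hQ hQa
    have h3 := h1.div h2
    rwa [div_div_cancel₀ (E j Q).ne_zero] at h3
  by_cases haP : Y.A a ≤ P j
  swap
  · have h1 : Un (Y.A a) (Y.x a l) := Y.un_A hWp a hx0 fun Q hQ hQp hQa =>
      hother Q hQ hQp hQa fun h => haP (h ▸ hQa)
    refine ⟨1, one_ne_zero, (Y.x a l)⁻¹, h1.2.2, ?_⟩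
    rw [map_one, mul_inv_cancel₀ hx0]
  by_contra hcon
  push Not at hcon
  have hρA : ∀ i, ρ i ∈ Y.A a := by
    intro i
    obtain ⟨i', f, hf, g, hg, hu, hi⟩ := hρ i
    have h1 := Y.sec_mem hWp hc hf a
    have h2 := (Y.A a).mul_mem h1 hu.2.2
    have h3 : f * Y.d a i' ^ m₀ * (g * Y.d a i' ^ m₀)⁻¹ = ρ i := by
      rw [hi, ← div_eq_mul_inv, mul_div_mul_right _ _ (pow_ne_zero _ (Y.d_ne a i'))]
    rwa [h3] at h2
  have hadj : ∀ (B : Subalgebra ℂ L), (∀ i, ρ i ∈ B) → ∀ Q : MvPolynomial (Fin (n - 1)) ℂ,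
      MvPolynomial.aeval ρ Q ∈ B := by
    intro B hB Q
    have h1 : MvPolynomial.aeval ρ Q ∈ Algebra.adjoin ℂ (Set.range ρ) := by
      rw [Algebra.adjoin_range_eq_range_aeval]
      exact ⟨Q, rfl⟩
    refine (Algebra.adjoin_le ?_ : Algebra.adjoin ℂ (Set.range ρ) ≤ B) h1
    rintro _ ⟨i, rfl⟩
    exact hB i
  have hπ := (hW.eqn j (P j) hPW hPd).1 rfl
  have hpu := hun _ hPW haP
  have key : ∀ Q : MvPolynomial (Fin (n - 1)) ℂ, Q ≠ 0 → Un (P j) (MvPolynomial.aeval ρ Q) := by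
    intro Q hQ
    have h1 : MvPolynomial.aeval ρ Q / Y.x a l ∉ Y.A a := fun h =>
      hcon Q hQ _ h (mul_div_cancel₀ _ hx0).symm
    have h2 : MvPolynomial.aeval ρ Q / Y.x a l ∉ P j := by
      intro h
      refine h1 (Y.mem_A_of_primDiv hWp a fun Q' hQ' hQp hQa => ?_)
      by_cases hne : Q' = P j
      · rw [hne]
        exact h
      · rw [div_eq_mul_inv]
        exact Q'.mul_mem (hQa (hadj _ hρA Q)) (hother Q' hQ' hQp hQa hne).2.2
    have h0 : MvPolynomial.aeval ρ Q ≠ 0 := by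
      intro h0
      rw [h0, zero_div] at h2
      exact h2 (P j).zero_mem
    have hm := haP (hadj _ hρA Q)
    refine ⟨h0, hm, ?_⟩
    rcases hπ.2.2 _ hm with h3 | h3
    · exact h3
    · refine absurd ?_ h2
      have h4 := (P j).mul_mem h3 hpu.2.1
      rwa [div_mul_div_cancel₀ hπ.ne_zero] at h4
  obtain ⟨hcX, hcd⟩ := hc _ hPW
  have hρO : ∀ i, ρ i ∈ cen (P j) := by
    intro i
    obtain ⟨i', f, hf, g, hg, hu, hi⟩ := hρ i
    have hM := Y.un_M (a := a) i' hPW haP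
    have hf1 := hf _ hcX
    have hg1 := hg _ hcX
    rw [Pi.pow_apply, Units.val_pow_eq_pow_val] at hf1 hg1
    have h1 : Un (P j) (g * (M i' (cen (P j)) : L) ^ m₀) := by
      have h2 := (hu.mono haP).mul (hM.pow m₀)
      have h3 : g * Y.d a i' ^ m₀ * ((M i' (cen (P j)) : L) / Y.d a i') ^ m₀ =
          g * (M i' (cen (P j)) : L) ^ m₀ := by
        have := Y.d_ne a i'
        rw [div_pow]
        field_simp
      rwa [h3] at h2
    have h2 := (cen (P j)).mul_mem hf1 (hcd.2 _ hg1 h1.2.2)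
    have h3 : f * (M i' (cen (P j)) : L) ^ m₀ * (g * (M i' (cen (P j)) : L) ^ m₀)⁻¹ = ρ i := by
      rw [hi, ← div_eq_mul_inv, mul_div_mul_right _ _ (pow_ne_zero _ (M i' (cen (P j))).ne_zero)]
    rwa [h3] at h2
  obtain ⟨A', hA', -, hl', -⟩ := hX.proj.exists_chart hcX
  have hfin : P j = cen (P j) := eq_of_dom_of_indep hX.dim hA' hl' (hX.proj.fracEq hcX)
    (hX.normal _ hcX) hPd hcd ρ hρO fun Q hQ => ⟨(key Q hQ).1, hadj _ hρO Q,
      hcd.2 _ (hadj _ hρO Q) (key Q hQ).2.2⟩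
  exact hPX (hfin ▸ hcX)

/-- Sections in terms of the charts.

PROOF. As `Pre.sec_mem` for the product. Conversely let `O ∈ X`; by normality of `X` it is enough to
consider prime divisors `P' ∈ X`, `O ≤ P'` (`IsProj.mem_of_primDiv`, `IsCar.un_of_le`); there is `Q ∈ W` with
`cen Q = P'` (`exists_cen_eq`), and `Q = P'` because `P'` is a discrete valuation ring
and `Q ≠ L` dominates it; take a chart with `A a ≤ Q`. -/
theorem Pre.sec_iff (hX : KltFano X D m κ) (hW : IsProj W) (hM : ∀ i, IsCar X (M i))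
    (hc : ∀ O ∈ W, cen O ∈ X ∧ Dom (cen O) O) (v : Fin r → ℕ) (f : L) :
    (∀ a, f * ∏ i, Y.d a i ^ v i ∈ Y.A a) ↔ f ∈ Sec X (∏ i, M i ^ v i) := by
  have hco : ∀ O, (((∏ i, M i ^ v i) O : Lˣ) : L) = ∏ i, (M i O : L) ^ v i := by
    intro O
    rw [Finset.prod_apply, Units.coe_prod]
    refine Finset.prod_congr rfl fun i _ => ?_
    rw [Pi.pow_apply, Units.val_pow_eq_pow_val]
  constructor
  · intro h O hO
    rw [hco]
    refine hX.proj.mem_of_primDiv hX.normal hO fun P' hP' hPd hle => ?_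
    obtain ⟨Q, hQ, hQP⟩ := exists_cen_eq hX.proj hW hc hP'
    obtain ⟨a, ha⟩ := Y.exists_le hW hQ
    have hdom := (hc Q hQ).2
    rw [hQP] at hdom
    have h1 : f * ∏ i, (M i P' : L) ^ v i ∈ Q := by
      have h2 : Un Q (∏ i, ((M i P' : L) / Y.d a i) ^ v i) := by
        refine Un.prod _ fun i _ => Un.pow ?_ _
        have h3 := Y.un_M (a := a) i hQ ha
        rwa [hQP] at h3
      have h4 : f * ∏ i, (M i P' : L) ^ v i = f * (∏ i, Y.d a i ^ v i) *
          ∏ i, ((M i P' : L) / Y.d a i) ^ v i := by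
        rw [mul_assoc, ← Finset.prod_mul_distrib]
        congr 1
        refine Finset.prod_congr rfl fun i _ => ?_
        rw [← mul_pow, mul_div_cancel₀ _ (Y.d_ne a i)]
      rw [h4]
      exact Q.mul_mem (ha (h a)) h2.2.1
    have h5 : f * ∏ i, (M i P' : L) ^ v i ∈ P' := by
      by_contra hn
      obtain ⟨π, hπ⟩ := hPd.exists_unif
      have hx0 : f * ∏ i, (M i P' : L) ^ v i ≠ 0 := by
        intro h0
        rw [h0] at hn
        exact hn P'.zero_mem
      obtain ⟨e, he⟩ := hPd.exists_ord hx0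
      rw [he.mem_iff hPd] at hn
      have h6 : (f * ∏ i, (M i P' : L) ^ v i)⁻¹ ∈ P' := by
        rw [(he.inv hPd).mem_iff hPd]
        omega
      have h7 := hdom.2 _ h6 (by rwa [inv_inv])
      rw [inv_inv, he.mem_iff hPd] at h7
      exact hn h7
    have h8 : Un P' (∏ i, ((M i O / M i P' : Lˣ) : L) ^ v i) :=
      Un.prod _ fun i _ => Un.pow ((hM i).un_of_le hO hP' hle) _
    have h9 : f * ∏ i, (M i O : L) ^ v i = f * (∏ i, (M i P' : L) ^ v i) *
        ∏ i, ((M i O / M i P' : Lˣ) : L) ^ v i := by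
      rw [mul_assoc, ← Finset.prod_mul_distrib]
      congr 1
      refine Finset.prod_congr rfl fun i _ => ?_
      rw [← mul_pow, Units.val_div_eq_div_val, mul_div_cancel₀ _ (M i P').ne_zero]
    rw [h9]
    exact P'.mul_mem h5 h8.2.1
  · intro h a
    refine Y.mem_A hW a fun Q hQ ha => ?_
    have h1 := (hc Q hQ).2.1 (h (cen Q) (hc Q hQ).1)
    rw [hco] at h1
    have h2 : Un Q (∏ i, ((M i (cen Q) : L) / Y.d a i) ^ v i) :=
      Un.prod _ fun i _ => Un.pow (Y.un_M (a := a) i hQ ha) _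
    have h4 : f * ∏ i, Y.d a i ^ v i = f * (∏ i, (M i (cen Q) : L) ^ v i) *
        (∏ i, ((M i (cen Q) : L) / Y.d a i) ^ v i)⁻¹ := by
      rw [mul_assoc, ← Finset.prod_inv_distrib, ← Finset.prod_mul_distrib]
      congr 1
      refine Finset.prod_congr rfl fun i _ => ?_
      have h5 := (M i (cen Q)).ne_zero
      have h6 := Y.d_ne a i
      rw [div_pow]
      field_simp
    rw [h4]
    exact Q.mul_mem h1 h2.2.2

end

end Pool.Agent.KM
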