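import Pool.Agent.Lib.MP_732f67_ag.G.Can
import Pool.Agent.Lib.MP_732f67_ag.G.Big

/-!
Existence of the atlas.
-/

namespace Pool.Agent.KM

variable {L : Type} [Field L] [Algebra ℂ L] {n s r : ℕ}

/-- A projective variety has a finitely generated function field with a primitive element over a
transcendence basis.

PROOF. `exists_prim` with generators of a chart; `n = Algebra.trdeg ℂ L`. -/
theorem exists_prim_of_proj {X : Set (Subalgebra ℂ L)} (hX : IsProj X)
    (hn : Algebra.trdeg ℂ L = n) : ∃ (t : Fin n → L) (y : L), Prim t y := by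
  obtain ⟨V, hV, hV0, hfr, -⟩ := hX
  obtain ⟨v, hv, hv0⟩ := Submodule.exists_mem_ne_zero_of_ne_bot hV0
  obtain ⟨G, hG⟩ := cht_fg hV v
  have hGtop : IntermediateField.adjoin ℂ (G : Set L) = ⊤ := by
    rw [eq_top_iff]
    intro x _
    obtain ⟨a, b, hb, rfl⟩ := hfr v hv hv0 x
    have hle : cht V v ≤ (IntermediateField.adjoin ℂ (G : Set L)).toSubalgebra := by
      rw [← hG]
      exact Algebra.adjoin_le (IntermediateField.subset_adjoin ℂ _)
    exact div_mem (show (a : L) ∈ IntermediateField.adjoin ℂ (G : Set L) from hle a.2) (hle b.2)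
  obtain ⟨ι, t, ht⟩ := exists_isTranscendenceBasis' ℂ L
  have hc : Cardinal.mk ι = Cardinal.mk (Fin n) := by
    rw [ht.cardinalMk_eq_trdeg, hn, Cardinal.mk_fin]
  obtain ⟨e⟩ := Cardinal.eq.1 hc
  obtain ⟨y, hy⟩ := exists_prim ((isTranscendenceBasis_equiv e.symm).2 ht) G hGtop
  exact ⟨_, y, hy⟩

theorem chA_mul {N : ℕ} (z : Fin N → L) {c : L} (hc : c ≠ 0) (j : Fin N) :
    chA (fun i => c * z i) j = chA z j := by
  unfold chA
  simp only [mul_div_mul_left _ _ hc]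

theorem cov_mul {N K : ℕ} (z : Fin N → L) (σ : Fin K → Fin N) (c : L) {M : ℕ} {x : L}
    (h : x ^ (M + 1) ∈ Submodule.span ℂ (Set.range fun a => z (σ a)) *
      (Submodule.span ℂ (Set.range z)) ^ M) :
    (c * x) ^ (M + 1) ∈ Submodule.span ℂ (Set.range fun a => c * z (σ a)) *
      (Submodule.span ℂ (Set.range fun i => c * z i)) ^ M := by
  have key : ∀ {K : ℕ} (w : Fin K → L), Submodule.span ℂ (Set.range fun a => c * w a) =
      Submodule.span ℂ {c} * Submodule.span ℂ (Set.range w) := by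
    intro K w
    rw [Submodule.span_mul_span]
    congr 1
    ext y
    constructor
    · rintro ⟨a, rfl⟩
      exact Set.mul_mem_mul (Set.mem_singleton c) ⟨a, rfl⟩
    · rintro ⟨c', hc', _, ⟨a, rfl⟩, rfl⟩
      rw [Set.mem_singleton_iff] at hc'
      subst hc'
      exact ⟨a, rfl⟩
  rw [key (fun a => z (σ a)), key z, mul_pow, mul_mul_mul_comm, ← pow_succ', mul_pow]
  exact Submodule.mul_mem_mul
    (Submodule.pow_mem_pow _ (Submodule.mem_span_singleton_self c) _) h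

theorem frame_det_ne {t : Fin n → L} (ht : IsTranscendenceBasis ℂ t)
    {D : Fin n → Derivation ℂ L L} (hD : LinearIndependent L D) :
    (Matrix.of fun i l => D i (t l)).det ≠ 0 := by
  intro h0
  obtain ⟨v, hv, hv0⟩ := Matrix.exists_vecMul_eq_zero_iff.2 h0
  have h1 : ∑ i, v i • D i = 0 := by
    refine der_eq_zero ht fun l => ?_
    have := congrFun hv0 l
    simp only [Matrix.vecMul, dotProduct, Matrix.of_apply, Pi.zero_apply] at this
    rw [← this, der_sum_apply]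
    rfl
  exact hv (funext fun i => Fintype.linearIndependent_iff.1 hD v h1 i)

/-- the choice of the rounding -/
theorem ceil_cond {q e θ : ℤ} {a₁ b₁ d₁ K : ℤ} (hq : 0 < q) (he : -q < e) (hd : 0 < d₁)
    (hb : 0 < b₁) (hθ : θ < K) (hK : K * b₁ ≤ a₁) (ha : 0 ≤ a₁) :
    ∃ r : ℤ, 0 ≤ r ∧ (r - 1) * (d₁ * a₁ * q) < d₁ * a₁ * e - d₁ * b₁ * θ ∧ e ≤ r * q := by
  have h1 : (-e) / q * q ≤ -e := Int.ediv_mul_le _ hq.ne'
  have h2 : -e < ((-e) / q + 1) * q := Int.lt_ediv_add_one_mul_self _ hq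
  set f := (-e) / q
  have hf : f ≤ 0 := by
    by_contra h
    push Not at h
    have : q ≤ f * q := by nlinarith
    linarith
  refine ⟨-f, by omega, ?_, by linarith⟩
  have h3 : (-f - 1) * q ≤ e - 1 := by
    have : (-f - 1) * q = -((f + 1) * q) := by ring
    rw [this]
    linarith
  have h4 : b₁ * θ < a₁ := by nlinarith
  have h5 : (-f - 1) * (d₁ * a₁ * q) = d₁ * a₁ * ((-f - 1) * q) := by ring
  rw [h5]
  have h6 : d₁ * a₁ * ((-f - 1) * q) ≤ d₁ * a₁ * (e - 1) :=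
    mul_le_mul_of_nonneg_left h3 (mul_nonneg hd.le ha)
  have h7 : d₁ * (b₁ * θ) < d₁ * a₁ := mul_lt_mul_of_pos_left h4 hd
  linarith

/-- a projective variety has a (generic) point -/
theorem IsProj.nonempty {X : Set (Subalgebra ℂ L)} (hX : IsProj X) : X.Nonempty := by
  obtain ⟨V, -, hV0, hfr, rfl⟩ := hX
  obtain ⟨v, hv, hv0⟩ := Submodule.exists_mem_ne_zero_of_ne_bot hV0
  refine ⟨⊤, v, hv, hv0, ⊥, Ideal.isPrime_bot, fun x => ⟨fun _ => ?_, fun _ => Algebra.mem_top⟩⟩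
  obtain ⟨a, b, hb, hx⟩ := hfr v hv hv0 x
  exact ⟨a, b, fun h => hb (by rw [Ideal.mem_bot.1 h]; rfl), hx⟩

theorem Pre.N_pos {X W : Set (Subalgebra ℂ L)} {cen : Subalgebra ℂ L → Subalgebra ℂ L}
    {E : Fin s → Subalgebra ℂ L → Lˣ} {M : Fin r → Subalgebra ℂ L → Lˣ} {m : ℕ}
    {DD : Subalgebra ℂ L → Lˣ} (Y : Pre n X W cen E M m DD) (hW : IsProj W) : 0 < Y.N := by
  rcases Nat.eq_zero_or_pos Y.N with h | h
  · exfalso
    obtain ⟨O, hO⟩ := hW.nonempty
    rw [Y.va.eq] at hO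
    obtain ⟨v, hv, hv0, -⟩ := hO
    have : IsEmpty (Fin Y.N) := by
      rw [h]
      infer_instance
    rw [Set.range_eq_empty, Submodule.span_empty, Submodule.mem_bot] at hv
    exact hv0 hv
  · exact h

/-- The existence of the atlas.

PROOF. `t`, `y0`, `∂` (`exists_der`); `δ = det (D i (t j)) ≠ 0`, `jc D x = δ * det (∂ i (x l))`
(`det_frame`). `m₀` large for all the `M i` (`Semi`), `m₀ ≥ 1`. `e` is independent of the
polarization: first `exists_pol` with any `K` and `exists_pre` for the definition of `e`, or define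
`e j` before by the order of the form (`IsOrdF`) and of `κ`; then `K > max θ j`, `exists_pol`,
`exists_pre` (`DD ^ d`). The atlas: `z := δ ^ (d a q) • z` (the charts do not change), `ω = u * δ ^ (-q)`,
`a := d a`, `b j = d a e j - d b θ j`; `S i`, `S' i` = all the `f a i`, `f' a i`. The ceiling
condition: `r = ⌈e j / q⌉ ≥ 0`, `e j - (r - 1) q ≥ 1`, so `a (e j - (r - 1) q) ≥ a > b θ j`. -/
theorem exists_atlas {X W : Set (Subalgebra ℂ L)} {P : Fin s → Subalgebra ℂ L}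
    {E : Fin s → Subalgebra ℂ L → Lˣ} {D : Fin n → Derivation ℂ L L} {m : ℕ}
    {κ : Subalgebra ℂ L → Lˣ} (hX : KltFano X D m κ) (hW : LogRes n X W P E)
    {M : Fin r → Subalgebra ℂ L → Lˣ} (hM : ∀ i, IsCar X (M i)) (hs : ∀ i, Semi X (M i))
    (ht : ∀ i, ¬ Triv X (M i)) {q' : ℕ} (hq : 1 ≤ q') {c : Fin r → ℕ} (hc : ∀ i, 0 < c i)
    {u : Lˣ} (hu : QDec X κ q' c u M) :
    ∃ Y : AtD L n (Fin r), Y.Ok ∧ Y.Cod ∧ 0 < Y.N ∧ Y.q = m * q' ∧ Y.c = c ∧
      ∀ (v : Fin r → ℕ) (f : L), (∀ a, f * ∏ i, Y.d a i ^ v i ∈ Y.A a) ↔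
        f ∈ Sec X (∏ i, M i ^ v i) := by
  classical
  obtain ⟨t, y0, hp⟩ := exists_prim_of_proj hX.proj hX.dim
  obtain ⟨dd, hdd⟩ := exists_der hp.basis
  obtain ⟨cen, hcen⟩ := hW.exists_cen
  set δ : L := (Matrix.of fun i l => D i (t l)).det with hδ
  have hδ0 : δ ≠ 0 := frame_det_ne hp.basis hX.frame
  have hjc : ∀ x : Fin n → L, jc D x = δ * (Matrix.of fun i l => dd i (x l)).det :=
    fun x => det_frame hp.basis hdd x
  choose m1 hm1 using hs
  set m₀ := (Finset.univ.sup m1) + 1 with hm₀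
  have hm0 : ∀ i, m1 i ≤ m₀ := fun i =>
    (Finset.le_sup (f := m1) (Finset.mem_univ i)).trans (Nat.le_succ _)
  have hF : ∀ i, Free X (M i ^ m₀) := fun i => hm1 i _ (hm0 i)
  have hF' : ∀ i, Free X (M i ^ (m₀ + 1)) := fun i => hm1 i _ ((hm0 i).trans (Nat.le_succ _))
  have hm₀1 : 1 ≤ m₀ := Nat.le_add_left _ _
  obtain ⟨A, B, Θ, hA, hB, hΘc, hΘ, hamp⟩ := hW.ample
  obtain ⟨θ, hθ⟩ := exists_theta hW hΘ
  obtain ⟨K, hK⟩ : ∃ K : ℕ, ∀ j, θ j < K := by
    refine ⟨Finset.univ.sup (fun j => (θ j).toNat) + 1, fun j => ?_⟩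
    have h1 : (θ j).toNat ≤ Finset.univ.sup (fun j => (θ j).toNat) :=
      Finset.le_sup (f := fun j => (θ j).toNat) (Finset.mem_univ j)
    have h2 := Int.self_le_toNat (θ j)
    push_cast
    have h3 : ((θ j).toNat : ℤ) ≤ ((Finset.univ.sup (fun j => (θ j).toNat) : ℕ) : ℤ) := by
      exact_mod_cast h1
    linarith
  obtain ⟨a₁, b₁, V, ha₁, hb₁, hKab, hV⟩ := exists_pol (s := s) hX hA hΘc hW.proj hB hamp cen hcen q' hq K
  obtain ⟨d₁, hd₁, ⟨Y⟩⟩ := exists_pre hX.proj hW cen hcen hM hF hF' hV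
  obtain ⟨e, he⟩ := Y.exists_disc hX hW hcen q' hq
  have hpos : 0 < m * q' := Nat.mul_pos hX.pos hq
  let Z : AtD L n (Fin r) :=
    { t := t
      y0 := y0
      D := dd
      N := Y.N
      z := fun i => δ ^ (d₁ * a₁ * (m * q')) * Y.z i
      k := Y.k
      σ := Y.σ
      x := Y.x
      y := Y.y
      u := Y.u
      s := s
      co := Y.co
      d := Y.d
      q := m * q'
      ω := u * (δ ^ (m * q'))⁻¹
      c := c
      e := e
      a := d₁ * a₁
      b := fun j => d₁ * a₁ * e j - d₁ * b₁ * θ j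
      m := m₀
      S := fun i => Finset.univ.image fun a => Y.f a i
      S' := fun i => Finset.univ.image fun a => Y.f' a i }
  have hδk : δ ^ (d₁ * a₁ * (m * q')) ≠ 0 := pow_ne_zero _ hδ0
  have hZA : ∀ a, Z.A a = Y.A a := fun a => chA_mul Y.z hδk (Y.σ a)
  have hSsec : ∀ i, ∀ f ∈ Z.S i, f ∈ Sec X (M i ^ m₀) := by
    intro i f hf
    obtain ⟨b, -, rfl⟩ := Finset.mem_image.1 hf
    exact (Y.nb b).2.2.2.2.2.1 i
  refine ⟨Z, ?_, ?_, Y.N_pos hW.proj, rfl, rfl, ?_⟩
  · refine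
      { prim := hp
        Dt := hdd
        z_ne := fun j => mul_ne_zero hδk (Y.z_ne j)
        cov := ?_
        ch := ?_
        co_inj := fun a j j' l => (Y.nb a).2.2.1 j j' l
        ε_trans := ?_
        d_ne := fun a i => (Y.nb a).2.2.2.1 i
        d_trans := ?_
        q_pos := hpos
        c_pos := hc
        e_gt := fun j => (he j).1
        ω_ne := mul_ne_zero u.ne_zero (inv_ne_zero (pow_ne_zero _ hδ0))
        can := ?_
        a_pos := Nat.mul_pos hd₁ ha₁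
        b_lt := ?_
        b_gt := ?_
        pol := ?_
        m_pos := hm₀1
        S_sec := ?_
        S_gen := ?_
        S'_sec := ?_
        S'_gen := ?_
        two := ?_
        big := ?_ }
    · obtain ⟨M', hM'⟩ := Y.cov
      exact ⟨M', fun j => cov_mul Y.z Y.σ _ (hM' j)⟩
    · intro a
      rw [hZA]
      exact (Y.nb a).1
    · intro a b j
      rw [hZA, hZA]
      exact Y.ε_trans hW.proj a b j
    · intro a b i
      rw [hZA, hZA]
      exact Y.d_trans hW.proj a b i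
    · intro a
      have h1 := Y.can hX hW hcen hq hu (fun j => (he j).2) a
      rw [hjc, mul_pow, mul_inv] at h1
      rw [hZA]
      convert h1 using 1
      show (u : L) * (δ ^ (m * q'))⁻¹ * ((Matrix.of fun i l => dd i (Y.x a l)).det ^ (m * q'))⁻¹ *
        (∏ i, Y.d a i ^ c i) * (∏ j, eps (Y.x a) (Y.co a j) ^ (-e j)) = _
      ring
    · intro j
      show (d₁ : ℤ) * a₁ * e j - d₁ * b₁ * θ j < ((d₁ * a₁ : ℕ) : ℤ) * e j
      push_cast
      have h1 : (0 : ℤ) < d₁ * b₁ * θ j := by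
        have h2 : (0 : ℤ) < d₁ := by exact_mod_cast hd₁
        have h3 : (0 : ℤ) < b₁ := by exact_mod_cast hb₁
        have h4 : (0 : ℤ) < θ j := lt_of_lt_of_le one_pos (hθ j).1
        positivity
      linarith
    · intro j
      obtain ⟨r', h1, h2, h3⟩ := ceil_cond (q := ((m * q' : ℕ) : ℤ)) (e := e j) (θ := θ j)
        (a₁ := a₁) (b₁ := b₁) (d₁ := d₁) (K := K) (by exact_mod_cast hpos) (he j).1
        (by exact_mod_cast hd₁) (by exact_mod_cast hb₁) (hK j) (by exact_mod_cast hKab)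
        (by exact_mod_cast Nat.zero_le a₁)
      refine ⟨r', h1, ?_, h3⟩
      show (r' - 1) * (((d₁ * a₁ : ℕ) : ℤ) * ((m * q' : ℕ) : ℤ)) <
        (d₁ : ℤ) * a₁ * e j - d₁ * b₁ * θ j
      rw [Nat.cast_mul d₁ a₁]
      exact h2
    · intro a
      have h1 := Y.pol hX hW hcen hΘ hq rfl (fun j => (he j).2) (fun j => (hθ j).2) a
      rw [hjc, mul_pow] at h1
      rw [hZA]
      convert h1 using 1
      show δ ^ (d₁ * a₁ * (m * q')) * Y.z (Y.σ a) *
        (Matrix.of fun i l => dd i (Y.x a l)).det ^ (d₁ * a₁ * (m * q')) *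
        (∏ j, eps (Y.x a) (Y.co a j) ^ ((d₁ : ℤ) * a₁ * e j - d₁ * b₁ * θ j)) = _
      ring
    · intro i f hf a
      rw [hZA]
      exact Y.sec_mem hW.proj hcen (hSsec i f hf) a
    · intro i a
      rw [hZA]
      exact ⟨Y.f a i, Finset.mem_image_of_mem _ (Finset.mem_univ a), Y.f_un hW.proj a i⟩
    · intro i f hf a
      rw [hZA]
      obtain ⟨b, -, rfl⟩ := Finset.mem_image.1 hf
      exact Y.sec_mem hW.proj hcen ((Y.nb b).2.2.2.2.2.2.2.1 i) a
    · intro i a
      rw [hZA]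
      exact ⟨Y.f' a i, Finset.mem_image_of_mem _ (Finset.mem_univ a), Y.f'_un hW.proj a i⟩
    · intro i
      obtain ⟨a, b, h1, h2⟩ := Y.two hX.proj hW.proj hcen hm₀1 (ht i)
      exact ⟨Y.f a i, Finset.mem_image_of_mem _ (Finset.mem_univ a), Y.f b i,
        Finset.mem_image_of_mem _ (Finset.mem_univ b), h1, h2⟩
    · intro x
      have hset : {w : L | ∃ i, ∃ f ∈ Z.S i, ∃ g ∈ Z.S i, g ≠ 0 ∧ w = f / g} =
          {w | ∃ i, ∃ a b, Y.f b i ≠ 0 ∧ w = Y.f a i / Y.f b i} := by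
        ext w
        constructor
        · rintro ⟨i, f, hf, g, hg, hg0, rfl⟩
          obtain ⟨a, -, rfl⟩ := Finset.mem_image.1 hf
          obtain ⟨b, -, rfl⟩ := Finset.mem_image.1 hg
          exact ⟨i, a, b, hg0, rfl⟩
        · rintro ⟨i, a, b, hb, rfl⟩
          exact ⟨i, _, Finset.mem_image_of_mem _ (Finset.mem_univ a), _,
            Finset.mem_image_of_mem _ (Finset.mem_univ b), hb, rfl⟩
      rw [hset]
      exact Y.big hX hW.proj hcen hm₀1 hq hu x
  · intro a j l hl ρ hρ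
    obtain ⟨Q, hQ, w, hw, h⟩ := Y.cod hX hW hcen a j l hl ρ fun i => by
      obtain ⟨i', f, hf, g, hg, h1, h2⟩ := hρ i
      rw [hZA] at h1
      exact ⟨i', f, hSsec i' f hf, g, hSsec i' g hg, h1, h2⟩
    exact ⟨Q, hQ, w, by rw [hZA]; exact hw, h⟩
  · intro v f
    have h1 := Y.sec_iff hX hW.proj hM hcen v f
    rw [← h1]
    exact forall_congr' fun a => by rw [hZA]

end Pool.Agent.KM
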