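import Mathlib

/-!
Presentation of finitely generated field extensions of characteristic zero by a transcendence basis
and a primitive element.
-/

namespace Pool.Agent.KM

open Polynomial

/-- a common denominator for finitely many elements -/
theorem pres_common {P L : Type*} [CommRing P] [IsDomain P] [Field L] [Algebra P L] (y : L)
    (S : Finset L)
    (h : ∀ s ∈ S, ∃ q : P, q ≠ 0 ∧ ∃ g : P[X], algebraMap P L q * s = aeval y g) :
    ∃ q : P, q ≠ 0 ∧ ∀ s ∈ S, ∃ g : P[X], algebraMap P L q * s = aeval y g := by
  classical
  induction S using Finset.induction_on with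
  | empty => exact ⟨1, one_ne_zero, fun s hs => absurd hs (Finset.notMem_empty s)⟩
  | insert a T _ ih =>
    obtain ⟨q, hq, hT⟩ := ih fun s hs => h s (Finset.mem_insert_of_mem hs)
    obtain ⟨b, hb, G, hG⟩ := h a (Finset.mem_insert_self a T)
    refine ⟨q * b, mul_ne_zero hq hb, fun s hs => ?_⟩
    rcases Finset.mem_insert.1 hs with rfl | hs
    · refine ⟨C q * G, ?_⟩
      rw [map_mul, map_mul, aeval_C, ← hG]
      ring
    · obtain ⟨g, hg⟩ := hT s hs
      refine ⟨C b * g, ?_⟩
      rw [map_mul, map_mul, aeval_C, ← hg]
      ring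

/-- clearing the denominators of a polynomial over the fraction field -/
theorem pres_clear {P K : Type*} [CommRing P] [IsDomain P] [Field K] [Algebra P K]
    [IsFractionRing P K] (u : K[X]) :
    ∃ (b : P) (U : P[X]), b ≠ 0 ∧ U.map (algebraMap P K) = C (algebraMap P K b) * u := by
  obtain ⟨b, hb⟩ := IsLocalization.integerNormalization_map_to_map (nonZeroDivisors P) u
  refine ⟨b, IsLocalization.integerNormalization (nonZeroDivisors P) u,
    nonZeroDivisors.coe_ne_zero b, ?_⟩
  rw [hb, ← Polynomial.smul_eq_C_mul, algebraMap_smul]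

/-- the presentation over an integrally closed domain -/
theorem pres_core {P L : Type*} [CommRing P] [IsDomain P] [IsIntegrallyClosed P] [Field L]
    [CharZero L] [Algebra P L] [FaithfulSMul P L] (S : Finset L)
    (hS : ∀ s ∈ S, IsAlgebraic P s) :
    ∃ (y : L) (f : P[X]), f.Monic ∧ 0 < f.natDegree ∧ aeval y f = 0 ∧
      (∀ g : P[X], aeval y g = 0 → f ∣ g) ∧
      (∃ (U V : P[X]) (D : P), D ≠ 0 ∧ U * f + V * derivative f = C D) ∧
      ∃ q : P, q ≠ 0 ∧ ∀ s ∈ S, ∃ g : P[X], algebraMap P L q * s = aeval y g := by
  classical
  let K := FractionRing P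
  let _ : Algebra K L := FractionRing.liftAlgebra P L
  have : IsScalarTower P K L := FractionRing.isScalarTower_liftAlgebra P L
  have : CharZero K := (algebraMap K L).charZero
  have hSK : ∀ s ∈ S, IsIntegral K s := fun s hs =>
    isAlgebraic_iff_isIntegral.1 ((IsFractionRing.isAlgebraic_iff P K L).1 (hS s hs))
  let E := IntermediateField.adjoin K (S : Set L)
  have : FiniteDimensional K E :=
    IntermediateField.finiteDimensional_adjoin fun x hx => hSK x hx
  obtain ⟨α, hα⟩ := Field.exists_primitive_element K E
  have hαK : IsAlgebraic K (α : L) :=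
    (isAlgebraic_algHom_iff E.val Subtype.val_injective).2 (Algebra.IsAlgebraic.isAlgebraic α)
  obtain ⟨d, hd0, hdint⟩ :=
    IsAlgebraic.exists_integral_multiple ((IsFractionRing.isAlgebraic_iff P K L).2 hαK)
  set y : L := d • (α : L) with hy
  have hdK : algebraMap P K d ≠ 0 := by
    simpa using hd0
  have hyK : IsIntegral K y := hdint.tower_top
  -- every element of `S` is a polynomial in `y` over `K`
  have hpoly : ∀ s ∈ S, ∃ g : K[X], aeval y g = s := by
    intro s hs
    have hsE : s ∈ E := IntermediateField.subset_adjoin K _ hs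
    have h1 : (⟨s, hsE⟩ : E) ∈ IntermediateField.adjoin K {α} := by
      rw [hα]; exact IntermediateField.mem_top
    have h2 : s ∈ IntermediateField.adjoin K {(α : L)} := by
      have h3 : IntermediateField.lift (IntermediateField.adjoin K {α}) =
          IntermediateField.adjoin K {(α : L)} := IntermediateField.lift_adjoin_simple _ _ _
      rw [← h3]
      exact (IntermediateField.mem_lift (⟨s, hsE⟩ : E)).2 h1
    have h4 : (α : L) ∈ IntermediateField.adjoin K {y} := by
      have h5 : (α : L) = (algebraMap P K d)⁻¹ • y := by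
        rw [hy, ← algebraMap_smul K d (α : L), smul_smul, inv_mul_cancel₀ hdK, one_smul]
      rw [h5]
      exact (IntermediateField.adjoin K {y}).smul_mem
        (IntermediateField.mem_adjoin_simple_self K y)
    have h6 : s ∈ IntermediateField.adjoin K {y} :=
      (IntermediateField.adjoin_le_iff.2 (Set.singleton_subset_iff.2 h4)) h2
    rw [← IntermediateField.mem_toSubalgebra,
      IntermediateField.adjoin_simple_toSubalgebra_of_isAlgebraic hyK.isAlgebraic,
      Algebra.adjoin_singleton_eq_range_aeval] at h6
    exact h6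
  refine ⟨y, minpoly P y, minpoly.monic hdint, minpoly.natDegree_pos hdint, minpoly.aeval P y,
    fun g hg => minpoly.isIntegrallyClosed_dvd hdint hg, ?_, ?_⟩
  · -- separability
    have hmin : minpoly K y = (minpoly P y).map (algebraMap P K) :=
      minpoly.isIntegrallyClosed_eq_field_fractions' K hdint
    obtain ⟨u, v, huv⟩ := (minpoly.irreducible hyK).separable
    obtain ⟨b, U, hb, hU⟩ := pres_clear (P := P) u
    obtain ⟨c, V, hc, hV⟩ := pres_clear (P := P) v
    refine ⟨C c * U, C b * V, b * c, mul_ne_zero hb hc, ?_⟩
    apply Polynomial.map_injective (algebraMap P K) (IsFractionRing.injective P K)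
    rw [Polynomial.map_add, Polynomial.map_mul, Polynomial.map_mul, Polynomial.map_mul,
      Polynomial.map_mul, Polynomial.map_C, Polynomial.map_C, Polynomial.map_C, hU, hV,
      ← Polynomial.derivative_map, ← hmin, map_mul, Polynomial.C_mul]
    linear_combination (C (algebraMap P K b) * C (algebraMap P K c)) * huv
  · -- common denominators
    have hone : ∀ s ∈ S, ∃ q : P, q ≠ 0 ∧ ∃ g : P[X], algebraMap P L q * s = aeval y g := by
      intro s hs
      obtain ⟨g, hg⟩ := hpoly s hs
      obtain ⟨b, G, hb, hG⟩ := pres_clear (P := P) g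
      refine ⟨b, hb, G, ?_⟩
      rw [← Polynomial.aeval_map_algebraMap K y G, hG, map_mul, hg, aeval_C,
        ← IsScalarTower.algebraMap_apply P K L]
    exact pres_common y S hone

/-- Let `A` be a factorial domain (`ℤ` or `ℂ`) and `L` a field of characteristic zero, `z` a finite
family of elements of `L`, algebraically independent over `A`, and `S` a finite set of elements of
`L` which are algebraic over `A[z]`. Then there are `y ∈ L`, integral over `A[z]`, with minimal
polynomial `f ∈ A[z][Y]`, such that the elements of `S` are of the form `g(z, y) / q(z)`.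

PROOF. `P = MvPolynomial (Fin n) A` is factorial, hence integrally closed; `K = Frac P` embeds in
`L`; `K(S)` is a finite extension of `K` of characteristic zero, so it has a primitive element
(`Field.exists_primitive_element`), and a multiple `y` of it by an element of `P` is integral over
`P` (`exists_integral_multiple`); it is still a primitive element. `f = minpoly P y`: monic, and it
divides all `g ∈ P[Y]` with `g(y) = 0` (`minpoly.isIntegrallyClosed_dvd`); over `K` it is
the minimal polynomial of `y` (`minpoly.isIntegrallyClosed_eq_field_fractions`), irreducible and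
separable, so `u f + v f' = 1` in `K[Y]`; clear the denominators. Every `s ∈ S` is `g(y)` with
`g ∈ K[Y]`: clear the denominators (a common one for all `s`). -/
theorem exists_pres {A L : Type*} [CommRing A] [IsDomain A] [UniqueFactorizationMonoid A] [Field L]
    [CharZero L] [Algebra A L] {n : ℕ} (z : Fin n → L) (hz : AlgebraicIndependent A z)
    (S : Finset L) (hS : ∀ s ∈ S, IsAlgebraic (Algebra.adjoin A (Set.range z)) s) :
    ∃ (y : L) (f : (MvPolynomial (Fin n) A)[X]), f.Monic ∧ 0 < f.natDegree ∧
      f.eval₂ (MvPolynomial.aeval z : MvPolynomial (Fin n) A →ₐ[A] L).toRingHom y = 0 ∧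
      (∀ g : (MvPolynomial (Fin n) A)[X],
        g.eval₂ (MvPolynomial.aeval z : MvPolynomial (Fin n) A →ₐ[A] L).toRingHom y = 0 → f ∣ g) ∧
      (∃ (U V : (MvPolynomial (Fin n) A)[X]) (D : MvPolynomial (Fin n) A), D ≠ 0 ∧
        U * f + V * derivative f = C D) ∧
      ∃ q : MvPolynomial (Fin n) A, q ≠ 0 ∧ ∀ s ∈ S, ∃ g : (MvPolynomial (Fin n) A)[X],
        MvPolynomial.aeval z q * s =
          g.eval₂ (MvPolynomial.aeval z : MvPolynomial (Fin n) A →ₐ[A] L).toRingHom y := by
  let _ : Algebra (MvPolynomial (Fin n) A) L :=
    (MvPolynomial.aeval z : MvPolynomial (Fin n) A →ₐ[A] L).toRingHom.toAlgebra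
  have hinj : Function.Injective (algebraMap (MvPolynomial (Fin n) A) L) := hz
  have : FaithfulSMul (MvPolynomial (Fin n) A) L :=
    (faithfulSMul_iff_algebraMap_injective _ _).2 hinj
  exact pres_core S fun s hs =>
    (hS s hs).of_ringHom_of_comp_eq hz.aevalEquiv (RingHom.id L) hz.aevalEquiv.surjective
      Function.injective_id (RingHom.ext fun p => hz.algebraMap_aevalEquiv p)

/-- a maximal algebraically independent subfamily of a finite set -/
theorem exists_base {A L : Type*} [CommRing A] [Field L] [Algebra A L] [FaithfulSMul A L]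
    (S : Finset L) : ∃ (n : ℕ) (z : Fin n → L), AlgebraicIndependent A z ∧
      (∀ i, z i ∈ S) ∧ ∀ s ∈ S, IsAlgebraic (Algebra.adjoin A (Set.range z)) s := by
  classical
  have h0 : AlgebraicIndepOn A id (∅ : Set L) :=
    algebraicIndependent_empty_type_iff.2 (FaithfulSMul.algebraMap_injective A L)
  obtain ⟨u, -, hu⟩ := exists_maximal_algebraicIndependent ∅ (S : Set L)
    (Set.empty_subset _) h0
  have hfin : u.Finite := S.finite_toSet.subset hu.prop.2
  have : Fintype u := hfin.fintype
  let e := (Fintype.equivFin u).symm
  refine ⟨Fintype.card u, fun i => (e i : L), hu.prop.1.comp e e.injective,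
    fun i => hu.prop.2 (e i).2, fun s hs => ?_⟩
  have hr : Set.range (fun i => (e i : L)) = u := by
    have h1 : (fun i => (e i : L)) = Subtype.val ∘ e := rfl
    rw [h1, e.surjective.range_comp, Subtype.range_coe]
  rw [hr]
  by_contra hs'
  have hins : AlgebraicIndepOn A id (insert s u) := by
    refine AlgebraicIndepOn.insert hu.prop.1 ?_
    rw [Set.image_id]
    exact hs'
  have hsu : s ∈ u := hu.mem_of_prop_insert ⟨hins, Set.insert_subset hs hu.prop.2⟩
  exact hs' (isAlgebraic_algebraMap (⟨s, Algebra.subset_adjoin hsu⟩ : Algebra.adjoin A u))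

end Pool.Agent.KM
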