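import Pool.Agent.Lib.MP_732f67_ag.G.RedLift
import Pool.Agent.Lib.MP_732f67_ag.G.Pres

/-!
Existence of reductions.
-/

namespace Pool.Agent.KM

open Polynomial

variable {L : Type} [Field L] [Algebra ℂ L] {n : ℕ} {t : Fin n → L} {y : L}

/-- `t` is a transcendence basis of `L` over `ℂ` and `y` is a primitive element of `L` over `ℂ(t)`,
integral over `ℂ[t]` -/
structure Prim (t : Fin n → L) (y : L) : Prop where
  basis : IsTranscendenceBasis ℂ t
  int : ∃ f : (MvPolynomial (Fin n) ℂ)[X], f.Monic ∧ 0 < f.natDegree ∧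
    f.eval₂ (MvPolynomial.aeval t : MvPolynomial (Fin n) ℂ →ₐ[ℂ] L).toRingHom y = 0 ∧
    (∀ g : (MvPolynomial (Fin n) ℂ)[X],
      g.eval₂ (MvPolynomial.aeval t : MvPolynomial (Fin n) ℂ →ₐ[ℂ] L).toRingHom y = 0 → f ∣ g) ∧
    ∃ (U V : (MvPolynomial (Fin n) ℂ)[X]) (D : MvPolynomial (Fin n) ℂ), D ≠ 0 ∧
      U * f + V * derivative f = Polynomial.C D
  gen : ∀ x : L, ∃ (q : MvPolynomial (Fin n) ℂ) (g : (MvPolynomial (Fin n) ℂ)[X]), q ≠ 0 ∧
    MvPolynomial.aeval t q * x =
      g.eval₂ (MvPolynomial.aeval t : MvPolynomial (Fin n) ℂ →ₐ[ℂ] L).toRingHom y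

/-- A primitive element exists if `L` is finitely generated (`exists_pres` for a finite set of
generators; the elements of the form `g(t, y) / q(t)` form a field, because the inverse of an
element which is algebraic over the field `ℂ(t)` is a polynomial in it with coefficients in
`ℂ(t)`). -/
theorem exists_prim (ht : IsTranscendenceBasis ℂ t) (G : Finset L)
    (hG : IntermediateField.adjoin ℂ (G : Set L) = ⊤) : ∃ y : L, Prim t y := by
  classical
  have hchar : CharZero L := charZero_of_injective_algebraMap (algebraMap ℂ L).injective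
  have halg : ∀ s : L, IsAlgebraic (Algebra.adjoin ℂ (Set.range t)) s := fun s =>
    ht.isAlgebraic.isAlgebraic s
  obtain ⟨y, f, hf1, hf2, hf3, hf4, hf5, q, hq, hs⟩ := exists_pres t ht.1 G fun s _ => halg s
  refine ⟨y, ⟨ht, ⟨f, hf1, hf2, hf3, hf4, hf5⟩, ?_⟩⟩
  let P := MvPolynomial (Fin n) ℂ
  let _ : Algebra P L := (MvPolynomial.aeval t : P →ₐ[ℂ] L).toRingHom.toAlgebra
  have hinj : Function.Injective (algebraMap P L) := ht.1
  have : FaithfulSMul P L := (faithfulSMul_iff_algebraMap_injective _ _).2 hinj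
  have ht1 : IsScalarTower ℂ P L := IsScalarTower.of_algebraMap_eq fun c => by
    show algebraMap ℂ L c = (MvPolynomial.aeval t : P →ₐ[ℂ] L) (algebraMap ℂ P c)
    rw [AlgHom.commutes]
  let K := FractionRing P
  let _ : Algebra K L := FractionRing.liftAlgebra P L
  have : IsScalarTower P K L := FractionRing.isScalarTower_liftAlgebra P L
  have ht2 : IsScalarTower ℂ K L := IsScalarTower.of_algebraMap_eq fun c => by
    rw [IsScalarTower.algebraMap_apply ℂ P K, ← IsScalarTower.algebraMap_apply P K L,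
      ← IsScalarTower.algebraMap_apply ℂ P L]
  have hyK : IsIntegral K y := (show IsIntegral P y from ⟨f, hf1, hf3⟩).tower_top
  have htop : (IntermediateField.adjoin K {y}).restrictScalars ℂ = ⊤ := by
    rw [eq_top_iff, ← hG, IntermediateField.adjoin_le_iff]
    intro s hsG
    obtain ⟨g, hg⟩ := hs s hsG
    have hq0 : algebraMap P L q ≠ 0 := by
      rw [Ne, ← map_zero (algebraMap P L)]
      exact fun h => hq (hinj h)
    have e1 : s = algebraMap K L (algebraMap P K q)⁻¹ * aeval y g := by
      rw [map_inv₀, ← IsScalarTower.algebraMap_apply P K L, eq_inv_mul_iff_mul_eq₀ hq0]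
      exact hg
    show s ∈ IntermediateField.adjoin K {y}
    rw [e1]
    refine mul_mem (IntermediateField.algebraMap_mem _ _) ?_
    rw [← Polynomial.aeval_map_algebraMap K y g]
    refine IntermediateField.algebra_adjoin_le_adjoin K {y} ?_
    rw [Algebra.adjoin_singleton_eq_range_aeval]
    exact ⟨_, rfl⟩
  intro x
  have hx : x ∈ IntermediateField.adjoin K {y} := by
    have : x ∈ (IntermediateField.adjoin K {y}).restrictScalars ℂ := by
      rw [htop]
      exact IntermediateField.mem_top
    exact this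
  rw [← IntermediateField.mem_toSubalgebra,
    IntermediateField.adjoin_simple_toSubalgebra_of_isAlgebraic hyK.isAlgebraic,
    Algebra.adjoin_singleton_eq_range_aeval] at hx
  obtain ⟨u, hu⟩ := hx
  obtain ⟨b, U, hb, hU⟩ := pres_clear (P := P) u
  refine ⟨b, U, hb, ?_⟩
  have e2 : algebraMap P L b * x = aeval y U := by
    rw [← Polynomial.aeval_map_algebraMap K y U, hU, map_mul, aeval_C,
      ← IsScalarTower.algebraMap_apply P K L]
    rw [← hu]
    rfl
  exact e2

/-- Existence of reductions whose ring contains a given finite set.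

PROOF. For the elements `s ∈ S` take a common denominator `q(t)`, and `g s`. Let `S'` be the finite
set of all coefficients of `f`, `U`, `V`, `D`, `q` and the `g s`, and of the inverses of one
non-zero coefficient of `D` and of one of `q`; `B = Subring.closure S'`; `exists_padic` and
`PadicInt.toZModPow 2` give `φ : B → ℤ / p ^ 2`. Lift the polynomials to `B` and apply `Red.mk_of`:
`D` and `q` are not zero modulo `p`, since one of their coefficients is a unit of `B`. -/
theorem Red.exists_of (h : Prim t y) (S : Finset L) : ∃ R : Red L t y, ∀ s ∈ S, s ∈ R.Λ := by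
  classical
  obtain ⟨f, hfm, hfd, hfy, hfk, U, V, D, hD, hUV⟩ := h.int
  obtain ⟨q, hq, hqs⟩ := redLift_common h.gen S
  choose! g hg using hqs
  obtain ⟨Sf, hSf⟩ := redLift_exists f
  obtain ⟨SU, hSU⟩ := redLift_exists U
  obtain ⟨SV, hSV⟩ := redLift_exists V
  choose Sg hSg using fun s => redLift_exists (g s)
  obtain ⟨cD, hcD⟩ := redLift_ne D hD
  obtain ⟨cq, hcq⟩ := redLift_ne q hq
  let S' : Finset ℂ := Sf ∪ (SU ∪ (SV ∪ (S.biUnion Sg ∪ (D.coeffs ∪ (q.coeffs ∪ {cD, cq})))))
  obtain ⟨p, hp, ⟨Φ⟩⟩ := exists_padic S'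
  have hB : ∀ c ∈ S', c ∈ Subring.closure (S' : Set ℂ) := fun c hc => Subring.subset_closure hc
  generalize hBdef : Subring.closure (S' : Set ℂ) = B at Φ hB
  have m1 : ∀ c ∈ Sf, c ∈ B := fun c hc => hB c (by simp only [S', Finset.mem_union]; tauto)
  have m2 : ∀ c ∈ SU, c ∈ B := fun c hc => hB c (by simp only [S', Finset.mem_union]; tauto)
  have m3 : ∀ c ∈ SV, c ∈ B := fun c hc => hB c (by simp only [S', Finset.mem_union]; tauto)
  have m4 : ∀ s ∈ S, ∀ c ∈ Sg s, c ∈ B := fun s hs c hc => hB c (by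
    have h1 : c ∈ S.biUnion Sg := Finset.mem_biUnion.2 ⟨s, hs, hc⟩
    simp only [S', Finset.mem_union]
    tauto)
  have m5 : ∀ c ∈ D.coeffs, c ∈ B := fun c hc => hB c (by
    simp only [S', Finset.mem_union]
    tauto)
  have m6 : ∀ c ∈ q.coeffs, c ∈ B := fun c hc => hB c (by
    simp only [S', Finset.mem_union]
    tauto)
  have m7 : cD ∈ B := hB cD (by simp [S'])
  have m8 : cq ∈ B := hB cq (by simp [S'])
  obtain ⟨f', hf'⟩ := hSf B m1
  obtain ⟨U', hU'⟩ := hSU B m2
  obtain ⟨V', hV'⟩ := hSV B m3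
  obtain ⟨D', hD'⟩ := redLift_mv D B m5
  obtain ⟨q', hq'⟩ := redLift_mv q B m6
  have hinj : Function.Injective (MvPolynomial.map B.subtype :
      MvPolynomial (Fin n) B →+* MvPolynomial (Fin n) ℂ) :=
    MvPolynomial.map_injective _ B.subtype_injective
  have hinj' : Function.Injective (Polynomial.map (MvPolynomial.map B.subtype :
      MvPolynomial (Fin n) B →+* MvPolynomial (Fin n) ℂ)) :=
    Polynomial.map_injective _ hinj
  have hfm' : f'.Monic := Polynomial.monic_of_injective hinj (by rw [hf']; exact hfm)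
  have hfd' : 0 < f'.natDegree := by
    rw [← Polynomial.natDegree_map_eq_of_injective hinj, hf']
    exact hfd
  have hUV' : U' * f' + V' * derivative f' = Polynomial.C D' := by
    apply hinj'
    rw [Polynomial.map_add, Polynomial.map_mul, Polynomial.map_mul, ← Polynomial.derivative_map,
      Polynomial.map_C, hf', hU', hV', hD', hUV]
  obtain ⟨R, hR⟩ := Red.mk_of (y := y) h.basis B p ((PadicInt.toZModPow 2).comp Φ) f' hfm' hfd'
    (by rw [hf']; exact hfy) (fun g hg => by rw [hf']; exact hfk g hg) U' V' D' hUV'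
    (hcD B m7 D' hD' _ _) q' (hcq B m8 q' hq' _ _)
  refine ⟨R, fun s hs => ?_⟩
  obtain ⟨g', hg'⟩ := hSg s B (m4 s hs)
  exact hR s g' (by rw [hq', hg']; exact hg s hs)

/-- a property which holds for all reductions with large `Λ` holds for some reduction -/
theorem Ev.exists {P : Red L t y → Prop} (h : Prim t y) (hP : Ev t y P) :
    ∃ R : Red L t y, P R := by
  obtain ⟨S, hS⟩ := hP
  obtain ⟨R, hR⟩ := Red.exists_of h S
  exact ⟨R, hS R hR⟩

end Pool.Agent.KM
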