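import Pool.Agent.Lib.MP_732f67_ag.G.Stmt
import Pool.Agent.Lib.MP_732f67_ag.G.RedEx

/-!
The atlas of a log resolution `W` of a klt Fano variety `X` over `ℂ`, with a decomposition
`- q K_X ~ ∑ c i M i`: finitely many standard étale charts `A a`, given by the homogeneous
coordinates `z`, local equations of all the divisors, and certificates.
-/

namespace Pool.Agent.KM

open Polynomial

/-- the value of `f` at `x`, `y` -/
noncomputable def ev {k L : Type*} [CommSemiring k] [CommSemiring L] [Algebra k L] {n : ℕ}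
    (x : Fin n → L) (y : L) (f : (MvPolynomial (Fin n) k)[X]) : L :=
  f.eval₂ (MvPolynomial.aeval x : MvPolynomial (Fin n) k →ₐ[k] L).toRingHom y

/-- `A = k[x, y, u]` is a standard étale chart with field of fractions `L`: `y` is a root of an
irreducible polynomial over `k[x]`, monic in `Y`, whose derivative at `y` is invertible in `A`, and
`u` is the inverse of an element of `k[x, y]` -/
structure IsCh {k L : Type*} [Field k] [Field L] [Algebra k L] {n : ℕ} (A : Subalgebra k L)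
    (x : Fin n → L) (y u : L) : Prop where
  tb : IsTranscendenceBasis k x
  pol : ∃ f : (MvPolynomial (Fin n) k)[X], f.Monic ∧ Irreducible f ∧ ev x y f = 0 ∧
    ev x y f.derivative ≠ 0 ∧ (ev x y f.derivative)⁻¹ ∈ A
  u_ne : u ≠ 0
  u_inv : u⁻¹ ∈ Algebra.adjoin k (Set.range x ∪ {y})
  A_eq : A = Algebra.adjoin k (Set.range x ∪ {y, u})
  gen : ∀ a : L, ∃ b ∈ Algebra.adjoin k (Set.range x ∪ {y}),
    ∃ c ∈ Algebra.adjoin k (Set.range x ∪ {y}), c ≠ 0 ∧ a = b / c

/-- the ring of the chart `z j ≠ 0` -/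
def chA {L : Type*} [Field L] [Algebra ℂ L] {N : ℕ} (z : Fin N → L) (j : Fin N) :
    Subalgebra ℂ L := Algebra.adjoin ℂ (Set.range fun i => z i / z j)

/-- the local equation of an exceptional divisor: a coordinate or `1` -/
def eps {L : Type*} [One L] {n : ℕ} (x : Fin n → L) : Option (Fin n) → L
  | none => 1
  | some l => x l

/-- the data of an atlas -/
structure AtD (L : Type) [Field L] [Algebra ℂ L] (n : ℕ) (I : Type) where
  /-- a transcendence basis, a primitive element, the partial derivatives -/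
  t : Fin n → L
  y0 : L
  D : Fin n → Derivation ℂ L L
  /-- homogeneous coordinates; the charts are `z (σ a) ≠ 0` -/
  N : ℕ
  z : Fin N → L
  k : ℕ
  σ : Fin k → Fin N
  /-- the coordinates of the charts -/
  x : Fin k → Fin n → L
  y : Fin k → L
  u : Fin k → L
  /-- the exceptional divisors: number, local equations -/
  s : ℕ
  co : Fin k → Fin s → Option (Fin n)
  /-- the local equations of the divisors `M i` -/
  d : Fin k → I → L
  /-- `ω (dt_1 ∧ ... ∧ dt_n) ^ q` has the divisor `- ∑ c i M i + ∑ e j E j`, and `O(1)` is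
  `- a q K_W + ∑ b j E j` -/
  q : ℕ
  ω : L
  c : I → ℕ
  e : Fin s → ℤ
  a : ℕ
  b : Fin s → ℤ
  /-- sections of the `m M i` and the `(m + 1) M i` without base points -/
  m : ℕ
  S : I → Finset L
  S' : I → Finset L

namespace AtD

variable {L : Type} [Field L] [Algebra ℂ L] {n : ℕ} {I : Type} (X : AtD L n I)

/-- the ring of the chart `a` -/
def A (a : Fin X.k) : Subalgebra ℂ L := chA X.z (X.σ a)

/-- the local equation of the exceptional divisor `j` on the chart `a` -/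
def ε (a : Fin X.k) (j : Fin X.s) : L := eps (X.x a) (X.co a j)

/-- `dx_1 ∧ ... ∧ dx_n = jac * dt_1 ∧ ... ∧ dt_n` -/
noncomputable def jac (a : Fin X.k) : L := (Matrix.of fun i l => X.D i (X.x a l)).det

/-- the properties of an atlas -/
structure Ok [Fintype I] : Prop where
  prim : Prim X.t X.y0
  Dt : ∀ i j, X.D i (X.t j) = if i = j then 1 else 0
  z_ne : ∀ j, X.z j ≠ 0
  /-- the charts cover -/
  cov : ∃ M : ℕ, ∀ j, X.z j ^ (M + 1) ∈
    Submodule.span ℂ (Set.range fun a => X.z (X.σ a)) * (Submodule.span ℂ (Set.range X.z)) ^ M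
  ch : ∀ a, IsCh (X.A a) (X.x a) (X.y a) (X.u a)
  co_inj : ∀ a j j' l, X.co a j = some l → X.co a j' = some l → j = j'
  ε_trans : ∀ a b j, X.ε a j / X.ε b j ∈ X.A a ⊔ X.A b
  d_ne : ∀ a i, X.d a i ≠ 0
  d_trans : ∀ a b i, X.d a i / X.d b i ∈ X.A a ⊔ X.A b
  q_pos : 0 < X.q
  c_pos : ∀ i, 0 < X.c i
  e_gt : ∀ j, -(X.q : ℤ) < X.e j
  ω_ne : X.ω ≠ 0
  can : ∀ a, Un (X.A a)
    (X.ω * (X.jac a ^ X.q)⁻¹ * (∏ i, X.d a i ^ X.c i) * ∏ j, X.ε a j ^ (-X.e j))
  a_pos : 0 < X.a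
  /-- `b j / (a q)` is slightly smaller than `e j / q` -/
  b_lt : ∀ j, X.b j < X.a * X.e j
  b_gt : ∀ j, ∃ r : ℤ, 0 ≤ r ∧ (r - 1) * (X.a * X.q) < X.b j ∧ X.e j ≤ r * X.q
  pol : ∀ a, Un (X.A a) (X.z (X.σ a) * X.jac a ^ (X.a * X.q) * ∏ j, X.ε a j ^ X.b j)
  m_pos : 0 < X.m
  S_sec : ∀ i, ∀ f ∈ X.S i, ∀ a, f * X.d a i ^ X.m ∈ X.A a
  S_gen : ∀ i a, ∃ f ∈ X.S i, Un (X.A a) (f * X.d a i ^ X.m)
  S'_sec : ∀ i, ∀ f ∈ X.S' i, ∀ a, f * X.d a i ^ (X.m + 1) ∈ X.A a
  S'_gen : ∀ i a, ∃ f ∈ X.S' i, Un (X.A a) (f * X.d a i ^ (X.m + 1))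
  /-- the divisors `M i` are not trivial -/
  two : ∀ i, ∃ f ∈ X.S i, ∃ g ∈ X.S i, g ≠ 0 ∧ Transcendental ℂ (f / g)
  /-- the sum of the `M i` is big -/
  big : ∀ x : L, IsAlgebraic (Algebra.adjoin ℂ {w | ∃ i, ∃ f ∈ X.S i, ∃ g ∈ X.S i,
    g ≠ 0 ∧ w = f / g}) x

/-- the exceptional divisors are contracted to codimension at least two -/
def Cod : Prop :=
  ∀ a j l, X.co a j = some l → ∀ r : Fin (n - 1) → L,
    (∀ i, ∃ i' : I, ∃ f ∈ X.S i', ∃ g ∈ X.S i', Un (X.A a) (g * X.d a i' ^ X.m) ∧ r i = f / g) →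
    ∃ P : MvPolynomial (Fin (n - 1)) ℂ, P ≠ 0 ∧ ∃ w ∈ X.A a, MvPolynomial.aeval r P = X.x a l * w

end AtD

end Pool.Agent.KM
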