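import Pool.Agent.Lib.MP_732f67_ag.G.Pre
import Pool.Agent.Lib.MP_732f67_ag.G.Rat

/-!
The canonical divisor and the polarization on the charts of the preliminary atlas.
-/

namespace Pool.Agent.KM

variable {L : Type} [Field L] [Algebra ℂ L] {n s r : ℕ}

/-- the order of a form is unique -/
theorem IsOrdF.unique {D : Fin n → Derivation ℂ L L} {O : Subalgebra ℂ L} (hO : PrimDiv O)
    {e e' : ℤ} (h : IsOrdF D O e) (h' : IsOrdF D O e') : e = e' := by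
  obtain ⟨π, hπ, h1⟩ := h
  obtain ⟨π', hπ', h2⟩ := h'
  have key : ∀ f : L, f * π ^ e ∈ O ↔ f * π ^ e' ∈ O := by
    intro f
    have hu := (hπ.un_div hπ').zpow e'
    have h0 := zpow_ne_zero e' hπ.ne_zero
    have h0' := zpow_ne_zero e' hπ'.ne_zero
    rw [← h1, h2]
    constructor
    · intro h3
      have h4 := O.mul_mem h3 hu.2.1
      have h5 : f * π' ^ e' * (π / π') ^ e' = f * π ^ e' := by
        rw [div_zpow]
        field_simp
      rwa [h5] at h4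
    · intro h3
      have h4 := O.mul_mem h3 hu.2.2
      have h5 : f * π ^ e' * ((π / π') ^ e')⁻¹ = f * π' ^ e' := by
        rw [div_zpow, inv_div]
        field_simp
      rwa [h5] at h4
  have h3 : ∀ a b : ℤ, π ^ (-a) * π ^ b = π ^ (b - a) := by
    intro a b
    rw [← zpow_add₀ hπ.ne_zero]
    congr 1
    ring
  have h4 : 0 ≤ e' - e := by
    by_contra hlt
    push Not at hlt
    refine hπ.not_mem_zpow hlt ?_
    rw [← h3]
    refine (key _).1 ?_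
    rw [h3, sub_self, zpow_zero]
    exact O.one_mem
  have h5 : 0 ≤ e - e' := by
    by_contra hlt
    push Not at hlt
    refine hπ.not_mem_zpow hlt ?_
    rw [← h3]
    refine (key _).2 ?_
    rw [h3, sub_self, zpow_zero]
    exact O.one_mem
  omega

/-- a point of `W` which is also a point of `X` is its own center -/
theorem cen_eq {X W : Set (Subalgebra ℂ L)} (hX : IsProj X)
    {cen : Subalgebra ℂ L → Subalgebra ℂ L} (hc : ∀ O ∈ W, cen O ∈ X ∧ Dom (cen O) O)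
    {Q : Subalgebra ℂ L} (hQ : Q ∈ W) (hQX : Q ∈ X) : cen Q = Q :=
  hX.eq_of_dom (hc Q hQ).1 hQX (hc Q hQ).2 (Dom.refl Q)

/-- the determinant of the frame `D` at the functions `x` -/
noncomputable def jc (D : Fin n → Derivation ℂ L L) (x : Fin n → L) : L :=
  (Matrix.of fun i l => D i (x l)).det

section

variable {X W : Set (Subalgebra ℂ L)} {cen : Subalgebra ℂ L → Subalgebra ℂ L}
  {P : Fin s → Subalgebra ℂ L} {E : Fin s → Subalgebra ℂ L → Lˣ}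
  {M : Fin r → Subalgebra ℂ L → Lˣ} {m₀ : ℕ} {DD : Subalgebra ℂ L → Lˣ}
  (Y : Pre n X W cen E M m₀ DD) {D : Fin n → Derivation ℂ L L} {m : ℕ} {κ : Subalgebra ℂ L → Lˣ}

/-- PROOF. `IsCh.isOrdF` and `hX.can`. -/
theorem Pre.ord_κ (hX : KltFano X D m κ) (hW : LogRes n X W P E)
    (hc : ∀ O ∈ W, cen O ∈ X ∧ Dom (cen O) O) {Q : Subalgebra ℂ L} (hQ : Q ∈ W) (hQX : Q ∈ X)
    (hp : PrimDiv Q) {a : Fin Y.k} (ha : Y.A a ≤ Q) {e : ℤ} (he : IsOrd Q (jc D (Y.x a)) e) :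
    IsOrd Q (κ (cen Q)) (-(m * e)) := by
  have h1 := (Y.isCh a).isOrdF ((Y.locAt_iff hW.proj a Q).2 ⟨hQ, ha⟩) hp D he
  have h2 := hX.can.2 Q hQX hp (-e) h1
  rw [cen_eq hX.proj hc hQ hQX]
  rwa [mul_neg] at h2

/-- The discrepancies, multiplied by `q = m q'`.

PROOF. For `P j` take any chart which contains it (`Pre.exists_le`); the order of `jc D (Y.x a)` at
`P j` does not depend on the chart (`IsCh.isOrdF`, `IsOrdF.unique`); `hX.klt` for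
`Dom (cen (P j)) (P j)`. -/
theorem Pre.exists_disc (hX : KltFano X D m κ) (hW : LogRes n X W P E)
    (hc : ∀ O ∈ W, cen O ∈ X ∧ Dom (cen O) O) (q' : ℕ) (hq : 1 ≤ q') :
    ∃ e : Fin s → ℤ, ∀ j, -((m * q' : ℕ) : ℤ) < e j ∧ ∀ a, Y.A a ≤ P j → ∀ e₀ l : ℤ,
      IsOrd (P j) (jc D (Y.x a)) e₀ → IsOrd (P j) (κ (cen (P j))) l →
        e j = -(m * q' * e₀) - q' * l := by
  have key : ∀ j : Fin s, ∃ e : ℤ, -((m * q' : ℕ) : ℤ) < e ∧ ∀ a, Y.A a ≤ P j → ∀ e₀ l : ℤ,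
      IsOrd (P j) (jc D (Y.x a)) e₀ → IsOrd (P j) (κ (cen (P j))) l →
        e = -(m * q' * e₀) - q' * l := by
    intro j
    obtain ⟨hPW, hPp, -⟩ := (hW.exc (P j)).1 ⟨j, rfl⟩
    obtain ⟨a, ha⟩ := Y.exists_le hW.proj hPW
    obtain ⟨e₀, he₀⟩ := hPp.exists_ord ((Y.isCh a).det_ne D hX.frame)
    obtain ⟨l, hl⟩ := hPp.exists_ord (κ (cen (P j))).ne_zero
    have hF := (Y.isCh a).isOrdF ((Y.locAt_iff hW.proj a _).2 ⟨hPW, ha⟩) hPp D he₀
    have hk := hX.klt (P j) hPp (cen (P j)) (hc _ hPW).1 (hc _ hPW).2 (-e₀) l hF hl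
    refine ⟨-(m * q' * e₀) - q' * l, ?_, ?_⟩
    · have hq0 : (0 : ℤ) < q' := by exact_mod_cast hq
      have h1 := mul_lt_mul_of_pos_left hk hq0
      push_cast
      linarith
    · intro a' ha' e₀' l' he₀' hl'
      have hF' := (Y.isCh a').isOrdF ((Y.locAt_iff hW.proj a' _).2 ⟨hPW, ha'⟩) hPp D he₀'
      have h1 := IsOrdF.unique hPp hF hF'
      have h2 := IsOrd.unique hPp hl hl'
      have h3 : e₀ = e₀' := by omega
      rw [h3, h2]
  choose e he using key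
  exact ⟨e, he⟩

/-- the multiplicities of `Θ` -/
theorem exists_theta (hW : LogRes n X W P E) {Θ : Subalgebra ℂ L → Lˣ}
    (hΘ : ∀ O ∈ W, PrimDiv O → ∀ e, IsOrd O (Θ O) e → 0 ≤ e ∧ (e = 0 ↔ O ∈ X)) :
    ∃ θ : Fin s → ℤ, ∀ j, 1 ≤ θ j ∧ IsOrd (P j) (Θ (P j)) (θ j) := by
  have key : ∀ j : Fin s, ∃ e : ℤ, 1 ≤ e ∧ IsOrd (P j) (Θ (P j)) e := by
    intro j
    obtain ⟨hPW, hPp, hPX⟩ := (hW.exc (P j)).1 ⟨j, rfl⟩
    obtain ⟨e, he⟩ := hPp.exists_ord (Θ (P j)).ne_zero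
    obtain ⟨h1, h2⟩ := hΘ (P j) hPW hPp e he
    have h3 : e ≠ 0 := fun h => hPX (h2.1 h)
    exact ⟨e, by omega, he⟩
  choose θ hθ using key
  exact ⟨θ, hθ⟩

/-- the orders of the local equations of the exceptional divisors -/
theorem Pre.ord_eps (hW : LogRes n X W P E) {Q : Subalgebra ℂ L} (hQ : Q ∈ W) (hp : PrimDiv Q)
    {a : Fin Y.k} (ha : Y.A a ≤ Q) (j : Fin s) :
    (Q = P j → IsOrd Q (eps (Y.x a) (Y.co a j)) 1) ∧
      (Q ≠ P j → Un Q (eps (Y.x a) (Y.co a j))) := by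
  have h1 := (Y.nb a).2.1 j Q hQ ha
  obtain ⟨h2, h3⟩ := hW.eqn j Q hQ hp
  constructor
  · intro h
    refine ⟨(E j Q : L), h2 h, ?_⟩
    have h4 := h1.inv
    rwa [inv_div, ← zpow_one (E j Q : L)] at h4
  · intro h
    have h4 := (h3 h).div h1
    have h5 : eps (Y.x a) (Y.co a j) ≠ 0 := by
      intro h6
      apply h1.1
      rw [h6, div_zero]
    have h6 : (E j Q : L) / ((E j Q : L) / eps (Y.x a) (Y.co a j)) =
        eps (Y.x a) (Y.co a j) := by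
      have h7 := (E j Q).ne_zero
      field_simp
    rwa [h6] at h4

/-- the product of powers of local equations at the prime divisor `P j` and at the others -/
theorem Pre.ord_prod_eps (hW : LogRes n X W P E) {Q : Subalgebra ℂ L} (hQ : Q ∈ W)
    (hp : PrimDiv Q) {a : Fin Y.k} (ha : Y.A a ≤ Q) (e : Fin s → ℤ) :
    (∀ j, Q = P j → IsOrd Q (∏ j, eps (Y.x a) (Y.co a j) ^ e j) (e j)) ∧
      (Q ∈ X → IsOrd Q (∏ j, eps (Y.x a) (Y.co a j) ^ e j) 0) := by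
  classical
  constructor
  · intro j hj
    have h1 : ∀ i ∈ Finset.univ, IsOrd Q (eps (Y.x a) (Y.co a i) ^ e i)
        (if i = j then e i else 0) := by
      intro i _
      obtain ⟨h2, h3⟩ := Y.ord_eps hW hQ hp ha i
      by_cases hij : i = j
      · rw [if_pos hij]
        have h4 := IsOrd.zpow hp (h2 (by rw [hj, hij])) (e i)
        rwa [mul_one] at h4
      · rw [if_neg hij]
        refine (isOrd_zero_iff hp).2 ((h3 fun h4 => hij ?_).zpow _)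
        exact hW.inj (h4.symm.trans hj)
    have h2 := IsOrd.prod hp Finset.univ h1
    rwa [Finset.sum_ite_eq' Finset.univ j, if_pos (Finset.mem_univ j)] at h2
  · intro hX
    refine (isOrd_zero_iff hp).2 (Un.prod _ fun i _ => ?_)
    refine ((Y.ord_eps hW hQ hp ha i).2 fun h => ?_).zpow _
    exact ((hW.exc Q).1 ⟨i, h⟩).2.2 hX

theorem can_pow {O : Subalgebra ℂ L} (hp : PrimDiv O) {w : L} {e : ℤ} (h : IsOrd O w e) (k : ℕ) :
    IsOrd O (w ^ k) (k * e) := by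
  have h1 := IsOrd.zpow hp h (k : ℤ)
  rwa [zpow_natCast] at h1

theorem Pre.jc_ne (hX : KltFano X D m κ) (a : Fin Y.k) : jc D (Y.x a) ≠ 0 :=
  (Y.isCh a).det_ne D hX.frame

theorem Pre.eps_ne (hW : IsProj W) (a : Fin Y.k) (j : Fin s) : eps (Y.x a) (Y.co a j) ≠ 0 := by
  obtain ⟨Q, hQ, hQ'⟩ := Y.exists_pt hW a
  intro h
  have h1 := ((Y.nb a).2.1 j Q hQ hQ').1
  rw [h, div_zero] at h1
  exact h1 rfl

/-- The form `u η ^ q` has the divisor `- ∑ c i M i + ∑ e j E j`.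

PROOF. `Pre.un_A`. Let `Q ∈ W` be a prime divisor with `A a ≤ Q`, `jc` of order `e₀`, `κ (cen Q)` of
order `l`. By `QDec` at `cen Q`: `ord u + q' l + ∑ c i ord (M i (cen Q)) = 0`, and
`ord (M i (cen Q)) = ord (d a i)` (`nb`). If `Q ∈ X` then `l = - m e₀` (`ord_κ`), the orders of the `ε` are
`0`. If `Q ∉ X` then `Q = P j` (`exc`) and `e j = - q e₀ - q' l`. In both cases the order of the product
is `0`. -/
theorem Pre.can (hX : KltFano X D m κ) (hW : LogRes n X W P E)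
    (hc : ∀ O ∈ W, cen O ∈ X ∧ Dom (cen O) O) {q' : ℕ} (hq : 1 ≤ q') {c : Fin r → ℕ} {u : Lˣ}
    (hu : QDec X κ q' c u M) {e : Fin s → ℤ}
    (he : ∀ j, ∀ a, Y.A a ≤ P j → ∀ e₀ l : ℤ,
      IsOrd (P j) (jc D (Y.x a)) e₀ → IsOrd (P j) (κ (cen (P j))) l →
        e j = -(m * q' * e₀) - q' * l) (a : Fin Y.k) :
    Un (Y.A a) (u * (jc D (Y.x a) ^ (m * q'))⁻¹ * (∏ i, Y.d a i ^ c i) *
      ∏ j, eps (Y.x a) (Y.co a j) ^ (-e j)) := by
  classical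
  have hjc := Y.jc_ne hX a
  have heps := Y.eps_ne hW.proj a
  refine Y.un_A hW.proj a ?_ fun Q hQ hp ha => ?_
  · refine mul_ne_zero (mul_ne_zero (mul_ne_zero u.ne_zero (inv_ne_zero (pow_ne_zero _ hjc))) ?_) ?_
    · exact Finset.prod_ne_zero_iff.2 fun i _ => pow_ne_zero _ (Y.d_ne a i)
    · exact Finset.prod_ne_zero_iff.2 fun j _ => zpow_ne_zero _ (heps j)
  obtain ⟨e₀, he₀⟩ := hp.exists_ord hjc
  obtain ⟨l, hl⟩ := hp.exists_ord (κ (cen Q)).ne_zero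
  obtain ⟨f, hf⟩ := hp.exists_ord u.ne_zero
  choose g hg using fun i => hp.exists_ord (M i (cen Q)).ne_zero
  have hgd : ∀ i, IsOrd Q (Y.d a i) (g i) := fun i => by
    have h1 := (isOrd_zero_iff hp).2 (Y.un_M i hQ ha).inv
    have h2 := IsOrd.mul hp (hg i) h1
    have h3 : (M i (cen Q) : L) * ((M i (cen Q) : L) / Y.d a i)⁻¹ = Y.d a i := by
      have h4 := (M i (cen Q)).ne_zero
      have h5 := Y.d_ne a i
      field_simp
    rwa [h3, add_zero] at h2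
  have h0 : f + q' * l + ∑ i, (c i : ℤ) * g i = 0 := by
    have h1 := (hu (cen Q) (hc Q hQ).1).mono (hc Q hQ).2.1
    rw [Units.val_mul, Units.val_mul, Units.val_pow_eq_pow_val, Units.coe_prod] at h1
    simp only [Units.val_pow_eq_pow_val] at h1
    exact (((hf.mul hp (can_pow hp hl q')).mul hp
      (IsOrd.prod hp Finset.univ fun i _ => can_pow hp (hg i) (c i))).unique hp
      ((isOrd_zero_iff hp).2 h1))
  obtain ⟨h1, h2⟩ := Y.ord_prod_eps hW hQ hp ha fun j => -e j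
  have h3 : ∀ t : ℤ, IsOrd Q (∏ j, eps (Y.x a) (Y.co a j) ^ (-e j)) t →
      IsOrd Q (u * (jc D (Y.x a) ^ (m * q'))⁻¹ * (∏ i, Y.d a i ^ c i) *
        ∏ j, eps (Y.x a) (Y.co a j) ^ (-e j))
        (f + -((m * q' : ℕ) * e₀) + ∑ i, (c i : ℤ) * g i + t) := fun t ht =>
    ((hf.mul hp ((can_pow hp he₀ (m * q')).inv hp)).mul hp
      (IsOrd.prod hp Finset.univ fun i _ => can_pow hp (hgd i) (c i))).mul hp ht
  rw [← isOrd_zero_iff hp]
  by_cases hQX : Q ∈ X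
  · have h4 : l = -(m * e₀) := hl.unique hp (Y.ord_κ hX hW hc hQ hQX hp ha he₀)
    have h5 := h3 0 (h2 hQX)
    have h6 : f + -((m * q' : ℕ) * e₀) + ∑ i, (c i : ℤ) * g i + 0 = 0 := by
      rw [h4] at h0
      push_cast
      linear_combination h0
    rwa [h6] at h5
  · obtain ⟨j, rfl⟩ := (hW.exc Q).2 ⟨hQ, hp, hQX⟩
    have h4 := he j a ha e₀ l he₀ hl
    have h5 := h3 _ (h1 j rfl)
    have h6 : f + -((m * q' : ℕ) * e₀) + ∑ i, (c i : ℤ) * g i + -e j = 0 := by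
      rw [h4]
      push_cast
      linear_combination h0
    rwa [h6] at h5

/-- The polarization on the charts, `DD = (κ ^ (a q') Θ ^ b) ^ (-d)`.

PROOF. `Pre.un_A`, `Pre.z_un`: at a prime divisor `Q` the order of `z (σ a)` is
`d (a q' l + b ord Θ)`, with `l = - m e₀`, `ord Θ = 0` for `Q ∈ X`, and
`q' l = - q e₀ - e j`, `ord Θ = θ j` for `Q = P j` (`Θ Q / Θ Q = 1`: `Q = P j`). -/
theorem Pre.pol (hX : KltFano X D m κ) (hW : LogRes n X W P E)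
    (hc : ∀ O ∈ W, cen O ∈ X ∧ Dom (cen O) O) {Θ : Subalgebra ℂ L → Lˣ}
    (hΘ : ∀ O ∈ W, PrimDiv O → ∀ e, IsOrd O (Θ O) e → 0 ≤ e ∧ (e = 0 ↔ O ∈ X))
    {q' a₁ b₁ d₁ : ℕ} (hq : 1 ≤ q')
    (hDD : DD = (fun O => (κ (cen O) ^ (a₁ * q') * Θ O ^ b₁)⁻¹) ^ d₁) {e θ : Fin s → ℤ}
    (he : ∀ j, ∀ a, Y.A a ≤ P j → ∀ e₀ l : ℤ,
      IsOrd (P j) (jc D (Y.x a)) e₀ → IsOrd (P j) (κ (cen (P j))) l →
        e j = -(m * q' * e₀) - q' * l)
    (hθ : ∀ j, IsOrd (P j) (Θ (P j)) (θ j)) (a : Fin Y.k) :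
    Un (Y.A a) (Y.z (Y.σ a) * jc D (Y.x a) ^ (d₁ * a₁ * (m * q')) *
      ∏ j, eps (Y.x a) (Y.co a j) ^ (d₁ * a₁ * e j - d₁ * b₁ * θ j)) := by
  classical
  have hjc := Y.jc_ne hX a
  have heps := Y.eps_ne hW.proj a
  refine Y.un_A hW.proj a ?_ fun Q hQ hp ha => ?_
  · refine mul_ne_zero (mul_ne_zero (Y.z_ne _) (pow_ne_zero _ hjc)) ?_
    exact Finset.prod_ne_zero_iff.2 fun j _ => zpow_ne_zero _ (heps j)
  obtain ⟨e₀, he₀⟩ := hp.exists_ord hjc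
  obtain ⟨l, hl⟩ := hp.exists_ord (κ (cen Q)).ne_zero
  obtain ⟨t, ht⟩ := hp.exists_ord (Θ Q).ne_zero
  have hz : IsOrd Q (Y.z (Y.σ a)) (d₁ * ((a₁ * q' : ℕ) * l + b₁ * t)) := by
    have h1 := Y.z_un a hQ ha
    have h2 : (DD Q : L) = (((κ (cen Q) : L) ^ (a₁ * q') * (Θ Q : L) ^ b₁)⁻¹) ^ d₁ := by
      rw [hDD, Pi.pow_apply, Units.val_pow_eq_pow_val, Units.val_inv_eq_inv_val, Units.val_mul,
        Units.val_pow_eq_pow_val, Units.val_pow_eq_pow_val]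
    have h3 := can_pow hp (((can_pow hp hl (a₁ * q')).mul hp (can_pow hp ht b₁)).inv hp) d₁
    rw [← h2] at h3
    have h4 := ((isOrd_zero_iff hp).2 h1).mul hp (h3.inv hp)
    have h5 : Y.z (Y.σ a) * (DD Q : L) * (DD Q : L)⁻¹ = Y.z (Y.σ a) :=
      mul_inv_cancel_right₀ (DD Q).ne_zero _
    rw [h5] at h4
    have h6 : (0 : ℤ) + -(d₁ * -((a₁ * q' : ℕ) * l + b₁ * t)) =
        d₁ * ((a₁ * q' : ℕ) * l + b₁ * t) := by ring
    rwa [h6] at h4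
  obtain ⟨h1, h2⟩ := Y.ord_prod_eps hW hQ hp ha fun j => d₁ * a₁ * e j - d₁ * b₁ * θ j
  have h3 : ∀ t' : ℤ,
      IsOrd Q (∏ j, eps (Y.x a) (Y.co a j) ^ (d₁ * a₁ * e j - d₁ * b₁ * θ j)) t' →
      IsOrd Q (Y.z (Y.σ a) * jc D (Y.x a) ^ (d₁ * a₁ * (m * q')) *
        ∏ j, eps (Y.x a) (Y.co a j) ^ (d₁ * a₁ * e j - d₁ * b₁ * θ j))
        (d₁ * ((a₁ * q' : ℕ) * l + b₁ * t) + (d₁ * a₁ * (m * q') : ℕ) * e₀ + t') := fun t' ht' =>
    (hz.mul hp (can_pow hp he₀ _)).mul hp ht'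
  rw [← isOrd_zero_iff hp]
  by_cases hQX : Q ∈ X
  · have h4 : l = -(m * e₀) := hl.unique hp (Y.ord_κ hX hW hc hQ hQX hp ha he₀)
    have h5 : t = 0 := (hΘ Q hQ hp t ht).2.2 hQX
    have h6 := h3 0 (h2 hQX)
    have h7 : (d₁ : ℤ) * ((a₁ * q' : ℕ) * l + b₁ * t) + (d₁ * a₁ * (m * q') : ℕ) * e₀ + 0 = 0 := by
      rw [h4, h5]
      push_cast
      ring
    rwa [h7] at h6
  · obtain ⟨j, rfl⟩ := (hW.exc Q).2 ⟨hQ, hp, hQX⟩
    have h4 := he j a ha e₀ l he₀ hl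
    have h5 : t = θ j := ht.unique hp (hθ j)
    have h6 := h3 _ (h1 j rfl)
    have h7 : (d₁ : ℤ) * ((a₁ * q' : ℕ) * l + b₁ * t) + (d₁ * a₁ * (m * q') : ℕ) * e₀ +
        (d₁ * a₁ * e j - d₁ * b₁ * θ j) = 0 := by
      rw [h5, h4]
      push_cast
      ring
    rwa [h7] at h6

end

end Pool.Agent.KM
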