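import Mathlib

/-!
Prime divisors of the values of a polynomial.
-/

namespace Pool.Agent.KM

open Polynomial

/-- The values of a polynomial of positive degree have infinitely many prime divisors.

PROOF (Schur). If `g 0 = 0` take `c = 0` and a prime number which does not divide `N`. Otherwise put
`a = g 0`, `c = a N x`: `g(a N x) = a h(x)` with `h = 1 + N x (...)`; for large `x` the value `h(x)`
is not `± 1`, and it is prime to `N`; take a prime divisor of it. -/
theorem exists_prime_root (g : ℤ[X]) (hg : 0 < g.natDegree) (N : ℤ) (hN : N ≠ 0) :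
    ∃ p : ℕ, p.Prime ∧ ¬ (p : ℤ) ∣ N ∧ ∃ c : ℤ, (p : ℤ) ∣ g.eval c := by
  have hq0 : g.divX ≠ 0 := by
    intro h
    rw [divX_eq_zero_iff] at h
    rw [h, natDegree_C] at hg
    exact lt_irrefl 0 hg
  by_cases ha : g.coeff 0 = 0
  · obtain ⟨p, hp, hpr⟩ := Nat.exists_infinite_primes (N.natAbs + 1)
    refine ⟨p, hpr, fun h => ?_, 0, ?_⟩
    · have h1 := Int.natAbs_dvd_natAbs.2 h
      rw [Int.natAbs_natCast] at h1
      have h2 := Nat.le_of_dvd (Int.natAbs_pos.2 hN) h1
      omega
    · rw [← coeff_zero_eq_eval_zero, ha]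
      exact dvd_zero _
  · obtain ⟨a, haa⟩ : ∃ a, a = g.coeff 0 := ⟨_, rfl⟩
    rw [← haa] at ha
    have hg1 : g.divX * X + C a = g := by
      rw [haa]
      exact divX_mul_X_add g
    have hr : (C (a * N) * X : ℤ[X]).natDegree = 1 :=
      natDegree_C_mul_X _ (mul_ne_zero ha hN)
    have hcomp : g.divX.comp (C (a * N) * X) ≠ 0 := by
      intro h
      rw [comp_eq_zero_iff] at h
      rcases h with h | ⟨-, h⟩
      · exact hq0 h
      · rw [h, natDegree_C] at hr
        exact zero_ne_one hr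
    obtain ⟨u, hu⟩ : ∃ u : ℤ[X], u = C N * X * g.divX.comp (C (a * N) * X) := ⟨_, rfl⟩
    have hu0 : u ≠ 0 := by
      rw [hu]
      exact mul_ne_zero (mul_ne_zero (C_ne_zero.2 hN) X_ne_zero) hcomp
    have hu2 : u + 2 ≠ 0 := by
      intro h
      have h1 := congrArg (eval 0) h
      rw [hu] at h1
      simp at h1
    obtain ⟨x, hx⟩ : ∃ x : ℤ, (u * (u + 2)).eval x ≠ 0 := by
      by_contra hcon
      push Not at hcon
      exact mul_ne_zero hu0 hu2 (Polynomial.funext fun x => by rw [hcon x, eval_zero])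
    rw [eval_mul, eval_add] at hx
    have hux : u.eval x = N * (x * g.divX.eval (a * N * x)) := by
      rw [hu, eval_mul, eval_mul, eval_C, eval_X, eval_comp, eval_mul, eval_C, eval_X]
      ring
    have hne : (1 + u.eval x).natAbs ≠ 1 := by
      intro h
      rcases Int.natAbs_eq_iff.1 h with h1 | h1
      · have h2 : u.eval x = 0 := by
          push_cast at h1
          linarith
        rw [h2, zero_mul] at hx
        exact hx rfl
      · have h2 : u.eval x + eval x 2 = 0 := by
          push_cast at h1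
          have h3 : eval x (2 : ℤ[X]) = 2 := eval_ofNat 2 x
          rw [h3]
          linarith
        rw [h2, mul_zero] at hx
        exact hx rfl
    obtain ⟨p, hp, hpd⟩ := Nat.exists_prime_and_dvd hne
    have hpd' : (p : ℤ) ∣ 1 + u.eval x := Int.natCast_dvd.2 hpd
    refine ⟨p, hp, fun h => ?_, a * N * x, ?_⟩
    · have h1 : (p : ℤ) ∣ u.eval x := by
        rw [hux]
        exact Dvd.dvd.mul_right h _
      have h2 : (p : ℤ) ∣ 1 := (dvd_add_left h1).1 hpd'
      have h3 := Int.natCast_dvd_natCast.1 (by exact_mod_cast h2 : ((p : ℕ) : ℤ) ∣ ((1 : ℕ) : ℤ))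
      exact hp.one_lt.ne' (Nat.dvd_one.1 h3)
    · have h1 : g.eval (a * N * x) = a * (1 + u.eval x) := by
        conv_lhs => rw [← hg1]
        rw [eval_add, eval_mul, eval_X, eval_C, hux]
        ring
      rw [h1]
      exact Dvd.dvd.mul_left hpd' _

/-- a non-zero polynomial over `ℤ` has a non-zero value (see `MvPolynomial.funext`) -/
theorem exists_eval_ne {n : ℕ} (P : MvPolynomial (Fin n) ℤ) (hP : P ≠ 0) :
    ∃ a : Fin n → ℤ, MvPolynomial.eval a P ≠ 0 := by
  by_contra hcon
  push Not at hcon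
  exact hP (MvPolynomial.funext fun a => by rw [hcon a, map_zero])

/-- Hensel's lemma for a polynomial over `ℤ` and a root modulo `p` which is not a root of the
derivative (`hensels_lemma`) -/
theorem exists_padic_root (p : ℕ) [Fact p.Prime] (g : ℤ[X]) (c : ℤ) (h : (p : ℤ) ∣ g.eval c)
    (h' : ¬ (p : ℤ) ∣ (derivative g).eval c) :
    ∃ z : ℤ_[p], g.eval₂ (Int.castRingHom ℤ_[p]) z = 0 := by
  have e1 : ∀ f : ℤ[X], (f.map (Int.castRingHom ℤ_[p])).eval (c : ℤ_[p]) = ((f.eval c : ℤ) : ℤ_[p]) := by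
    intro f
    rw [eval_map]
    exact eval₂_at_intCast (Int.castRingHom ℤ_[p]) c
  have e2 : ‖(g.map (Int.castRingHom ℤ_[p])).eval (c : ℤ_[p])‖ < 1 := by
    rw [e1]
    exact (PadicInt.norm_int_lt_one_iff_dvd _).2 h
  have e3 : ‖(g.map (Int.castRingHom ℤ_[p])).derivative.eval (c : ℤ_[p])‖ = 1 := by
    rw [derivative_map, e1]
    refine le_antisymm (PadicInt.norm_le_one _) (not_lt.1 fun h1 => h' ?_)
    exact (PadicInt.norm_int_lt_one_iff_dvd _).1 h1
  obtain ⟨z, hz, -⟩ := hensels_lemma (F := g.map (Int.castRingHom ℤ_[p])) (a := (c : ℤ_[p]))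
    (by
      rw [coe_aeval_eq_eval, e3, one_pow]
      exact e2)
  refine ⟨z, ?_⟩
  rw [← eval_map]
  simpa using hz

end Pool.Agent.KM
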