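import Pool.Agent.Lib.MP_732f67_ag.G.ExtHom
import Pool.Agent.Lib.MP_732f67_ag.G.Pres
import Pool.Agent.Lib.MP_732f67_ag.G.PrimeDiv

/-!
Cassels: finitely generated subrings of `ℂ` have homomorphisms to rings of `p`-adic integers.
-/

namespace Pool.Agent.KM

open Polynomial

/-- The elements of a finitely generated subring are of the form `g(y) / q ^ N`. -/
theorem cas_closure {P L : Type*} [CommRing P] [Field L] (i : P →+* L) (y : L) (q : P)
    (S : Set L) (hS : ∀ s ∈ S, ∃ g : P[X], i q * s = g.eval₂ i y) :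
    ∀ x ∈ Subring.closure S, ∃ (N : ℕ) (g : P[X]), i q ^ N * x = g.eval₂ i y := by
  intro x hx
  induction hx using Subring.closure_induction with
  | mem s hs =>
    obtain ⟨g, hg⟩ := hS s hs
    exact ⟨1, g, by rw [pow_one, hg]⟩
  | zero => exact ⟨0, 0, by rw [mul_zero, eval₂_zero]⟩
  | one => exact ⟨0, 1, by rw [pow_zero, mul_one, eval₂_one]⟩
  | add a b _ _ ha hb =>
    obtain ⟨N, g, hg⟩ := ha
    obtain ⟨N', g', hg'⟩ := hb
    refine ⟨N + N', C (q ^ N') * g + C (q ^ N) * g', ?_⟩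
    rw [eval₂_add, eval₂_mul, eval₂_mul, eval₂_C, eval₂_C, ← hg, ← hg', map_pow, map_pow]
    ring
  | neg a _ ha =>
    obtain ⟨N, g, hg⟩ := ha
    exact ⟨N, -g, by rw [eval₂_neg, ← hg, mul_neg]⟩
  | mul a b _ _ ha hb =>
    obtain ⟨N, g, hg⟩ := ha
    obtain ⟨N', g', hg'⟩ := hb
    refine ⟨N + N', g * g', ?_⟩
    rw [eval₂_mul, ← hg, ← hg']
    ring

/-- Every finitely generated subring of `ℂ` has a homomorphism to some ring of `p`-adic integers.

PROOF. `exists_base` and `exists_pres` for `A = ℤ` and the finite set `S`: `z`, `y`, `f`,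
`U f + V f' = D ≠ 0`, `q`. Choose `a ∈ ℤ ^ n` with `D(a) q(a) ≠ 0` (`exists_eval_ne` for `D * q`);
`f_a ∈ ℤ[Y]`: the image of `f` by `z ↦ a`, monic of positive degree. `exists_prime_root` for `f_a`
and `N = D(a) q(a)` gives `p` and `c` with `p ∣ f_a(c)`; because `U f + V f' = D`, the number
`f_a'(c)` is not divisible by `p`; so `f_a` has a root `τ` in `ℤ_p` (`exists_padic_root`). Apply
`ext_hom` to `φ : P → ℤ_p`, `z ↦ a`: `φ q = q(a)` is a unit of `ℤ_p`. The ring `Λ` = closure of `S`: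
its elements are of the form `g(y) / q ^ N` (induction over the closure). -/
theorem exists_padic (S : Finset ℂ) : ∃ (p : ℕ) (_ : Fact p.Prime),
    Nonempty (Subring.closure (S : Set ℂ) →+* ℤ_[p]) := by
  obtain ⟨n, z, hz, -, hS⟩ := exists_base (A := ℤ) S
  obtain ⟨y, f, hfm, hfd, -, hdiv, ⟨U, V, D, hD, hUV⟩, q, hq, hqs⟩ := exists_pres z hz S hS
  obtain ⟨a, ha⟩ := exists_eval_ne (D * q) (mul_ne_zero hD hq)
  rw [map_mul] at ha
  have hmon : (f.map (MvPolynomial.eval a)).Monic := hfm.map _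
  have hdeg : 0 < (f.map (MvPolynomial.eval a)).natDegree := by
    rw [hfm.natDegree_map]
    exact hfd
  obtain ⟨p, hp, hpN, c, hc⟩ := exists_prime_root _ hdeg _ ha
  have : Fact p.Prime := ⟨hp⟩
  have h' : ¬ (p : ℤ) ∣ (derivative (f.map (MvPolynomial.eval a))).eval c := by
    intro h1
    apply hpN
    have h2 := congrArg (fun g : (MvPolynomial (Fin n) ℤ)[X] =>
      (g.map (MvPolynomial.eval a)).eval c) hUV
    simp only [Polynomial.map_add, Polynomial.map_mul, eval_add, eval_mul, map_C, eval_C] at h2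
    rw [← derivative_map] at h2
    rw [← h2]
    exact Dvd.dvd.mul_right (dvd_add (Dvd.dvd.mul_left hc _) (Dvd.dvd.mul_left h1 _)) _
  obtain ⟨τ, hτ⟩ := exists_padic_root p _ c hc h'
  refine ⟨p, ⟨hp⟩, ?_⟩
  have hqu : IsUnit (((Int.castRingHom ℤ_[p]).comp (MvPolynomial.eval a)) q) := by
    rw [RingHom.comp_apply, PadicInt.isUnit_iff]
    have h1 : ¬ ‖((MvPolynomial.eval a q : ℤ) : ℤ_[p])‖ < 1 := by
      rw [PadicInt.norm_int_lt_one_iff_dvd]
      exact fun h => hpN (Dvd.dvd.mul_left h _)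
    exact le_antisymm (PadicInt.norm_le_one _) (not_lt.1 h1)
  have hqz : (MvPolynomial.aeval z : MvPolynomial (Fin n) ℤ →ₐ[ℤ] ℂ).toRingHom q ≠ 0 := by
    intro h1
    apply hq
    apply hz
    rw [map_zero]
    exact h1
  obtain ⟨Φ, -⟩ := ext_hom (MvPolynomial.aeval z : MvPolynomial (Fin n) ℤ →ₐ[ℤ] ℂ).toRingHom y f
    hdiv q hqz ((Int.castRingHom ℤ_[p]).comp (MvPolynomial.eval a)) hqu τ
    (by rwa [eval₂_map] at hτ) (Subring.closure (S : Set ℂ))
    (cas_closure _ y q (S : Set ℂ) fun s hs => hqs s hs)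
  exact ⟨Φ⟩

end Pool.Agent.KM
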