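import Pool.Agent.Lib.MP_732f67_ag.G.Pol
import Pool.Agent.Lib.MP_732f67_ag.G.Rat

/-!
Equality case: recognition of `(ℙ^1)^n`.
-/

namespace Pool.Agent.KM

variable {k L : Type*} [Field k] [Field L] [Algebra k L]

theorem eqa_cht_smul {V : Submodule k L} {c : L} (hc : c ≠ 0) (v : L) :
    cht (Submodule.span k {c} * V) (c * v) = cht V v := by
  unfold cht
  congr 1
  ext x
  constructor
  · rintro ⟨w, hw, rfl⟩
    obtain ⟨w', hw', rfl⟩ := Submodule.mem_span_singleton_mul.1 hw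
    exact ⟨w', hw', mul_div_mul_left _ _ hc⟩
  · rintro ⟨w, hw, rfl⟩
    exact ⟨c * w, Submodule.mem_span_singleton_mul.2 ⟨w, hw, rfl⟩, (mul_div_mul_left _ _ hc).symm⟩

/-- the local rings do not change if the linear system is multiplied with a function.

PROOF. `cht (c V) (c v) = cht V v`. -/
theorem pts_smul {V : Submodule k L} {c : L} (hc : c ≠ 0) :
    Pts (Submodule.span k {c} * V) = Pts V := by
  ext O
  constructor
  · rintro ⟨v, hv, hv0, hl⟩
    obtain ⟨v', hv', rfl⟩ := Submodule.mem_span_singleton_mul.1 hv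
    rw [eqa_cht_smul hc] at hl
    exact ⟨v', hv', right_ne_zero_of_mul hv0, hl⟩
  · rintro ⟨v, hv, hv0, hl⟩
    refine ⟨c * v, Submodule.mem_span_singleton_mul.2 ⟨v, hv, rfl⟩, mul_ne_zero hc hv0, ?_⟩
    rw [eqa_cht_smul hc]
    exact hl

/-- a bigger linear system of sections is very ample, too.

PROOF. `h.gen` gives at a point `O` a generator `v ∈ V`, `v ≠ 0`, `cht V v ≤ O`, `LocAt (cht V v) O`
(`BF.cht_le`, `Pts.locAt`); `cht S v ≤ O` because the elements of `S` are sections; `LocAt.of_le`. So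
`X ⊆ Pts S`, and `IsProj.eq_pts`. -/
theorem VA.pts_of_le {X : Set (Subalgebra k L)} (hX : IsProj X) {D : Subalgebra k L → Lˣ}
    {V S : Submodule k L} (h : VA X D V) (hVS : V ≤ S) (hS : S ≤ Sec X D) : X = Pts S := by
  refine hX.eq_pts fun O hO => ?_
  obtain ⟨f, hf, hu⟩ := h.gen O hO
  have hf0 : f ≠ 0 := left_ne_zero_of_mul hu.1
  have hO' : O ∈ Pts V := by
    rw [← h.eq]
    exact hO
  have hl : LocAt (cht V f) O := Pts.locAt hO' hf hf0 (h.toBF.cht_le hO hf hu)
  refine ⟨f, hVS hf, hf0, hl.of_le ?_ ?_⟩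
  · refine Algebra.adjoin_mono ?_
    rintro _ ⟨w, hw, rfl⟩
    exact ⟨w, hVS hw, rfl⟩
  · refine Algebra.adjoin_le ?_
    rintro _ ⟨w, hw, rfl⟩
    have h1 : w / f = w * (D O : L) * (f * (D O : L))⁻¹ := by
      rw [← div_eq_mul_inv, mul_div_mul_right _ _ (D O).ne_zero]
    show w / f ∈ O
    rw [h1]
    exact O.mul_mem (hS hw O hO) hu.2.2

/-- sections of linearly equivalent divisors.

PROOF. `f * D' O = f * u⁻¹ * D O * (unit of O)`. -/
theorem sec_of_equiv {X : Set (Subalgebra k L)} {D D' : Subalgebra k L → Lˣ} {u : Lˣ}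
    (h : ∀ O ∈ X, Un O (u * D' O / D O : Lˣ)) :
    Sec X D' = Submodule.span k {(u : L)} * Sec X D := by
  ext f
  rw [Submodule.mem_span_singleton_mul]
  have hu := u.ne_zero
  constructor
  · intro hf
    refine ⟨(u : L)⁻¹ * f, fun O hO => ?_, mul_inv_cancel_left₀ hu f⟩
    have h1 : (u : L)⁻¹ * f * (D O : L) = f * (D' O : L) * ((u * D' O / D O : Lˣ) : L)⁻¹ := by
      have h2 := (D O).ne_zero
      have h3 := (D' O).ne_zero
      rw [Units.val_div_eq_div_val, Units.val_mul]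
      field_simp
    rw [h1]
    exact O.mul_mem (hf O hO) (h O hO).2.2
  · rintro ⟨g, hg, rfl⟩ O hO
    have h1 : (u : L) * g * (D' O : L) = g * (D O : L) * ((u * D' O / D O : Lˣ) : L) := by
      have h2 := (D O).ne_zero
      rw [Units.val_div_eq_div_val, Units.val_mul]
      field_simp
    rw [h1]
    exact O.mul_mem (hg O hO) (h O hO).2.1

/-- `- κ` is ample, so `∑ m₁ c i M i` is very ample for some `m₁`.

PROOF. `X = Pts (Sec X (κ⁻¹ ^ m₁))`, `exists_va` gives `V` with `VA X (κ⁻¹ ^ m₁) V`, `VA.pow` (exponent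
`q'`) gives `VA X (κ⁻¹ ^ (m₁ q')) (V ^ q')`, `VA.pts_of_le` for `S = Sec X (κ⁻¹ ^ (m₁ q'))`,
`u ^ m₁ κ ^ (m₁ q') ∏ M i ^ (m₁ c i)` is a unit everywhere: `sec_of_equiv` and `pts_smul`. -/
theorem exists_pts {n m r : ℕ} {X : Set (Subalgebra k L)} {D : Fin n → Derivation k L L}
    {κ : Subalgebra k L → Lˣ} (hX : KltFano X D m κ) {q' : ℕ} (hq : 1 ≤ q') {c : Fin r → ℕ} {u : Lˣ}
    {M : Fin r → Subalgebra k L → Lˣ} (hu : QDec X κ q' c u M) :
    ∃ m₁ : ℕ, 1 ≤ m₁ ∧ X = Pts (Sec X (∏ i, M i ^ (m₁ * c i))) := by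
  obtain ⟨m₁, hm₁, hF, hP⟩ := hX.fano
  obtain ⟨V, hV⟩ := exists_va hX.proj (pol_car_pow (pol_car_inv hX.can.1) m₁) hF hP
  have hV' := VA.pow hX.proj hV hq
  have h1 := VA.pts_of_le hX.proj hV' hV'.sec le_rfl
  refine ⟨m₁, hm₁, ?_⟩
  have h2 : Sec X (∏ i, M i ^ (m₁ * c i)) =
      Submodule.span k {((u ^ m₁ : Lˣ) : L)} * Sec X ((κ⁻¹ ^ m₁) ^ q') := by
    refine sec_of_equiv fun O hO => ?_
    have h3 : (u ^ m₁ * (∏ i, M i ^ (m₁ * c i)) O / ((κ⁻¹ ^ m₁) ^ q') O : Lˣ) =
        (u * κ O ^ q' * ∏ i, M i O ^ c i) ^ m₁ := by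
      rw [Finset.prod_apply]
      simp only [Pi.pow_apply, Pi.inv_apply]
      rw [mul_pow, mul_pow, ← Finset.prod_pow, div_eq_mul_inv, ← inv_pow, ← inv_pow, inv_inv,
        ← pow_mul, ← pow_mul, mul_comm m₁ q', mul_right_comm]
      congr 1
      refine Finset.prod_congr rfl fun i _ => ?_
      rw [← pow_mul, mul_comm]
    rw [h3, Units.val_pow_eq_pow_val]
    exact (hu O hO).pow m₁
  rw [h2, pts_smul (Units.ne_zero _)]
  exact h1

open scoped Pointwise in
/-- the products of powers of linear systems with two generators are spanned by monomials -/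
theorem eqa_span {ι : Type*} [Fintype ι] (s₀ s₁ : ι → L) (N : ι → ℕ) :
    (∏ j, (Submodule.span k {s₀ j, s₁ j}) ^ N j) =
      Submodule.span k (∏ j, ({s₀ j, s₁ j} : Set L) ^ N j) := by
  rw [← Submodule.prod_span]
  exact Finset.prod_congr rfl fun j _ => Submodule.span_pow _ _

open scoped Pointwise in
/-- one factor of a monomial is replaced -/
theorem eqa_update {ι : Type*} [Fintype ι] [DecidableEq ι] {S : ι → Set L} {g : ι → L}
    (hg : ∀ j, g j ∈ S j) (j : ι) {x : L} (hx : x ∈ S j) (hj : g j ≠ 0) :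
    (∏ i, g i) * (x / g j) ∈ ∏ i, S i := by
  have h1 : (∏ i, g i) * (x / g j) = ∏ i, Function.update g j x i := by
    rw [Finset.prod_update_of_mem (Finset.mem_univ j), ← Finset.mul_prod_erase _ _
      (Finset.mem_univ j), Finset.sdiff_singleton_eq_erase]
    field_simp
  rw [h1, Set.mem_fintype_prod]
  refine ⟨_, fun i => ?_, rfl⟩
  by_cases hi : i = j
  · subst hi
    rw [Function.update_self]
    exact hx
  · rw [Function.update_of_ne hi]
    exact hg i

open scoped Pointwise in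
/-- the products of powers of linear systems with two generators: a point lies in a chart of
every factor.

PROOF. `∏ j (span {s₀ j, s₁ j}) ^ N j` is spanned by the monomials
`∏ j s₀ j ^ (N j - b j) * s₁ j ^ (b j)`, `b j ≤ N j`. `O` is a local ring of the chart of some `v`;
`v / v = 1` is a combination of the `m / v`, `m` a monomial, `m / v ∈ O`, so some `m / v` is a unit of the
local ring `O`, and `m' / m ∈ O` for all monomials `m'`. If `b j ≥ 1`, then with `m' = m s₀ j / s₁ j`: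
`s₀ j / s₁ j ∈ O` and `t j := s₁ j`; otherwise (`N j ≥ 1`) `m' = m s₁ j / s₀ j` and `t j := s₀ j`. -/
theorem exists_gens {ι : Type*} [Fintype ι] {s₀ s₁ : ι → L} (h0 : ∀ j, s₀ j ≠ 0)
    (h1 : ∀ j, s₁ j ≠ 0) {N : ι → ℕ} (hN : ∀ j, 1 ≤ N j) {O : Subalgebra k L}
    (hO : O ∈ Pts (∏ j, (Submodule.span k {s₀ j, s₁ j}) ^ N j)) :
    ∃ t : ι → L, ∀ j, (t j = s₀ j ∨ t j = s₁ j) ∧ s₀ j / t j ∈ O ∧ s₁ j / t j ∈ O := by
  classical
  have _ := h0
  have _ := h1
  obtain ⟨v, hv, hv0, hl⟩ := hO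
  have hloc := hl.isLocalRing
  have hle := hl.le
  rw [eqa_span] at hv hle
  have hdiv : ∀ w ∈ Submodule.span k (∏ j, ({s₀ j, s₁ j} : Set L) ^ N j), w / v ∈ O :=
    fun w hw => hle (Algebra.subset_adjoin ⟨w, hw, rfl⟩)
  -- a monomial whose quotient by `v` is a unit
  obtain ⟨m, hm, hmO⟩ : ∃ m ∈ ∏ j, ({s₀ j, s₁ j} : Set L) ^ N j, Un O (m / v) := by
    by_contra hcon
    push Not at hcon
    have h2 : ∀ w, ∀ hw : w ∈ Submodule.span k (∏ j, ({s₀ j, s₁ j} : Set L) ^ N j),
        (⟨w / v, hdiv w hw⟩ : O) ∈ IsLocalRing.maximalIdeal O := by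
      intro w hw
      induction hw using Submodule.span_induction with
      | mem x hx =>
        rw [IsLocalRing.mem_maximalIdeal, mem_nonunits_iff]
        rintro ⟨u, hu⟩
        have h3 := un_unit u
        rw [hu] at h3
        exact hcon x hx h3
      | zero =>
        have h3 : (⟨0 / v, hdiv 0 (Submodule.zero_mem _)⟩ : O) = 0 := Subtype.ext (zero_div v)
        rw [h3]
        exact Ideal.zero_mem _
      | add x y hx hy ihx ihy =>
        have h3 : (⟨(x + y) / v, hdiv (x + y) (Submodule.add_mem _ hx hy)⟩ : O) =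
            ⟨x / v, hdiv x hx⟩ + ⟨y / v, hdiv y hy⟩ := Subtype.ext (add_div x y v)
        rw [h3]
        exact Ideal.add_mem _ ihx ihy
      | smul a x hx ihx =>
        have h3 : (⟨(a • x) / v, hdiv (a • x) (Submodule.smul_mem _ a hx)⟩ : O) =
            algebraMap k O a * ⟨x / v, hdiv x hx⟩ := by
          apply Subtype.ext
          show a • x / v = algebraMap k L a * (x / v)
          rw [Algebra.smul_def, mul_div_assoc]
        rw [h3]
        exact Ideal.mul_mem_left _ _ ihx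
    have h4 := h2 v hv
    have h5 : (⟨v / v, hdiv v hv⟩ : O) = 1 := Subtype.ext (div_self hv0)
    rw [h5] at h4
    exact (IsLocalRing.mem_maximalIdeal (1 : O)).1 h4 isUnit_one
  have hm' : ∀ w ∈ ∏ j, ({s₀ j, s₁ j} : Set L) ^ N j, w / m ∈ O := by
    intro w hw
    have h2 : w / m = w / v * (m / v)⁻¹ := by
      rw [inv_div, div_mul_div_cancel₀ hv0]
    rw [h2]
    exact O.mul_mem (hdiv w (Submodule.subset_span hw)) hmO.2.2
  have hm0 : m ≠ 0 := by
    intro h2
    exact hmO.1 (by rw [h2, zero_div])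
  obtain ⟨g, hg, rfl⟩ := (Set.mem_fintype_prod _ _).1 hm
  have hg0 : ∀ j, g j ≠ 0 := fun j => Finset.prod_ne_zero_iff.1 hm0 j (Finset.mem_univ j)
  have key : ∀ j, ∃ t : L, (t = s₀ j ∨ t = s₁ j) ∧ s₀ j / t ∈ O ∧ s₁ j / t ∈ O := by
    intro j
    obtain ⟨N', hN'⟩ : ∃ N', N j = N' + 1 := ⟨N j - 1, by have := hN j; omega⟩
    have h3 := hg j
    rw [hN', pow_succ, Set.mem_mul] at h3
    obtain ⟨p, hp, q, hq, hpq⟩ := h3
    have hp0 : p ≠ 0 := fun h => hg0 j (by rw [← hpq, h, zero_mul])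
    have hq0 : q ≠ 0 := fun h => hg0 j (by rw [← hpq, h, mul_zero])
    have h4 : ∀ s ∈ ({s₀ j, s₁ j} : Set L), s / q ∈ O := by
      intro s hs
      have h5 := eqa_update hg j (x := p * s) (by
        rw [hN', pow_succ]
        exact Set.mul_mem_mul hp hs) (hg0 j)
      have h6 := hm' _ h5
      have h7 : (∏ i, g i) * (p * s / g j) / ∏ i, g i = s / q := by
        rw [mul_div_cancel_left₀ _ hm0, ← hpq, mul_div_mul_left _ _ hp0]
      rwa [h7] at h6
    refine ⟨q, ?_, h4 _ (Set.mem_insert _ _), h4 _ (Set.mem_insert_of_mem _ rfl)⟩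
    rcases hq with rfl | rfl
    · exact Or.inl rfl
    · exact Or.inr rfl
  choose t ht using key
  exact ⟨t, ht⟩

open scoped Pointwise in
/-- the charts of the product are generated by the charts of the factors.

PROOF. `W := ∏ j T j ^ N j`, `T j = span {s₀ j, s₁ j}`: the quotients `w / ∏ t j ^ N j`, `w ∈ W`, are
combinations of products of `s₀ j / t j`, `s₁ j / t j`; conversely `s / t j` (`s ∈ T j`) is the quotient
of `s t j ^ (N j - 1) ∏ (l ≠ j) t l ^ N l ∈ W`. -/
theorem cht_prod {ι : Type*} [Fintype ι] {s₀ s₁ : ι → L} {N : ι → ℕ} (hN : ∀ j, 1 ≤ N j) {t : ι → L}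
    (ht : ∀ j, t j = s₀ j ∨ t j = s₁ j) (ht0 : ∀ j, t j ≠ 0) :
    cht (∏ j, (Submodule.span k {s₀ j, s₁ j}) ^ N j) (∏ j, t j ^ N j) =
      Algebra.adjoin k {x | ∃ j, x = s₀ j / t j ∨ x = s₁ j / t j} := by
  classical
  have hT : ∏ j, t j ^ N j ≠ 0 := Finset.prod_ne_zero_iff.2 fun j _ => pow_ne_zero _ (ht0 j)
  have htS : ∀ j, t j ∈ ({s₀ j, s₁ j} : Set L) := by
    intro j
    rcases ht j with h | h
    · rw [h]
      exact Set.mem_insert _ _
    · rw [h]
      exact Set.mem_insert_of_mem _ rfl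
  have hS : ∀ j, ∀ s ∈ ({s₀ j, s₁ j} : Set L),
      s / t j ∈ Algebra.adjoin k {x | ∃ j, x = s₀ j / t j ∨ x = s₁ j / t j} := by
    intro j s hs
    apply Algebra.subset_adjoin
    rcases hs with rfl | rfl
    · exact ⟨j, Or.inl rfl⟩
    · exact ⟨j, Or.inr rfl⟩
  apply le_antisymm
  · rw [cht, Algebra.adjoin_le_iff]
    rintro _ ⟨w, hw, rfl⟩
    rw [eqa_span] at hw
    have hpow : ∀ j, ∀ n : ℕ, ∀ x ∈ ({s₀ j, s₁ j} : Set L) ^ n, x / t j ^ n ∈
        Algebra.adjoin k {x | ∃ j, x = s₀ j / t j ∨ x = s₁ j / t j} := by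
      intro j n
      induction n with
      | zero =>
        intro x hx
        rw [pow_zero, Set.mem_one] at hx
        rw [hx, pow_zero, div_one]
        exact Subalgebra.one_mem _
      | succ n ih =>
        intro x hx
        rw [pow_succ, Set.mem_mul] at hx
        obtain ⟨p, hp, q, hq, rfl⟩ := hx
        rw [pow_succ, mul_div_mul_comm]
        exact Subalgebra.mul_mem _ (ih p hp) (hS j q hq)
    induction hw using Submodule.span_induction with
    | mem x hx =>
      obtain ⟨g, hg, rfl⟩ := (Set.mem_fintype_prod _ _).1 hx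
      rw [← Finset.prod_div_distrib]
      exact Subalgebra.prod_mem _ fun j _ => hpow j (N j) (g j) (hg j)
    | zero =>
      rw [zero_div]
      exact Subalgebra.zero_mem _
    | add x y _ _ ihx ihy =>
      rw [add_div]
      exact Subalgebra.add_mem _ ihx ihy
    | smul a x _ ihx =>
      rw [smul_div_assoc]
      exact Subalgebra.smul_mem _ ihx a
  · rw [Algebra.adjoin_le_iff]
    have h2 : ∀ j, ∀ s ∈ ({s₀ j, s₁ j} : Set L), s / t j ∈
        cht (∏ j, (Submodule.span k {s₀ j, s₁ j}) ^ N j) (∏ j, t j ^ N j) := by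
      intro j s hs
      obtain ⟨N', hN'⟩ : ∃ N', N j = N' + 1 := ⟨N j - 1, by have := hN j; omega⟩
      have h5 := eqa_update (S := fun j => ({s₀ j, s₁ j} : Set L) ^ N j)
        (g := fun j => t j ^ N j) (fun i => Set.pow_mem_pow (htS i)) j (x := t j ^ N' * s) (by
          show t j ^ N' * s ∈ ({s₀ j, s₁ j} : Set L) ^ N j
          rw [hN', pow_succ]
          exact Set.mul_mem_mul (Set.pow_mem_pow (htS j)) hs) (pow_ne_zero _ (ht0 j))
      refine Algebra.subset_adjoin ⟨(∏ i, t i ^ N i) * (t j ^ N' * s / t j ^ N j), ?_, ?_⟩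
      · rw [eqa_span]
        exact Submodule.subset_span h5
      · rw [mul_div_cancel_left₀ _ hT, hN', pow_succ,
          mul_div_mul_left _ _ (pow_ne_zero _ (ht0 j))]
    rintro _ ⟨j, rfl | rfl⟩
    · exact h2 j _ (Set.mem_insert _ _)
    · exact h2 j _ (Set.mem_insert_of_mem _ rfl)

theorem eqa_prod_mem {ι : Type*} {T : ι → Submodule k L} {t : ι → L} (S : Finset ι)
    (h : ∀ j ∈ S, t j ∈ T j) : ∏ j ∈ S, t j ∈ ∏ j ∈ S, T j := by
  classical
  induction S using Finset.induction_on with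
  | empty =>
    rw [Finset.prod_empty, Finset.prod_empty]
    exact Submodule.one_le.1 le_rfl
  | insert a S ha ih =>
    rw [Finset.prod_insert ha, Finset.prod_insert ha]
    exact Submodule.mul_mem_mul (h a (Finset.mem_insert_self a S))
      (ih fun j hj => h j (Finset.mem_insert_of_mem hj))

open scoped Pointwise in
/-- the expansion of the product of the `{1, y i}` -/
theorem eqa_prod_pair {n : ℕ} (y : Fin n → L) :
    ∏ i, ({1, y i} : Set L) = Set.range fun s : Finset (Fin n) => ∏ i ∈ s, y i := by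
  classical
  ext a
  rw [Set.mem_fintype_prod]
  constructor
  · rintro ⟨g, hg, rfl⟩
    refine ⟨Finset.univ.filter fun i => g i ≠ 1, ?_⟩
    change ∏ i ∈ Finset.univ.filter (fun i => g i ≠ 1), y i = _
    rw [Finset.prod_filter]
    refine Finset.prod_congr rfl fun i _ => ?_
    by_cases h1 : g i = 1
    · rw [if_neg (not_not.2 h1), h1]
    · rw [if_pos h1]
      rcases hg (i := i) with h2 | h2
      · exact absurd h2 h1
      · exact h2.symm
  · rintro ⟨s, rfl⟩
    refine ⟨fun i => if i ∈ s then y i else 1, fun {i} => ?_, ?_⟩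
    · change (if i ∈ s then y i else 1) ∈ ({1, y i} : Set L)
      by_cases h1 : i ∈ s
      · rw [if_pos h1]
        exact Or.inr rfl
      · rw [if_neg h1]
        exact Or.inl rfl
    · exact Finset.prod_ite_mem_eq s y

/-- the exponents do not matter.

PROOF. `O ∈ Pts (∏ T j ^ N j)`: `exists_gens`, `cht_prod` (the chart of `∏ t j ^ N j` is contained in `O`),
`Pts.locAt`, and `cht_prod` for the exponents `1`. Then `IsProj.eq_pts`. -/
theorem pts_prod {X : Set (Subalgebra k L)} (hX : IsProj X) {ι : Type*} [Fintype ι]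
    {s₀ s₁ : ι → L} (h0 : ∀ j, s₀ j ≠ 0) (h1 : ∀ j, s₁ j ≠ 0) {N : ι → ℕ} (hN : ∀ j, 1 ≤ N j)
    (h : X = Pts (∏ j, (Submodule.span k {s₀ j, s₁ j}) ^ N j)) :
    X = Pts (∏ j, Submodule.span k {s₀ j, s₁ j}) := by
  refine hX.eq_pts fun O hO => ?_
  rw [h] at hO
  obtain ⟨t, ht⟩ := exists_gens h0 h1 hN hO
  have ht1 : ∀ j, t j = s₀ j ∨ t j = s₁ j := fun j => (ht j).1
  have ht0 : ∀ j, t j ≠ 0 := fun j => by
    rcases ht1 j with e | e <;> rw [e]
    exacts [h0 j, h1 j]
  have hA := cht_prod (k := k) hN ht1 ht0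
  have hB := cht_prod (k := k) (N := fun _ => 1) (fun _ => le_rfl) ht1 ht0
  simp only [pow_one] at hB
  have hle : cht (∏ j, (Submodule.span k {s₀ j, s₁ j}) ^ N j) (∏ j, t j ^ N j) ≤ O := by
    rw [hA]
    refine Algebra.adjoin_le ?_
    rintro x ⟨j, rfl | rfl⟩
    exacts [(ht j).2.1, (ht j).2.2]
  have htm : ∀ j, t j ∈ Submodule.span k {s₀ j, s₁ j} := fun j =>
    Submodule.subset_span (ht1 j)
  have hl := Pts.locAt hO (eqa_prod_mem Finset.univ fun j _ => Submodule.pow_mem_pow _ (htm j) (N j))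
    (Finset.prod_ne_zero_iff.2 fun j _ => pow_ne_zero _ (ht0 j)) hle
  rw [hA, ← hB] at hl
  exact ⟨∏ j, t j, eqa_prod_mem Finset.univ fun j _ => htm j,
    Finset.prod_ne_zero_iff.2 fun j _ => ht0 j, hl⟩

open scoped Pointwise in
/-- **recognition of `(ℙ^1)^n`**

PROOF. `pts_prod`; an equivalence `J ≃ Fin n`; division by `∏ s₀ j` (`pts_smul`); with
`x j = s₁ j / s₀ j` the system is `∏ span {1, x j}`, spanned by the `∏ (i ∈ s) x i`
(`Finset.prod_add`-like expansion, or induction on `n`). -/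
theorem isP1n_of {X : Set (Subalgebra k L)} (hX : IsProj X) {n : ℕ} {ι : Type} [Fintype ι]
    (hι : Fintype.card ι = n) {s₀ s₁ : ι → L} (h0 : ∀ j, s₀ j ≠ 0)
    (hx : AlgebraicIndependent k fun j => s₁ j / s₀ j) {N : ι → ℕ} (hN : ∀ j, 1 ≤ N j)
    (h : X = Pts (∏ j, (Submodule.span k {s₀ j, s₁ j}) ^ N j)) : IsP1n X n := by
  have h1 : ∀ j, s₁ j ≠ 0 := fun j hj => hx.ne_zero j (by rw [hj, zero_div])
  obtain ⟨e⟩ : Nonempty (Fin n ≃ ι) := ⟨(Fintype.equivFinOfCardEq hι).symm⟩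
  refine ⟨fun i => s₁ (e i) / s₀ (e i), hx.comp e e.injective, ?_⟩
  rw [pts_prod hX h0 h1 hN h]
  have h2 : ∏ j, Submodule.span k {s₀ j, s₁ j} = Submodule.span k {∏ j, s₀ j} *
      ∏ j, Submodule.span k {1, s₁ j / s₀ j} := by
    rw [← Submodule.prod_span_singleton, ← Finset.prod_mul_distrib]
    refine Finset.prod_congr rfl fun j _ => ?_
    rw [Submodule.span_mul_span, Set.singleton_mul, Set.image_pair, mul_one,
      mul_div_cancel₀ _ (h0 j)]
  rw [h2, pts_smul (Finset.prod_ne_zero_iff.2 fun j _ => h0 j),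
    ← Equiv.prod_comp e, Submodule.prod_span, eqa_prod_pair]

end Pool.Agent.KM
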