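import Pool.Agent.Lib.MP_732f67_ag.T.VGeo
import Pool.Agent.Lib.MP_732f67_ag.V.Lift
import Pool.Agent.Lib.MP_732f67_ag.T.PolCan

/-!
Equality case: the sections over `ℂ` and modulo `p`.
-/

namespace Pool.Agent.KM

open Pool.Agent.Lib.MP_732f67_ag
open Pool.Agent.Lib.MP_732f67_ag.KC (AJ)
open Pool.Agent.Lib.MP_732f67_ag.V (AR)

variable {L : Type} [Field L] [Algebra ℂ L] {n : ℕ} {I : Type} [Fintype I] (Y : AtD L n I)

/-- the sections of `∑ v i M i` over `ℂ` -/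
def V0 (v : I → ℤ) : Submodule ℂ L where
  carrier := {f | ∀ a, f * ∏ i, Y.d a i ^ v i ∈ Y.A a}
  zero_mem' a := by
    rw [zero_mul]
    exact (Y.A a).zero_mem
  add_mem' hf hg a := by
    rw [add_mul]
    exact (Y.A a).add_mem (hf a) (hg a)
  smul_mem' c f hf a := by
    rw [smul_mul_assoc]
    exact (Y.A a).smul_mem (hf a) c

/-- the sections modulo `p` -/
def VR (R : Red L Y.t Y.y0) (v : I → ℤ) : Set R.F :=
  {f | ∀ a, f * ∏ i, R.r (Y.d a i) ^ v i ∈ AJ (fun j => R.r (Y.z j)) Y.σ {a}}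

variable {Y}

theorem V0.mul (hY : Y.Ok) {v w : I → ℤ} {f g : L} (hf : f ∈ V0 Y v) (hg : g ∈ V0 Y w) :
    f * g ∈ V0 Y (v + w) := by
  intro a
  have h1 : ∏ i, Y.d a i ^ (v + w) i = (∏ i, Y.d a i ^ v i) * ∏ i, Y.d a i ^ w i := by
    rw [← Finset.prod_mul_distrib]
    exact Finset.prod_congr rfl fun i _ => zpow_add₀ (hY.d_ne a i) _ _
  rw [h1, mul_mul_mul_comm]
  exact (Y.A a).mul_mem (hf a) (hg a)

omit [Fintype I] in
/-- the ring of the chart -/
theorem eqB_A (a : Fin Y.k) : Y.A a = AR ℂ Y.z Y.σ {a} := by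
  refine congrArg (Algebra.adjoin ℂ) (Set.ext fun x => ⟨?_, ?_⟩)
  · rintro ⟨j, rfl⟩
    exact ⟨j, a, Finset.mem_singleton_self a, rfl⟩
  · rintro ⟨j, l, hl, rfl⟩
    rw [Finset.mem_singleton.1 hl]
    exact ⟨j, rfl⟩

/-- PROOF. `A a ⊔ A b` is generated by the `z j / z (σ a)` and `z j / z (σ b)`. -/
theorem sup_le_AR (a b : Fin Y.k) : Y.A a ⊔ Y.A b ≤ AR ℂ Y.z Y.σ {a, b} := by
  rw [eqB_A, eqB_A]
  exact sup_le (V.AR_mono (by simp)) (V.AR_mono (by simp))

theorem eqB_ne (hY : Y.Ok) (v : I → ℤ) (a : Fin Y.k) : ∏ i, Y.d a i ^ v i ≠ 0 :=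
  Finset.prod_ne_zero_iff.2 fun i _ => zpow_ne_zero _ (hY.d_ne a i)

theorem eqB_trans (hY : Y.Ok) (v : I → ℤ) (a b : Fin Y.k) :
    (∏ i, Y.d b i ^ v i) / ∏ i, Y.d a i ^ v i ∈ AR ℂ Y.z Y.σ {a, b} := by
  rw [← Finset.prod_div_distrib]
  refine (AR ℂ Y.z Y.σ {a, b}).prod_mem fun i _ => ?_
  rw [← div_zpow]
  have h1 : Y.d b i / Y.d a i ∈ AR ℂ Y.z Y.σ {a, b} := by
    rw [Finset.pair_comm]
    exact sup_le_AR b a (hY.d_trans b a i)
  have h2 : (Y.d b i / Y.d a i)⁻¹ ∈ AR ℂ Y.z Y.σ {a, b} := by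
    rw [inv_div]
    exact sup_le_AR a b (hY.d_trans a b i)
  cases v i with
  | ofNat m =>
    rw [Int.ofNat_eq_natCast, zpow_natCast]
    exact pow_mem h1 m
  | negSucc m =>
    rw [zpow_negSucc, ← inv_pow]
    exact pow_mem h2 _

theorem eqB_nonempty (hY : Y.Ok) (hN : 0 < Y.N) : Nonempty (Fin Y.k) := by
  by_contra h
  obtain ⟨e, F, -, hF⟩ := (T.vgeo hY).cov ⟨0, hN⟩
  rw [not_nonempty_iff] at h
  rw [Finset.univ_eq_empty, Finset.sum_empty] at hF
  exact pow_ne_zero _ (hY.z_ne _) hF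

/-- **lifting of sections**

PROOF. `V.ev_lift` for `φ a = ∏ i, (d a i) ^ (- v i)` with `T.vgeo`; `hφ'` from `d_trans` for `v i ≥ 0` and
`v i < 0`. `AR ℂ z σ {a} = Y.A a`. The equations `f = R.r (φ a) * x` and
`f * ∏ R.r (d a i) ^ v i = x` are the same if the `d a i`, `(d a i)⁻¹` are in `Λ`. -/
theorem exists_lift (hY : Y.Ok) (hN : 0 < Y.N) (v : I → ℤ) :
    ∃ (s : ℕ) (w : Fin s → L), LinearIndependent ℂ w ∧ Submodule.span ℂ (Set.range w) = V0 Y v ∧
      Ev Y.t Y.y0 fun R => LinearIndependent (ZMod R.p) (fun i => R.r (w i)) ∧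
        ∀ f ∈ VR Y R v, f ∈ Submodule.span (ZMod R.p) (Set.range fun i => R.r (w i)) := by
  obtain ⟨a₀⟩ := eqB_nonempty hY hN
  have hne := eqB_ne hY v
  have hdiv : ∀ (f : L) (a : Fin Y.k), f / (∏ i, Y.d a i ^ v i)⁻¹ = f * ∏ i, Y.d a i ^ v i :=
    fun f a => by rw [div_inv_eq_mul]
  obtain ⟨s, w, h1, h2, h3, h4⟩ := V.ev_lift (y := Y.y0) hY.prim.basis (T.vgeo hY)
    (φ := fun a => (∏ i, Y.d a i ^ v i)⁻¹) (fun a => inv_ne_zero (hne a)) (fun a b => by
      rw [inv_div_inv, Finset.pair_comm]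
      exact eqB_trans hY v b a) a₀
  refine ⟨s, w, h1, ?_, ?_⟩
  · refine le_antisymm (Submodule.span_le.2 ?_) fun f hf => h3 f fun a => ?_
    · rintro _ ⟨i, rfl⟩ a
      have h5 := h2 i a
      rw [hdiv] at h5
      rw [eqB_A]
      exact h5
    · rw [hdiv, ← eqB_A]
      exact hf a
  · refine (h4.and (T.ev_base hY)).mono fun R hR => ⟨hR.1.1, fun f hf => ?_⟩
    have hd := hR.2.2.2.2.1
    obtain ⟨c, hc⟩ := hR.1.2 f fun a => by
      refine ⟨_, hf a, ?_⟩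
      have h6 := T.r_prod_zpow R Finset.univ (Y.d a) (fun i _ => hY.d_ne a i)
        (fun i _ => (hd a i).1) (fun i _ => (hd a i).2.1) (fun i => -v i)
      have h7 : (∏ i, Y.d a i ^ v i)⁻¹ = ∏ i, Y.d a i ^ (-v i) := by
        rw [← Finset.prod_inv_distrib]
        exact Finset.prod_congr rfl fun i _ => (zpow_neg _ _).symm
      have h8 : (∏ i, R.r (Y.d a i) ^ (-v i)) * ∏ i, R.r (Y.d a i) ^ v i = 1 := by
        rw [← Finset.prod_mul_distrib]
        refine Finset.prod_eq_one fun i _ => ?_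
        rw [← zpow_add₀ (hd a i).2.2, neg_add_cancel, zpow_zero]
      rw [h7, h6.2, mul_left_comm, h8, mul_one]
    rw [hc]
    exact Submodule.sum_mem _ fun i _ => Submodule.smul_mem _ _ (Submodule.subset_span ⟨i, rfl⟩)

/-- the reduction of a section.

PROOF. `f ∏ d ^ v ∈ A a = ℂ[z j / z (σ a)]`: `ev_adjoin` for the generators `z j / z (σ a)`. -/
theorem ev_V0 (hY : Y.Ok) {v : I → ℤ} {f : L} (hf : f ∈ V0 Y v) :
    Ev Y.t Y.y0 fun R => R.r f ∈ VR Y R v := by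
  classical
  have h1 : ∀ a, Ev Y.t Y.y0 fun R => R.r (f * ∏ i, Y.d a i ^ v i) ∈ Subring.closure
      (R.r '' ((Finset.univ.image fun j => Y.z j / Y.z (Y.σ a) : Finset L) : Set L)) := by
    intro a
    have h2 : f * ∏ i, Y.d a i ^ v i ∈ Algebra.adjoin ℂ
        ((Finset.univ.image fun j => Y.z j / Y.z (Y.σ a) : Finset L) : Set L) := by
      rw [Finset.coe_image, Finset.coe_univ, Set.image_univ]
      exact hf a
    exact (ev_adjoin _ h2).mono fun R hR => hR.2.2.2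
  refine ((Ev.all h1).and ((T.ev_base hY).and (ev_mem f))).mono fun R hR a => ?_
  obtain ⟨hR1, ⟨hz, -, -, hd, -⟩, hfΛ⟩ := hR
  have h6 := T.r_prod_zpow R Finset.univ (Y.d a) (fun i _ => hY.d_ne a i)
    (fun i _ => (hd a i).1) (fun i _ => (hd a i).2.1) v
  rw [← h6.2, ← R.r_mul hfΛ h6.1]
  refine Subring.closure_mono ?_ (hR1 a)
  rintro _ ⟨x, hx, rfl⟩
  obtain ⟨j, -, rfl⟩ := Finset.mem_image.1 (Finset.mem_coe.1 hx)
  refine ⟨j, a, Finset.mem_singleton_self a, ?_⟩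
  rw [div_eq_mul_inv, R.r_mul (hz j).1 (hz _).2.1, R.r_inv (hY.z_ne _) (hz _).1 (hz _).2.1,
    div_eq_mul_inv]

/-- the regular functions are constant.

PROOF. `V0 Y 0` is finite dimensional (`exists_lift`) and a ring: all elements are algebraic over
`ℂ`, so they are in `ℂ` (`IsAlgClosed`). -/
theorem V0_zero (hY : Y.Ok) (hN : 0 < Y.N) {f : L} (hf : f ∈ V0 Y 0) :
    ∃ c : ℂ, f = algebraMap ℂ L c := by
  obtain ⟨s, w, -, hspan, -⟩ := exists_lift hY hN 0
  have h1 : ∀ c : ℂ, algebraMap ℂ L c ∈ V0 Y 0 := fun c a => by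
    have h2 : ∏ i, Y.d a i ^ (0 : I → ℤ) i = 1 :=
      Finset.prod_eq_one fun i _ => by rw [Pi.zero_apply, zpow_zero]
    rw [h2, mul_one]
    exact (Y.A a).algebraMap_mem c
  let S : Subalgebra ℂ L :=
    { carrier := V0 Y 0
      mul_mem' := fun {f g} hf hg => by
        have h2 := V0.mul hY hf hg
        rwa [add_zero] at h2
      add_mem' := fun hf hg => (V0 Y 0).add_mem hf hg
      algebraMap_mem' := h1 }
  have hS : (Subalgebra.toSubmodule S).FG := by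
    have h3 : Subalgebra.toSubmodule S = V0 Y 0 := rfl
    rw [h3, ← hspan]
    exact Submodule.fg_span (Set.finite_range w)
  have hint : IsIntegral ℂ f := IsIntegral.of_mem_of_fg S hS f hf
  have hdeg := IsAlgClosed.degree_eq_one_of_irreducible ℂ (minpoly.irreducible hint)
  obtain ⟨c, hc⟩ := minpoly.mem_range_of_degree_eq_one ℂ f hdeg
  exact ⟨c, hc.symm⟩

/-- the regular functions modulo `p`.

PROOF. `exists_lift` for `v = 0`: the elements of `w` are constants (`V0_zero`), their reductions lie in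
the prime field (`R.ψ_spec`). -/
theorem ev_VR_zero (hY : Y.Ok) (hN : 0 < Y.N) :
    Ev Y.t Y.y0 fun R => ∀ f ∈ VR Y R 0, ∃ c : ZMod R.p, f = algebraMap (ZMod R.p) R.F c := by
  obtain ⟨s, w, -, hspan, hev⟩ := exists_lift hY hN 0
  have h1 : ∀ i, ∃ c : ℂ, w i = algebraMap ℂ L c := fun i =>
    V0_zero hY hN (hspan ▸ Submodule.subset_span ⟨i, rfl⟩)
  choose c hc using h1
  refine (hev.and (Ev.all fun i => ev_mem (algebraMap ℂ L (c i)))).mono fun R hR f hf => ?_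
  have h2 := hR.1.2 f hf
  have h3 : Submodule.span (ZMod R.p) (Set.range fun i => R.r (w i)) ≤
      LinearMap.range (Algebra.linearMap (ZMod R.p) R.F) := by
    rw [Submodule.span_le]
    rintro _ ⟨i, rfl⟩
    refine ⟨R.ψ ⟨c i, hR.2 i⟩, ?_⟩
    rw [Algebra.linearMap_apply, ← R.ψ_spec]
    show R.r (algebraMap ℂ L (c i)) = R.r (w i)
    rw [← hc i]
  obtain ⟨d, hd⟩ := h3 h2
  exact ⟨d, hd.symm⟩

/-- algebraic independence over `ℂ` from algebraic independence modulo `p`.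

PROOF. Suppose `P ≠ 0`, `P (x) = 0`. Let `B` be generated by the coefficients of `P` and the inverse of a
nonzero coefficient `c`; for the reductions in `Ev` (`ev_B`, `ev_mem`, `ev_ne`) lift `P` to
`P' : MvPolynomial ι B`: the reduction `map (R.ψB B hB) P'` is not zero and vanishes at `R.r ∘ x`. -/
theorem algInd_of {ι : Type} [Finite ι] {x : ι → L} {t : Fin n → L} {y : L}
    (h : ∀ P : Red L t y → Prop, Ev t y P → ∃ R, P R ∧
      AlgebraicIndependent (ZMod R.p) fun i => R.r (x i)) : AlgebraicIndependent ℂ x := by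
  classical
  cases nonempty_fintype ι
  rw [algebraicIndependent_iff]
  intro P hP
  by_contra hP0
  obtain ⟨d, hd⟩ := MvPolynomial.ne_zero_iff.1 hP0
  obtain ⟨T, hT⟩ := V.inj_lift_mv P
  let S : Finset ℂ := insert (P.coeff d)⁻¹ (insert (P.coeff d) T)
  obtain ⟨R, ⟨hRB, hRx, hRd⟩, hR⟩ := h (fun R => Subring.closure (S : Set ℂ) ≤ R.C ∧
    (∀ i, x i ∈ R.Λ) ∧ R.r (algebraMap ℂ L (P.coeff d)) ≠ 0)
    ((ev_B S).and ((Ev.all fun i => ev_mem (x i)).and
      ((ev_ne ((map_ne_zero _).2 hd)).mono fun R hR => hR.2.2)))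
  obtain ⟨P', hP'⟩ := hT (Subring.closure (S : Set ℂ)) fun c hc =>
    Subring.subset_closure (Finset.mem_coe.2
      (Finset.mem_insert_of_mem (Finset.mem_insert_of_mem hc)))
  have hev : ∀ Q : MvPolynomial ι (Subring.closure (S : Set ℂ)),
      (MvPolynomial.aeval x (MvPolynomial.map (Subring.subtype _) Q) : L) ∈ R.Λ ∧
        R.r (MvPolynomial.aeval x (MvPolynomial.map (Subring.subtype _) Q)) =
          MvPolynomial.aeval (fun i => R.r (x i)) (MvPolynomial.map (R.ψB _ hRB) Q) := by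
    intro Q
    induction Q using MvPolynomial.induction_on with
    | C c =>
      rw [MvPolynomial.map_C, MvPolynomial.aeval_C, MvPolynomial.map_C, MvPolynomial.aeval_C]
      exact ⟨hRB c.2, R.ψ_spec ⟨c, hRB c.2⟩⟩
    | add a b ha hb =>
      simp only [map_add]
      exact ⟨R.Λ.add_mem ha.1 hb.1, by rw [R.r_add ha.1 hb.1, ha.2, hb.2]⟩
    | mul_X a i ha =>
      simp only [map_mul, MvPolynomial.map_X, MvPolynomial.aeval_X]
      exact ⟨R.Λ.mul_mem ha.1 (hRx i), by rw [R.r_mul ha.1 (hRx i), ha.2]⟩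
  have h1 := (hev P').2
  rw [hP', hP, R.r_zero] at h1
  have h2 := algebraicIndependent_iff.1 hR _ h1.symm
  have h3 := congrArg (MvPolynomial.coeff d) h2
  rw [MvPolynomial.coeff_map, MvPolynomial.coeff_zero] at h3
  apply hRd
  have h4 : P.coeff d = ((P'.coeff d : Subring.closure (S : Set ℂ)) : ℂ) := by
    rw [← hP', MvPolynomial.coeff_map]
    rfl
  rw [h4]
  have h5 := R.ψ_spec ⟨_, hRB (P'.coeff d).2⟩
  rw [h5]
  have h6 : R.ψ ⟨_, hRB (P'.coeff d).2⟩ = 0 := h3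
  rw [h6, map_zero]

end Pool.Agent.KM
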