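import Pool.Agent.Lib.MP_732f67_ag.G.EqB
import Pool.Agent.Lib.MP_732f67_ag.KM.Asm
import Pool.Agent.Lib.MP_732f67_ag.T.Ind

/-!
Equality case: from the equality data modulo `p` to the sections over `ℂ`.
-/

namespace Pool.Agent.KM

open Pool.Agent.Lib.MP_732f67_ag.KC (AJ)

variable {L : Type} [Field L] [Algebra ℂ L] {n : ℕ} {I : Type} [Fintype I] [DecidableEq I]

/-- the equality data for one reduction (the conclusion of `Atl.Good.asm`) -/
def EqData (Y : AtD L n I) (J : Finset I) (R : Red L Y.t Y.y0) : Prop :=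
  ∃ (K : Subfield R.F) (Z : _root_.KM.Atl K (Fin Y.k) I),
    (∀ a, Z.A a = AJ (fun j => R.r (Y.z j)) Y.σ {a}) ∧ (∀ a i, Z.d a i = R.r (Y.d a i)) ∧
    (∀ i, ∃ j ∈ J, ∃ g, g ≠ 0 ∧ g ∈ Z.V (_root_.KM.e i 1 - _root_.KM.e j 1) ∧
      g⁻¹ ∈ Z.V (_root_.KM.e j 1 - _root_.KM.e i 1)) ∧
    (∀ u ∈ _root_.KM.Nn J, Module.finrank K (Z.V u) = ∏ j ∈ J, ((u j).toNat + 1)) ∧
    ∀ s₀ s₁ : I → R.F, (∀ j ∈ J, s₀ j ∈ Z.V (_root_.KM.e j 1) ∧ s₁ j ∈ Z.V (_root_.KM.e j 1) ∧
      s₀ j ≠ 0 ∧ s₁ j / s₀ j ∉ K) → AlgebraicIndependent K (fun j : J => s₁ j / s₀ j)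

/-- the equality data in characteristic zero -/
structure EqC (Y : AtD L n I) (J : Finset I) (s₀ s₁ : I → L) : Prop where
  ne : ∀ j ∈ J, s₀ j ≠ 0
  alg : AlgebraicIndependent ℂ (fun j : J => s₁ j / s₀ j)
  sec : ∀ u : I → ℕ, (∀ i ∉ J, u i = 0) →
    V0 Y (fun i => (u i : ℤ)) = ∏ j ∈ J, (Submodule.span ℂ {s₀ j, s₁ j}) ^ u j
  link : ∀ i, ∃ j ∈ J, ∃ g, g ≠ 0 ∧ g ∈ V0 Y (_root_.KM.e i 1 - _root_.KM.e j 1) ∧
    g⁻¹ ∈ V0 Y (_root_.KM.e j 1 - _root_.KM.e i 1)

variable {Y : AtD L n I} {J : Finset I}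

omit [DecidableEq I] in
/-- a section of the atlas modulo `p` -/
theorem mem_Z_iff {R : Red L Y.t Y.y0} {K : Subfield R.F} {Z : _root_.KM.Atl K (Fin Y.k) I}
    (hA : ∀ a, Z.A a = AJ (fun j => R.r (Y.z j)) Y.σ {a}) (hd : ∀ a i, Z.d a i = R.r (Y.d a i))
    (v : I → ℤ) (f : R.F) : f ∈ Z.V v ↔ f ∈ VR Y R v := by
  show (∀ a, f * ∏ j, Z.d a j ^ v j ∈ Z.A a) ↔
    ∀ a, f * ∏ i, R.r (Y.d a i) ^ v i ∈ AJ (fun j => R.r (Y.z j)) Y.σ {a}
  simp only [hA, hd]

omit [Fintype I] in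
theorem eqC_same (j : I) (m : ℤ) : (_root_.KM.e j m : I → ℤ) j = m := by
  simp

omit [Fintype I] in
theorem eqC_ne {i j : I} (h : i ≠ j) (m : ℤ) : (_root_.KM.e j m : I → ℤ) i = 0 := by
  simp [h]

/-- algebraic independence over the prime field -/
theorem algInd_prime {F : Type*} [Field F] {p : ℕ} [Fact p.Prime] [Algebra (ZMod p) F]
    {K : Subfield F} {ι : Type*} {x : ι → F} (h : AlgebraicIndependent K x) :
    AlgebraicIndependent (ZMod p) x := by
  have hmem : ∀ c : ZMod p, algebraMap (ZMod p) F c ∈ K := fun c => by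
    obtain ⟨k, rfl⟩ := ZMod.intCast_surjective c
    rw [map_intCast]
    exact intCast_mem K k
  let φ : ZMod p →+* K := (algebraMap (ZMod p) F).codRestrict K hmem
  have h1 : ∀ P : MvPolynomial ι (ZMod p), MvPolynomial.aeval x P =
      MvPolynomial.aeval x (MvPolynomial.map φ P) := fun P => by
    rw [MvPolynomial.aeval_def, MvPolynomial.aeval_def, MvPolynomial.eval₂_map]
    rfl
  rw [algebraicIndependent_iff]
  intro P hP
  rw [h1] at hP
  have h2 := algebraicIndependent_iff.1 h _ hP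
  exact MvPolynomial.map_injective φ φ.injective (by rw [h2, map_zero])

/-- independence and generation over a prime field `K` -/
theorem prime_span {F : Type*} [Field F] {p : ℕ} [Fact p.Prime] [Algebra (ZMod p) F] {K : Subfield F}
    (hK : ∀ x ∈ K, ∃ c : ZMod p, x = algebraMap (ZMod p) F c) {s : ℕ} {w : Fin s → F}
    (hw : LinearIndependent (ZMod p) w) {V : Submodule K F} (hV : ∀ i, w i ∈ V)
    (hV' : ∀ f ∈ V, f ∈ Submodule.span (ZMod p) (Set.range w)) :
    LinearIndependent K w ∧ V = Submodule.span K (Set.range w) := by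
  have hmem : ∀ c : ZMod p, algebraMap (ZMod p) F c ∈ K := fun c => by
    obtain ⟨k, rfl⟩ := ZMod.intCast_surjective c
    rw [map_intCast]
    exact intCast_mem K k
  constructor
  · rw [Fintype.linearIndependent_iff]
    intro g hg i
    choose c hc using fun i => hK (g i) (g i).2
    have h1 : ∑ i, c i • w i = 0 := by
      rw [← hg]
      refine Finset.sum_congr rfl fun i _ => ?_
      rw [Algebra.smul_def, ← hc i]
      rfl
    have h2 := Fintype.linearIndependent_iff.1 hw c h1 i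
    apply Subtype.ext
    rw [hc i, h2, map_zero]
    rfl
  · apply le_antisymm
    · intro f hf
      obtain ⟨c, rfl⟩ := (Submodule.mem_span_range_iff_exists_fun (ZMod p)).1 (hV' f hf)
      refine Submodule.sum_mem _ fun i _ => ?_
      have h1 : c i • w i = (⟨algebraMap (ZMod p) F (c i), hmem (c i)⟩ : K) • w i := by
        rw [Algebra.smul_def]
        rfl
      rw [h1]
      exact Submodule.smul_mem _ _ (Submodule.subset_span ⟨i, rfl⟩)
    · rw [Submodule.span_le]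
      rintro _ ⟨i, rfl⟩
      exact hV i

omit [DecidableEq I] in
/-- the field `K` is the prime field -/
theorem prime_of {R : Red L Y.t Y.y0} {K : Subfield R.F} {Z : _root_.KM.Atl K (Fin Y.k) I}
    (hA : ∀ a, Z.A a = AJ (fun j => R.r (Y.z j)) Y.σ {a}) (hd : ∀ a i, Z.d a i = R.r (Y.d a i))
    (h0 : ∀ f ∈ VR Y R 0, ∃ c : ZMod R.p, f = algebraMap (ZMod R.p) R.F c) :
    ∀ x ∈ K, ∃ c : ZMod R.p, x = algebraMap (ZMod R.p) R.F c := by
  intro x hx
  apply h0
  rw [← mem_Z_iff hA hd]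
  intro a
  have h1 : Z.eq a 0 = 1 := by
    unfold _root_.KM.Atl.eq
    exact Finset.prod_eq_one fun j _ => by rw [Pi.zero_apply, zpow_zero]
  rw [h1, mul_one]
  exact Z.le a x hx

/-- the dimension over `ℂ` is the dimension modulo `p`.

PROOF. `exists_lift` for `v` gives a basis `w` of `V0 Y v` with `s` elements. Take `R` in the `Ev` of
`exists_lift` and `ev_VR_zero` (and `ev_V0` for the `w i`) with the equality data. `K` is the prime field:
`x ∈ K` lies in all the rings (`Z.le`), so in `VR Y R 0`. So the `R.r (w i)` form a basis of `Z.V v` over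
`K`. -/
theorem finrank_V0 (hY : Y.Ok) (hN : 0 < Y.N)
    (h : ∀ P, Ev Y.t Y.y0 P → ∃ R, P R ∧ EqData Y J R) {u : I → ℤ} (hu : u ∈ _root_.KM.Nn J) :
    Module.finrank ℂ (V0 Y u) = ∏ j ∈ J, ((u j).toNat + 1) := by
  obtain ⟨s, w, hw, hspan, hev⟩ := exists_lift hY hN u
  have hwV : ∀ i, w i ∈ V0 Y u := fun i => by
    rw [← hspan]
    exact Submodule.subset_span ⟨i, rfl⟩
  obtain ⟨R, ⟨⟨hli, hgen⟩, h0, hwR⟩, K, Z, hA, hd, -, h2, -⟩ := h _ (hev.and
    ((ev_VR_zero hY hN).and (Ev.all fun i => ev_V0 hY (hwV i))))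
  have hK := prime_of hA hd h0
  obtain ⟨hl, hZ⟩ := prime_span hK hli (V := Z.V u) (fun i => (mem_Z_iff hA hd u _).2 (hwR i))
    fun f hf => hgen f ((mem_Z_iff hA hd u f).1 hf)
  rw [← h2 u hu, hZ, finrank_span_eq_card hl, ← hspan, finrank_span_eq_card hw]

/-- PROOF. `finrank_V0` for `e j 1`: the dimension is `2`. -/
theorem exists_two (hY : Y.Ok) (hN : 0 < Y.N)
    (h : ∀ P, Ev Y.t Y.y0 P → ∃ R, P R ∧ EqData Y J R) {j : I} (hj : j ∈ J) :
    ∃ s₀ s₁ : L, V0 Y (_root_.KM.e j 1) = Submodule.span ℂ {s₀, s₁} ∧ s₀ ≠ 0 ∧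
      LinearIndependent ℂ ![s₀, s₁] := by
  obtain ⟨s, w, hw, hspan, -⟩ := exists_lift hY hN (_root_.KM.e j 1)
  have hu : (_root_.KM.e j 1 : I → ℤ) ∈ _root_.KM.Nn J := by
    refine ⟨fun i => ?_, fun i hi => ?_⟩
    · by_cases hij : i = j
      · subst hij
        rw [eqC_same]
        exact zero_le_one
      · rw [eqC_ne hij]
    · rw [eqC_ne]
      rintro rfl
      exact hi hj
  have h1 := finrank_V0 hY hN h hu
  rw [← hspan, finrank_span_eq_card hw, Fintype.card_fin, Finset.prod_eq_single j] at h1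
  · rw [eqC_same] at h1
    subst h1
    refine ⟨w 0, w 1, ?_, hw.ne_zero 0, ?_⟩
    · rw [← hspan]
      congr 1
      ext x
      simp [Fin.exists_fin_two, eq_comm]
    · have h2 : ![w 0, w 1] = w := by
        funext i
        fin_cases i <;> rfl
      rw [h2]
      exact hw
  · intro i _ hij
    rw [eqC_ne hij]
    rfl
  · exact fun h2 => absurd hj h2

/-- PROOF. `algInd_of`: for `P` in `Ev` take `R` with the equality data, with the reductions of `s₀ j`,
`s₁ j` sections (`ev_V0`) and linearly independent over the prime field `K` (by `exists_lift` for `e j 1`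
they are the images of a basis under an invertible matrix; or choose `s₀`, `s₁` as `w 0`, `w 1` in
`exists_two`), so `R.r (s₁ j) / R.r (s₀ j) ∉ K`. -/
theorem algInd_two (hY : Y.Ok) (hN : 0 < Y.N)
    (h : ∀ P, Ev Y.t Y.y0 P → ∃ R, P R ∧ EqData Y J R) {s₀ s₁ : I → L}
    (hs : ∀ j ∈ J, V0 Y (_root_.KM.e j 1) = Submodule.span ℂ {s₀ j, s₁ j} ∧ s₀ j ≠ 0 ∧
      LinearIndependent ℂ ![s₀ j, s₁ j]) :
    AlgebraicIndependent ℂ (fun j : J => s₁ j / s₀ j) := by
  have htr : ∀ j ∈ J, Transcendental ℂ (s₁ j / s₀ j) := by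
    intro j hj
    by_contra hcon
    have h1 : IsAlgebraic ℂ (s₁ j / s₀ j) := not_not.1 hcon
    obtain ⟨c, hc⟩ := minpoly.mem_range_of_degree_eq_one ℂ _
      (IsAlgClosed.degree_eq_one_of_irreducible ℂ (minpoly.irreducible h1.isIntegral))
    have h2 := (LinearIndependent.pair_iff.1 (hs j hj).2.2) (-c) 1 (by
      rw [Algebra.smul_def, map_neg, one_smul, hc]
      have := (hs j hj).2.1
      field_simp
      ring)
    exact one_ne_zero h2.2
  refine algInd_of (t := Y.t) (y := Y.y0) fun P hP => ?_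
  have e1 : Ev Y.t Y.y0 fun R => ∀ j : J, R.r (s₀ j) ∈ VR Y R (_root_.KM.e (j : I) 1) ∧
      R.r (s₁ j) ∈ VR Y R (_root_.KM.e (j : I) 1) ∧ R.r (s₀ j) ≠ 0 ∧
      R.r (s₁ j / s₀ j) = R.r (s₁ j) / R.r (s₀ j) ∧
      Transcendental (ZMod R.p) (R.r (s₁ j / s₀ j)) := by
    refine Ev.all fun j => ?_
    obtain ⟨h1, h2, -⟩ := hs j j.2
    have hm0 : s₀ j ∈ V0 Y (_root_.KM.e (j : I) 1) := by
      rw [h1]
      exact Submodule.subset_span (by simp)
    have hm1 : s₁ j ∈ V0 Y (_root_.KM.e (j : I) 1) := by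
      rw [h1]
      exact Submodule.subset_span (by simp)
    refine (((ev_V0 hY hm0).and (ev_V0 hY hm1)).and (((ev_ne h2).and (ev_mem (s₁ j))).and
      (Pool.Agent.Lib.MP_732f67_ag.T.ev_transc hY.prim.basis (htr j j.2)))).mono fun R hR => ?_
    obtain ⟨⟨a1, a2⟩, ⟨⟨b1, b2, b3⟩, c1⟩, d1⟩ := hR
    refine ⟨a1, a2, b3, ?_, d1⟩
    rw [div_eq_mul_inv, div_eq_mul_inv, R.r_mul c1 b2, R.r_inv h2 b1 b2]
  obtain ⟨R, ⟨hPR, h0, hR⟩, K, Z, hA, hd, -, -, h3⟩ := h _ (hP.and ((ev_VR_zero hY hN).and e1))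
  refine ⟨R, hPR, ?_⟩
  have hK := prime_of hA hd h0
  have h4 := h3 (fun j => R.r (s₀ j)) (fun j => R.r (s₁ j)) fun j hj => by
    obtain ⟨a1, a2, a3, a4, a5⟩ := hR ⟨j, hj⟩
    refine ⟨(mem_Z_iff hA hd _ _).2 a1, (mem_Z_iff hA hd _ _).2 a2, a3, fun h5 => ?_⟩
    obtain ⟨c, hc⟩ := hK _ h5
    dsimp only at a4 a5
    rw [a4, hc] at a5
    exact a5 (isAlgebraic_algebraMap c)
  have h5 : (fun j : J => R.r (s₁ j / s₀ j)) = fun j : J => R.r (s₁ j) / R.r (s₀ j) :=
    funext fun j => (hR j).2.2.2.1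
  rw [h5]
  exact algInd_prime h4

omit [Algebra ℂ L] in
theorem mon_eq {s t : L} (hs : s ≠ 0) {a : ℕ} (b : ℕ) (hb : b ≤ a) :
    s ^ (a - b) * t ^ b = s ^ a * (t / s) ^ b := by
  obtain ⟨c, rfl⟩ := Nat.exists_eq_add_of_le hb
  rw [Nat.add_sub_cancel_left, pow_add, div_pow]
  field_simp

/-- products of elements of submodules -/
theorem prod_mem_prodS {ι : Type*} (s : Finset ι) (S : ι → Submodule ℂ L) (f : ι → L)
    (h : ∀ i ∈ s, f i ∈ S i) : ∏ i ∈ s, f i ∈ ∏ i ∈ s, S i := by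
  classical
  induction s using Finset.induction_on with
  | empty =>
    rw [Finset.prod_empty, Finset.prod_empty]
    exact Submodule.one_le.1 le_rfl
  | insert i s hi ih =>
    rw [Finset.prod_insert hi, Finset.prod_insert hi]
    exact Submodule.mul_mem_mul (h i (Finset.mem_insert_self i s))
      (ih fun j hj => h j (Finset.mem_insert_of_mem hj))

/-- monomials in algebraically independent quotients are independent.

PROOF. `s₀ ^ (u - b) s₁ ^ b = s₀ ^ u x ^ b`, distinct monomials in the `x j`. -/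
theorem finrank_prod_le {s₀ s₁ : I → L} (h0 : ∀ j ∈ J, s₀ j ≠ 0)
    (hx : AlgebraicIndependent ℂ (fun j : J => s₁ j / s₀ j)) (u : I → ℕ) :
    ∏ j ∈ J, (u j + 1) ≤
      Module.finrank ℂ ↥(∏ j ∈ J, (Submodule.span ℂ {s₀ j, s₁ j}) ^ u j : Submodule ℂ L) := by
  classical
  have hfg : (∏ j ∈ J, (Submodule.span ℂ {s₀ j, s₁ j}) ^ u j : Submodule ℂ L).FG := by
    refine Finset.prod_induction _ Submodule.FG (fun _ _ h1 h2 => h1.mul h2) ?_ fun j _ =>
      (Submodule.fg_span (by simp)).pow _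
    rw [Submodule.one_eq_span]
    exact Submodule.fg_span_singleton 1
  have : Module.Finite ℂ ↥(∏ j ∈ J, (Submodule.span ℂ {s₀ j, s₁ j}) ^ u j : Submodule ℂ L) :=
    Module.Finite.iff_fg.2 hfg
  -- the monomials
  let mon : (∀ j : J, Fin (u j + 1)) → L := fun b =>
    ∏ j : J, (s₀ j ^ (u j - (b j : ℕ)) * s₁ j ^ (b j : ℕ))
  have hmon : ∀ b, mon b ∈ (∏ j ∈ J, (Submodule.span ℂ {s₀ j, s₁ j}) ^ u j : Submodule ℂ L) := by
    intro b
    rw [← Finset.prod_coe_sort]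
    refine prod_mem_prodS _ _ _ fun j _ => ?_
    have h1 : u j - (b j : ℕ) + (b j : ℕ) = u j := Nat.sub_add_cancel (Nat.lt_succ_iff.1 (b j).2)
    have h2 : (Submodule.span ℂ {s₀ (j : I), s₁ (j : I)}) ^ u j =
        (Submodule.span ℂ {s₀ (j : I), s₁ (j : I)}) ^ (u j - (b j : ℕ)) *
          (Submodule.span ℂ {s₀ (j : I), s₁ (j : I)}) ^ (b j : ℕ) := by
      rw [← pow_add, h1]
    rw [h2]
    exact Submodule.mul_mem_mul (Submodule.pow_mem_pow _ (Submodule.subset_span (by simp)) _)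
      (Submodule.pow_mem_pow _ (Submodule.subset_span (by simp)) _)
  have hli : LinearIndependent ℂ mon := by
    let c : L := ∏ j : J, s₀ j ^ u j
    have hc : c ≠ 0 := Finset.prod_ne_zero_iff.2 fun j _ => pow_ne_zero _ (h0 j j.2)
    let φ : MvPolynomial J ℂ →ₗ[ℂ] L := (LinearMap.mulLeft ℂ c).comp
      (MvPolynomial.aeval (fun j : J => s₁ j / s₀ j) : MvPolynomial J ℂ →ₐ[ℂ] L).toLinearMap
    have hφ : LinearMap.ker φ = ⊥ := by
      rw [LinearMap.ker_eq_bot']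
      intro P hP
      have h1 : c * MvPolynomial.aeval (fun j : J => s₁ j / s₀ j) P = 0 := hP
      exact algebraicIndependent_iff.1 hx P ((mul_eq_zero.1 h1).resolve_left hc)
    let d : (∀ j : J, Fin (u j + 1)) → (J →₀ ℕ) := fun b =>
      Finsupp.equivFunOnFinite.symm fun j => (b j : ℕ)
    have hd : Function.Injective d := by
      intro b b' hb
      funext j
      have h1 := congrArg (fun v : J →₀ ℕ => v j) hb
      exact Fin.ext h1
    have h2 := ((MvPolynomial.basisMonomials J ℂ).linearIndependent.comp d hd).map' φ hφ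
    have h3 : mon = φ ∘ (MvPolynomial.basisMonomials J ℂ) ∘ d := by
      funext b
      show mon b = c * MvPolynomial.aeval (fun j : J => s₁ j / s₀ j)
        (MvPolynomial.basisMonomials J ℂ (d b))
      rw [MvPolynomial.coe_basisMonomials, MvPolynomial.aeval_monomial, map_one, one_mul,
        Finsupp.prod_fintype _ _ fun _ => pow_zero _, ← Finset.prod_mul_distrib]
      refine Finset.prod_congr rfl fun j _ => ?_
      exact mon_eq (h0 j j.2) _ (Nat.lt_succ_iff.1 (b j).2)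
    rw [h3]
    exact h2
  let mon' : (∀ j : J, Fin (u j + 1)) →
    ↥(∏ j ∈ J, (Submodule.span ℂ {s₀ j, s₁ j}) ^ u j : Submodule ℂ L) := fun b => ⟨mon b, hmon b⟩
  have hli' : LinearIndependent ℂ mon' :=
    LinearIndependent.of_comp (Submodule.subtype _) hli
  have h1 := hli'.fintype_card_le_finrank
  rw [Fintype.card_pi] at h1
  simp only [Fintype.card_fin] at h1
  rw [← Finset.prod_coe_sort J fun j => u j + 1]
  exact h1

/-- PROOF. `V0.mul` gives `≥`; `finrank_V0` and `finrank_prod_le` (a finite dimensional space). -/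
theorem V0_eq_prod (hY : Y.Ok) (hN : 0 < Y.N)
    (h : ∀ P, Ev Y.t Y.y0 P → ∃ R, P R ∧ EqData Y J R) {s₀ s₁ : I → L}
    (hs : ∀ j ∈ J, V0 Y (_root_.KM.e j 1) = Submodule.span ℂ {s₀ j, s₁ j} ∧ s₀ j ≠ 0 ∧
      LinearIndependent ℂ ![s₀ j, s₁ j]) {u : I → ℕ} (hu : ∀ i ∉ J, u i = 0) :
    V0 Y (fun i => (u i : ℤ)) = ∏ j ∈ J, (Submodule.span ℂ {s₀ j, s₁ j}) ^ u j := by
  have hfin : Module.Finite ℂ (V0 Y fun i => (u i : ℤ)) := by
    obtain ⟨s, w, -, hspan, -⟩ := exists_lift hY hN fun i => (u i : ℤ)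
    rw [Module.Finite.iff_fg, ← hspan]
    exact Submodule.fg_span (Set.finite_range w)
  have hmul : ∀ (S T : Submodule ℂ L) (v w : I → ℤ), S ≤ V0 Y v → T ≤ V0 Y w →
      S * T ≤ V0 Y (v + w) := fun S T v w hS hT =>
    Submodule.mul_le.2 fun f hf g hg => V0.mul hY (hS hf) (hT hg)
  have hone : (1 : Submodule ℂ L) ≤ V0 Y 0 := by
    rw [Submodule.one_le]
    intro a
    have h1 : ∏ i, Y.d a i ^ ((0 : I → ℤ) i) = 1 :=
      Finset.prod_eq_one fun j _ => by rw [Pi.zero_apply, zpow_zero]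
    rw [h1, mul_one]
    exact (Y.A a).one_mem
  have hpow : ∀ (S : Submodule ℂ L) (v : I → ℤ), S ≤ V0 Y v → ∀ k : ℕ, S ^ k ≤ V0 Y (k • v) := by
    intro S v hS k
    induction k with
    | zero =>
      rw [pow_zero, zero_smul]
      exact hone
    | succ k ih =>
      rw [pow_succ, succ_nsmul]
      exact hmul _ _ _ _ ih hS
  have hprod : ∀ J' : Finset I, J' ⊆ J → (∏ j ∈ J', (Submodule.span ℂ {s₀ j, s₁ j}) ^ u j :
      Submodule ℂ L) ≤ V0 Y (∑ j ∈ J', u j • (_root_.KM.e j 1 : I → ℤ)) := by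
    intro J' hJ'
    induction J' using Finset.induction_on with
    | empty =>
      rw [Finset.prod_empty, Finset.sum_empty]
      exact hone
    | insert j J' hj ih =>
      rw [Finset.prod_insert hj, Finset.sum_insert hj]
      exact hmul _ _ _ _ (hpow _ _ (hs j (hJ' (Finset.mem_insert_self j J'))).1.ge _)
        (ih ((Finset.subset_insert j J').trans hJ'))
  have hle := hprod J subset_rfl
  have hsum : ∑ j ∈ J, u j • (_root_.KM.e j 1 : I → ℤ) = fun i => (u i : ℤ) := by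
    funext i
    rw [Finset.sum_apply]
    by_cases hi : i ∈ J
    · rw [Finset.sum_eq_single i]
      · rw [Pi.smul_apply, eqC_same]
        simp
      · intro j _ hji
        rw [Pi.smul_apply, eqC_ne (Ne.symm hji), smul_zero]
      · exact fun h1 => absurd hi h1
    · rw [hu i hi, Finset.sum_eq_zero]
      · rfl
      · intro j hj
        have hij : i ≠ j := fun h1 => hi (h1 ▸ hj)
        rw [Pi.smul_apply, eqC_ne hij, smul_zero]
  rw [hsum] at hle
  symm
  apply Submodule.eq_of_le_of_finrank_le hle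
  rw [finrank_V0 hY hN h (u := fun i => (u i : ℤ)) ⟨fun i => Int.natCast_nonneg _, fun i hi => by
    show (u i : ℤ) = 0
    rw [hu i hi]
    rfl⟩]
  refine le_trans (le_of_eq ?_) (finrank_prod_le (fun j hj => (hs j hj).2.1)
    (algInd_two hY hN h hs) u)
  exact Finset.prod_congr rfl fun j _ => by rw [Int.toNat_natCast]

omit [DecidableEq I] in
/-- spaces of sections which are zero over `ℂ` are zero modulo `p` -/
theorem ev_V0_zero (hY : Y.Ok) (hN : 0 < Y.N) {v : I → ℤ} (h : ∀ f ∈ V0 Y v, f = 0) :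
    Ev Y.t Y.y0 fun R => ∀ f ∈ VR Y R v, f = 0 := by
  obtain ⟨s, w, hw, hspan, hev⟩ := exists_lift hY hN v
  refine hev.mono fun R hR f hf => ?_
  have hs : s = 0 := by
    by_contra h0
    have h1 : w ⟨0, Nat.pos_of_ne_zero h0⟩ ∈ V0 Y v := by
      rw [← hspan]
      exact Submodule.subset_span ⟨_, rfl⟩
    exact hw.ne_zero _ (h _ h1)
  subst hs
  have h2 := hR.2 f hf
  rw [Set.range_eq_empty, Submodule.span_empty, Submodule.mem_bot] at h2
  exact h2

/-- PROOF. For every `j ∈ J`: `exists_lift` for `e i 1 - e j 1` and `e j 1 - e i 1`. Take one `R` with the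
equality data in all these `Ev`: there is `j ∈ J` with nonzero sections modulo `p`, so both spaces
over `ℂ` are not zero: `g₁`, `g₂`, and `g₁ g₂ ∈ V0 Y 0` is a constant `c ≠ 0` (`V0_zero`):
`g₁⁻¹ = c⁻¹ g₂`. -/
theorem exists_link (hY : Y.Ok) (hN : 0 < Y.N)
    (h : ∀ P, Ev Y.t Y.y0 P → ∃ R, P R ∧ EqData Y J R) (i : I) :
    ∃ j ∈ J, ∃ g, g ≠ 0 ∧ g ∈ V0 Y (_root_.KM.e i 1 - _root_.KM.e j 1) ∧
      g⁻¹ ∈ V0 Y (_root_.KM.e j 1 - _root_.KM.e i 1) := by
  by_cases hcase : ∃ j ∈ J, (∃ g ∈ V0 Y (_root_.KM.e i 1 - _root_.KM.e j 1), g ≠ 0) ∧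
      ∃ g ∈ V0 Y (_root_.KM.e j 1 - _root_.KM.e i 1), g ≠ 0
  · obtain ⟨j, hj, ⟨g₁, h1, h1'⟩, g₂, h2, h2'⟩ := hcase
    have h3 := V0.mul hY h1 h2
    rw [sub_add_sub_cancel, sub_self] at h3
    obtain ⟨c, hc⟩ := V0_zero hY hN h3
    have hc0 : algebraMap ℂ L c ≠ 0 := by
      rw [← hc]
      exact mul_ne_zero h1' h2'
    refine ⟨j, hj, g₁, h1', h1, ?_⟩
    have h4 : g₁⁻¹ = c⁻¹ • g₂ := by
      rw [Algebra.smul_def, map_inv₀, ← hc, mul_inv]
      field_simp
    rw [h4]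
    exact Submodule.smul_mem _ _ h2
  · push Not at hcase
    have e1 : Ev Y.t Y.y0 fun R => ∀ j ∈ J,
        (∀ f ∈ VR Y R (_root_.KM.e i 1 - _root_.KM.e j 1), f = 0) ∨
        (∀ f ∈ VR Y R (_root_.KM.e j 1 - _root_.KM.e i 1), f = 0) := by
      refine Ev.all_mem J fun j hj => ?_
      by_cases h1 : ∃ g ∈ V0 Y (_root_.KM.e i 1 - _root_.KM.e j 1), g ≠ 0
      · exact (ev_V0_zero hY hN (hcase j hj h1)).mono fun R hR => Or.inr hR
      · push Not at h1
        exact (ev_V0_zero hY hN h1).mono fun R hR => Or.inl hR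
    obtain ⟨R, hR, K, Z, hA, hd, h1, -, -⟩ := h _ e1
    obtain ⟨j, hj, g, hg, hg1, hg2⟩ := h1 i
    exfalso
    rcases hR j hj with h2 | h2
    · exact hg (h2 g ((mem_Z_iff hA hd _ _).1 hg1))
    · exact inv_ne_zero hg (h2 _ ((mem_Z_iff hA hd _ _).1 hg2))

/-- **the equality data in characteristic zero** -/
theorem exists_eqC (hY : Y.Ok) (hN : 0 < Y.N)
    (h : ∀ P, Ev Y.t Y.y0 P → ∃ R, P R ∧ EqData Y J R) : ∃ s₀ s₁, EqC Y J s₀ s₁ := by
  classical
  have h1 : ∀ j, ∃ s : L × L, j ∈ J → V0 Y (_root_.KM.e j 1) = Submodule.span ℂ {s.1, s.2} ∧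
      s.1 ≠ 0 ∧ LinearIndependent ℂ ![s.1, s.2] := by
    intro j
    by_cases hj : j ∈ J
    · obtain ⟨s₀, s₁, h1⟩ := exists_two hY hN h hj
      exact ⟨(s₀, s₁), fun _ => h1⟩
    · exact ⟨(0, 0), fun h2 => absurd h2 hj⟩
  choose s hs using h1
  obtain ⟨s₀, s₁, hs⟩ : ∃ s₀ s₁ : I → L, ∀ j ∈ J,
      V0 Y (_root_.KM.e j 1) = Submodule.span ℂ {s₀ j, s₁ j} ∧ s₀ j ≠ 0 ∧
        LinearIndependent ℂ ![s₀ j, s₁ j] := ⟨fun j => (s j).1, fun j => (s j).2, hs⟩
  refine ⟨s₀, s₁, fun j hj => (hs j hj).2.1, ?_, ?_, ?_⟩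
  · exact algInd_two hY hN h hs
  · exact fun u hu => V0_eq_prod hY hN h hs hu
  · exact exists_link hY hN h

end Pool.Agent.KM
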