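import Pool.Agent.Lib.MP_732f67_ag.G.EqA
import Pool.Agent.Lib.MP_732f67_ag.G.EqC

/-!
Equality case: conclusion.
-/

namespace Pool.Agent.KM

variable {L : Type} [Field L] [Algebra ℂ L] {n : ℕ}

section

variable {I : Type} [Fintype I] [DecidableEq I] {Y : AtD L n I} {J : Finset I} {s₀ s₁ : I → L}

omit [DecidableEq I] in
theorem EqD_one : (1 : L) ∈ V0 Y 0 := by
  intro a
  simp only [Pi.zero_apply, zpow_zero, Finset.prod_const_one, mul_one]
  exact (Y.A a).one_mem

omit [DecidableEq I] in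
theorem EqD_pow (hY : Y.Ok) {w : I → ℤ} {f : L} (hf : f ∈ V0 Y w) (m : ℕ) :
    f ^ m ∈ V0 Y (m • w) := by
  induction m with
  | zero =>
    rw [pow_zero, zero_smul]
    exact EqD_one
  | succ m ih =>
    rw [pow_succ, succ_nsmul]
    exact V0.mul hY ih hf

omit [DecidableEq I] in
theorem EqD_prod (hY : Y.Ok) {κ : Type} (s : Finset κ) (w : κ → I → ℤ) (f : κ → L)
    (hf : ∀ i ∈ s, f i ∈ V0 Y (w i)) : ∏ i ∈ s, f i ∈ V0 Y (∑ i ∈ s, w i) := by
  classical
  induction s using Finset.induction_on with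
  | empty =>
    rw [Finset.prod_empty, Finset.sum_empty]
    exact EqD_one
  | insert i s hi ih =>
    rw [Finset.prod_insert hi, Finset.sum_insert hi]
    exact V0.mul hY (hf i (Finset.mem_insert_self i s))
      (ih fun j hj => hf j (Finset.mem_insert_of_mem hj))

/-- the sections of an arbitrary nonnegative combination.

PROOF. For every `i` choose `j i ∈ J` and `g i` (`EqC.link`; for `i ∈ J` take `j i = i`, `g i = 1`, so that
`u j ≥ v j`). `g i d a i / d a (j i)` is a unit of `A a` for every chart. With `G = ∏ g i ^ v i` and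
`u j = ∑ (i, j i = j) v i`: `f ∈ V0 Y v` iff `f / G ∈ V0 Y u`. -/
theorem EqC.sec_all (h : EqC Y J s₀ s₁) (hY : Y.Ok) (v : I → ℕ) :
    ∃ (G : L) (u : I → ℕ), G ≠ 0 ∧ (∀ j ∈ J, v j ≤ u j) ∧
      V0 Y (fun i => (v i : ℤ)) =
        Submodule.span ℂ {G} * ∏ j ∈ J, (Submodule.span ℂ {s₀ j, s₁ j}) ^ u j := by
  have hlink : ∀ i, ∃ j ∈ J, (i ∈ J → j = i) ∧ ∃ g : L, g ≠ 0 ∧
      g ∈ V0 Y (_root_.KM.e i 1 - _root_.KM.e j 1) ∧
      g⁻¹ ∈ V0 Y (_root_.KM.e j 1 - _root_.KM.e i 1) := by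
    intro i
    by_cases hi : i ∈ J
    · refine ⟨i, hi, fun _ => rfl, 1, one_ne_zero, ?_, ?_⟩
      · rw [sub_self]
        exact EqD_one
      · rw [sub_self, inv_one]
        exact EqD_one
    · obtain ⟨j, hj, g, hg⟩ := h.link i
      exact ⟨j, hj, fun h1 => absurd h1 hi, g, hg⟩
  choose j hjJ hjj g hg0 hg1 hg2 using hlink
  have hG1 : ∏ i, g i ^ v i ∈ V0 Y (∑ i, v i • (_root_.KM.e i 1 - _root_.KM.e (j i) 1)) :=
    EqD_prod hY _ _ _ fun i _ => EqD_pow hY (hg1 i) _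
  have hG2 : (∏ i, g i ^ v i)⁻¹ ∈
      V0 Y (∑ i, v i • (_root_.KM.e (j i) 1 - _root_.KM.e i 1)) := by
    rw [← Finset.prod_inv_distrib]
    refine EqD_prod hY _ _ _ fun i _ => ?_
    rw [← inv_pow]
    exact EqD_pow hY (hg2 i) _
  have hG0 : ∏ i, g i ^ v i ≠ 0 := Finset.prod_ne_zero_iff.2 fun i _ => pow_ne_zero _ (hg0 i)
  let u : I → ℕ := fun l => ∑ i, if j i = l then v i else 0
  have hsum : ∀ l, (∑ i, v i • (_root_.KM.e i 1 - _root_.KM.e (j i) 1) : I → ℤ) l =
      (v l : ℤ) - u l := by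
    intro l
    rw [Finset.sum_apply]
    have h1 : ∀ i, (v i • (_root_.KM.e i 1 - _root_.KM.e (j i) 1) : I → ℤ) l =
        (if i = l then (v i : ℤ) else 0) - (if j i = l then (v i : ℤ) else 0) := by
      intro i
      rw [Pi.smul_apply, Pi.sub_apply, _root_.KM.e, _root_.KM.e, Pi.single_apply,
        Pi.single_apply, nsmul_eq_mul, mul_sub]
      congr 1
      · by_cases h2 : i = l
        · rw [if_pos h2, if_pos h2.symm, mul_one]
        · rw [if_neg h2, if_neg (Ne.symm h2), mul_zero]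
      · by_cases h2 : j i = l
        · rw [if_pos h2, if_pos h2.symm, mul_one]
        · rw [if_neg h2, if_neg (Ne.symm h2), mul_zero]
    rw [Finset.sum_congr rfl fun i _ => h1 i, Finset.sum_sub_distrib, Finset.sum_ite_eq',
      if_pos (Finset.mem_univ l)]
    congr 1
    show _ = ((∑ i, if j i = l then v i else 0 : ℕ) : ℤ)
    push_cast
    rfl
  have hneg : (∑ i, v i • (_root_.KM.e (j i) 1 - _root_.KM.e i 1) : I → ℤ) =
      -∑ i, v i • (_root_.KM.e i 1 - _root_.KM.e (j i) 1) := by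
    rw [← Finset.sum_neg_distrib]
    refine Finset.sum_congr rfl fun i _ => ?_
    rw [← smul_neg, neg_sub]
  refine ⟨∏ i, g i ^ v i, u, hG0, ?_, ?_⟩
  · intro l hl
    show v l ≤ ∑ i, if j i = l then v i else 0
    have h1 := Finset.single_le_sum (f := fun i => if j i = l then v i else 0)
      (fun i _ => Nat.zero_le _) (Finset.mem_univ l)
    simp only [hjj l hl, if_true] at h1
    exact h1
  · rw [← h.sec u (fun i hi => ?_)]
    · ext f
      rw [Submodule.mem_span_singleton_mul]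
      constructor
      · intro hf
        refine ⟨f * (∏ i, g i ^ v i)⁻¹, ?_, by rw [mul_comm f, mul_inv_cancel_left₀ hG0]⟩
        have h1 := V0.mul hY hf hG2
        have h2 : (fun i => (v i : ℤ)) + ∑ i, v i • (_root_.KM.e (j i) 1 - _root_.KM.e i 1) =
            fun i => (u i : ℤ) := by
          funext l
          rw [hneg, Pi.add_apply, Pi.neg_apply, hsum]
          ring
        rwa [h2] at h1
      · rintro ⟨z, hz, rfl⟩
        have h1 := V0.mul hY hG1 hz
        have h2 : ∑ i, v i • (_root_.KM.e i 1 - _root_.KM.e (j i) 1) + (fun i => (u i : ℤ)) =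
            fun i => (v i : ℤ) := by
          funext l
          rw [Pi.add_apply, hsum]
          ring
        rwa [h2] at h1
    · refine Finset.sum_eq_zero fun i' _ => if_neg fun h1 => hi ?_
      rw [← h1]
      exact hjJ i'

end

variable {r m : ℕ} {X : Set (Subalgebra ℂ L)} {D : Fin n → Derivation ℂ L L}
  {κ : Subalgebra ℂ L → Lˣ} {M : Fin r → Subalgebra ℂ L → Lˣ}

/-- **the equality case**

PROOF. `exists_eqC`; `exists_pts`: `X = Pts (Sec X (∏ M i ^ (m₁ c i)))`, and this space of sections is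
`V0 Y (m₁ c)` by `hS`, so by `EqC.sec_all` it is `G ∏ (j ∈ J) T j ^ u j` with `u j ≥ m₁ c j ≥ 1`; `pts_smul`,
`isP1n_of` for `ι = J` (`Finset.prod_coe_sort`). -/
theorem isP1n_of_eqData (hX : KltFano X D m κ) {q' : ℕ} (hq : 1 ≤ q') {c : Fin r → ℕ}
    (hc : ∀ i, 0 < c i) {u : Lˣ} (hu : QDec X κ q' c u M) {Y : AtD L n (Fin r)} (hY : Y.Ok)
    (hN : 0 < Y.N) (hS : ∀ (v : Fin r → ℕ) (f : L),
      (∀ a, f * ∏ i, Y.d a i ^ v i ∈ Y.A a) ↔ f ∈ Sec X (∏ i, M i ^ v i)) {J : Finset (Fin r)}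
    (hJ : J.card = n) (h : ∀ P, Ev Y.t Y.y0 P → ∃ R, P R ∧ EqData Y J R) : IsP1n X n := by
  obtain ⟨s₀, s₁, hE⟩ := exists_eqC hY hN h
  obtain ⟨m₁, hm₁, hX1⟩ := exists_pts hX hq hu
  obtain ⟨G, u', hG, hu', heq⟩ := hE.sec_all hY (fun i => m₁ * c i)
  have hsec : Sec X (∏ i, M i ^ (m₁ * c i)) = V0 Y (fun i => ((m₁ * c i : ℕ) : ℤ)) := by
    ext f
    rw [← hS (fun i => m₁ * c i) f]
    refine forall_congr' fun a => ?_
    simp only [zpow_natCast]
  rw [hsec, heq, pts_smul hG, ← Finset.prod_coe_sort] at hX1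
  exact isP1n_of hX.proj (ι := J) (by rw [Fintype.card_coe, hJ]) (fun j => hE.ne j j.2) hE.alg
    (fun j => (Nat.one_le_iff_ne_zero.2 (Nat.mul_ne_zero (by omega) (hc j).ne')).trans
      (hu' j j.2)) hX1

end Pool.Agent.KM
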