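import Pool.Agent.Lib.MP_732f67_ag.G.Stmt

/-!
Local rings of subalgebras of a field, domination.
-/

namespace Pool.Agent.KM

variable {k L : Type*} [Field k] [Field L] [Algebra k L]

/-- the localization of `A` at the prime ideal of the elements of `A` which are not invertible in
`R` -/
def locOf (A R : Subalgebra k L) (_h : A ≤ R) : Subalgebra k L where
  carrier := {x | ∃ a ∈ A, ∃ b ∈ A, b ≠ 0 ∧ b⁻¹ ∈ R ∧ x = a / b}
  mul_mem' := by
    rintro x y ⟨a, ha, b, hb, hb0, hbR, rfl⟩ ⟨a', ha', b', hb', hb0', hbR', rfl⟩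
    refine ⟨a * a', A.mul_mem ha ha', b * b', A.mul_mem hb hb', mul_ne_zero hb0 hb0', ?_,
      div_mul_div_comm _ _ _ _⟩
    rw [mul_inv]
    exact R.mul_mem hbR hbR'
  add_mem' := by
    rintro x y ⟨a, ha, b, hb, hb0, hbR, rfl⟩ ⟨a', ha', b', hb', hb0', hbR', rfl⟩
    refine ⟨a * b' + b * a', A.add_mem (A.mul_mem ha hb') (A.mul_mem hb ha'), b * b',
      A.mul_mem hb hb', mul_ne_zero hb0 hb0', ?_, div_add_div _ _ hb0 hb0'⟩
    rw [mul_inv]
    exact R.mul_mem hbR hbR'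
  algebraMap_mem' c := ⟨algebraMap k L c, A.algebraMap_mem c, 1, A.one_mem, one_ne_zero,
    by rw [inv_one]; exact R.one_mem, (div_one _).symm⟩

theorem pt_isUnit_iff {O : Subalgebra k L} (x : O) :
    IsUnit x ↔ (x : L) ≠ 0 ∧ (x : L)⁻¹ ∈ O := by
  constructor
  · rintro ⟨u, rfl⟩
    have h1 : ((u : O) : L) * ((u⁻¹ : Oˣ) : O) = 1 := by
      have := congrArg (fun z : O => (z : L)) u.mul_inv
      exact this
    have h2 : ((u : O) : L) ≠ 0 := left_ne_zero_of_mul_eq_one h1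
    refine ⟨h2, ?_⟩
    rw [inv_eq_of_mul_eq_one_right h1]
    exact ((u⁻¹ : Oˣ) : O).2
  · rintro ⟨h0, h1⟩
    exact IsUnit.of_mul_eq_one ⟨_, h1⟩ (Subtype.ext (mul_inv_cancel₀ h0))

theorem LocAt.le {A O : Subalgebra k L} (h : LocAt A O) : A ≤ O := by
  obtain ⟨P, hP, h⟩ := h
  intro x hx
  rw [h]
  exact ⟨⟨x, hx⟩, 1, fun h1 => hP.ne_top ((Ideal.eq_top_iff_one P).2 h1), by simp⟩

theorem LocAt.isLocalRing {A O : Subalgebra k L} (h : LocAt A O) : IsLocalRing O := by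
  have hle := h.le
  obtain ⟨P, hP, h⟩ := h
  have hunit : ∀ x : O, ∀ a b : A, a ∉ P → b ∉ P → (x : L) = a / b → IsUnit x := by
    intro x a b ha hb hx
    have ha0 : (a : L) ≠ 0 := fun h0 => ha (by
      have : a = 0 := Subtype.ext h0
      rw [this]
      exact P.zero_mem)
    have hb0 : (b : L) ≠ 0 := fun h0 => hb (by
      have : b = 0 := Subtype.ext h0
      rw [this]
      exact P.zero_mem)
    rw [pt_isUnit_iff, hx]
    refine ⟨div_ne_zero ha0 hb0, ?_⟩
    rw [h]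
    exact ⟨b, a, ha, by rw [inv_div]⟩
  refine IsLocalRing.of_isUnit_or_isUnit_one_sub_self fun x => ?_
  obtain ⟨a, b, hb, hx⟩ := (h x).1 x.2
  have hb0 : (b : L) ≠ 0 := fun h0 => hb (by
    have : b = 0 := Subtype.ext h0
    rw [this]
    exact P.zero_mem)
  by_cases ha : a ∈ P
  · right
    refine hunit _ (b - a) b (fun h1 => hb ?_) hb ?_
    · have := P.add_mem h1 ha
      rwa [sub_add_cancel] at this
    · change 1 - (x : L) = ((b : L) - a) / b
      rw [hx, sub_div, div_self hb0]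
  · left
    exact hunit x a b ha hb hx

/-- the local rings of a finitely generated algebra are noetherian -/
theorem LocAt.isNoetherianRing {A O : Subalgebra k L} (h : LocAt A O) (hA : A.FG) :
    IsNoetherianRing O := by
  have hle := h.le
  obtain ⟨P, hP, h⟩ := h
  have hft : Algebra.FiniteType k A := (Subalgebra.fg_iff_finiteType A).1 hA
  have hN : IsNoetherianRing A := Algebra.FiniteType.isNoetherianRing k A
  let _ : Algebra A O := (Subalgebra.inclusion hle).toRingHom.toAlgebra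
  have hmap : ∀ a : A, ((algebraMap A O a : O) : L) = a := fun _ => rfl
  have hb0 : ∀ b : A, b ∉ P → (b : L) ≠ 0 := fun b hb h0 => hb (by
    have : b = 0 := Subtype.ext h0
    rw [this]
    exact P.zero_mem)
  have hloc : IsLocalization P.primeCompl O := by
    refine ⟨?_, ?_, ?_⟩
    · rintro ⟨b, hb⟩
      rw [pt_isUnit_iff]
      refine ⟨hb0 b hb, ?_⟩
      rw [h]
      exact ⟨1, b, hb, by
        change (b : L)⁻¹ = (1 : L) / b
        rw [one_div]⟩
    · intro x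
      obtain ⟨a, b, hb, hx⟩ := (h x).1 x.2
      refine ⟨(a, ⟨b, hb⟩), Subtype.ext ?_⟩
      change (x : L) * b = a
      rw [hx, div_mul_cancel₀ _ (hb0 b hb)]
    · intro x y hxy
      refine ⟨1, ?_⟩
      have h1 : x = y := Subtype.ext (by
        have := congrArg (fun z : O => (z : L)) hxy
        exact this)
      rw [h1]
  exact IsLocalization.isNoetherianRing P.primeCompl O hN

/-- `locOf A R` is a local ring of `A`, if `R` is a local ring -/
theorem locAt_locOf {A R : Subalgebra k L} (h : A ≤ R) (hR : IsLocalRing R) :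
    LocAt A (locOf A R h) := by
  have hloc := hR
  refine ⟨Ideal.comap (Subalgebra.inclusion h).toRingHom (IsLocalRing.maximalIdeal R),
    Ideal.IsPrime.comap _, fun x => ?_⟩
  have hnot : ∀ b : A, b ∉ Ideal.comap (Subalgebra.inclusion h).toRingHom
      (IsLocalRing.maximalIdeal R) ↔ (b : L) ≠ 0 ∧ (b : L)⁻¹ ∈ R := by
    intro b
    rw [Ideal.mem_comap, IsLocalRing.mem_maximalIdeal, mem_nonunits_iff, not_not, pt_isUnit_iff]
    exact Iff.rfl
  constructor
  · rintro ⟨a, ha, b, hb, hb0, hbR, rfl⟩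
    exact ⟨⟨a, ha⟩, ⟨b, hb⟩, (hnot _).2 ⟨hb0, hbR⟩, rfl⟩
  · rintro ⟨a, b, hb, rfl⟩
    obtain ⟨hb0, hbR⟩ := (hnot _).1 hb
    exact ⟨a, a.2, b, b.2, hb0, hbR, rfl⟩

theorem dom_locOf {A R : Subalgebra k L} (h : A ≤ R) : Dom (locOf A R h) R := by
  constructor
  · rintro x ⟨a, ha, b, hb, hb0, hbR, rfl⟩
    rw [div_eq_mul_inv]
    exact R.mul_mem (h ha) hbR
  · rintro x ⟨a, ha, b, hb, hb0, hbR, rfl⟩ hx
    by_cases ha0 : a = 0
    · rw [ha0, zero_div, inv_zero]
      exact Subalgebra.zero_mem _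
    · refine ⟨b, hb, a, ha, ha0, ?_, inv_div _ _⟩
      have h1 : a⁻¹ = (a / b)⁻¹ * b⁻¹ := by
        field_simp
      rw [h1]
      exact R.mul_mem hx hbR

/-- uniqueness of the center on an affine chart -/
theorem LocAt.eq_locOf {A O R : Subalgebra k L} (h : LocAt A O) (hd : Dom O R) (hAR : A ≤ R) :
    O = locOf A R hAR := by
  have hle := h.le
  obtain ⟨P, hP, h⟩ := h
  ext x
  constructor
  · intro hx
    obtain ⟨a, b, hb, rfl⟩ := (h x).1 hx
    have hb0 : (b : L) ≠ 0 := fun h0 => hb (by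
      have : b = 0 := Subtype.ext h0
      rw [this]
      exact P.zero_mem)
    have hbO : (b : L)⁻¹ ∈ O := by
      rw [h]
      exact ⟨1, b, hb, by
        change (b : L)⁻¹ = (1 : L) / b
        rw [one_div]⟩
    exact ⟨a, a.2, b, b.2, hb0, hd.1 hbO, rfl⟩
  · rintro ⟨a, ha, b, hb, hb0, hbR, rfl⟩
    rw [div_eq_mul_inv]
    exact O.mul_mem (hle ha) (hd.2 b (hle hb) hbR)

theorem Dom.trans {O O' O'' : Subalgebra k L} (h : Dom O O') (h' : Dom O' O'') : Dom O O'' := by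
  exact ⟨h.1.trans h'.1, fun x hx hx' => h.2 x hx (h'.2 x (h.1 hx) hx')⟩

theorem Dom.refl (O : Subalgebra k L) : Dom O O := ⟨le_rfl, fun _ _ h => h⟩

/-- local rings of `A` in terms of elements -/
theorem pt_locAt_iff {A O : Subalgebra k L} : LocAt A O ↔ A ≤ O ∧ IsLocalRing O ∧
    ∀ x ∈ O, ∃ a ∈ A, ∃ b ∈ A, b ≠ 0 ∧ b⁻¹ ∈ O ∧ x = a / b := by
  constructor
  · intro h
    refine ⟨h.le, h.isLocalRing, fun x hx => ?_⟩
    have h1 := h.eq_locOf (Dom.refl O) h.le
    rw [h1] at hx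
    exact hx
  · rintro ⟨h1, h2, h3⟩
    have h4 : O = locOf A O h1 := by
      apply le_antisymm
      · intro x hx
        exact h3 x hx
      · exact (dom_locOf h1).1
    have h5 := locAt_locOf h1 h2
    rw [← h4] at h5
    exact h5

/-- a localization of a localization -/
theorem LocAt.trans {A O O' : Subalgebra k L} (h : LocAt A O) (h' : LocAt O O') : LocAt A O' := by
  rw [pt_locAt_iff] at h h' ⊢
  obtain ⟨h1, h2, h3⟩ := h
  obtain ⟨h1', h2', h3'⟩ := h'
  refine ⟨h1.trans h1', h2', fun x hx => ?_⟩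
  obtain ⟨o, ho, q, hq, hq0, hqR, rfl⟩ := h3' x hx
  obtain ⟨a, ha, b, hb, hb0, hbR, rfl⟩ := h3 o ho
  obtain ⟨c, hc, d, hd, hd0, hdR, rfl⟩ := h3 q hq
  have hc0 : c ≠ 0 := by
    rintro rfl
    exact hq0 (zero_div d)
  refine ⟨a * d, A.mul_mem ha hd, b * c, A.mul_mem hb hc, mul_ne_zero hb0 hc0, ?_, ?_⟩
  · have h5 : (b * c)⁻¹ = b⁻¹ * ((c / d)⁻¹ * d⁻¹) := by
      field_simp
    rw [h5]
    exact O'.mul_mem (h1' hbR) (O'.mul_mem hqR (h1' hdR))
  · field_simp

/-- `O` is also a localization of every ring between `A` and `O` -/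
theorem LocAt.of_le {A B O : Subalgebra k L} (h : LocAt A O) (hAB : A ≤ B) (hBO : B ≤ O) :
    LocAt B O := by
  rw [pt_locAt_iff] at h ⊢
  obtain ⟨_, h2, h3⟩ := h
  refine ⟨hBO, h2, fun x hx => ?_⟩
  obtain ⟨a, ha, b, hb, h4⟩ := h3 x hx
  exact ⟨a, hAB ha, b, hAB hb, h4⟩

/-- a ring which contains `A` and whose elements are fractions of `A` with denominators invertible
in it: its localizations are localizations of `A` -/
theorem LocAt.of_frac {A B O : Subalgebra k L} (hAB : A ≤ B)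
    (hB : ∀ x ∈ B, ∃ a ∈ A, ∃ b ∈ A, b ≠ 0 ∧ b⁻¹ ∈ B ∧ x = a / b) (h : LocAt B O) :
    LocAt A O := by
  rw [pt_locAt_iff] at h ⊢
  obtain ⟨h1', h2', h3'⟩ := h
  refine ⟨hAB.trans h1', h2', fun x hx => ?_⟩
  obtain ⟨o, ho, q, hq, hq0, hqR, rfl⟩ := h3' x hx
  obtain ⟨a, ha, b, hb, hb0, hbR, rfl⟩ := hB o ho
  obtain ⟨c, hc, d, hd, hd0, hdR, rfl⟩ := hB q hq
  have hc0 : c ≠ 0 := by
    rintro rfl
    exact hq0 (zero_div d)
  refine ⟨a * d, A.mul_mem ha hd, b * c, A.mul_mem hb hc, mul_ne_zero hb0 hc0, ?_, ?_⟩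
  · have h5 : (b * c)⁻¹ = b⁻¹ * ((c / d)⁻¹ * d⁻¹) := by
      field_simp
    rw [h5]
    exact O.mul_mem (h1' hbR) (O.mul_mem hqR (h1' hdR))
  · field_simp

end Pool.Agent.KM
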