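import Pool.Agent.Lib.MP_732f67_ag.G.Atlas
import Pool.Agent.Lib.MP_732f67_ag.G.Pt

/-!
Elementary properties of standard étale charts.
-/

namespace Pool.Agent.KM

open Polynomial
open scoped KaehlerDifferential

variable {L : Type} [Field L] [Algebra ℂ L] {n : ℕ}

theorem IsCh.B_le {A : Subalgebra ℂ L} {x : Fin n → L} {y u : L} (h : IsCh A x y u) :
    Algebra.adjoin ℂ (Set.range x ∪ {y}) ≤ A := by
  rw [h.A_eq]
  refine Algebra.adjoin_mono (Set.union_subset_union_right _ ?_)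
  rintro _ rfl
  exact Or.inl rfl

theorem IsCh.u_mem {A : Subalgebra ℂ L} {x : Fin n → L} {y u : L} (h : IsCh A x y u) :
    u ∈ A := by
  rw [h.A_eq]
  exact Algebra.subset_adjoin (Or.inr (Or.inr rfl))

/-- the elements of the chart are fractions with a power of `u⁻¹` in the denominator -/
theorem IsCh.exists_pow {A : Subalgebra ℂ L} {x : Fin n → L} {y u : L} (h : IsCh A x y u) {w : L}
    (hw : w ∈ A) : ∃ N : ℕ, w * u⁻¹ ^ N ∈ Algebra.adjoin ℂ (Set.range x ∪ {y}) := by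
  rw [h.A_eq] at hw
  induction hw using Algebra.adjoin_induction with
  | mem w hw =>
    rcases hw with hw | hw | hw
    · exact ⟨0, by rw [pow_zero, mul_one]; exact Algebra.subset_adjoin (Or.inl hw)⟩
    · exact ⟨0, by rw [pow_zero, mul_one]; exact Algebra.subset_adjoin (Or.inr hw)⟩
    · refine ⟨1, ?_⟩
      rw [Set.mem_singleton_iff] at hw
      rw [pow_one, hw, mul_inv_cancel₀ h.u_ne]
      exact Subalgebra.one_mem _
  | algebraMap r => exact ⟨0, by rw [pow_zero, mul_one]; exact Subalgebra.algebraMap_mem _ r⟩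
  | add a b _ _ ha hb =>
    obtain ⟨N, hN⟩ := ha
    obtain ⟨M, hM⟩ := hb
    refine ⟨N + M, ?_⟩
    have e : (a + b) * u⁻¹ ^ (N + M) = a * u⁻¹ ^ N * u⁻¹ ^ M + b * u⁻¹ ^ M * u⁻¹ ^ N := by
      rw [pow_add]
      ring
    rw [e]
    exact Subalgebra.add_mem _ (Subalgebra.mul_mem _ hN (Subalgebra.pow_mem _ h.u_inv _))
      (Subalgebra.mul_mem _ hM (Subalgebra.pow_mem _ h.u_inv _))
  | mul a b _ _ ha hb =>
    obtain ⟨N, hN⟩ := ha
    obtain ⟨M, hM⟩ := hb
    refine ⟨N + M, ?_⟩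
    have e : a * b * u⁻¹ ^ (N + M) = a * u⁻¹ ^ N * (b * u⁻¹ ^ M) := by
      rw [pow_add]
      ring
    rw [e]
    exact Subalgebra.mul_mem _ hN hM

/-- smaller basic open subsets of a standard étale chart -/
theorem IsCh.away {A : Subalgebra ℂ L} {x : Fin n → L} {y u : L} (h : IsCh A x y u) {w : L}
    (hw : w ∈ A) (hw0 : w ≠ 0) :
    ∃ u' : L, IsCh (Algebra.adjoin ℂ ((A : Set L) ∪ {w⁻¹})) x y u' := by
  obtain ⟨N, hN⟩ := h.exists_pow hw
  have hu0 := h.u_ne
  have hv0 : w * u⁻¹ ^ N ≠ 0 := mul_ne_zero hw0 (pow_ne_zero _ (inv_ne_zero hu0))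
  set v : L := w * u⁻¹ ^ N with hv
  set B : Subalgebra ℂ L := Algebra.adjoin ℂ (Set.range x ∪ {y}) with hB
  set A' : Subalgebra ℂ L := Algebra.adjoin ℂ ((A : Set L) ∪ {w⁻¹}) with hA'
  have hAA' : A ≤ A' := fun a ha => Algebra.subset_adjoin (Or.inl ha)
  have hwA' : w⁻¹ ∈ A' := Algebra.subset_adjoin (Or.inr rfl)
  have hvinv : v⁻¹ = w⁻¹ * u ^ N := by
    rw [hv, mul_inv, inv_pow, inv_inv]
  have hu'inv : (u * v⁻¹)⁻¹ = u⁻¹ * v := by
    rw [mul_inv, inv_inv]
  refine ⟨u * v⁻¹, h.tb, ?_, mul_ne_zero hu0 (inv_ne_zero hv0), ?_, ?_, h.gen⟩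
  · obtain ⟨f, h1, h2, h3, h4, h5⟩ := h.pol
    exact ⟨f, h1, h2, h3, h4, hAA' h5⟩
  · rw [hu'inv]
    exact B.mul_mem h.u_inv hN
  · set C : Subalgebra ℂ L := Algebra.adjoin ℂ (Set.range x ∪ {y, u * v⁻¹}) with hC
    have hBC : B ≤ C := by
      refine Algebra.adjoin_mono (Set.union_subset_union_right _ ?_)
      rintro _ rfl
      exact Or.inl rfl
    have hu'C : u * v⁻¹ ∈ C := Algebra.subset_adjoin (Or.inr (Or.inr rfl))
    have huC : u ∈ C := by
      have : u = u * v⁻¹ * v := by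
        rw [mul_assoc, inv_mul_cancel₀ hv0, mul_one]
      rw [this]
      exact C.mul_mem hu'C (hBC hN)
    have hvC : v⁻¹ ∈ C := by
      have : v⁻¹ = u * v⁻¹ * u⁻¹ := by
        rw [mul_comm u, mul_assoc, mul_inv_cancel₀ hu0, mul_one]
      rw [this]
      exact C.mul_mem hu'C (hBC h.u_inv)
    have hAC : A ≤ C := by
      rw [h.A_eq]
      refine Algebra.adjoin_le ?_
      rintro a (ha | ha | ha)
      · exact Algebra.subset_adjoin (Or.inl ha)
      · exact Algebra.subset_adjoin (Or.inr (Or.inl ha))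
      · rw [Set.mem_singleton_iff] at ha
        rw [ha]
        exact huC
    apply le_antisymm
    · refine Algebra.adjoin_le ?_
      rintro a (ha | ha)
      · exact hAC ha
      · rw [Set.mem_singleton_iff] at ha
        have : w⁻¹ = v⁻¹ * u⁻¹ ^ N := by
          rw [hvinv, mul_assoc, ← mul_pow, mul_inv_cancel₀ hu0, one_pow, mul_one]
        rw [ha, this]
        exact C.mul_mem hvC (C.pow_mem (hBC h.u_inv) _)
    · refine Algebra.adjoin_le ?_
      rintro a (ha | ha | ha)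
      · exact hAA' (h.B_le (Algebra.subset_adjoin (Or.inl ha)))
      · exact hAA' (h.B_le (Algebra.subset_adjoin (Or.inr ha)))
      · rw [Set.mem_singleton_iff] at ha
        rw [ha, hvinv]
        exact A'.mul_mem (hAA' h.u_mem) (A'.mul_mem hwA' (A'.pow_mem (hAA' h.u_mem) _))

/-- a standard étale chart is of finite type and has the field of fractions `L` -/
theorem IsCh.fg {A : Subalgebra ℂ L} {x : Fin n → L} {y u : L} (h : IsCh A x y u) : A.FG := by
  rw [Subalgebra.fg_def]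
  exact ⟨Set.range x ∪ {y, u}, (Set.finite_range x).union (Set.toFinite _), h.A_eq.symm⟩

theorem IsCh.frac {A : Subalgebra ℂ L} {x : Fin n → L} {y u : L} (h : IsCh A x y u) :
    FracEq A := by
  intro a
  obtain ⟨b, hb, c, hc, hc0, e⟩ := h.gen a
  exact ⟨⟨b, h.B_le hb⟩, ⟨c, h.B_le hc⟩, hc0, e⟩

end Pool.Agent.KM
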