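import Pool.Agent.Lib.MP_732f67_ag.G.Atlas
import Pool.Agent.Lib.MP_732f67_ag.G.Pt
import Pool.Agent.Lib.MP_732f67_ag.G.EtC

/-!
Normality of standard étale charts.
-/

namespace Pool.Agent.KM

open Polynomial
open scoped KaehlerDifferential

variable {L : Type} [Field L] [Algebra ℂ L] {n : ℕ}

/-- the conductor formula: `f'(y) z` is a polynomial in `y` if `z` is integral -/
theorem etD_conductor {S0 K0 M : Type*} [CommRing S0] [IsDomain S0] [IsIntegrallyClosed S0]
    [Field K0] [CharZero K0] [Algebra S0 K0] [IsFractionRing S0 K0] [Field M] [Algebra K0 M]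
    [Algebra S0 M] [IsScalarTower S0 K0 M] {y : M} {f : S0[X]} (hf : f.Monic)
    (h0 : aeval y f = 0) (htop : Algebra.adjoin K0 {y} = ⊤) {z : M} (hz : IsIntegral S0 z) :
    aeval y (derivative f) * z ∈ Algebra.adjoin S0 {y} := by
  have hint : IsIntegral S0 y := ⟨f, hf, by simpa [aeval_def] using h0⟩
  have hintK : IsIntegral K0 y := hint.tower_top
  have hinj : FaithfulSMul S0 M := by
    rw [faithfulSMul_iff_algebraMap_injective, IsScalarTower.algebraMap_eq S0 K0 M]
    exact (algebraMap K0 M).injective.comp (IsFractionRing.injective S0 K0)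
  have : FiniteDimensional K0 M := by
    have h := hintK.fg_adjoin_singleton
    rw [htop, Algebra.top_toSubmodule] at h
    exact ⟨h⟩
  have hdual : z ∈ (Algebra.traceForm K0 M).dualSubmodule
      (Subalgebra.toSubmodule (Algebra.adjoin S0 {y})) := by
    rw [LinearMap.BilinForm.mem_dualSubmodule]
    intro b hb
    rw [Algebra.traceForm_apply]
    have hb' : IsIntegral S0 b := by
      have : Algebra.adjoin S0 {y} ≤ integralClosure S0 M := by
        rw [Algebra.adjoin_le_iff, Set.singleton_subset_iff]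
        exact hint
      exact this hb
    have htr : IsIntegral S0 (Algebra.trace K0 M (z * b)) :=
      Algebra.isIntegral_trace (hz.mul hb')
    obtain ⟨s, hs⟩ := IsIntegrallyClosed.isIntegral_iff.1 htr
    rw [Submodule.mem_one]
    exact ⟨s, hs⟩
  rw [traceForm_dualSubmodule_adjoin S0 K0 htop hint] at hdual
  have hne : aeval y (derivative (minpoly K0 y)) ≠ 0 :=
    (Algebra.IsSeparable.isSeparable K0 y).aeval_derivative_ne_zero (minpoly.aeval _ _)
  rw [Submodule.mem_smul_iff_inv_mul_mem (inv_ne_zero hne), inv_inv,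
    Subalgebra.mem_toSubmodule] at hdual
  obtain ⟨q, hq⟩ := minpoly.isIntegrallyClosed_dvd hint h0
  have h2 := congrArg (fun g => aeval y (derivative g)) hq
  simp only [derivative_mul, map_add, map_mul, minpoly.aeval, zero_mul, add_zero] at h2
  rw [h2]
  rw [minpoly.isIntegrallyClosed_eq_field_fractions' K0 hint, derivative_map,
    aeval_map_algebraMap] at hdual
  have h3 : aeval y q ∈ Algebra.adjoin S0 {y} := aeval_mem_adjoin_singleton S0 y
  have h4 := Subalgebra.mul_mem _ h3 hdual
  have h5 : aeval y (derivative (minpoly S0 y)) * aeval y q * z =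
      aeval y q * (aeval y (derivative (minpoly S0 y)) * z) := by ring
  rw [h5]
  exact h4

/-- the elements of `B[u]` multiplied by a power of `v = u⁻¹ ∈ B` are in `B` -/
theorem etD_pow {k M : Type*} [Field k] [Field M] [Algebra k M] {s : Set M} {u : M} (hu : u ≠ 0)
    (hv : u⁻¹ ∈ Algebra.adjoin k s) {a : M} (ha : a ∈ Algebra.adjoin k (insert u s)) :
    ∃ N : ℕ, u⁻¹ ^ N * a ∈ Algebra.adjoin k s := by
  induction ha using Algebra.adjoin_induction with
  | mem z hz =>
    rcases hz with rfl | hz
    · exact ⟨1, by rw [pow_one, inv_mul_cancel₀ hu]; exact Subalgebra.one_mem _⟩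
    · exact ⟨0, by rw [pow_zero, one_mul]; exact Algebra.subset_adjoin hz⟩
  | algebraMap r => exact ⟨0, by rw [pow_zero, one_mul]; exact Subalgebra.algebraMap_mem _ r⟩
  | add z w _ _ hz hw =>
    obtain ⟨N, hN⟩ := hz
    obtain ⟨N', hN'⟩ := hw
    refine ⟨N + N', ?_⟩
    have h1 : u⁻¹ ^ (N + N') * (z + w) =
        u⁻¹ ^ N' * (u⁻¹ ^ N * z) + u⁻¹ ^ N * (u⁻¹ ^ N' * w) := by ring
    rw [h1]
    exact Subalgebra.add_mem _ (Subalgebra.mul_mem _ (Subalgebra.pow_mem _ hv _) hN)
      (Subalgebra.mul_mem _ (Subalgebra.pow_mem _ hv _) hN')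
  | mul z w _ _ hz hw =>
    obtain ⟨N, hN⟩ := hz
    obtain ⟨N', hN'⟩ := hw
    refine ⟨N + N', ?_⟩
    have h1 : u⁻¹ ^ (N + N') * (z * w) = (u⁻¹ ^ N * z) * (u⁻¹ ^ N' * w) := by ring
    rw [h1]
    exact Subalgebra.mul_mem _ hN hN'

/-- integral elements over `B[u]` multiplied by a power of `v = u⁻¹ ∈ B` are integral over every
ring over which `B` is integral -/
theorem etD_int {k M S0 : Type*} [Field k] [Field M] [Algebra k M] [CommRing S0] [Algebra S0 M]
    {s : Set M} {u : M} (hu : u ≠ 0) (hv : u⁻¹ ∈ Algebra.adjoin k s)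
    (hB : ∀ b ∈ Algebra.adjoin k s, IsIntegral S0 b) {A : Subalgebra k M}
    (hA : A = Algebra.adjoin k (insert u s)) {w : M} (hw : IsIntegral A w) :
    ∃ N : ℕ, IsIntegral S0 (u⁻¹ ^ N * w) := by
  classical
  obtain ⟨p, hp, hpw⟩ := hw
  have hle : Algebra.adjoin k s ≤ A := by
    rw [hA]
    exact Algebra.adjoin_mono (Set.subset_insert _ _)
  have h1 : ∀ i, ∃ N : ℕ, u⁻¹ ^ N * (p.coeff i : M) ∈ Algebra.adjoin k s := fun i =>
    etD_pow hu hv (hA ▸ (p.coeff i).2)
  choose m hm using h1
  let N := p.support.sup m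
  refine ⟨N, ?_⟩
  let v : A := ⟨u⁻¹ ^ N, A.pow_mem (hle hv) N⟩
  have hq : (p.scaleRoots v).Monic := (monic_scaleRoots_iff v).2 hp
  have hqw : (p.scaleRoots v).eval₂ (algebraMap A M) (u⁻¹ ^ N * w) = 0 :=
    scaleRoots_eval₂_eq_zero (s := v) (algebraMap A M) hpw
  have hcoef : ∀ i, (((p.scaleRoots v).coeff i : A) : M) ∈ Algebra.adjoin k s := by
    intro i
    rw [coeff_scaleRoots]
    rcases lt_trichotomy i p.natDegree with hi | hi | hi
    · by_cases h0 : p.coeff i = 0
      · rw [h0, zero_mul]
        exact Subalgebra.zero_mem _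
      · have h2 : m i ≤ N := Finset.le_sup (f := m) (mem_support_iff.2 h0)
        have h3 : ((p.coeff i * v ^ (p.natDegree - i) : A) : M) =
            (u⁻¹ ^ (N - m i) * (u⁻¹ ^ N) ^ (p.natDegree - i - 1)) * (u⁻¹ ^ m i * (p.coeff i : M)) := by
          have h4 : p.natDegree - i = (p.natDegree - i - 1) + 1 := by omega
          have h5 : (u⁻¹ ^ N : M) = u⁻¹ ^ (N - m i) * u⁻¹ ^ m i := by
            rw [← pow_add, Nat.sub_add_cancel h2]
          rw [MulMemClass.coe_mul, SubmonoidClass.coe_pow]
          change (p.coeff i : M) * (u⁻¹ ^ N) ^ (p.natDegree - i) = _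
          rw [h4, pow_succ, Nat.add_sub_cancel]
          nth_rewrite 2 [h5]
          ring
        rw [h3]
        exact Subalgebra.mul_mem _ (Subalgebra.mul_mem _ (Subalgebra.pow_mem _ hv _)
          (Subalgebra.pow_mem _ (Subalgebra.pow_mem _ hv _) _)) (hm i)
    · rw [hi, hp.coeff_natDegree, Nat.sub_self, pow_zero, one_mul]
      exact Subalgebra.one_mem _
    · rw [coeff_eq_zero_of_natDegree_lt hi, zero_mul]
      exact Subalgebra.zero_mem _
  have hlift : (p.scaleRoots v).map (algebraMap A M) ∈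
      Polynomial.lifts (algebraMap (integralClosure S0 M) M) := by
    rw [lifts_iff_coeff_lifts]
    intro i
    rw [coeff_map]
    exact ⟨⟨_, hB _ (hcoef i)⟩, rfl⟩
  obtain ⟨Q, hQ, -, hQm⟩ := lifts_and_natDegree_eq_and_monic hlift (hq.map _)
  have h2 : IsIntegral (integralClosure S0 M) (u⁻¹ ^ N * w) := by
    refine ⟨Q, hQm, ?_⟩
    rw [← eval_map, hQ, eval_map]
    exact hqw
  exact isIntegral_trans _ h2

/-- a standard étale chart is normal (`A` is étale over the normal ring `ℂ[x]`; or directly: if `f` is the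
minimal polynomial of `y` over the normal domain `ℂ[x]` then `f'(y)` times an element of `L` which is
integral over `ℂ[x]` belongs to `ℂ[x, y]`, see `EtaleA.lean` in `KC` and
`traceForm_dualSubmodule_adjoin`) -/
theorem IsCh.closed {A : Subalgebra ℂ L} {x : Fin n → L} {y u : L} (h : IsCh A x y u) :
    ∀ w : L, IsIntegral A w → w ∈ A := by
  intro w hw
  obtain ⟨f, hf, -, hfy, hfne, hfA⟩ := h.pol
  let S0 := MvPolynomial (Fin n) ℂ
  let _ : Algebra S0 L := (MvPolynomial.aeval x : S0 →ₐ[ℂ] L).toRingHom.toAlgebra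
  have hinj : Function.Injective (algebraMap S0 L) := h.tb.1
  have : FaithfulSMul S0 L := (faithfulSMul_iff_algebraMap_injective _ _).2 hinj
  let K := FractionRing S0
  let _ : Algebra K L := FractionRing.liftAlgebra S0 L
  have : IsScalarTower S0 K L := FractionRing.isScalarTower_liftAlgebra S0 L
  have : CharZero L := charZero_of_injective_algebraMap (algebraMap ℂ L).injective
  have : CharZero K := (algebraMap K L).charZero
  have hy0 : aeval y f = 0 := hfy
  have hint : IsIntegral S0 y := ⟨f, hf, hfy⟩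
  have hmap : ∀ c : ℂ, algebraMap ℂ L c = algebraMap S0 L (MvPolynomial.C c) := fun c =>
    ((MvPolynomial.aeval x : S0 →ₐ[ℂ] L).commutes c).symm
  have hX : ∀ i, x i = algebraMap S0 L (MvPolynomial.X i) := fun i =>
    (MvPolynomial.aeval_X x i).symm
  have hB : ∀ b ∈ Algebra.adjoin ℂ (Set.range x ∪ {y}), IsIntegral S0 b := by
    intro b hb
    induction hb using Algebra.adjoin_induction with
    | mem z hz =>
      rcases hz with ⟨i, rfl⟩ | rfl
      · rw [hX i]
        exact isIntegral_algebraMap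
      · exact hint
    | algebraMap r =>
      rw [hmap]
      exact isIntegral_algebraMap
    | add z w _ _ hz hw => exact hz.add hw
    | mul z w _ _ hz hw => exact hz.mul hw
  have hBK : ∀ b ∈ Algebra.adjoin ℂ (Set.range x ∪ {y}), b ∈ IntermediateField.adjoin K {y} := by
    intro b hb
    induction hb using Algebra.adjoin_induction with
    | mem z hz =>
      rcases hz with ⟨i, rfl⟩ | rfl
      · rw [hX i, IsScalarTower.algebraMap_apply S0 K L]
        exact (IntermediateField.adjoin K {y}).algebraMap_mem _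
      · exact IntermediateField.mem_adjoin_simple_self K z
    | algebraMap r =>
      rw [hmap, IsScalarTower.algebraMap_apply S0 K L]
      exact (IntermediateField.adjoin K {y}).algebraMap_mem _
    | add z w _ _ hz hw => exact add_mem hz hw
    | mul z w _ _ hz hw => exact mul_mem hz hw
  have hyK : IsIntegral K y := hint.tower_top
  have htop : Algebra.adjoin K {y} = ⊤ := by
    rw [← IntermediateField.adjoin_simple_toSubalgebra_of_isAlgebraic hyK.isAlgebraic, eq_top_iff]
    intro a _
    obtain ⟨b, hb, c, hc, -, rfl⟩ := h.gen a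
    exact div_mem (S := IntermediateField K L) (hBK b hb) (hBK c hc)
  have hSB : ∀ b ∈ Algebra.adjoin S0 {y}, b ∈ Algebra.adjoin ℂ (Set.range x ∪ {y}) := by
    intro b hb
    induction hb using Algebra.adjoin_induction with
    | mem z hz =>
      rw [Set.mem_singleton_iff] at hz
      rw [hz]
      exact Algebra.subset_adjoin (Or.inr rfl)
    | algebraMap r =>
      have h1 : (MvPolynomial.aeval x : S0 →ₐ[ℂ] L) r ∈ Algebra.adjoin ℂ (Set.range x) := by
        rw [Algebra.adjoin_range_eq_range_aeval]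
        exact ⟨r, rfl⟩
      exact Algebra.adjoin_mono Set.subset_union_left h1
    | add z w _ _ hz hw => exact Subalgebra.add_mem _ hz hw
    | mul z w _ _ hz hw => exact Subalgebra.mul_mem _ hz hw
  have hset : Set.range x ∪ {y, u} = insert u (Set.range x ∪ {y}) := by
    ext a
    simp only [Set.mem_union, Set.mem_insert_iff, Set.mem_singleton_iff]
    tauto
  have hA : A = Algebra.adjoin ℂ (insert u (Set.range x ∪ {y})) := by rw [h.A_eq, hset]
  have hBA : Algebra.adjoin ℂ (Set.range x ∪ {y}) ≤ A := by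
    rw [hA]
    exact Algebra.adjoin_mono (Set.subset_insert _ _)
  have huA : u ∈ A := by
    rw [hA]
    exact Algebra.subset_adjoin (Set.mem_insert _ _)
  obtain ⟨N, hN⟩ := etD_int h.u_ne h.u_inv hB hA hw
  have h1 := hBA (hSB _ (etD_conductor hf hy0 htop hN))
  have h2 : w = (ev x y f.derivative)⁻¹ * u ^ N *
      (aeval y (derivative f) * (u⁻¹ ^ N * w)) := by
    have h3 : aeval y (derivative f) = ev x y f.derivative := rfl
    have h4 : u ^ N * u⁻¹ ^ N = 1 := by
      rw [← mul_pow, mul_inv_cancel₀ h.u_ne, one_pow]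
    rw [h3]
    calc w = ((ev x y f.derivative)⁻¹ * ev x y f.derivative) * (u ^ N * u⁻¹ ^ N) * w := by
            rw [h4, inv_mul_cancel₀ hfne, one_mul, one_mul]
      _ = _ := by ring
  rw [h2]
  exact A.mul_mem (A.mul_mem hfA (A.pow_mem huA N)) h1

end Pool.Agent.KM
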