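import Pool.Agent.Lib.MP_732f67_ag.G.PtC
import Pool.Agent.Lib.MP_732f67_ag.KM.AtH1

/-!
Auxiliary lemmas for the second half of `Ord.lean`: localizations of a subalgebra at prime ideals,
discrete valuation rings, dimension and transcendence degree.
-/

namespace Pool.Agent.KM

variable {k L : Type*} [Field k] [Field L] [Algebra k L]

/-- the localization of the subalgebra `A` at the prime ideal `P` -/
def ordLoc (A : Subalgebra k L) (P : Ideal A) [hP : P.IsPrime] : Subalgebra k L where
  carrier := {x | ∃ a b : A, b ∉ P ∧ x = a / b}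
  mul_mem' := by
    rintro x y ⟨a, b, hb, rfl⟩ ⟨a', b', hb', rfl⟩
    exact ⟨a * a', b * b', fun h => (hP.mem_or_mem h).elim hb hb', by
      push_cast
      exact div_mul_div_comm _ _ _ _⟩
  add_mem' := by
    rintro x y ⟨a, b, hb, rfl⟩ ⟨a', b', hb', rfl⟩
    have h0 : (b : L) ≠ 0 := fun h => hb (by
      rw [show b = 0 from Subtype.ext h]
      exact P.zero_mem)
    have h0' : (b' : L) ≠ 0 := fun h => hb' (by
      rw [show b' = 0 from Subtype.ext h]
      exact P.zero_mem)
    exact ⟨a * b' + b * a', b * b', fun h => (hP.mem_or_mem h).elim hb hb', by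
      push_cast
      exact div_add_div _ _ h0 h0'⟩
  algebraMap_mem' c := ⟨algebraMap k A c, 1, fun h => hP.ne_top ((Ideal.eq_top_iff_one P).2 h), by
    push_cast
    rw [div_one]⟩

theorem mem_ordLoc {A : Subalgebra k L} (P : Ideal A) [P.IsPrime] (x : L) :
    x ∈ ordLoc A P ↔ ∃ a b : A, b ∉ P ∧ x = a / b := Iff.rfl

theorem locAt_ordLoc (A : Subalgebra k L) (P : Ideal A) [hP : P.IsPrime] :
    LocAt A (ordLoc A P) := ⟨P, hP, mem_ordLoc P⟩

private theorem ne_zero_of_notMem {A : Subalgebra k L} (P : Ideal A) {b : A} (hb : b ∉ P) :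
    (b : L) ≠ 0 := fun h => hb (by
  rw [show b = 0 from Subtype.ext h]
  exact P.zero_mem)

/-- an element which belongs to all the local rings of `A` belongs to `A` -/
theorem ordB_mem_of_locAt {A : Subalgebra k L} {x : L}
    (h : ∀ P : Subalgebra k L, LocAt A P → x ∈ P) : x ∈ A := by
  by_contra hx
  let I : Ideal A :=
    { carrier := {a | (a : L) * x ∈ A}
      add_mem' := by
        intro a b ha hb
        show ((a + b : A) : L) * x ∈ A
        push_cast
        rw [add_mul]
        exact A.add_mem ha hb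
      zero_mem' := by
        show ((0 : A) : L) * x ∈ A
        push_cast
        rw [zero_mul]
        exact A.zero_mem
      smul_mem' := by
        intro c a ha
        show ((c • a : A) : L) * x ∈ A
        rw [smul_eq_mul]
        push_cast
        rw [mul_assoc]
        exact A.mul_mem c.2 ha }
  have hI : I ≠ ⊤ := by
    rw [Ne, Ideal.eq_top_iff_one]
    intro h1
    apply hx
    have h2 : ((1 : A) : L) * x ∈ A := h1
    push_cast at h2
    rwa [one_mul] at h2
  obtain ⟨M, hM, hIM⟩ := Ideal.exists_le_maximal I hI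
  have hMp : M.IsPrime := hM.isPrime
  obtain ⟨a, b, hb, hab⟩ := (mem_ordLoc M x).1 (h _ (locAt_ordLoc A M))
  apply hb
  apply hIM
  show (b : L) * x ∈ A
  rw [hab, mul_div_cancel₀ _ (ne_zero_of_notMem M hb)]
  exact a.2

theorem isFractionRing_of_fracEq {A : Subalgebra k L} (hfr : FracEq A) : IsFractionRing A L :=
  IsFractionRing.of_field A L fun z => by
    obtain ⟨a, b, -, h⟩ := hfr z
    exact ⟨a, b, h⟩

theorem isIntegrallyClosed_of_normal {A : Subalgebra k L} (hfr : FracEq A)
    (hn : ∀ x : L, IsIntegral A x → x ∈ A) : IsIntegrallyClosed A := by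
  have := isFractionRing_of_fracEq hfr
  rw [isIntegrallyClosed_iff L]
  intro x hx
  exact ⟨⟨x, hn x hx⟩, rfl⟩

theorem isNoetherianRing_of_fg {A : Subalgebra k L} (hA : A.FG) : IsNoetherianRing A := by
  have : Algebra.FiniteType k A := (Subalgebra.fg_iff_finiteType A).1 hA
  exact Algebra.FiniteType.isNoetherianRing k A

/-- On a normal chart of finite type an element which belongs to all prime divisors is regular. -/
theorem ordB_mem_of_primDiv {A : Subalgebra k L} (hA : A.FG) (hfr : FracEq A)
    (hn : ∀ x : L, IsIntegral A x → x ∈ A) {x : L}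
    (h : ∀ P : Subalgebra k L, LocAt A P → PrimDiv P → x ∈ P) : x ∈ A := by
  by_contra hx
  have := isFractionRing_of_fracEq hfr
  have := isIntegrallyClosed_of_normal hfr hn
  have := isNoetherianRing_of_fg hA
  obtain ⟨p, hp, hh, hF, hv⟩ := _root_.KM.h1 (C := A) (L := L) (F := x) fun c hc => hx (by
    rw [← hc]
    exact c.2)
  have hloc := locAt_ordLoc A p
  have hlr := hloc.isLocalRing
  have hnr := hloc.isNoetherianRing hA
  have hval : ∀ y : L, y ∈ ordLoc A p ∨ y⁻¹ ∈ ordLoc A p := fun y => hv y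
  have hfrac : FracEq (ordLoc A p) := by
    intro y
    obtain ⟨a, b, hb, hab⟩ := hfr y
    exact ⟨⟨a, hloc.le a.2⟩, ⟨b, hloc.le b.2⟩, hb, hab⟩
  have hpv : PreValuationRing (ordLoc A p) := by
    refine ⟨fun a b => ?_⟩
    by_cases ha : a = 0
    · exact ⟨0, Or.inr (by rw [mul_zero, ha])⟩
    by_cases hb : b = 0
    · exact ⟨0, Or.inl (by rw [mul_zero, hb])⟩
    have ha' : (a : L) ≠ 0 := fun h => ha (Subtype.ext h)
    have hb' : (b : L) ≠ 0 := fun h => hb (Subtype.ext h)
    rcases hval ((b : L) / a) with hc | hc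
    · refine ⟨⟨_, hc⟩, Or.inl (Subtype.ext ?_)⟩
      show (a : L) * (b / a) = b
      exact mul_div_cancel₀ _ ha'
    · rw [inv_div] at hc
      refine ⟨⟨_, hc⟩, Or.inr (Subtype.ext ?_)⟩
      show (b : L) * (a / b) = a
      exact mul_div_cancel₀ _ hb'
  have hvr : ValuationRing (ordLoc A p) := { hpv with }
  have hnf : ¬ IsField (ordLoc A p) := by
    intro hf
    have hp0 : p ≠ ⊥ := by
      intro h0
      rw [h0, Ideal.height_bot] at hh
      exact zero_ne_one hh
    obtain ⟨c, hc, hc0⟩ := Submodule.exists_mem_ne_zero_of_ne_bot hp0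
    have hc0' : (c : L) ≠ 0 := fun h => hc0 (Subtype.ext h)
    obtain ⟨d, hd⟩ := hf.mul_inv_cancel (a := (⟨c, hloc.le c.2⟩ : ordLoc A p))
      (fun h => hc0' (congrArg Subtype.val h))
    have hd' : (c : L) * d = 1 := congrArg Subtype.val hd
    obtain ⟨a, b, hb, hab⟩ := (mem_ordLoc p _).1 d.2
    rw [hab, ← mul_div_assoc, div_eq_one_iff_eq (ne_zero_of_notMem p hb)] at hd'
    have h2 : c * a = b := Subtype.ext hd'
    exact hb (by
      rw [← h2]
      exact p.mul_mem_right _ hc)
  have hdvr : IsDiscreteValuationRing (ordLoc A p) :=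
    ((IsDiscreteValuationRing.TFAE (ordLoc A p) hnf).out 0 1).2 hvr
  obtain ⟨a, b, hb, hab⟩ := (mem_ordLoc p x).1 (h _ hloc ⟨hdvr, hfrac, A, hA, hloc⟩)
  exact hF a b hb hab

section indep

variable {B : Type*} [CommRing B] [Algebra k B]

/-- elements which are algebraically independent modulo `q'`, together with an element of `q'` which
is not in `q`, are algebraically independent modulo `q ≤ q'` -/
theorem ordB_step {m : ℕ} (s : Fin m → B) (q q' : Ideal B) [hq : q.IsPrime] (hqq : q ≤ q')
    (hs : ∀ Q : MvPolynomial (Fin m) k, Q ≠ 0 → MvPolynomial.aeval s Q ∉ q') (c : B)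
    (hc : c ∈ q') (hc' : c ∉ q) (Q : MvPolynomial (Fin (m + 1)) k) (hQ : Q ≠ 0) :
    MvPolynomial.aeval (Fin.cons c s : Fin (m + 1) → B) Q ∉ q := by
  have key : ∀ N : ℕ, ∀ f : Polynomial (MvPolynomial (Fin m) k), f.natDegree ≤ N → f ≠ 0 →
      f.eval₂ (MvPolynomial.aeval s : MvPolynomial (Fin m) k →ₐ[k] B).toRingHom c ∉ q := by
    intro N
    induction N with
    | zero =>
      intro f hf hf0 hmem
      have h1 : f = Polynomial.C (f.coeff 0) :=
        Polynomial.eq_C_of_natDegree_le_zero hf
      rw [h1, Polynomial.eval₂_C] at hmem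
      refine hs (f.coeff 0) (fun h => hf0 ?_) (hqq hmem)
      rw [h1, h, map_zero]
    | succ N ih =>
      intro f hf hf0 hmem
      rw [← Polynomial.divX_mul_X_add f, Polynomial.eval₂_add, Polynomial.eval₂_mul,
        Polynomial.eval₂_X, Polynomial.eval₂_C] at hmem
      by_cases h0 : f.coeff 0 = 0
      · rw [h0, map_zero, add_zero] at hmem
        have hd0 : f.divX ≠ 0 := by
          intro h
          apply hf0
          rw [← Polynomial.divX_mul_X_add f, h, h0, zero_mul, map_zero, add_zero]
        refine ih f.divX ?_ hd0 ((hq.mem_or_mem hmem).resolve_right hc')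
        rw [Polynomial.natDegree_divX_eq_natDegree_tsub_one]
        omega
      · refine hs (f.coeff 0) h0 ?_
        have h1 := q'.sub_mem (hqq hmem) (q'.mul_mem_left
          (f.divX.eval₂ (MvPolynomial.aeval s : MvPolynomial (Fin m) k →ₐ[k] B).toRingHom c) hc)
        rw [add_sub_cancel_left] at h1
        exact h1
  have h2 : MvPolynomial.aeval (Fin.cons c s : Fin (m + 1) → B) Q =
      (MvPolynomial.finSuccEquiv k m Q).eval₂
        (MvPolynomial.aeval s : MvPolynomial (Fin m) k →ₐ[k] B).toRingHom c := by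
    have h3 : MvPolynomial.aeval (Fin.cons c s : Fin (m + 1) → B) =
        (Polynomial.eval₂AlgHom (MvPolynomial.aeval s : MvPolynomial (Fin m) k →ₐ[k] B) c
          (fun _ => Commute.all _ _)).comp (MvPolynomial.finSuccEquiv k m).toAlgHom := by
      apply MvPolynomial.algHom_ext
      rw [Fin.forall_iff_succ]
      constructor
      · rw [MvPolynomial.aeval_X, Fin.cons_zero]
        show c = Polynomial.eval₂AlgHom _ c (fun _ => Commute.all _ _)
          (MvPolynomial.finSuccEquiv k m (MvPolynomial.X 0))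
        rw [MvPolynomial.finSuccEquiv_X_zero, Polynomial.eval₂AlgHom_apply, Polynomial.eval₂_X]
      · intro i
        rw [MvPolynomial.aeval_X, Fin.cons_succ]
        show s i = Polynomial.eval₂AlgHom _ c (fun _ => Commute.all _ _)
          (MvPolynomial.finSuccEquiv k m (MvPolynomial.X i.succ))
        rw [MvPolynomial.finSuccEquiv_X_succ, Polynomial.eval₂AlgHom_apply, Polynomial.eval₂_C]
        exact (MvPolynomial.aeval_X s i).symm
    rw [h3]
    rfl
  rw [h2]
  exact key _ _ le_rfl (by
    intro h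
    exact hQ ((MvPolynomial.finSuccEquiv k m).injective (by rw [h, map_zero])))

end indep

/-- a unit of the subring `O` is not in the maximal ideal -/
private theorem notMem_of_un {O : Subalgebra k L} [IsLocalRing O] {x : O} (hx : Un O (x : L)) :
    x ∉ IsLocalRing.maximalIdeal O := by
  rw [IsLocalRing.mem_maximalIdeal, mem_nonunits_iff, not_not]
  exact IsUnit.of_mul_eq_one (⟨(x : L)⁻¹, hx.2.2⟩ : O) (Subtype.ext (by
    show (x : L) * (x : L)⁻¹ = 1
    exact mul_inv_cancel₀ hx.1))

/-- dimension at most one: two independent elements too many -/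
theorem ordB_trdeg {n m : ℕ} (hn : Algebra.trdeg k L = n) {O : Subalgebra k L} (s : Fin m → O)
    (hs : ∀ Q : MvPolynomial (Fin m) k, Q ≠ 0 → MvPolynomial.aeval s Q ∉ (⊥ : Ideal O)) :
    m ≤ n := by
  have h1 : AlgebraicIndependent k (fun i => (s i : L)) := by
    rw [algebraicIndependent_iff]
    intro Q hQ
    by_contra hQ0
    apply hs Q hQ0
    rw [Ideal.mem_bot]
    apply Subtype.ext
    have h2 : ((MvPolynomial.aeval s Q : O) : L) = MvPolynomial.aeval (fun i => (s i : L)) Q := by
      have h3 := MvPolynomial.aeval_algebraMap_apply L s Q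
      exact h3.symm
    rw [h2, hQ]
    rfl
  have h2 := h1.lift_cardinalMk_le_trdeg
  rw [hn, Cardinal.lift_natCast, Cardinal.mk_fin, Cardinal.lift_natCast] at h2
  exact_mod_cast h2

/-- Let `O` be a normal local ring of a finitely generated algebra, with `n - 1` elements whose
residues are algebraically independent, `n` the transcendence degree of `L`. If a prime divisor `P`
dominates `O`, then `O` is a discrete valuation ring. -/
theorem ordB_primDiv {n : ℕ} (hn : Algebra.trdeg k L = n) {O P A : Subalgebra k L}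
    (hA : A.FG) (hO : LocAt A O) (hfr : FracEq O) (hnorm : ∀ x : L, IsIntegral O x → x ∈ O)
    (hP : PrimDiv P) (hd : Dom O P) (r : Fin (n - 1) → L) (hr : ∀ i, r i ∈ O)
    (hi : ∀ Q : MvPolynomial (Fin (n - 1)) k, Q ≠ 0 → Un O (MvPolynomial.aeval r Q)) :
    PrimDiv O := by
  have hlr := hO.isLocalRing
  have hnr := hO.isNoetherianRing hA
  have hic := isIntegrallyClosed_of_normal hfr hnorm
  have hnf : ¬ IsField O := by
    intro hf
    have := hP.1
    obtain ⟨π, hπ⟩ := IsDiscreteValuationRing.exists_irreducible P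
    obtain ⟨a, b, hb, hab⟩ := hfr (π : L)
    have ha : a ≠ 0 := by
      rintro rfl
      apply hπ.ne_zero
      apply Subtype.ext
      rw [hab]
      simp
    obtain ⟨c, hc⟩ := hf.mul_inv_cancel ha
    have hc' : (a : L) * c = 1 := congrArg Subtype.val hc
    apply hπ.not_isUnit
    refine IsUnit.of_mul_eq_one (⟨(b * c : O), hd.1 (b * c : O).2⟩ : P) (Subtype.ext ?_)
    show (π : L) * ((b * c : O) : L) = 1
    rw [hab]
    push_cast
    rw [← mul_assoc, div_mul_cancel₀ _ hb]
    exact hc'
  have hs : ∀ Q : MvPolynomial (Fin (n - 1)) k, Q ≠ 0 →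
      MvPolynomial.aeval (fun i => (⟨r i, hr i⟩ : O)) Q ∉ IsLocalRing.maximalIdeal O := by
    intro Q hQ
    apply notMem_of_un
    have h3 := MvPolynomial.aeval_algebraMap_apply L (fun i => (⟨r i, hr i⟩ : O)) Q
    have h4 : ((MvPolynomial.aeval (fun i => (⟨r i, hr i⟩ : O)) Q : O) : L) =
        MvPolynomial.aeval r Q := h3.symm
    rw [h4]
    exact hi Q hQ
  have hdim : ∀ q : Ideal O, q ≠ ⊥ → q.IsPrime → q = IsLocalRing.maximalIdeal O := by
    intro q hq0 hq
    by_contra hne
    have hle := IsLocalRing.le_maximalIdeal hq.ne_top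
    obtain ⟨d, hdm, hdq⟩ := SetLike.exists_of_lt (lt_of_le_of_ne hle hne)
    obtain ⟨c, hc, hc0⟩ := Submodule.exists_mem_ne_zero_of_ne_bot hq0
    have h1 := ordB_step _ q _ hle hs d hdm hdq
    have h2 := ordB_step _ ⊥ q bot_le h1 c hc (by
      rw [Ideal.mem_bot]
      exact hc0)
    have h3 := ordB_trdeg hn _ h2
    omega
  have hdvr : IsDiscreteValuationRing O := by
    have h1 : IsDedekindDomain O := by
      refine ((tfae_of_isNoetherianRing_of_isLocalRing_of_isDomain O).out 3 2).1 ?_
      exact ⟨hic, hdim⟩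
    exact ((IsDiscreteValuationRing.TFAE O hnf).out 0 2).2 h1
  exact ⟨hdvr, hfr, A, hA, hO⟩

end Pool.Agent.KM
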