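import Pool.Agent.Lib.MP_732f67_ag.G.PtC
import Pool.Agent.Lib.MP_732f67_ag.KM.AtH1
import Pool.Agent.Lib.MP_732f67_ag.G.OrdB

/-!
Orders along prime divisors; on a normal chart an element is regular (a unit) if it is regular (a
unit) at all prime divisors.
-/

namespace Pool.Agent.KM

variable {k L : Type*} [Field k] [Field L] [Algebra k L]

theorem Un.mul {O : Subalgebra k L} {x y : L} (hx : Un O x) (hy : Un O y) : Un O (x * y) :=
  ⟨mul_ne_zero hx.1 hy.1, O.mul_mem hx.2.1 hy.2.1, by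
    rw [mul_inv]
    exact O.mul_mem hx.2.2 hy.2.2⟩

theorem Un.inv {O : Subalgebra k L} {x : L} (hx : Un O x) : Un O x⁻¹ :=
  ⟨inv_ne_zero hx.1, hx.2.2, by
    rw [inv_inv]
    exact hx.2.1⟩

theorem Un.one (O : Subalgebra k L) : Un O 1 :=
  ⟨one_ne_zero, O.one_mem, by
    rw [inv_one]
    exact O.one_mem⟩

theorem Un.div {O : Subalgebra k L} {x y : L} (hx : Un O x) (hy : Un O y) : Un O (x / y) := by
  rw [div_eq_mul_inv]
  exact hx.mul hy.inv

theorem Un.pow {O : Subalgebra k L} {x : L} (hx : Un O x) (m : ℕ) : Un O (x ^ m) := by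
  induction m with
  | zero =>
    rw [pow_zero]
    exact Un.one O
  | succ m ih =>
    rw [pow_succ]
    exact ih.mul hx

theorem Un.zpow {O : Subalgebra k L} {x : L} (hx : Un O x) (m : ℤ) : Un O (x ^ m) := by
  cases m with
  | ofNat m =>
    rw [Int.ofNat_eq_natCast, zpow_natCast]
    exact hx.pow m
  | negSucc m =>
    rw [zpow_negSucc]
    exact (hx.pow _).inv

theorem Un.prod {O : Subalgebra k L} {ι : Type*} (s : Finset ι) {x : ι → L}
    (hx : ∀ i ∈ s, Un O (x i)) : Un O (∏ i ∈ s, x i) := by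
  classical
  induction s using Finset.induction_on with
  | empty =>
    rw [Finset.prod_empty]
    exact Un.one O
  | insert a s ha ih =>
    rw [Finset.prod_insert ha]
    exact (hx a (Finset.mem_insert_self a s)).mul
      (ih fun i hi => hx i (Finset.mem_insert_of_mem hi))

theorem Un.mono {O O' : Subalgebra k L} (h : O ≤ O') {x : L} (hx : Un O x) : Un O' x :=
  ⟨hx.1, h hx.2.1, h hx.2.2⟩

/-- a generator of the maximal ideal is irreducible -/
theorem Unif.irreducible {O : Subalgebra k L} {π : L} (h : Unif O π) :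
    Irreducible (⟨π, h.1⟩ : O) := by
  have h0 : π ≠ 0 := by
    rintro rfl
    exact h.2.1 (by rw [inv_zero]; exact O.zero_mem)
  refine ⟨fun hu => ?_, fun a b hab => ?_⟩
  · obtain ⟨v, hv⟩ := hu.exists_right_inv
    have hv' : π * (v : L) = 1 := congrArg Subtype.val hv
    exact h.2.1 (by rw [inv_eq_of_mul_eq_one_right hv']; exact v.2)
  · have hab' : π = (a : L) * b := congrArg Subtype.val hab
    have ha0 : (a : L) ≠ 0 := by
      rintro h1
      rw [h1, zero_mul] at hab'
      exact h0 hab'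
    rcases h.2.2 a a.2 with ha | ha
    · left
      exact IsUnit.of_mul_eq_one (⟨(a : L)⁻¹, ha⟩ : O) (Subtype.ext (mul_inv_cancel₀ ha0))
    · right
      refine IsUnit.of_mul_eq_one (⟨(a : L) / π, ha⟩ : O) (Subtype.ext ?_)
      change (b : L) * (a / π) = 1
      rw [← mul_div_assoc, mul_comm, ← hab', div_self h0]

theorem Unif.ne_zero {O : Subalgebra k L} {π : L} (h : Unif O π) : π ≠ 0 := by
  rintro rfl
  exact h.2.1 (by rw [inv_zero]; exact O.zero_mem)

theorem PrimDiv.exists_unif {O : Subalgebra k L} (h : PrimDiv O) : ∃ π, Unif O π := by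
  have := h.1
  obtain ⟨ϖ, hϖ⟩ := IsDiscreteValuationRing.exists_irreducible O
  have h0 : (ϖ : L) ≠ 0 := fun h => hϖ.ne_zero (Subtype.ext h)
  refine ⟨ϖ, ϖ.2, fun hi => hϖ.not_isUnit ?_, fun x hx => ?_⟩
  · exact IsUnit.of_mul_eq_one (⟨(ϖ : L)⁻¹, hi⟩ : O) (Subtype.ext (mul_inv_cancel₀ h0))
  · by_cases hx0 : x = 0
    · left
      rw [hx0, inv_zero]
      exact O.zero_mem
    · obtain ⟨n, u, hu⟩ := IsDiscreteValuationRing.eq_unit_mul_pow_irreducible
        (x := (⟨x, hx⟩ : O)) (fun h => hx0 (congrArg Subtype.val h)) hϖ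
      have hu' : x = ((u : O) : L) * (ϖ : L) ^ n := congrArg Subtype.val hu
      have huu : ((u : O) : L) * ((u⁻¹ : Oˣ) : O) = 1 := congrArg Subtype.val u.mul_inv
      rcases n with _ | n
      · left
        rw [hu', pow_zero, mul_one, inv_eq_of_mul_eq_one_right huu]
        exact ((u⁻¹ : Oˣ) : O).2
      · right
        rw [hu', pow_succ, ← mul_assoc, mul_div_assoc, div_self h0, mul_one]
        exact O.mul_mem (u : O).2 (O.pow_mem ϖ.2 n)

theorem un_unit {O : Subalgebra k L} (u : Oˣ) : Un O ((u : O) : L) := by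
  have huu : ((u : O) : L) * ((u⁻¹ : Oˣ) : O) = 1 := congrArg Subtype.val u.mul_inv
  refine ⟨left_ne_zero_of_mul_eq_one huu, (u : O).2, ?_⟩
  rw [inv_eq_of_mul_eq_one_right huu]
  exact ((u⁻¹ : Oˣ) : O).2

/-- the order with respect to a given uniformizer exists -/
theorem Unif.exists_ord {O : Subalgebra k L} (h : PrimDiv O) {π : L} (hπ : Unif O π) {x : L}
    (hx : x ≠ 0) : ∃ e : ℤ, Un O (x / π ^ e) := by
  have := h.1
  obtain ⟨a, b, hb, hab⟩ := h.2.1 x
  have ha : (a : L) ≠ 0 := by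
    rintro h1
    rw [h1, zero_div] at hab
    exact hx hab
  obtain ⟨n, u, hu⟩ := IsDiscreteValuationRing.eq_unit_mul_pow_irreducible
    (x := a) (fun h => ha (congrArg Subtype.val h)) hπ.irreducible
  obtain ⟨m, v, hv⟩ := IsDiscreteValuationRing.eq_unit_mul_pow_irreducible
    (x := b) (fun h => hb (congrArg Subtype.val h)) hπ.irreducible
  have hu' : (a : L) = ((u : O) : L) * π ^ n := congrArg Subtype.val hu
  have hv' : (b : L) = ((v : O) : L) * π ^ m := congrArg Subtype.val hv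
  refine ⟨(n : ℤ) - m, ?_⟩
  have h0 := hπ.ne_zero
  have hv0 := (un_unit v).1
  have : x / π ^ ((n : ℤ) - m) = ((u : O) : L) / ((v : O) : L) := by
    rw [hab, hu', hv', zpow_sub₀ h0, zpow_natCast, zpow_natCast]
    field_simp
  rw [this]
  exact (un_unit u).div (un_unit v)

/-- two generators of the maximal ideal differ by a unit -/
theorem Unif.un_div {O : Subalgebra k L} {π π' : L} (h : Unif O π) (h' : Unif O π') :
    Un O (π / π') := by
  refine ⟨div_ne_zero h.ne_zero h'.ne_zero, (h'.2.2 π h.1).resolve_left h.2.1, ?_⟩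
  rw [inv_div]
  exact (h.2.2 π' h'.1).resolve_left h'.2.1

theorem isOrd_iff {O : Subalgebra k L} {π : L} (hπ : Unif O π) {x : L} {e : ℤ} :
    IsOrd O x e ↔ Un O (x / π ^ e) := by
  refine ⟨?_, fun h => ⟨π, hπ, h⟩⟩
  rintro ⟨π', hπ', h⟩
  have h1 := h.mul ((hπ'.un_div hπ).zpow e)
  have : x / π' ^ e * (π' / π) ^ e = x / π ^ e := by
    have h2 := zpow_ne_zero e hπ'.ne_zero
    rw [div_zpow]
    field_simp
  rwa [this] at h1

theorem Unif.not_mem_zpow {O : Subalgebra k L} {π : L} (hπ : Unif O π) {e : ℤ} (he : e < 0) :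
    π ^ e ∉ O := by
  intro h
  obtain ⟨n, rfl⟩ : ∃ n : ℕ, e = -(n + 1 : ℕ) := ⟨(-e - 1).toNat, by omega⟩
  apply hπ.2.1
  have h1 := O.mul_mem h (O.pow_mem hπ.1 n)
  have : π ^ (-(n + 1 : ℕ) : ℤ) * π ^ n = π⁻¹ := by
    rw [← zpow_natCast π n, ← zpow_add₀ hπ.ne_zero, ← zpow_neg_one]
    congr 1
    push_cast
    ring
  rwa [this] at h1

/-- existence of the order -/
theorem PrimDiv.exists_ord {O : Subalgebra k L} (h : PrimDiv O) {x : L} (hx : x ≠ 0) :
    ∃ e : ℤ, IsOrd O x e := by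
  obtain ⟨π, hπ⟩ := h.exists_unif
  obtain ⟨e, he⟩ := hπ.exists_ord h hx
  exact ⟨e, π, hπ, he⟩

/-- uniqueness of the order -/
theorem IsOrd.unique {O : Subalgebra k L} (h : PrimDiv O) {x : L} {e e' : ℤ} (hx : IsOrd O x e)
    (hx' : IsOrd O x e') : e = e' := by
  obtain ⟨π, hπ⟩ := h.exists_unif
  rw [isOrd_iff hπ] at hx hx'
  have h0 := hπ.ne_zero
  have hx0 : x ≠ 0 := fun h1 => hx.1 (by rw [h1, zero_div])
  have h1 : Un O (π ^ (e' - e)) := by
    have h2 := hx.div hx'
    have h3 : x / π ^ e / (x / π ^ e') = π ^ (e' - e) := by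
      rw [zpow_sub₀ h0]
      have := zpow_ne_zero e h0
      have := zpow_ne_zero e' h0
      field_simp
    rwa [h3] at h2
  rcases lt_trichotomy e e' with h2 | h2 | h2
  · exfalso
    refine hπ.not_mem_zpow (e := -(e' - e)) (by omega) ?_
    rw [zpow_neg]
    exact h1.2.2
  · exact h2
  · exact absurd h1.2.1 (hπ.not_mem_zpow (by omega))

theorem IsOrd.mul {O : Subalgebra k L} (h : PrimDiv O) {x y : L} {e e' : ℤ} (hx : IsOrd O x e)
    (hy : IsOrd O y e') : IsOrd O (x * y) (e + e') := by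
  obtain ⟨π, hπ⟩ := h.exists_unif
  rw [isOrd_iff hπ] at hx hy ⊢
  have : x * y / π ^ (e + e') = x / π ^ e * (y / π ^ e') := by
    rw [zpow_add₀ hπ.ne_zero, div_mul_div_comm]
  rw [this]
  exact hx.mul hy

theorem IsOrd.inv {O : Subalgebra k L} (h : PrimDiv O) {x : L} {e : ℤ} (hx : IsOrd O x e) :
    IsOrd O x⁻¹ (-e) := by
  obtain ⟨π, hπ⟩ := h.exists_unif
  rw [isOrd_iff hπ] at hx ⊢
  have : x⁻¹ / π ^ (-e) = (x / π ^ e)⁻¹ := by
    rw [zpow_neg, div_inv_eq_mul, inv_div, mul_comm, div_eq_mul_inv]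
  rw [this]
  exact hx.inv

theorem IsOrd.zpow {O : Subalgebra k L} (h : PrimDiv O) {x : L} {e : ℤ} (hx : IsOrd O x e)
    (m : ℤ) : IsOrd O (x ^ m) (m * e) := by
  obtain ⟨π, hπ⟩ := h.exists_unif
  rw [isOrd_iff hπ] at hx ⊢
  have : x ^ m / π ^ (m * e) = (x / π ^ e) ^ m := by
    rw [div_zpow, ← zpow_mul, mul_comm e m]
  rw [this]
  exact hx.zpow m

theorem isOrd_zero_iff {O : Subalgebra k L} (h : PrimDiv O) {x : L} : IsOrd O x 0 ↔ Un O x := by
  obtain ⟨π, hπ⟩ := h.exists_unif
  rw [isOrd_iff hπ, zpow_zero, div_one]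

theorem IsOrd.prod {O : Subalgebra k L} (h : PrimDiv O) {ι : Type*} (s : Finset ι) {x : ι → L}
    {e : ι → ℤ} (hx : ∀ i ∈ s, IsOrd O (x i) (e i)) : IsOrd O (∏ i ∈ s, x i) (∑ i ∈ s, e i) := by
  classical
  induction s using Finset.induction_on with
  | empty =>
    rw [Finset.prod_empty, Finset.sum_empty]
    exact (isOrd_zero_iff h).2 (Un.one O)
  | insert a s ha ih =>
    rw [Finset.prod_insert ha, Finset.sum_insert ha]
    exact IsOrd.mul h (hx a (Finset.mem_insert_self a s))
      (ih fun i hi => hx i (Finset.mem_insert_of_mem hi))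

theorem IsOrd.mem_iff {O : Subalgebra k L} (h : PrimDiv O) {x : L} {e : ℤ} (hx : IsOrd O x e) :
    x ∈ O ↔ 0 ≤ e := by
  obtain ⟨π, hπ⟩ := h.exists_unif
  rw [isOrd_iff hπ] at hx
  have h0 := zpow_ne_zero e hπ.ne_zero
  constructor
  · intro hxO
    by_contra he
    push Not at he
    refine hπ.not_mem_zpow he ?_
    have h1 := O.mul_mem hxO hx.2.2
    have hx0 : x ≠ 0 := fun h1 => hx.1 (by rw [h1, zero_div])
    have : x * (x / π ^ e)⁻¹ = π ^ e := by
      rw [inv_div]
      field_simp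
    rwa [this] at h1
  · intro he
    obtain ⟨n, rfl⟩ := Int.eq_ofNat_of_zero_le he
    have h1 := O.mul_mem hx.2.1 (O.pow_mem hπ.1 n)
    rw [zpow_natCast] at h1 h0
    rwa [div_mul_cancel₀ _ h0] at h1

/-- a discrete valuation ring dominated by a local ring with the same field of fractions, not the
field itself, is equal to it -/
theorem PrimDiv.eq_of_le {O R : Subalgebra k L} (h : PrimDiv O) (hR : PrimDiv R)
    (hd : O ≤ R) : O = R := by
  refine le_antisymm hd fun x hx => ?_
  by_contra hxO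
  have hx0 : x ≠ 0 := by
    rintro rfl
    exact hxO O.zero_mem
  obtain ⟨π, hπ⟩ := h.exists_unif
  obtain ⟨e, he⟩ := hπ.exists_ord h hx0
  have he0 : e < 0 := by
    by_contra h1
    push Not at h1
    exact hxO ((IsOrd.mem_iff h ⟨π, hπ, he⟩).2 h1)
  have h0 := hπ.ne_zero
  -- `π⁻¹ ∈ R`
  have hπe : π ^ e ∈ R := by
    have h1 := R.mul_mem hx (hd he.2.2)
    have h2 := zpow_ne_zero e h0
    have : x * (x / π ^ e)⁻¹ = π ^ e := by
      rw [inv_div]
      field_simp
    rwa [this] at h1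
  have hπR : π⁻¹ ∈ R := by
    obtain ⟨n, rfl⟩ : ∃ n : ℕ, e = -(n + 1 : ℕ) := ⟨(-e - 1).toNat, by omega⟩
    have h1 := R.mul_mem hπe (R.pow_mem (hd hπ.1) n)
    have : π ^ (-(n + 1 : ℕ) : ℤ) * π ^ n = π⁻¹ := by
      rw [← zpow_natCast π n, ← zpow_add₀ h0, ← zpow_neg_one]
      congr 1
      push_cast
      ring
    rwa [this] at h1
  -- so `R = L`
  obtain ⟨ρ, hρ⟩ := hR.exists_unif
  apply hρ.2.1
  obtain ⟨f, hf⟩ := hπ.exists_ord h (inv_ne_zero hρ.ne_zero)
  have h1 : π ^ f ∈ R := by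
    cases f with
    | ofNat m =>
      rw [Int.ofNat_eq_natCast, zpow_natCast]
      exact R.pow_mem (hd hπ.1) m
    | negSucc m =>
      rw [zpow_negSucc, ← inv_pow]
      exact R.pow_mem hπR _
  have h2 := R.mul_mem (hd hf.2.1) h1
  rwa [div_mul_cancel₀ _ (zpow_ne_zero f h0)] at h2

/-- On a normal chart of finite type an element which belongs to all prime divisors is regular.

PROOF. A noetherian normal domain is the intersection of the localizations at the prime ideals of
height one (`KM.h1` in `AtH1.lean`), which are discrete valuation rings. -/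
theorem mem_of_primDiv {A : Subalgebra k L} (hA : A.FG) (hfr : FracEq A)
    (hn : ∀ x : L, IsIntegral A x → x ∈ A) {x : L}
    (h : ∀ P : Subalgebra k L, LocAt A P → PrimDiv P → x ∈ P) : x ∈ A :=
  ordB_mem_of_primDiv hA hfr hn h

theorem un_of_primDiv {A : Subalgebra k L} (hA : A.FG) (hfr : FracEq A)
    (hn : ∀ x : L, IsIntegral A x → x ∈ A) {x : L} (hx : x ≠ 0)
    (h : ∀ P : Subalgebra k L, LocAt A P → PrimDiv P → Un P x) : Un A x :=
  ⟨hx, mem_of_primDiv hA hfr hn fun P hP hP' => (h P hP hP').2.1,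
    mem_of_primDiv hA hfr hn fun P hP hP' => (h P hP hP').2.2⟩

/-- an element which belongs to all the local rings of `A` belongs to `A` -/
theorem mem_of_locAt {A : Subalgebra k L} {x : L}
    (h : ∀ P : Subalgebra k L, LocAt A P → x ∈ P) : x ∈ A :=
  ordB_mem_of_locAt h

/-- Let `O` be a normal local ring of a finitely generated algebra, with `n - 1` elements whose
residues are algebraically independent, `n` the transcendence degree of `L`. If a prime divisor `P`
dominates `O`, then `P = O`.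

PROOF. The field `K' = k(r)` is contained in `O` (non-zero polynomials in `r` are units of `O`), so `O`
is a local ring of the finitely generated `K'`-algebra generated by a finitely generated `A` with
`LocAt A O` and `K'`; it has transcendence degree one over `K'`, so by Noether normalization it is
integral over `K'[T]` and has dimension one. So `O` is a normal noetherian local ring of dimension
one: a discrete valuation ring (`O` is not a field, for otherwise `O = L` and `P ≥ L`). Apply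
`PrimDiv.eq_of_le`. -/
theorem eq_of_dom_of_indep {n : ℕ} (hn : Algebra.trdeg k L = n) {O P A : Subalgebra k L}
    (hA : A.FG) (hO : LocAt A O) (hfr : FracEq O) (hnorm : ∀ x : L, IsIntegral O x → x ∈ O)
    (hP : PrimDiv P) (hd : Dom O P) (r : Fin (n - 1) → L) (hr : ∀ i, r i ∈ O)
    (hi : ∀ Q : MvPolynomial (Fin (n - 1)) k, Q ≠ 0 → Un O (MvPolynomial.aeval r Q)) : P = O :=
  ((ordB_primDiv hn hA hO hfr hnorm hP hd r hr hi).eq_of_le hP hd.1).symm

end Pool.Agent.KM
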