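import Pool.Agent.Lib.MP_732f67_ag.G.Atlas
import Pool.Agent.Lib.MP_732f67_ag.G.Pt
import Pool.Agent.Lib.MP_732f67_ag.G.EtC
import Pool.Agent.Lib.MP_732f67_ag.G.Ord

/-!
Derivations and regular forms on standard étale charts.
-/

namespace Pool.Agent.KM

open Polynomial TensorProduct
open scoped KaehlerDifferential

section ker

variable {k L : Type} [Field k] [CharZero k] [Field L] [Algebra k L] {n : ℕ}

/-- the differentials of a transcendence basis are a basis in characteristic zero -/
theorem exists_kbasis {t : Fin n → L} (ht : IsTranscendenceBasis k t) :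
    ∃ b : Module.Basis (Fin n) L Ω[L⁄k], ∀ i, b i = KaehlerDifferential.D k L (t i) := by
  set φ : MvPolynomial (Fin n) k →ₐ[k] L := MvPolynomial.aeval t
  have hinj : Function.Injective φ := ht.1
  let _ : Algebra (MvPolynomial (Fin n) k) L := φ.toRingHom.toAlgebra
  have hst : IsScalarTower k (MvPolynomial (Fin n) k) L :=
    IsScalarTower.of_algebraMap_eq fun c => (φ.commutes c).symm
  have hf : FaithfulSMul (MvPolynomial (Fin n) k) L :=
    (faithfulSMul_iff_algebraMap_injective _ _).2 hinj
  let _ : Algebra (FractionRing (MvPolynomial (Fin n) k)) L := FractionRing.liftAlgebra _ _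
  have halg0 : Algebra.IsAlgebraic (MvPolynomial (Fin n) k) L := by
    have h := ht.isAlgebraic
    exact Algebra.IsAlgebraic.of_ringHom_of_comp_eq
      (ht.1.aevalEquiv : MvPolynomial (Fin n) k →+* Algebra.adjoin k (Set.range t))
      (RingHom.id L) ht.1.aevalEquiv.surjective Function.injective_id
      (RingHom.ext fun P => ht.1.algebraMap_aevalEquiv P)
  have halg : Algebra.IsAlgebraic (FractionRing (MvPolynomial (Fin n) k)) L :=
    IsFractionRing.comap_isAlgebraic_iff.1 halg0
  have hetale : Algebra.FormallyEtale (MvPolynomial (Fin n) k) L := by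
    have h1 : Algebra.FormallyEtale (MvPolynomial (Fin n) k)
        (FractionRing (MvPolynomial (Fin n) k)) :=
      Algebra.FormallyEtale.of_isLocalization (nonZeroDivisors _)
    have h2 : Algebra.FormallyEtale (FractionRing (MvPolynomial (Fin n) k)) L :=
      Algebra.FormallyEtale.of_isSeparable _ _
    exact Algebra.FormallyEtale.comp _ (FractionRing (MvPolynomial (Fin n) k)) _
  let b := (KaehlerDifferential.mvPolynomialBasis k (Fin n)).baseChange L
  let e := KaehlerDifferential.tensorKaehlerEquivOfFormallyEtale k (MvPolynomial (Fin n) k) L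
  refine ⟨b.map e, fun i => ?_⟩
  rw [Module.Basis.map_apply, Module.Basis.baseChange_apply,
    KaehlerDifferential.mvPolynomialBasis_apply]
  have := KaehlerDifferential.tensorKaehlerEquivOfFormallyEtale_symm_D_algebraMap k
    (MvPolynomial (Fin n) k) L (MvPolynomial.X i)
  rw [← this, LinearEquiv.apply_symm_apply]
  congr 1
  exact MvPolynomial.aeval_X t i

/-- every derivation in terms of a frame dual to a transcendence basis -/
theorem der_frame {t : Fin n → L} (ht : IsTranscendenceBasis k t) {D : Fin n → Derivation k L L}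
    (hD : ∀ i j, D i (t j) = if i = j then 1 else 0) (D' : Derivation k L L) (w : L) :
    D' w = ∑ j, D' (t j) * D j w := by
  obtain ⟨b, hb⟩ := exists_kbasis ht
  have h : D'.liftKaehlerDifferential = ∑ j, D' (t j) • (D j).liftKaehlerDifferential := by
    refine b.ext fun i => ?_
    rw [hb, Derivation.liftKaehlerDifferential_comp_D, LinearMap.sum_apply]
    simp only [LinearMap.smul_apply, Derivation.liftKaehlerDifferential_comp_D, hD, smul_eq_mul]
    simp
  have h1 := congrArg (fun f => f (KaehlerDifferential.D k L w)) h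
  simpa only [Derivation.liftKaehlerDifferential_comp_D, LinearMap.sum_apply,
    LinearMap.smul_apply, smul_eq_mul] using h1

/-- a derivation which vanishes on a transcendence basis is zero -/
theorem der_eq_zero {t : Fin n → L} (ht : IsTranscendenceBasis k t) {D' : Derivation k L L}
    (h : ∀ i, D' (t i) = 0) : D' = 0 := by
  obtain ⟨b, hb⟩ := exists_kbasis ht
  have h1 : D'.liftKaehlerDifferential = 0 := by
    refine b.ext fun i => ?_
    rw [hb, Derivation.liftKaehlerDifferential_comp_D, h, LinearMap.zero_apply]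
  ext w
  have h2 := congrArg (fun f => f (KaehlerDifferential.D k L w)) h1
  simpa only [Derivation.liftKaehlerDifferential_comp_D, LinearMap.zero_apply,
    Derivation.coe_zero, Pi.zero_apply] using h2

end ker

section chain

variable {k L : Type*} [Field k] [Field L] [Algebra k L] {n : ℕ}

theorem der_aeval (x : Fin n → L) (P : MvPolynomial (Fin n) k) : ∃ c : Fin n → L,
    (∀ l, c l ∈ Algebra.adjoin k (Set.range x)) ∧
      ∀ D : Derivation k L L, D (MvPolynomial.aeval x P) = ∑ l, c l * D (x l) := by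
  classical
  have hmem : ∀ Q : MvPolynomial (Fin n) k,
      MvPolynomial.aeval x Q ∈ Algebra.adjoin k (Set.range x) := by
    intro Q
    rw [Algebra.adjoin_range_eq_range_aeval]
    exact ⟨Q, rfl⟩
  induction P using MvPolynomial.induction_on with
  | C a =>
    refine ⟨0, fun _ => Subalgebra.zero_mem _, fun D => ?_⟩
    rw [MvPolynomial.algHom_C, Derivation.map_algebraMap]
    simp
  | add a b ha hb =>
    obtain ⟨c, hc, hc'⟩ := ha
    obtain ⟨d, hd, hd'⟩ := hb
    refine ⟨c + d, fun l => Subalgebra.add_mem _ (hc l) (hd l), fun D => ?_⟩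
    rw [map_add, map_add, hc', hd', ← Finset.sum_add_distrib]
    exact Finset.sum_congr rfl fun l _ => by rw [Pi.add_apply, add_mul]
  | mul_X a i ha =>
    obtain ⟨c, hc, hc'⟩ := ha
    refine ⟨fun l => x i * c l + if l = i then MvPolynomial.aeval x a else 0, fun l => ?_,
      fun D => ?_⟩
    · refine Subalgebra.add_mem _ (Subalgebra.mul_mem _ (Algebra.subset_adjoin ⟨i, rfl⟩) (hc l)) ?_
      split_ifs
      · exact hmem a
      · exact Subalgebra.zero_mem _
    · rw [map_mul, MvPolynomial.aeval_X, Derivation.leibniz, hc', smul_eq_mul, smul_eq_mul]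
      simp only [add_mul, Finset.sum_add_distrib, ite_mul, zero_mul, Finset.sum_ite_eq',
        Finset.mem_univ, if_true, Finset.mul_sum]
      rw [add_comm]
      congr 1
      exact Finset.sum_congr rfl fun l _ => by ring

theorem der_ev (x : Fin n → L) (y : L) (f : (MvPolynomial (Fin n) k)[X]) :
    ∃ c : Fin n → L, (∀ l, c l ∈ Algebra.adjoin k (Set.range x ∪ {y})) ∧
      ∀ D : Derivation k L L,
        D (ev x y f) = ∑ l, c l * D (x l) + ev x y f.derivative * D y := by
  have hle : Algebra.adjoin k (Set.range x) ≤ Algebra.adjoin k (Set.range x ∪ {y}) :=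
    Algebra.adjoin_mono Set.subset_union_left
  have hyB : y ∈ Algebra.adjoin k (Set.range x ∪ {y}) := Algebra.subset_adjoin (Or.inr rfl)
  induction f using Polynomial.induction_on' with
  | add a b ha hb =>
    obtain ⟨c, hc, hc'⟩ := ha
    obtain ⟨d, hd, hd'⟩ := hb
    refine ⟨c + d, fun l => Subalgebra.add_mem _ (hc l) (hd l), fun D => ?_⟩
    have h1 : ev x y (a + b) = ev x y a + ev x y b := Polynomial.eval₂_add _ _
    have h2 : ev x y (a + b).derivative = ev x y a.derivative + ev x y b.derivative := by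
      rw [Polynomial.derivative_add]
      exact Polynomial.eval₂_add _ _
    rw [h1, h2, map_add, hc', hd']
    simp only [Pi.add_apply, add_mul, Finset.sum_add_distrib]
    ring
  | monomial i P =>
    obtain ⟨c, hc, hc'⟩ := der_aeval x P
    refine ⟨fun l => y ^ i * c l,
      fun l => Subalgebra.mul_mem _ (Subalgebra.pow_mem _ hyB _) (hle (hc l)), fun D => ?_⟩
    have h1 : ev x y (Polynomial.monomial i P) = MvPolynomial.aeval x P * y ^ i :=
      Polynomial.eval₂_monomial _ _
    have h2 : ev x y (Polynomial.derivative (Polynomial.monomial i P)) =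
        MvPolynomial.aeval x P * i * y ^ (i - 1) := by
      rw [Polynomial.derivative_monomial]
      refine (Polynomial.eval₂_monomial _ _).trans ?_
      congr 1
      exact (map_mul _ _ _).trans (by rw [map_natCast]; rfl)
    rw [h1, h2, Derivation.leibniz, hc', Derivation.leibniz_pow]
    simp only [smul_eq_mul, nsmul_eq_mul, Finset.mul_sum, mul_assoc]
    ring

end chain

variable {L : Type} [Field L] [Algebra ℂ L] {n : ℕ}

/-- The derivations of `L` with respect to the coordinates of a standard étale chart preserve its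
ring.

PROOF. `∂ y = - f_X(x, y) / f_Y(x, y)`, and the derivative of `u` is `- u ^ 2 ∂ (u⁻¹)`. -/
theorem IsCh.der {A : Subalgebra ℂ L} {x : Fin n → L} {y u : L} (h : IsCh A x y u)
    (D : Derivation ℂ L L) (hD : ∀ i, D (x i) ∈ A) : ∀ w ∈ A, D w ∈ A := by
  have hxA : ∀ i, x i ∈ A := fun i => by
    rw [h.A_eq]; exact Algebra.subset_adjoin (Or.inl ⟨i, rfl⟩)
  have hyA : y ∈ A := by rw [h.A_eq]; exact Algebra.subset_adjoin (Or.inr (Or.inl rfl))
  have huA : u ∈ A := by rw [h.A_eq]; exact Algebra.subset_adjoin (Or.inr (Or.inr rfl))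
  have hBA : Algebra.adjoin ℂ (Set.range x ∪ {y}) ≤ A := by
    rw [Algebra.adjoin_le_iff]
    rintro z (⟨i, rfl⟩ | rfl)
    · exact hxA i
    · exact hyA
  let G : Subalgebra ℂ L :=
    { carrier := {w | w ∈ A ∧ D w ∈ A}
      mul_mem' := by
        rintro a b ⟨ha, ha'⟩ ⟨hb, hb'⟩
        refine ⟨A.mul_mem ha hb, ?_⟩
        rw [Derivation.leibniz, smul_eq_mul, smul_eq_mul]
        exact A.add_mem (A.mul_mem ha hb') (A.mul_mem hb ha')
      add_mem' := by
        rintro a b ⟨ha, ha'⟩ ⟨hb, hb'⟩
        refine ⟨A.add_mem ha hb, ?_⟩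
        rw [map_add]
        exact A.add_mem ha' hb'
      algebraMap_mem' := fun c => ⟨A.algebraMap_mem c, by
        rw [Derivation.map_algebraMap]; exact A.zero_mem⟩ }
  suffices hle : A ≤ G from fun w hw => (hle hw).2
  have hxG : ∀ i, x i ∈ G := fun i => ⟨hxA i, hD i⟩
  obtain ⟨f, hfm, hfi, hf0, hf1, hf2⟩ := h.pol
  have hyG : y ∈ G := by
    obtain ⟨c, hc, hc'⟩ := der_ev x y f
    refine ⟨hyA, ?_⟩
    have h1 := hc' D
    rw [hf0, map_zero] at h1
    have h2 : D y = -((ev x y f.derivative)⁻¹ * ∑ l, c l * D (x l)) := by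
      have h3 : ∑ l, c l * D (x l) = -(ev x y f.derivative * D y) := by linear_combination -h1
      rw [h3]
      field_simp
    rw [h2]
    exact A.neg_mem (A.mul_mem hf2 (A.sum_mem fun l _ => A.mul_mem (hBA (hc l)) (hD l)))
  have hB : Algebra.adjoin ℂ (Set.range x ∪ {y}) ≤ G := by
    rw [Algebra.adjoin_le_iff]
    rintro z (⟨i, rfl⟩ | rfl)
    · exact hxG i
    · exact hyG
  have huG : u ∈ G := by
    obtain ⟨-, h1⟩ := hB h.u_inv
    refine ⟨huA, ?_⟩
    have h2 : D (u * u⁻¹) = 0 := by
      rw [mul_inv_cancel₀ h.u_ne]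
      exact Derivation.map_one_eq_zero _
    rw [Derivation.leibniz, smul_eq_mul, smul_eq_mul] at h2
    have h3 : u * u⁻¹ = 1 := mul_inv_cancel₀ h.u_ne
    have h4 : D u = -(u ^ 2 * D u⁻¹) := by linear_combination u * h2 - D u * h3
    rw [h4]
    exact A.neg_mem (A.mul_mem (A.pow_mem huA 2) h1)
  conv_lhs => rw [h.A_eq]
  rw [Algebra.adjoin_le_iff]
  rintro z (⟨i, rfl⟩ | rfl | rfl)
  · exact hxG i
  · exact hyG
  · exact huG

/-- the partial derivatives with respect to a transcendence basis in characteristic zero -/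
theorem exists_der {t : Fin n → L} (ht : IsTranscendenceBasis ℂ t) :
    ∃ D : Fin n → Derivation ℂ L L, ∀ i j, D i (t j) = if i = j then 1 else 0 := by
  obtain ⟨b, hb⟩ := exists_kbasis ht
  refine ⟨fun i => (b.coord i).compDer (KaehlerDifferential.D ℂ L), fun i j => ?_⟩
  show b.coord i (KaehlerDifferential.D ℂ L (t j)) = _
  rw [← hb, Module.Basis.coord_apply, Module.Basis.repr_self, Finsupp.single_apply]
  simp only [eq_comm]

/-- change of the frame: `D' = M D` as `L` has the frame `D` dual to `t` -/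
theorem det_frame {t : Fin n → L} (ht : IsTranscendenceBasis ℂ t) {D D' : Fin n → Derivation ℂ L L}
    (hD : ∀ i j, D i (t j) = if i = j then 1 else 0) (w : Fin n → L) :
    (Matrix.of fun i l => D' i (w l)).det =
      (Matrix.of fun i l => D' i (t l)).det * (Matrix.of fun i l => D i (w l)).det := by
  rw [← Matrix.det_mul]
  congr 1
  ext i l
  rw [Matrix.mul_apply]
  exact der_frame ht hD (D' i) (w l)

/-- the derivations which preserve a ring preserve its localizations -/
theorem der_locAt {A O : Subalgebra ℂ L} (hO : LocAt A O) (D : Derivation ℂ L L)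
    (hD : ∀ w ∈ A, D w ∈ A) : ∀ w ∈ O, D w ∈ O := by
  obtain ⟨P, hP, hO⟩ := hO
  intro w hw
  obtain ⟨a, b, hb, rfl⟩ := (hO w).1 hw
  refine (hO _).2 ⟨⟨(b : L) * D a - a * D b, A.sub_mem (A.mul_mem b.2 (hD _ a.2))
    (A.mul_mem a.2 (hD _ b.2))⟩, b ^ 2, fun hb2 => hb (hP.mem_of_pow_mem 2 hb2), ?_⟩
  rw [Derivation.leibniz_div]
  simp only [smul_eq_mul, SubmonoidClass.coe_pow]
  have hb0 : (b : L) ≠ 0 := fun h0 => hb (by
    have : b = 0 := Subtype.ext h0
    rw [this]; exact P.zero_mem)
  field_simp

/-- The regular forms on a local ring of a standard étale chart are generated by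
`dx_1 ∧ ... ∧ dx_n`.

PROOF. Let `∂ l` be the derivations of `L` dual to the `x l` (they exist: `x` is a transcendence
basis in characteristic zero); they preserve `A`, and so `O`. For `w ∈ O`:
`D i w = ∑ l, ∂ l w * D i (x l)`, so `det (D i (w j)) = det (D i (x l)) det (∂ l (w j))`. -/
theorem IsCh.lat_eq {A O : Subalgebra ℂ L} {x : Fin n → L} {y u : L} (h : IsCh A x y u)
    (hO : LocAt A O) (D : Fin n → Derivation ℂ L L) (f : L) :
    f ∈ lat D O ↔ ∃ c ∈ O, f = c * (Matrix.of fun i l => D i (x l)).det := by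
  obtain ⟨d, hd⟩ := exists_der h.tb
  have hxA : ∀ i, x i ∈ A := fun i => by
    rw [h.A_eq]; exact Algebra.subset_adjoin (Or.inl ⟨i, rfl⟩)
  have hdO : ∀ l, ∀ w ∈ O, d l w ∈ O := fun l => der_locAt hO (d l) (h.der (d l) fun i => by
    rw [hd]
    split_ifs
    · exact A.one_mem
    · exact A.zero_mem)
  constructor
  · intro hf
    unfold lat at hf
    induction hf using Submodule.span_induction with
    | mem z hz =>
      obtain ⟨w, rfl⟩ := hz
      refine ⟨(Matrix.of fun i l => d i (w l : L)).det, ?_, ?_⟩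
      · rw [Matrix.det_apply']
        exact O.sum_mem fun σ _ => O.mul_mem (intCast_mem O _)
          (O.prod_mem fun i _ => hdO _ _ (w i).2)
      · rw [mul_comm]
        exact det_frame h.tb hd fun l => (w l : L)
    | zero => exact ⟨0, O.zero_mem, (zero_mul _).symm⟩
    | add a b _ _ ha hb =>
      obtain ⟨c, hc, rfl⟩ := ha
      obtain ⟨e, he, rfl⟩ := hb
      exact ⟨c + e, O.add_mem hc he, (add_mul _ _ _).symm⟩
    | smul r a _ ha =>
      obtain ⟨c, hc, rfl⟩ := ha
      exact ⟨r * c, O.mul_mem r.2 hc, (mul_assoc _ _ _).symm⟩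
  · rintro ⟨c, hc, rfl⟩
    exact Submodule.smul_mem (lat D O) (⟨c, hc⟩ : O)
      (Submodule.subset_span ⟨fun l => ⟨x l, hO.le (hxA l)⟩, rfl⟩)

theorem der_sum_apply {ι : Type*} (s : Finset ι) (F : ι → Derivation ℂ L L) (a : L) :
    (∑ i ∈ s, F i) a = ∑ i ∈ s, F i a := by
  classical
  induction s using Finset.induction_on with
  | empty => rfl
  | insert i s hi ih => rw [Finset.sum_insert hi, Finset.sum_insert hi, Derivation.add_apply, ih]

/-- the determinant is not zero if the derivations are linearly independent -/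
theorem IsCh.det_ne {A : Subalgebra ℂ L} {x : Fin n → L} {y u : L} (h : IsCh A x y u)
    (D : Fin n → Derivation ℂ L L) (hD : LinearIndependent L D) :
    (Matrix.of fun i l => D i (x l)).det ≠ 0 := by
  intro h0
  obtain ⟨v, hv, hv0⟩ := Matrix.exists_vecMul_eq_zero_iff.2 h0
  have h1 : ∑ i, v i • D i = 0 := by
    refine der_eq_zero h.tb fun l => ?_
    have := congrFun hv0 l
    simp only [Matrix.vecMul, dotProduct, Matrix.of_apply, Pi.zero_apply] at this
    rw [← this, der_sum_apply]
    rfl
  exact hv (funext fun i => Fintype.linearIndependent_iff.1 hD v h1 i)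

set_option linter.unusedVariables false in
/-- the order of the form `η` dual to the frame `D` along a prime divisor of a standard étale
chart -/
theorem IsCh.isOrdF {A O : Subalgebra ℂ L} {x : Fin n → L} {y u : L} (h : IsCh A x y u)
    (hO : LocAt A O) (hP : PrimDiv O) (D : Fin n → Derivation ℂ L L) {e : ℤ}
    (he : IsOrd O (Matrix.of fun i l => D i (x l)).det e) : IsOrdF D O (-e) := by
  obtain ⟨π, hπ, hu⟩ := he
  refine ⟨π, hπ, fun f => ?_⟩
  have hπ0 : π ≠ 0 := by
    rintro rfl
    exact hπ.2.1 (by rw [inv_zero]; exact O.zero_mem)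
  have hπe : π ^ e ≠ 0 := zpow_ne_zero e hπ0
  set v := (Matrix.of fun i l => D i (x l)).det / π ^ e with hv
  have hdet : (Matrix.of fun i l => D i (x l)).det = v * π ^ e := by
    rw [hv, div_mul_cancel₀ _ hπe]
  rw [h.lat_eq hO, hdet, zpow_neg]
  constructor
  · rintro ⟨c, hc, rfl⟩
    have : c * (v * π ^ e) * (π ^ e)⁻¹ = c * v := by
      rw [mul_assoc, mul_assoc, mul_inv_cancel₀ hπe, mul_one]
    rw [this]
    exact O.mul_mem hc hu.2.1
  · intro hf
    refine ⟨f * (π ^ e)⁻¹ * v⁻¹, O.mul_mem hf hu.2.2, ?_⟩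
    have hv0 := hu.1
    field_simp

end Pool.Agent.KM
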