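import Pool.Agent.Lib.MP_732f67_ag.G.Atlas
import Pool.Agent.Lib.MP_732f67_ag.G.Pt

/-!
Étale coordinates: formal étaleness, transcendence basis.
-/

namespace Pool.Agent.KM

open Polynomial
open scoped KaehlerDifferential

variable {L : Type} [Field L] [Algebra ℂ L] {n : ℕ}

/-- the Jacobi - Zariski sequence: a formally smooth algebra is formally étale over a subalgebra
with the same differentials -/
theorem eta_jz {R S T : Type*} [CommRing R] [CommRing S] [CommRing T] [Algebra R S] [Algebra R T]
    [Algebra S T] [IsScalarTower R S T] [Algebra.FormallySmooth R T]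
    (h : Function.Bijective (KaehlerDifferential.mapBaseChange R S T)) :
    Algebra.FormallyEtale S T := by
  refine ⟨⟨fun a b => ?_⟩, ⟨fun a b => ?_⟩⟩
  · have key : ∀ y : Ω[T⁄S], y = 0 := by
      intro y
      obtain ⟨x, rfl⟩ := KaehlerDifferential.map_surjective R S T y
      obtain ⟨z, rfl⟩ := h.2 x
      exact (KaehlerDifferential.exact_mapBaseChange_map R S T _).2 ⟨z, rfl⟩
    rw [key a, key b]
  · have key : ∀ y : Algebra.H1Cotangent S T, y = 0 := by
      intro y
      have h1 : KaehlerDifferential.mapBaseChange R S T (Algebra.H1Cotangent.δ R S T y) = 0 :=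
        (Algebra.H1Cotangent.exact_δ_mapBaseChange R S T _).2 ⟨y, rfl⟩
      have h2 : Algebra.H1Cotangent.δ R S T y = 0 := h.1 (by rw [h1, map_zero])
      obtain ⟨z, rfl⟩ := (Algebra.H1Cotangent.exact_map_δ R S T y).1 h2
      rw [Subsingleton.elim z 0, map_zero]
    rw [key a, key b]

/-- a linear map which maps a basis to a basis is bijective -/
theorem eta_bij {ι R M N : Type*} [CommRing R] [AddCommGroup M] [AddCommGroup N] [Module R M]
    [Module R N] (b : Module.Basis ι R M) (c : Module.Basis ι R N) (f : M →ₗ[R] N)
    (h : ∀ i, f (b i) = c i) : Function.Bijective f := by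
  have : f = (b.equiv c (Equiv.refl ι)).toLinearMap := by
    refine b.ext fun i => ?_
    rw [h i]
    simp
  rw [this]
  exact (b.equiv c (Equiv.refl ι)).bijective

/-- Let `O` be a local ring of the finitely generated algebra `A`, formally smooth over `ℂ`, with
elements `x i` whose differentials form a basis of `Ω[O⁄ℂ]`. Then `ℂ[X] → O`, `X i ↦ x i`, is formally
étale.

PROOF. `O ⊗ Ω[ℂ[X]⁄ℂ] → Ω[O⁄ℂ]` is an isomorphism, and `O` is formally smooth over `ℂ`, so the
first cotangent homology of `O` over `ℂ[X]` and `Ω[O⁄ℂ[X]]` vanish. -/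
theorem formallyEtale_of_basis {O : Subalgebra ℂ L} (hs : Algebra.FormallySmooth ℂ O)
    (x : Fin n → O) (b : Module.Basis (Fin n) O Ω[O⁄ℂ])
    (hb : ∀ i, b i = KaehlerDifferential.D ℂ O (x i)) :
    letI := (MvPolynomial.aeval x : MvPolynomial (Fin n) ℂ →ₐ[ℂ] O).toRingHom.toAlgebra
    Algebra.FormallyEtale (MvPolynomial (Fin n) ℂ) O := by
  let _ := (MvPolynomial.aeval x : MvPolynomial (Fin n) ℂ →ₐ[ℂ] O).toRingHom.toAlgebra
  have : IsScalarTower ℂ (MvPolynomial (Fin n) ℂ) O :=
    IsScalarTower.of_algebraMap_eq' (MvPolynomial.aeval x).comp_algebraMap.symm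
  refine eta_jz (R := ℂ) (eta_bij
    ((KaehlerDifferential.mvPolynomialBasis ℂ (Fin n)).baseChange O) b _ fun i => ?_)
  rw [Module.Basis.baseChange_apply, KaehlerDifferential.mvPolynomialBasis_apply,
    KaehlerDifferential.mapBaseChange_tmul, one_smul, KaehlerDifferential.map_D, hb i]
  congr 1
  exact MvPolynomial.aeval_X x i

/-- the differential of the value of a polynomial -/
theorem eta_D {A : Type*} [CommRing A] [Algebra ℂ A] {M : Type*} [AddCommGroup M] [Module ℂ M]
    [Module A M] [IsScalarTower ℂ A M] (D : Derivation ℂ A M) (x : Fin n → A)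
    (P : MvPolynomial (Fin n) ℂ) :
    D (MvPolynomial.aeval x P) = ∑ i, MvPolynomial.aeval x (MvPolynomial.pderiv i P) • D (x i) := by
  induction P using MvPolynomial.induction_on with
  | C a => simp
  | add p q hp hq =>
    rw [map_add, map_add, hp, hq, ← Finset.sum_add_distrib]
    refine Finset.sum_congr rfl fun i _ => ?_
    rw [map_add, map_add, add_smul]
  | mul_X p j hp =>
    rw [map_mul, Derivation.leibniz, hp, MvPolynomial.aeval_X, Finset.smul_sum]
    have h1 : ∀ i, MvPolynomial.aeval x (MvPolynomial.pderiv i (p * MvPolynomial.X j)) • D (x i) =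
        (MvPolynomial.aeval x p * (if i = j then 1 else 0)) • D (x i) +
          x j • MvPolynomial.aeval x (MvPolynomial.pderiv i p) • D (x i) := by
      intro i
      rw [MvPolynomial.pderiv_mul, MvPolynomial.pderiv_X, map_add, map_mul, map_mul,
        MvPolynomial.aeval_X, add_smul, smul_smul, add_comm, mul_comm (x j)]
      congr 3
      by_cases h : i = j
      · subst h
        simp
      · rw [if_neg h, Pi.single_eq_of_ne (Ne.symm h), map_zero]
    rw [Finset.sum_congr rfl fun i _ => h1 i, Finset.sum_add_distrib]
    congr 1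
    rw [Finset.sum_eq_single j]
    · rw [if_pos rfl, mul_one]
    · intro i _ hi
      rw [if_neg hi, mul_zero, zero_smul]
    · intro h
      exact absurd (Finset.mem_univ j) h

/-- elements with linearly independent differentials are algebraically independent -/
theorem eta_indep {M : Type*} [AddCommGroup M] [Module ℂ M] [Module L M] [IsScalarTower ℂ L M]
    (D : Derivation ℂ L M) (x : Fin n → L) (h : LinearIndependent L fun i => D (x i)) :
    AlgebraicIndependent ℂ x := by
  have key : ∀ d : ℕ, ∀ P : MvPolynomial (Fin n) ℂ,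
      (∀ m, MvPolynomial.coeff m P ≠ 0 → m.degree < d) → MvPolynomial.aeval x P = 0 → P = 0 := by
    intro d
    induction d with
    | zero =>
      intro P hP _
      ext m
      by_contra hm
      exact absurd (hP m hm) (Nat.not_lt_zero _)
    | succ d ih =>
      intro P hP h0
      have h1 : ∀ i, MvPolynomial.pderiv i P = 0 := by
        intro i
        refine ih _ (fun m hm => ?_) ?_
        · rw [MvPolynomial.coeff_pderiv] at hm
          have h2 := hP _ (left_ne_zero_of_mul hm)
          rw [map_add, Finsupp.degree_single] at h2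
          omega
        · have h2 := eta_D D x P
          rw [h0, map_zero] at h2
          exact (linearIndependent_iff'.1 h) Finset.univ
            (fun i => MvPolynomial.aeval x (MvPolynomial.pderiv i P)) h2.symm i (Finset.mem_univ i)
      have h2 : P = MvPolynomial.C (MvPolynomial.coeff 0 P) := by
        ext m
        rw [MvPolynomial.coeff_C]
        split_ifs with hm
        · rw [hm]
        · obtain ⟨i, hi⟩ : ∃ i, m i ≠ 0 := by
            by_contra hcon
            push Not at hcon
            exact hm (Finsupp.ext fun i => (hcon i).symm)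
          have h3 := congrArg (MvPolynomial.coeff (m - Finsupp.single i 1)) (h1 i)
          rw [MvPolynomial.coeff_pderiv, MvPolynomial.coeff_zero] at h3
          have h4 : m - Finsupp.single i 1 + Finsupp.single i 1 = m :=
            tsub_add_cancel_of_le (Finsupp.single_le_iff.2 (Nat.one_le_iff_ne_zero.2 hi))
          rw [h4] at h3
          exact (mul_eq_zero.1 h3).resolve_right (Nat.cast_add_one_ne_zero _)
      rw [h2, MvPolynomial.aeval_C] at h0
      rw [h2, (map_eq_zero _).1 h0, map_zero]
  rw [algebraicIndependent_iff]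
  intro P hP
  refine key (P.support.sup Finsupp.degree + 1) P (fun m hm => ?_) hP
  exact Nat.lt_succ_of_le (Finset.le_sup (MvPolynomial.mem_support_iff.2 hm))

open scoped IntermediateField.algebraAdjoinAdjoin in
/-- a field of characteristic zero is formally étale over the ring generated by a transcendence
basis -/
theorem eta_tb {T : Set L} (hT : IsTranscendenceBasis ℂ ((↑) : T → L)) :
    letI := (MvPolynomial.aeval ((↑) : T → L) : MvPolynomial T ℂ →ₐ[ℂ] L).toRingHom.toAlgebra
    Algebra.FormallyEtale (MvPolynomial T ℂ) L := by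
  let _ := (MvPolynomial.aeval ((↑) : T → L) : MvPolynomial T ℂ →ₐ[ℂ] L).toRingHom.toAlgebra
  let v : T → L := (↑)
  let A0 := Algebra.adjoin ℂ (Set.range v)
  let K := IntermediateField.adjoin ℂ (Set.range v)
  let _ : Algebra (MvPolynomial T ℂ) A0 := hT.1.aevalEquiv.toRingHom.toAlgebra
  have : IsScalarTower (MvPolynomial T ℂ) A0 L := by
    refine IsScalarTower.of_algebraMap_eq fun p => ?_
    exact (hT.1.algebraMap_aevalEquiv p).symm
  have : Algebra.FormallyEtale (MvPolynomial T ℂ) A0 := by
    refine Algebra.FormallyEtale.of_equiv (A := MvPolynomial T ℂ)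
      (AlgEquiv.ofRingEquiv (f := hT.1.aevalEquiv.toRingEquiv) fun p => rfl)
  have : Algebra.FormallyEtale A0 K := .of_isLocalization (nonZeroDivisors _)
  have : Algebra.IsAlgebraic K L := hT.isAlgebraic_field
  have : Algebra.IsSeparable K L := inferInstance
  have : Algebra.FormallyEtale K L := Algebra.FormallyEtale.of_isSeparable _ L
  have : Algebra.FormallyEtale A0 L := Algebra.FormallyEtale.comp A0 K L
  exact Algebra.FormallyEtale.comp (MvPolynomial T ℂ) A0 L

/-- the differentials of a transcendence basis are linearly independent -/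
theorem eta_li {T : Set L} (hT : IsTranscendenceBasis ℂ ((↑) : T → L)) :
    LinearIndependent L fun t : T => KaehlerDifferential.D ℂ L (t : L) := by
  let _ := (MvPolynomial.aeval ((↑) : T → L) : MvPolynomial T ℂ →ₐ[ℂ] L).toRingHom.toAlgebra
  have : IsScalarTower ℂ (MvPolynomial T ℂ) L :=
    IsScalarTower.of_algebraMap_eq' (MvPolynomial.aeval ((↑) : T → L)).comp_algebraMap.symm
  have := eta_tb hT
  let b : Module.Basis T L Ω[L⁄ℂ] :=
    ((KaehlerDifferential.mvPolynomialBasis ℂ T).baseChange L).map
      (KaehlerDifferential.tensorKaehlerEquivOfFormallyEtale ℂ (MvPolynomial T ℂ) L)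
  have hb : (fun t : T => KaehlerDifferential.D ℂ L (t : L)) = b := by
    funext t
    simp only [b, Module.Basis.map_apply, Module.Basis.baseChange_apply,
      KaehlerDifferential.mvPolynomialBasis_apply,
      KaehlerDifferential.tensorKaehlerEquivOfFormallyEtale_apply,
      KaehlerDifferential.mapBaseChange_tmul, one_smul, KaehlerDifferential.map_D]
    congr 1
    exact (MvPolynomial.aeval_X _ t).symm
  rw [hb]
  exact b.linearIndependent

/-- the `x i` form a transcendence basis of `L`

PROOF. Their differentials form a basis of `Ω[L⁄ℂ]` (localization); in characteristic zero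
algebraically dependent elements have dependent differentials, and if `L` were not algebraic over
`ℂ(x)`, there would be a non-zero derivation of `L` over `ℂ(x)`. -/
theorem tb_of_basis {O : Subalgebra ℂ L} (hfr : FracEq O)
    (x : Fin n → O) (b : Module.Basis (Fin n) O Ω[O⁄ℂ])
    (hb : ∀ i, b i = KaehlerDifferential.D ℂ O (x i)) :
    IsTranscendenceBasis ℂ fun i => (x i : L) := by
  have : IsFractionRing O L := by
    refine IsFractionRing.of_field O L fun z => ?_
    obtain ⟨a, b, _, h⟩ := hfr z
    exact ⟨a, b, h⟩
  have : Algebra.FormallyEtale O L := .of_isLocalization (nonZeroDivisors O)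
  let c : Module.Basis (Fin n) L Ω[L⁄ℂ] := (b.baseChange L).map
    (KaehlerDifferential.tensorKaehlerEquivOfFormallyEtale ℂ O L)
  have hc : ∀ i, c i = KaehlerDifferential.D ℂ L (x i : L) := by
    intro i
    simp only [c, Module.Basis.map_apply, Module.Basis.baseChange_apply, hb,
      KaehlerDifferential.tensorKaehlerEquivOfFormallyEtale_apply,
      KaehlerDifferential.mapBaseChange_tmul, one_smul, KaehlerDifferential.map_D]
    rfl
  have hli : LinearIndependent L fun i => KaehlerDifferential.D ℂ L (x i : L) := by
    have := c.linearIndependent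
    rwa [show (c : Fin n → Ω[L⁄ℂ]) = fun i => KaehlerDifferential.D ℂ L (x i : L) from
      funext hc] at this
  have hind := eta_indep (KaehlerDifferential.D ℂ L) (fun i => (x i : L)) hli
  obtain ⟨T, hT, hTb⟩ := exists_isTranscendenceBasis_superset hind.coe_range
  have hTl := eta_li hTb
  have hTx : T = Set.range fun i => (x i : L) := by
    refine Set.Subset.antisymm (fun t ht => ?_) hT
    by_contra htx
    have h1 : KaehlerDifferential.D ℂ L t ∈
        Submodule.span L (Set.range fun i => KaehlerDifferential.D ℂ L (x i : L)) := by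
      have := c.span_eq
      rw [show (c : Fin n → Ω[L⁄ℂ]) = fun i => KaehlerDifferential.D ℂ L (x i : L) from
        funext hc] at this
      rw [this]
      exact Submodule.mem_top
    refine hTl.notMem_span_image (s := {s : T | (s : L) ∈ Set.range fun i => (x i : L)})
      (x := ⟨t, ht⟩) htx ?_
    refine Submodule.span_mono ?_ h1
    rintro _ ⟨i, rfl⟩
    exact ⟨⟨x i, hT ⟨i, rfl⟩⟩, ⟨i, rfl⟩, rfl⟩
  rw [hind.isTranscendenceBasis_iff_isAlgebraic]
  have h2 := (hTb.1.isTranscendenceBasis_iff_isAlgebraic).1 hTb
  rw [Subtype.range_coe, hTx] at h2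
  exact h2

end Pool.Agent.KM
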