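import Mathlib

/-!
Standard étale neighbourhoods inside a field.
-/

namespace Pool.Agent.KM

open Polynomial

section core

variable {R L : Type*} [CommRing R] [Field L] [Algebra R L]

/-- the localization of a subring of a field away from an element -/
def etbLoc (B : Subalgebra R L) (f : L) (hf : f ∈ B) : Subalgebra R L where
  carrier := {x | ∃ b ∈ B, ∃ k : ℕ, x = b * (f⁻¹) ^ k}
  mul_mem' := by
    rintro x y ⟨a, ha, k, rfl⟩ ⟨b, hb, l, rfl⟩
    exact ⟨a * b, B.mul_mem ha hb, k + l, by ring⟩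
  add_mem' := by
    rintro x y ⟨a, ha, k, rfl⟩ ⟨b, hb, l, rfl⟩
    rcases eq_or_ne f 0 with rfl | hf0
    · rcases Nat.eq_zero_or_pos k with rfl | hk
      · rcases Nat.eq_zero_or_pos l with rfl | hl
        · exact ⟨a + b, B.add_mem ha hb, 0, by ring⟩
        · exact ⟨a, ha, 0, by simp [hl.ne']⟩
      · rcases Nat.eq_zero_or_pos l with rfl | hl
        · exact ⟨b, hb, 0, by simp [hk.ne']⟩
        · exact ⟨0, B.zero_mem, 0, by simp [hk.ne', hl.ne']⟩
    · refine ⟨a * f ^ l + b * f ^ k, B.add_mem (B.mul_mem ha (B.pow_mem hf l))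
        (B.mul_mem hb (B.pow_mem hf k)), k + l, ?_⟩
      have h1 : f ^ l * (f⁻¹) ^ l = 1 := by rw [← mul_pow, mul_inv_cancel₀ hf0, one_pow]
      have h2 : f ^ k * (f⁻¹) ^ k = 1 := by rw [← mul_pow, mul_inv_cancel₀ hf0, one_pow]
      rw [pow_add]
      linear_combination (-a * (f⁻¹) ^ k) * h1 + (-b * (f⁻¹) ^ l) * h2
  algebraMap_mem' r := ⟨algebraMap R L r, B.algebraMap_mem r, 0, by simp⟩

theorem mem_etbLoc {B : Subalgebra R L} {f : L} {hf : f ∈ B} {x : L} :
    x ∈ etbLoc B f hf ↔ ∃ b ∈ B, ∃ k : ℕ, x = b * (f⁻¹) ^ k := Iff.rfl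

theorem le_etbLoc {B : Subalgebra R L} {f : L} {hf : f ∈ B} : B ≤ etbLoc B f hf :=
  fun b hb => ⟨b, hb, 0, by simp⟩

theorem inv_mem_etbLoc {B : Subalgebra R L} {f : L} {hf : f ∈ B} : f⁻¹ ∈ etbLoc B f hf :=
  ⟨1, B.one_mem, 1, by simp⟩

/-- the standard étale neighbourhood -/
theorem etb_core [IsDomain R] [IsNoetherianRing R] [IsIntegrallyClosed R] [FaithfulSMul R L]
    (B O : Subalgebra R L) (hB : B.FG) (Q : Ideal B) (hQ : Q.IsPrime)
    (hO : ∀ x : L, x ∈ O ↔ ∃ a b : B, b ∉ Q ∧ x = a / b) (he : Algebra.FormallyEtale R O) :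
    ∃ f : B, f ∉ Q ∧ ∃ y ∈ etbLoc B f f.2, ∃ u ∈ etbLoc B f f.2, ∃ F g : R[X],
      F.Monic ∧ Irreducible F ∧ aeval y F = 0 ∧ aeval y F.derivative ≠ 0 ∧
      (aeval y F.derivative)⁻¹ ∈ etbLoc B f f.2 ∧ u ≠ 0 ∧ u⁻¹ = aeval y g ∧
      ∀ c ∈ etbLoc B f f.2, ∃ (p : R[X]) (k : ℕ), c = aeval y p * u ^ k := by
  classical
  have hinj : Function.Injective (algebraMap R L) := FaithfulSMul.algebraMap_injective R L
  -- `B` is finitely presented
  have hft : Algebra.FiniteType R B := (Subalgebra.fg_iff_finiteType B).1 hB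
  have hfp : Algebra.FinitePresentation R B := Algebra.FinitePresentation.of_finiteType.1 hft
  have hb0 : ∀ b : B, b ∉ Q → (b : L) ≠ 0 := by
    intro b hb h0
    apply hb
    have : b = 0 := Subtype.ext h0
    rw [this]
    exact Q.zero_mem
  have hBO : B ≤ O := by
    intro b hb
    refine (hO b).2 ⟨⟨b, hb⟩, 1, fun h => hQ.ne_top ((Ideal.eq_top_iff_one Q).2 h), by simp⟩
  let _ : Algebra B O := (Subalgebra.inclusion hBO).toRingHom.toAlgebra
  have : IsScalarTower R B O := IsScalarTower.of_algebraMap_eq fun r => rfl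
  have hloc : IsLocalization.AtPrime O Q := by
    refine ⟨?_, ?_, ?_⟩
    · rintro ⟨b, hb⟩
      have hb' : b ∉ Q := hb
      have h0 := hb0 b hb'
      have hinv : (b : L)⁻¹ ∈ O := (hO _).2 ⟨1, b, hb', by simp⟩
      refine IsUnit.of_mul_eq_one ⟨(b : L)⁻¹, hinv⟩ ?_
      apply Subtype.ext
      exact mul_inv_cancel₀ h0
    · rintro ⟨x, hx⟩
      obtain ⟨a, b, hb, rfl⟩ := (hO x).1 hx
      refine ⟨(a, ⟨b, hb⟩), ?_⟩
      apply Subtype.ext
      exact div_mul_cancel₀ _ (hb0 b hb)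
    · intro x y hxy
      refine ⟨1, ?_⟩
      have h1 : (x : L) = y := congrArg (fun z : O => (z : L)) hxy
      rw [Subtype.ext h1]
  have het : Algebra.IsEtaleAt R Q := by
    let e : O ≃ₐ[B] Localization.AtPrime Q :=
      IsLocalization.algEquiv Q.primeCompl O (Localization.AtPrime Q)
    exact Algebra.FormallyEtale.of_equiv (e.restrictScalars R)
  obtain ⟨f, hfQ, hst⟩ := Algebra.IsEtaleAt.exists_isStandardEtale (R := R) Q
  refine ⟨f, hfQ, ?_⟩
  have hf0 := hb0 f hfQ
  set C := etbLoc B (f : L) f.2 with hC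
  have hBC : B ≤ C := le_etbLoc
  let _ : Algebra B C := (Subalgebra.inclusion hBC).toRingHom.toAlgebra
  have : IsScalarTower R B C := IsScalarTower.of_algebraMap_eq fun r => rfl
  have hlocC : IsLocalization.Away f C := by
    refine ⟨?_, ?_, ?_⟩
    · rintro ⟨b, n, rfl⟩
      refine IsUnit.of_mul_eq_one (⟨(f : L)⁻¹, inv_mem_etbLoc⟩ ^ n : C) ?_
      apply Subtype.ext
      show ((f : L) ^ n) * ((f : L)⁻¹) ^ n = 1
      rw [← mul_pow, mul_inv_cancel₀ hf0, one_pow]
    · rintro ⟨x, hx⟩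
      obtain ⟨b, hb, k, rfl⟩ := mem_etbLoc.1 hx
      refine ⟨(⟨b, hb⟩, ⟨f ^ k, k, rfl⟩), ?_⟩
      apply Subtype.ext
      show b * ((f : L)⁻¹) ^ k * (f : L) ^ k = b
      rw [mul_assoc, ← mul_pow, inv_mul_cancel₀ hf0, one_pow, mul_one]
    · intro x y hxy
      refine ⟨1, ?_⟩
      have h1 : (x : L) = y := congrArg (fun z : C => (z : L)) hxy
      rw [Subtype.ext h1]
  have hstC : Algebra.IsStandardEtale R C :=
    Algebra.IsStandardEtale.of_equiv
      ((IsLocalization.algEquiv (Submonoid.powers f) (Localization.Away f) C).restrictScalars R)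
  obtain ⟨P⟩ := hstC.nonempty_standardEtalePresentation
  have hval : ∀ p : R[X], ((aeval P.x p : C) : L) = aeval (P.x : L) p := fun p =>
    (Polynomial.aeval_algHom_apply C.val P.x p).symm
  have hg := P.hasMap.2
  have hf1 := P.hasMap.1
  have hder := P.hasMap.isUnit_derivative_f
  have hyint : IsIntegral R (P.x : L) := by
    refine ⟨P.f, P.monic_f, ?_⟩
    have h1 := congrArg Subtype.val hf1
    rw [hval] at h1
    exact h1
  set y : L := (P.x : L) with hy
  have hfy : aeval y P.f = 0 := by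
    rw [hy, ← hval, hf1]
    rfl
  obtain ⟨k, hk⟩ := minpoly.isIntegrallyClosed_dvd hyint hfy
  have hirr : Irreducible (minpoly R y) := (minpoly.prime_of_isIntegrallyClosed hyint).irreducible
  -- the derivative
  have hdk : aeval y P.f.derivative = aeval y (minpoly R y).derivative * aeval y k := by
    rw [hk, derivative_mul, map_add, map_mul, map_mul, minpoly.aeval, zero_mul, add_zero]
  have hd0 : aeval y P.f.derivative ≠ 0 := by
    intro h0
    rw [hy, ← hval] at h0
    have h1 : (aeval P.x P.f.derivative : C) = 0 := Subtype.ext h0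
    rw [h1] at hder
    exact not_isUnit_zero hder
  have hdm : aeval y (minpoly R y).derivative ≠ 0 := by
    intro h0
    rw [hdk, h0, zero_mul] at hd0
    exact hd0 rfl
  have hinvmem : ∀ z : C, IsUnit z → ((z : L))⁻¹ ∈ C := by
    intro z hz
    obtain ⟨w, hw⟩ := hz.exists_right_inv
    have h1 : (z : L) * w = 1 := congrArg Subtype.val hw
    rw [inv_eq_of_mul_eq_one_right h1]
    exact w.2
  have hyC : ∀ p : R[X], aeval y p ∈ C := by
    intro p
    rw [hy, ← hval]
    exact (aeval P.x p : C).2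
  refine ⟨y, P.x.2, (aeval y P.g)⁻¹, ?_, minpoly R y, P.g, minpoly.monic hyint, hirr,
    minpoly.aeval R y, hdm, ?_, ?_, inv_inv _, ?_⟩
  · rw [hy, ← hval]
    exact hinvmem _ hg
  · have h1 : (aeval y (minpoly R y).derivative)⁻¹ = aeval y k * (aeval y P.f.derivative)⁻¹ := by
      rw [hdk, mul_inv, mul_comm (aeval y (minpoly R y).derivative)⁻¹, ← mul_assoc,
        mul_inv_cancel₀ (by rintro h0; rw [hdk, h0, mul_zero] at hd0; exact hd0 rfl), one_mul]
    rw [h1]
    refine C.mul_mem (hyC k) ?_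
    rw [hy, ← hval]
    exact hinvmem _ hder
  · intro h0
    rw [inv_eq_zero] at h0
    rw [hy, ← hval] at h0
    have h1 : (aeval P.x P.g : C) = 0 := Subtype.ext h0
    rw [h1] at hg
    exact not_isUnit_zero hg
  · intro c hc
    obtain ⟨p, n, hp⟩ := P.exists_mul_aeval_x_g_pow_eq_aeval_x ⟨c, hc⟩
    have h1 := congrArg Subtype.val hp
    rw [hval] at h1
    have h2 : c * (aeval y P.g) ^ n = aeval y p := by
      rw [← h1, hy, ← hval]
      rfl
    have h3 : aeval y P.g ≠ 0 := by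
      intro h0
      rw [hy, ← hval] at h0
      have h1 : (aeval P.x P.g : C) = 0 := Subtype.ext h0
      rw [h1] at hg
      exact not_isUnit_zero hg
    refine ⟨p, n, ?_⟩
    rw [← h2, mul_assoc, ← mul_pow, mul_inv_cancel₀ h3, one_pow, mul_one]

end core

end Pool.Agent.KM
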