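import Pool.Agent.Lib.MP_732f67_ag.G.Atlas
import Pool.Agent.Lib.MP_732f67_ag.G.Pt
import Pool.Agent.Lib.MP_732f67_ag.G.EtA
import Pool.Agent.Lib.MP_732f67_ag.G.EtB1

/-!
Standard étale charts around the smooth points.
-/

namespace Pool.Agent.KM

open Polynomial
open scoped KaehlerDifferential

variable {L : Type} [Field L] [Algebra ℂ L] {n : ℕ}

/-- localizations of finitely generated algebras away from an element -/
theorem etb_fg {A : Subalgebra ℂ L} (hA : A.FG) (f : L) (hf : f ∈ A) : (etbLoc A f hf).FG := by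
  classical
  obtain ⟨s, hs⟩ := hA
  refine ⟨insert f⁻¹ s, le_antisymm ?_ ?_⟩
  · rw [Algebra.adjoin_le_iff]
    intro x hx
    rw [Finset.coe_insert] at hx
    rcases hx with rfl | hx
    · exact inv_mem_etbLoc
    · refine le_etbLoc ?_
      rw [← hs]
      exact Algebra.subset_adjoin hx
  · rintro x ⟨b, hb, k, rfl⟩
    refine mul_mem ?_ (pow_mem (Algebra.subset_adjoin (by simp)) k)
    rw [← hs] at hb
    exact Algebra.adjoin_mono (by simp) hb

theorem etb_ev_mem (x : Fin n → L) (y : L) (p : (MvPolynomial (Fin n) ℂ)[X]) :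
    ev x y p ∈ Algebra.adjoin ℂ (Set.range x ∪ {y}) := by
  unfold ev
  rw [Polynomial.eval₂_eq_sum_range]
  refine sum_mem fun i _ => mul_mem ?_ (pow_mem (Algebra.subset_adjoin (by simp)) i)
  refine Algebra.adjoin_mono Set.subset_union_left ?_
  rw [Algebra.adjoin_range_eq_range_aeval]
  exact ⟨p.coeff i, rfl⟩

/-- a subalgebra over `ℂ` which contains the `x i`, as a subalgebra over `ℂ[X]` -/
def etbUp (x : Fin n → L) [Algebra (MvPolynomial (Fin n) ℂ) L]
    (hal : ∀ p : MvPolynomial (Fin n) ℂ, algebraMap (MvPolynomial (Fin n) ℂ) L p =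
      MvPolynomial.aeval x p) (B : Subalgebra ℂ L) (hx : ∀ i, x i ∈ B) :
    Subalgebra (MvPolynomial (Fin n) ℂ) L where
  carrier := B
  mul_mem' := B.mul_mem
  add_mem' := B.add_mem
  algebraMap_mem' p := by
    rw [hal]
    have h1 := Algebra.adjoin_range_eq_range_aeval ℂ x
    have h2 : MvPolynomial.aeval x p ∈ Algebra.adjoin ℂ (Set.range x) := by
      rw [h1]
      exact ⟨p, rfl⟩
    refine (Algebra.adjoin_le_iff.2 ?_) h2
    rintro _ ⟨i, rfl⟩
    exact hx i

/-- A standard étale neighbourhood of a smooth point.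

PROOF. `O` is formally étale over `ℂ[X]` (`formallyEtale_of_basis`), so `Algebra.IsEtaleAt` holds
for `A[1/h]` (where `x i ∈ A[1/h]`) at the prime ideal of `O`, and
`Algebra.IsEtaleAt.exists_isStandardEtale` gives, after enlarging `h`, a standard étale
presentation: `A[1/h]` is generated over `ℂ[x]` by a root `y` of a monic polynomial `F ∈ ℂ[X][Y]` and the
inverse `u` of an element of `ℂ[x, y]`, and `F'(y)` is a unit. The minimal polynomial `f` of `y` over
`ℂ(x)` has coefficients in `ℂ[x]` and divides `F` (Gauss); `F = f g`, `F'(y) = f'(y) g(y)`, so `f'(y)` is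
a unit too. -/
theorem exists_isCh {A O : Subalgebra ℂ L} (hA : A.FG) (hfr : FracEq A) (hO : LocAt A O)
    (hs : Algebra.FormallySmooth ℂ O) (x : Fin n → O) (b : Module.Basis (Fin n) O Ω[O⁄ℂ])
    (hb : ∀ i, b i = KaehlerDifferential.D ℂ O (x i)) :
    ∃ h ∈ A, h ≠ 0 ∧ h⁻¹ ∈ O ∧ ∃ y u : L,
      IsCh (Algebra.adjoin ℂ ((A : Set L) ∪ {h⁻¹})) (fun i => (x i : L)) y u := by
  classical
  have hAO : A ≤ O := hO.le
  have hfrO : FracEq O := by
    intro z
    obtain ⟨a, b, hb0, rfl⟩ := hfr z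
    exact ⟨⟨a, hAO a.2⟩, ⟨b, hAO b.2⟩, hb0, rfl⟩
  have htb := tb_of_basis hfrO x b hb
  have hfe := formallyEtale_of_basis hs x b hb
  set xx : Fin n → L := fun i => (x i : L) with hxx
  -- the common denominator
  obtain ⟨P0, hP0, hOx⟩ := id hO
  choose a₀ b₀ hb₀ hab₀ using fun i => (hOx (xx i)).1 (x i).2
  have hnz : ∀ b : A, b ∉ P0 → (b : L) ≠ 0 := by
    intro b hb h0
    apply hb
    have : b = 0 := Subtype.ext h0
    rw [this]
    exact P0.zero_mem
  set h₀ : A := ∏ i, b₀ i with hh₀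
  have hh₀P : h₀ ∉ P0 := by
    rw [hh₀]
    intro h
    obtain ⟨i, _, hi⟩ := (Ideal.IsPrime.prod_mem_iff (hp := hP0)).1 h
    exact hb₀ i hi
  have hh₀0 : (h₀ : L) ≠ 0 := hnz _ hh₀P
  have hh₀O : (h₀ : L)⁻¹ ∈ O := (hOx _).2 ⟨1, h₀, hh₀P, by simp⟩
  set B₀ : Subalgebra ℂ L := etbLoc A (h₀ : L) h₀.2 with hB₀
  have hAB : A ≤ B₀ := le_etbLoc
  have hBO : B₀ ≤ O := by
    rintro z ⟨c, hc, k, rfl⟩
    exact O.mul_mem (hAO hc) (O.pow_mem hh₀O k)
  have hxB : ∀ i, xx i ∈ B₀ := by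
    intro i
    refine ⟨(a₀ i : L) * ((∏ j ∈ Finset.univ.erase i, b₀ j : A) : L),
      A.mul_mem (a₀ i).2 (Subtype.property _), 1, ?_⟩
    have h1 : (h₀ : L) = b₀ i * ((∏ j ∈ Finset.univ.erase i, b₀ j : A) : L) := by
      rw [hh₀, ← Finset.mul_prod_erase Finset.univ b₀ (Finset.mem_univ i)]
      rfl
    have h2 := hnz _ (hb₀ i)
    have h3 : ((∏ j ∈ Finset.univ.erase i, b₀ j : A) : L) ≠ 0 := by
      intro h4
      rw [h1, h4, mul_zero] at hh₀0
      exact hh₀0 rfl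
    rw [hab₀ i, pow_one, h1]
    field_simp
  -- the algebra structures
  let iRL : Algebra (MvPolynomial (Fin n) ℂ) L :=
    (MvPolynomial.aeval xx : MvPolynomial (Fin n) ℂ →ₐ[ℂ] L).toRingHom.toAlgebra
  have hal : ∀ p : MvPolynomial (Fin n) ℂ, algebraMap (MvPolynomial (Fin n) ℂ) L p =
      MvPolynomial.aeval xx p := fun p => rfl
  have hfa : FaithfulSMul (MvPolynomial (Fin n) ℂ) L :=
    (faithfulSMul_iff_algebraMap_injective _ _).2 htb.1
  set B' := etbUp xx hal B₀ hxB with hB'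
  set O' := etbUp xx hal O (fun i => (x i).2) with hO'
  have hBfg : B'.FG := by
    obtain ⟨s, hs'⟩ := etb_fg hA (h₀ : L) h₀.2
    refine ⟨s, le_antisymm ?_ ?_⟩
    · rw [Algebra.adjoin_le_iff]
      intro z hz
      show z ∈ B₀
      rw [hB₀, ← hs']
      exact Algebra.subset_adjoin hz
    · intro z hz
      have hz' : z ∈ Algebra.adjoin ℂ (s : Set L) := by
        rw [hs']
        exact hz
      refine Algebra.adjoin_induction (fun w hw => Algebra.subset_adjoin hw) (fun c => ?_)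
        (fun _ _ _ _ h1 h2 => add_mem h1 h2) (fun _ _ _ _ h1 h2 => mul_mem h1 h2) hz'
      have h1 : algebraMap ℂ L c = algebraMap (MvPolynomial (Fin n) ℂ) L (MvPolynomial.C c) := by
        rw [hal, MvPolynomial.aeval_C]
      rw [h1]
      exact Subalgebra.algebraMap_mem _ _
  have heO : Algebra.FormallyEtale (MvPolynomial (Fin n) ℂ) O' := by
    let iRO : Algebra (MvPolynomial (Fin n) ℂ) O :=
      (MvPolynomial.aeval x : MvPolynomial (Fin n) ℂ →ₐ[ℂ] O).toRingHom.toAlgebra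
    have h1 : Algebra.FormallyEtale (MvPolynomial (Fin n) ℂ) O := hfe
    let e : O ≃ₐ[MvPolynomial (Fin n) ℂ] O' :=
      { toFun := fun z => ⟨z.1, z.2⟩
        invFun := fun z => ⟨z.1, z.2⟩
        left_inv := fun z => rfl
        right_inv := fun z => rfl
        map_mul' := fun z w => rfl
        map_add' := fun z w => rfl
        commutes' := fun p => by
          apply Subtype.ext
          show ((MvPolynomial.aeval x p : O) : L) = MvPolynomial.aeval xx p
          exact (Subalgebra.mvPolynomial_aeval_coe O x p).symm }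
    exact Algebra.FormallyEtale.of_equiv e
  -- the prime ideal
  obtain ⟨Q0, hQ0, hOB⟩ := hO.of_le hAB hBO
  let eB : B' →+* B₀ :=
    { toFun := fun z => ⟨z.1, z.2⟩
      map_one' := rfl
      map_mul' := fun z w => rfl
      map_zero' := rfl
      map_add' := fun z w => rfl }
  set Q : Ideal B' := Q0.comap eB with hQ
  have hQp : Q.IsPrime := Ideal.comap_isPrime eB Q0
  have hOQ : ∀ z : L, z ∈ O' ↔ ∃ a b : B', b ∉ Q ∧ z = a / b := by
    intro z
    constructor
    · intro hz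
      obtain ⟨a, b, hb, rfl⟩ := (hOB z).1 hz
      exact ⟨⟨a.1, a.2⟩, ⟨b.1, b.2⟩, hb, rfl⟩
    · rintro ⟨a, b, hb, rfl⟩
      exact (hOB _).2 ⟨⟨a.1, a.2⟩, ⟨b.1, b.2⟩, hb, rfl⟩
  obtain ⟨f, hfQ, y, hyC, u, huC, F, g, hF1, hF2, hF3, hF4, hF5, hu0, hug, hC⟩ :=
    etb_core B' O' hBfg Q hQp hOQ heO
  -- the element `h`
  have hfO : (f : L)⁻¹ ∈ O := (hOQ _).2 ⟨1, f, hfQ, by simp⟩
  have hf0 : (f : L) ≠ 0 := by
    intro h0
    apply hfQ
    have : f = 0 := Subtype.ext h0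
    rw [this]
    exact Q.zero_mem
  obtain ⟨α, hα, k, hfα⟩ : ∃ α ∈ A, ∃ k : ℕ, (f : L) = α * ((h₀ : L)⁻¹) ^ k := f.2
  have hα0 : α ≠ 0 := by
    intro h0
    rw [hfα, h0, zero_mul] at hf0
    exact hf0 rfl
  have hh₀k : ((h₀ : L)) ^ k ≠ 0 := pow_ne_zero _ hh₀0
  have hαinv : α⁻¹ = (f : L)⁻¹ * ((h₀ : L)⁻¹) ^ k := by
    rw [hfα, inv_pow]
    field_simp
  have hfinv : (f : L)⁻¹ = α⁻¹ * (h₀ : L) ^ k := by
    rw [hfα, inv_pow]
    field_simp
  set h : L := (h₀ : L) * α with hh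
  have hh0 : h ≠ 0 := mul_ne_zero hh₀0 hα0
  refine ⟨h, A.mul_mem h₀.2 hα, hh0, ?_, y, u, ?_⟩
  · rw [hh, mul_inv, hαinv]
    exact O.mul_mem hh₀O (O.mul_mem hfO (O.pow_mem hh₀O k))
  set C := Algebra.adjoin ℂ ((A : Set L) ∪ {h⁻¹}) with hCdef
  have hAC : A ≤ C := fun z hz => Algebra.subset_adjoin (Or.inl hz)
  have hhC : h⁻¹ ∈ C := Algebra.subset_adjoin (Or.inr rfl)
  have hCC : ∀ c, c ∈ C ↔ c ∈ etbLoc B' (f : L) f.2 := by
    intro c
    constructor
    · intro hc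
      have h1 : C ≤ etbLoc B₀ (f : L) f.2 := by
        rw [hCdef, Algebra.adjoin_le_iff]
        rintro z (hz | hz)
        · exact le_etbLoc (hAB hz)
        · rw [Set.mem_singleton_iff.1 hz, hh, mul_inv, hαinv]
          refine mul_mem (le_etbLoc (inv_mem_etbLoc)) (mul_mem inv_mem_etbLoc
            (pow_mem (le_etbLoc (inv_mem_etbLoc)) k))
      exact h1 hc
    · rintro ⟨w, ⟨a, ha, m, rfl⟩, l, rfl⟩
      have h1 : (h₀ : L)⁻¹ = α * h⁻¹ := by
        rw [hh]
        field_simp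
      have h2 : α⁻¹ = (h₀ : L) * h⁻¹ := by
        rw [hh]
        field_simp
      have h3 : (h₀ : L)⁻¹ ∈ C := by
        rw [h1]
        exact mul_mem (hAC hα) hhC
      have h4 : α⁻¹ ∈ C := by
        rw [h2]
        exact mul_mem (hAC h₀.2) hhC
      refine mul_mem (mul_mem (hAC ha) (pow_mem h3 m)) (pow_mem ?_ l)
      rw [hfinv]
      exact mul_mem h4 (pow_mem (hAC h₀.2) k)
  have hev : ∀ p : (MvPolynomial (Fin n) ℂ)[X], aeval y p = ev xx y p := fun p => rfl
  have hCxy : ∀ c ∈ C, ∃ (p : (MvPolynomial (Fin n) ℂ)[X]) (k : ℕ), c = ev xx y p * u ^ k :=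
    fun c hc => hC c ((hCC c).1 hc)
  refine ⟨htb, ⟨F, hF1, hF2, hF3, hF4, (hCC _).2 hF5⟩, hu0, ?_, ?_, ?_⟩
  · rw [hug]
    exact etb_ev_mem xx y g
  · apply le_antisymm
    · intro c hc
      obtain ⟨p, k, rfl⟩ := hCxy c hc
      refine mul_mem ?_ (pow_mem (Algebra.subset_adjoin (by simp)) k)
      refine Algebra.adjoin_mono ?_ (etb_ev_mem xx y p)
      intro z hz
      rcases hz with hz | hz
      · exact Or.inl hz
      · exact Or.inr (Or.inl hz)
    · rw [Algebra.adjoin_le_iff]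
      rintro z (⟨i, rfl⟩ | hz)
      · obtain ⟨a, ha, k, hz⟩ := hxB i
        show xx i ∈ C
        rw [hz]
        refine mul_mem (hAC ha) (pow_mem ?_ k)
        have h1 : (h₀ : L)⁻¹ = α * h⁻¹ := by
          rw [hh]
          field_simp
        rw [h1]
        exact mul_mem (hAC hα) hhC
      · rcases hz with rfl | hz
        · exact (hCC _).2 hyC
        · rw [Set.mem_singleton_iff.1 hz]
          exact (hCC _).2 huC
  · intro z
    obtain ⟨a, c, hc0, rfl⟩ := hfr z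
    obtain ⟨p, k, hp⟩ := hCxy a (hAC a.2)
    obtain ⟨q, l, hq⟩ := hCxy c (hAC c.2)
    have hgu : ev xx y g = u⁻¹ := by
      rw [hug]
      rfl
    have hq0 : ev xx y q ≠ 0 := by
      intro h0
      rw [hq, h0, zero_mul] at hc0
      exact hc0 rfl
    refine ⟨ev xx y p * (ev xx y g) ^ l, mul_mem (etb_ev_mem xx y p)
      (pow_mem (etb_ev_mem xx y g) l), ev xx y q * (ev xx y g) ^ k,
      mul_mem (etb_ev_mem xx y q) (pow_mem (etb_ev_mem xx y g) k), ?_, ?_⟩
    · rw [hgu]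
      exact mul_ne_zero hq0 (pow_ne_zero _ (inv_ne_zero hu0))
    · rw [hp, hq, hgu, inv_pow, inv_pow]
      field_simp

end Pool.Agent.KM
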