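import Mathlib

/-!
Extension of homomorphisms to rings of the form `P[y, 1/q]`.
-/

namespace Pool.Agent.KM

open Polynomial

/-- Let `i : P → L` be a ring homomorphism to a field, `y ∈ L`, and `G ∈ P[Y]` such that all
polynomials which vanish at `y` are divisible by `G`. If all elements of the subring `Λ` of `L` are
of the form `g(y) / q ^ N`, then a ring homomorphism `φ : P → T` for which `φ q` is a unit, and a
root `τ` of `G` in `T`, define a homomorphism `Λ → T`.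

PROOF. For `x ∈ Λ` with `q ^ N x = g(y)` put `Φ x = (φ q) ^ (-N) g^φ(τ)`. Well defined: if also
`q ^ N' x = g'(y)`, then `q ^ N' g - q ^ N g'` vanishes at `y`, so it is divisible by `G`, and
`(φ q) ^ N' g^φ(τ) = (φ q) ^ N g'^φ(τ)`. The rules for sums and products, `0`, `1` are the same
computation. -/
theorem ext_hom {P L T : Type*} [CommRing P] [Field L] [CommRing T] (i : P →+* L) (y : L)
    (G : P[X]) (hG : ∀ g : P[X], g.eval₂ i y = 0 → G ∣ g) (q : P) (hq : i q ≠ 0)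
    (φ : P →+* T) (hφ : IsUnit (φ q)) (τ : T) (hτ : G.eval₂ φ τ = 0) (Λ : Subring L)
    (hΛ : ∀ x ∈ Λ, ∃ (N : ℕ) (g : P[X]), i q ^ N * x = g.eval₂ i y) :
    ∃ Φ : Λ →+* T, ∀ (x : Λ) (N : ℕ) (g : P[X]), i q ^ N * x = g.eval₂ i y →
      φ q ^ N * Φ x = g.eval₂ φ τ := by
  classical
  choose N g hNg using hΛ
  obtain ⟨u, hu⟩ := hφ
  let F : Λ → T := fun x => ((u⁻¹ : Tˣ) : T) ^ N x x.2 * (g x x.2).eval₂ φ τ
  have key : ∀ (x : Λ) (M : ℕ) (h : P[X]), i q ^ M * x = h.eval₂ i y →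
      φ q ^ M * F x = h.eval₂ φ τ := by
    intro x M h hx
    have h1 : (C q ^ N x x.2 * h - C q ^ M * g x x.2).eval₂ i y = 0 := by
      rw [eval₂_sub, eval₂_mul, eval₂_mul, eval₂_pow, eval₂_pow, eval₂_C, ← hx, ← hNg x x.2]
      ring
    obtain ⟨k, hk⟩ := hG _ h1
    have h2 : (C q ^ N x x.2 * h - C q ^ M * g x x.2).eval₂ φ τ = 0 := by
      rw [hk, eval₂_mul, hτ, zero_mul]
    rw [eval₂_sub, eval₂_mul, eval₂_mul, eval₂_pow, eval₂_pow, eval₂_C, sub_eq_zero] at h2
    have h3 : ((u⁻¹ : Tˣ) : T) ^ N x x.2 * φ q ^ N x x.2 = 1 := by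
      rw [← mul_pow, ← hu, Units.inv_mul, one_pow]
    calc φ q ^ M * F x = ((u⁻¹ : Tˣ) : T) ^ N x x.2 * (φ q ^ M * (g x x.2).eval₂ φ τ) := by
          simp only [F]; ring
      _ = (((u⁻¹ : Tˣ) : T) ^ N x x.2 * φ q ^ N x x.2) * h.eval₂ φ τ := by
          rw [← h2]; ring
      _ = h.eval₂ φ τ := by rw [h3, one_mul]
  have hcan : ∀ (M : ℕ) (a b : T), φ q ^ M * a = φ q ^ M * b → a = b := by
    intro M a b hab
    have hun : IsUnit (φ q ^ M) := (hu ▸ u.isUnit).pow M
    exact hun.mul_left_cancel hab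
  refine ⟨{ toFun := F, map_one' := ?_, map_mul' := ?_, map_zero' := ?_, map_add' := ?_ }, key⟩
  · have := key 1 0 1 (by simp)
    simpa using this
  · intro a b
    have ha := key a _ _ (hNg a a.2)
    have hb := key b _ _ (hNg b b.2)
    have hab := key (a * b) (N a a.2 + N b b.2) (g a a.2 * g b b.2) (by
      rw [eval₂_mul, ← hNg a a.2, ← hNg b b.2, Subring.coe_mul]; ring)
    apply hcan (N a a.2 + N b b.2)
    rw [hab, eval₂_mul, ← ha, ← hb]
    ring
  · have := key 0 0 0 (by simp)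
    simpa using this
  · intro a b
    have ha := key a _ _ (hNg a a.2)
    have hb := key b _ _ (hNg b b.2)
    have hab := key (a + b) (N a a.2 + N b b.2)
      (C q ^ N b b.2 * g a a.2 + C q ^ N a a.2 * g b b.2) (by
      rw [eval₂_add, eval₂_mul, eval₂_mul, eval₂_pow, eval₂_pow, eval₂_C, ← hNg a a.2,
        ← hNg b b.2, Subring.coe_add]; ring)
    apply hcan (N a a.2 + N b b.2)
    rw [hab, eval₂_add, eval₂_mul, eval₂_mul, eval₂_pow, eval₂_pow, eval₂_C, ← ha, ← hb]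
    ring

end Pool.Agent.KM
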