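import Mathlib

/-!
Preparations for Bertini - Noether: the universal monic polynomial with bounded exponents, and the
system of equations for the coefficients of the factors.
-/

namespace Pool.Agent.KM

open Polynomial

/-- the monic polynomial of degree `m` in `Y` with the coefficients `u` -/
noncomputable def irrGen {n : ℕ} {R : Type*} [CommRing R] (A : Finset (Fin n →₀ ℕ)) (m : ℕ)
    (u : Fin m × A → R) : (MvPolynomial (Fin n) R)[X] :=
  X ^ m + ∑ i : Fin m, C (∑ a : A, MvPolynomial.monomial a.1 (u (i, a))) * X ^ (i : ℕ)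

theorem irrGen_map {n : ℕ} {R S : Type*} [CommRing R] [CommRing S] (φ : R →+* S)
    (A : Finset (Fin n →₀ ℕ)) (m : ℕ) (u : Fin m × A → R) :
    (irrGen A m u).map (MvPolynomial.map φ) = irrGen A m (fun x => φ (u x)) := by
  unfold irrGen
  simp [Polynomial.map_sum, MvPolynomial.map_monomial]

theorem irrGen_low {n : ℕ} {R : Type*} [CommRing R] [Nontrivial R] (A : Finset (Fin n →₀ ℕ))
    (m : ℕ) (u : Fin m × A → R) :
    (∑ i : Fin m, C (∑ a : A, MvPolynomial.monomial a.1 (u (i, a))) * X ^ (i : ℕ) :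
      (MvPolynomial (Fin n) R)[X]).degree < m := by
  rw [degree_lt_iff_coeff_zero]
  intro k hk
  rw [finsetSum_coeff]
  apply Finset.sum_eq_zero
  intro i _
  rw [coeff_C_mul, coeff_X_pow, if_neg (by have := i.2; omega), mul_zero]

theorem irrGen_monic {n : ℕ} {R : Type*} [CommRing R] [Nontrivial R] (A : Finset (Fin n →₀ ℕ))
    (m : ℕ) (u : Fin m × A → R) : (irrGen A m u).Monic :=
  monic_X_pow_add (irrGen_low A m u)

theorem irrGen_natDegree {n : ℕ} {R : Type*} [CommRing R] [Nontrivial R]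
    (A : Finset (Fin n →₀ ℕ)) (m : ℕ) (u : Fin m × A → R) : (irrGen A m u).natDegree = m := by
  unfold irrGen
  rw [natDegree_add_eq_left_of_degree_lt, natDegree_X_pow]
  rw [degree_X_pow]
  exact irrGen_low A m u

theorem irrGen_exists {n : ℕ} {R : Type*} [CommRing R] (A : Finset (Fin n →₀ ℕ))
    (g : (MvPolynomial (Fin n) R)[X]) (hg : g.Monic)
    (hA : ∀ i < g.natDegree, (g.coeff i).support ⊆ A) :
    ∃ u : Fin g.natDegree × A → R, irrGen A g.natDegree u = g := by
  refine ⟨fun x => MvPolynomial.coeff x.2.1 (g.coeff x.1), ?_⟩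
  unfold irrGen
  conv_rhs => rw [hg.as_sum]
  congr 1
  rw [Finset.sum_range]
  refine Finset.sum_congr rfl fun i _ => ?_
  congr 2
  rw [Finset.sum_coe_sort A (fun a => MvPolynomial.monomial a (MvPolynomial.coeff a (g.coeff i)))]
  conv_rhs => rw [← MvPolynomial.support_sum_monomial_coeff (g.coeff i)]
  symm
  apply Finset.sum_subset (hA i i.2)
  intro a _ ha
  rw [MvPolynomial.notMem_support_iff.mp ha, MvPolynomial.monomial_zero]

/-- the equations for the coefficients of the factors -/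
noncomputable def irrE {n : ℕ} {R : Type*} [CommRing R] (A : Finset (Fin n →₀ ℕ)) (d1 d2 : ℕ)
    (f : (MvPolynomial (Fin n) R)[X]) (l : ℕ × (Fin n →₀ ℕ)) :
    MvPolynomial ((Fin d1 × A) ⊕ (Fin d2 × A)) R :=
  MvPolynomial.coeff l.2 ((irrGen A d1 (fun x => MvPolynomial.X (Sum.inl x)) *
    irrGen A d2 (fun x => MvPolynomial.X (Sum.inr x)) -
      f.map (MvPolynomial.map MvPolynomial.C)).coeff l.1)

theorem irrE_hom {n : ℕ} {R S : Type*} [CommRing R] [CommRing S] (A : Finset (Fin n →₀ ℕ))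
    (d1 d2 : ℕ) (f : (MvPolynomial (Fin n) R)[X]) (l : ℕ × (Fin n →₀ ℕ))
    (θ : MvPolynomial ((Fin d1 × A) ⊕ (Fin d2 × A)) R →+* S) :
    θ (irrE A d1 d2 f l) = MvPolynomial.coeff l.2
      ((irrGen A d1 (fun x => θ (MvPolynomial.X (Sum.inl x))) *
        irrGen A d2 (fun x => θ (MvPolynomial.X (Sum.inr x))) -
          f.map (MvPolynomial.map (θ.comp MvPolynomial.C))).coeff l.1) := by
  unfold irrE
  rw [← MvPolynomial.coeff_map, ← Polynomial.coeff_map, Polynomial.map_sub, Polynomial.map_mul,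
    irrGen_map, irrGen_map, Polynomial.map_map]
  congr 4
  ext <;> simp

theorem irrE_map {n : ℕ} {R S : Type*} [CommRing R] [CommRing S] (A : Finset (Fin n →₀ ℕ))
    (d1 d2 : ℕ) (f : (MvPolynomial (Fin n) R)[X]) (l : ℕ × (Fin n →₀ ℕ)) (φ : R →+* S) :
    MvPolynomial.map φ (irrE A d1 d2 f l) = irrE A d1 d2 (f.map (MvPolynomial.map φ)) l := by
  rw [irrE_hom]
  unfold irrE
  rw [Polynomial.map_map]
  have h : (MvPolynomial.map ((MvPolynomial.map φ).comp MvPolynomial.C) :
      MvPolynomial (Fin n) R →+* MvPolynomial (Fin n)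
        (MvPolynomial ((Fin d1 × A) ⊕ (Fin d2 × A)) S)) =
      (MvPolynomial.map MvPolynomial.C).comp (MvPolynomial.map φ) := by
    ext <;> simp
  rw [h]
  simp only [MvPolynomial.map_X]

theorem irr_step {n : ℕ} (f : (MvPolynomial (Fin n) ℂ)[X])
    (hi : Irreducible f) (A : Finset (Fin n →₀ ℕ)) (d1 d2 : ℕ) (h1 : 0 < d1) (h2 : 0 < d2) :
    ∃ S : Finset ℂ, ∀ (B : Subring ℂ), (S : Set ℂ) ⊆ B → ∀ fB : (MvPolynomial (Fin n) B)[X],
      fB.map (MvPolynomial.map B.subtype) = f →
      ∀ (k : Type) [Field k] (ψ : B →+* k) (u : Fin d1 × A → k) (v : Fin d2 × A → k),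
        irrGen A d1 u * irrGen A d2 v ≠ fB.map (MvPolynomial.map ψ) := by
  classical
  set I := Ideal.span (Set.range (irrE A d1 d2 f)) with hI
  have htop : I = ⊤ := by
    by_contra hne
    obtain ⟨M, hM, hIM⟩ := Ideal.exists_le_maximal I hne
    obtain ⟨x, hx⟩ := MvPolynomial.isMaximal_iff_eq_vanishingIdeal_singleton.mp hM
    have hz : ∀ l, MvPolynomial.aeval x (irrE A d1 d2 f l) = 0 := by
      intro l
      rw [← MvPolynomial.mem_vanishingIdeal_singleton_iff, ← hx]
      exact hIM (Ideal.subset_span ⟨l, rfl⟩)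
    have hfac : irrGen A d1 (fun y => x (Sum.inl y)) * irrGen A d2 (fun y => x (Sum.inr y)) = f := by
      rw [← sub_eq_zero]
      ext j a
      have := hz (j, a)
      have h3 := irrE_hom A d1 d2 f (j, a) (MvPolynomial.aeval x : _ →ₐ[ℂ] ℂ).toRingHom
      change (MvPolynomial.aeval x) _ = _ at h3
      rw [this] at h3
      have h4 : ((MvPolynomial.aeval x : _ →ₐ[ℂ] ℂ).toRingHom.comp MvPolynomial.C) = RingHom.id ℂ := by
        ext; simp
      have h5 : (MvPolynomial.map (RingHom.id ℂ) : MvPolynomial (Fin n) ℂ →+* _) =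
          RingHom.id _ := by
        ext <;> simp
      rw [h4, h5, Polynomial.map_id] at h3
      simp only [AlgHom.toRingHom_eq_coe, RingHom.coe_coe, MvPolynomial.aeval_X] at h3
      rw [← h3]
      simp
    have := hi.isUnit_or_isUnit hfac.symm
    rcases this with hu | hu
    · have := (irrGen_monic A d1 _).eq_one_of_isUnit hu
      have h5 := irrGen_natDegree A d1 (fun y => x (Sum.inl y))
      rw [this, natDegree_one] at h5
      omega
    · have := (irrGen_monic A d2 _).eq_one_of_isUnit hu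
      have h5 := irrGen_natDegree A d2 (fun y => x (Sum.inr y))
      rw [this, natDegree_one] at h5
      omega
  have hone : (1 : MvPolynomial ((Fin d1 × A) ⊕ (Fin d2 × A)) ℂ) ∈ I := by
    rw [htop]; exact Submodule.mem_top
  rw [hI, Finsupp.mem_ideal_span_range_iff_exists_finsupp] at hone
  obtain ⟨c, hc⟩ := hone
  refine ⟨c.support.biUnion fun l => (c l).coeffs, ?_⟩
  intro B hB fB hfB k _ ψ u v huv
  have hlift : ∀ l, ∃ c' : MvPolynomial ((Fin d1 × A) ⊕ (Fin d2 × A)) B,
      MvPolynomial.map B.subtype c' = c l := by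
    intro l
    by_cases hl : l ∈ c.support
    · have := (MvPolynomial.mem_range_map_iff_coeffs_subset (f := B.subtype) (x := c l)).mpr (by
        intro y hy
        have : y ∈ (B : Set ℂ) := hB (by
          simp only [Finset.coe_biUnion, Set.mem_iUnion]
          exact ⟨l, hl, hy⟩)
        exact ⟨⟨y, this⟩, rfl⟩)
      exact this
    · exact ⟨0, by rw [map_zero, Finsupp.notMem_support_iff.mp hl]⟩
  choose c' hc' using hlift
  have hB1 : ∑ l ∈ c.support, c' l * irrE A d1 d2 fB l = 1 := by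
    apply MvPolynomial.map_injective B.subtype Subtype.val_injective
    rw [map_one, ← hc, map_sum, Finsupp.sum]
    refine Finset.sum_congr rfl fun l _ => ?_
    rw [map_mul, hc', irrE_map, hfB]
  have h3 := congrArg (MvPolynomial.eval₂Hom ψ (Sum.elim u v)) hB1
  rw [map_sum, map_one] at h3
  apply zero_ne_one (α := k)
  rw [← h3]
  symm
  apply Finset.sum_eq_zero
  intro l _
  rw [map_mul, irrE_hom]
  have h4 : (MvPolynomial.eval₂Hom ψ (Sum.elim u v)).comp MvPolynomial.C = ψ := by
    ext; simp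
  simp only [h4, MvPolynomial.eval₂Hom_X', Sum.elim_inl, Sum.elim_inr]
  rw [huv, sub_self, Polynomial.coeff_zero, MvPolynomial.coeff_zero, mul_zero]

end Pool.Agent.KM
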