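import Mathlib

/-!
The weighted degree of polynomials in `Y` over `k[X]`.
-/

namespace Pool.Agent.KM

open Polynomial

section wdeg

variable {k : Type*} [Field k] {n : ℕ}

/-- `X_j` goes to `X_j T`. -/
noncomputable def wdPhi (k : Type*) [Field k] (n : ℕ) :
    MvPolynomial (Fin n) k →+* ((MvPolynomial (Fin n) k)[X])[X] :=
  MvPolynomial.eval₂Hom
    ((C : (MvPolynomial (Fin n) k)[X] →+* ((MvPolynomial (Fin n) k)[X])[X]).comp
      ((C : MvPolynomial (Fin n) k →+* (MvPolynomial (Fin n) k)[X]).comp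
        (MvPolynomial.C : k →+* MvPolynomial (Fin n) k)))
    (fun j => C (C (MvPolynomial.X j)) * X)

/-- Moreover `Y` goes to `Y T ^ δ`. -/
noncomputable def wdHom (k : Type*) [Field k] (n δ : ℕ) :
    (MvPolynomial (Fin n) k)[X] →+* ((MvPolynomial (Fin n) k)[X])[X] :=
  Polynomial.eval₂RingHom (S := ((MvPolynomial (Fin n) k)[X])[X]) (wdPhi k n)
    (C (X : (MvPolynomial (Fin n) k)[X]) * X ^ δ)

theorem wd_pow {R : Type*} [CommRing R] (δ l : ℕ) :
    (C (X : R[X]) * X ^ δ : R[X][X]) ^ l = C (X ^ l) * X ^ (δ * l) := by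
  rw [mul_pow, ← pow_mul, map_pow]

theorem wd_prod {R : Type*} [CommRing R] (α : Fin n →₀ ℕ) (x : Fin n → R) :
    ∏ i, (C (C (x i)) * X : R[X][X]) ^ α i = C (C (∏ i, x i ^ α i)) * X ^ ∑ i, α i := by
  simp only [mul_pow, Finset.prod_mul_distrib, map_prod, map_pow, Finset.prod_pow_eq_pow_sum]

theorem wdPhi_monomial (α : Fin n →₀ ℕ) (c : k) :
    wdPhi k n (MvPolynomial.monomial α c) =
      C (C (MvPolynomial.monomial α c)) * X ^ α.degree := by
  rw [wdPhi, MvPolynomial.coe_eval₂Hom, MvPolynomial.eval₂_monomial, MvPolynomial.monomial_eq,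
    Finsupp.degree_eq_sum, Finsupp.prod_fintype _ _ (fun _ => pow_zero _),
    Finsupp.prod_fintype _ _ (fun _ => pow_zero _)]
  rw [RingHom.comp_apply, RingHom.comp_apply, wd_prod, map_mul, map_mul, mul_assoc]

theorem wdPhi_coeff (r : MvPolynomial (Fin n) k) (m : ℕ) :
    (wdPhi k n r).coeff m = C (MvPolynomial.homogeneousComponent m r) := by
  induction r using MvPolynomial.induction_on' with
  | monomial α c =>
    rw [wdPhi_monomial, coeff_C_mul, coeff_X_pow]
    have : MvPolynomial.homogeneousComponent m (MvPolynomial.monomial α c) =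
        if m = α.degree then MvPolynomial.monomial α c else 0 := by
      ext β
      rw [MvPolynomial.coeff_homogeneousComponent]
      by_cases h : β = α
      · subst h
        by_cases h2 : m = β.degree
        · rw [if_pos h2.symm, if_pos h2]
        · rw [if_neg (Ne.symm h2), if_neg h2, MvPolynomial.coeff_zero]
      · have e0 : MvPolynomial.coeff β (MvPolynomial.monomial α c) = 0 := by
          rw [MvPolynomial.coeff_monomial, if_neg (Ne.symm h)]
        split_ifs <;> simp [e0]
    rw [this]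
    split_ifs <;> simp
  | add p q hp hq =>
    rw [map_add, coeff_add, hp, hq, map_add, map_add]

theorem wdHom_coeff (δ : ℕ) (P : (MvPolynomial (Fin n) k)[X]) (m i : ℕ) :
    ((wdHom k n δ P).coeff m).coeff i =
      if δ * i ≤ m then MvPolynomial.homogeneousComponent (m - δ * i) (P.coeff i) else 0 := by
  induction P using Polynomial.induction_on' with
  | add p q hp hq =>
    rw [map_add, coeff_add, coeff_add, hp, hq, coeff_add, map_add]
    split_ifs <;> simp
  | monomial l r =>
    have e1 : wdHom k n δ (monomial l r) = wdPhi k n r * C (X ^ l) * X ^ (δ * l) := by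
      rw [wdHom, coe_eval₂RingHom, eval₂_monomial, wd_pow, mul_assoc]
    rw [e1, coeff_mul_X_pow']
    by_cases h : δ * l ≤ m
    · rw [if_pos h, coeff_mul_C, wdPhi_coeff, coeff_C_mul, coeff_X_pow, coeff_monomial]
      by_cases hl : i = l
      · subst hl
        rw [if_pos rfl, if_pos rfl, if_pos h, mul_one]
      · rw [if_neg hl, if_neg (Ne.symm hl)]
        simp
    · rw [if_neg h, coeff_zero, coeff_monomial]
      by_cases hl : l = i
      · subst hl
        rw [if_neg h]
      · rw [if_neg hl]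
        simp

theorem wd_le (δ : ℕ) (P : (MvPolynomial (Fin n) k)[X])
    (hP : ∀ i ≤ P.natDegree, (P.coeff i).totalDegree ≤ δ * (P.natDegree - i)) :
    (wdHom k n δ P).natDegree ≤ δ * P.natDegree := by
  rw [natDegree_le_iff_coeff_eq_zero]
  intro N hN
  ext1 i
  rw [wdHom_coeff, coeff_zero]
  split_ifs with h
  · by_cases hi : i ≤ P.natDegree
    · refine MvPolynomial.homogeneousComponent_eq_zero _ _ ?_
      have h1 := hP i hi
      have h2 : δ * (P.natDegree - i) = δ * P.natDegree - δ * i := Nat.mul_sub _ _ _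
      have h3 : δ * i ≤ δ * P.natDegree := Nat.mul_le_mul_left _ hi
      omega
    · rw [coeff_eq_zero_of_natDegree_lt (by omega), map_zero]
  · rfl

theorem wd_ge (δ : ℕ) {g : (MvPolynomial (Fin n) k)[X]} (hg : g.Monic) :
    wdHom k n δ g ≠ 0 ∧ δ * g.natDegree ≤ (wdHom k n δ g).natDegree := by
  have h1 : ((wdHom k n δ g).coeff (δ * g.natDegree)).coeff g.natDegree ≠ 0 := by
    rw [wdHom_coeff, if_pos le_rfl, Nat.sub_self, hg.coeff_natDegree,
      MvPolynomial.homogeneousComponent_zero]
    simp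
  have h2 : (wdHom k n δ g).coeff (δ * g.natDegree) ≠ 0 := by
    intro h
    rw [h, coeff_zero] at h1
    exact h1 rfl
  refine ⟨fun h => ?_, le_natDegree_of_ne_zero h2⟩
  rw [h, coeff_zero] at h2
  exact h2 rfl

theorem wd_back (δ : ℕ) (g : (MvPolynomial (Fin n) k)[X])
    (h : (wdHom k n δ g).natDegree ≤ δ * g.natDegree) :
    ∀ i ≤ g.natDegree, (g.coeff i).totalDegree ≤ δ * (g.natDegree - i) := by
  intro i hi
  have h2 : δ * (g.natDegree - i) = δ * g.natDegree - δ * i := Nat.mul_sub _ _ _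
  have h3 : δ * i ≤ δ * g.natDegree := Nat.mul_le_mul_left _ hi
  rw [MvPolynomial.totalDegree]
  refine Finset.sup_le fun α hα => ?_
  by_contra hlt
  rw [not_le] at hlt
  have hdeg : (α.sum fun _ e => e) = α.degree := rfl
  rw [hdeg] at hlt
  have h4 := coeff_eq_zero_of_natDegree_lt (p := wdHom k n δ g) (n := α.degree + δ * i)
    (by omega)
  have h5 := wdHom_coeff δ g (α.degree + δ * i) i
  rw [h4, coeff_zero, if_pos (Nat.le_add_left _ _), Nat.add_sub_cancel] at h5
  have h6 := congrArg (MvPolynomial.coeff α) h5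
  rw [MvPolynomial.coeff_homogeneousComponent, if_pos rfl, MvPolynomial.coeff_zero] at h6
  exact (MvPolynomial.mem_support_iff.1 hα) h6.symm

end wdeg

/-- Let `k` be a field and `f = Y ^ d + a_1 Y ^ (d-1) + ... + a_d`, `a_j ∈ k[X]` of total degree
`≤ δ j`. If `f = g h` with `g`, `h` monic in `Y`, then the coefficient of `Y ^ (deg g - j)` of `g` has
total degree `≤ δ j`. -/
theorem degree_le_of_mul_aux {k : Type*} [Field k] {n : ℕ} (δ : ℕ)
    (g h : (MvPolynomial (Fin n) k)[X]) (hg : g.Monic) (hh : h.Monic)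
    (hf : ∀ i ≤ (g * h).natDegree, ((g * h).coeff i).totalDegree ≤ δ * ((g * h).natDegree - i)) :
    ∀ i ≤ g.natDegree, (g.coeff i).totalDegree ≤ δ * (g.natDegree - i) := by
  apply wd_back
  have h1 := wd_le δ (g * h) hf
  obtain ⟨g0, -⟩ := wd_ge δ hg
  obtain ⟨h0, h2⟩ := wd_ge δ hh
  rw [map_mul, natDegree_mul g0 h0, hg.natDegree_mul hh, mul_add] at h1
  omega

end Pool.Agent.KM
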