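import Mathlib
import Pool.Agent.Lib.MP_732f67_ag.G.Irr1
import Pool.Agent.Lib.MP_732f67_ag.G.IrrDeg

/-!
Bertini - Noether: an irreducible polynomial over `ℂ`, monic in one of the variables, remains
irreducible over the fields to which a certain finitely generated ring maps.
-/

namespace Pool.Agent.KM

open Polynomial

/-- Let `k` be a field and `f = Y ^ d + a_1 Y ^ (d-1) + ... + a_d`, `a_j ∈ k[X]` of total degree
`≤ δ j`. If `f = g h` with `g`, `h` monic in `Y`, then the coefficient of `Y ^ (deg g - j)` of `g` has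
total degree `≤ δ j`.

PROOF. Let `w(P) = max_{i, α} (δ i + |α|)` over the monomials `X ^ α Y ^ i` of `P`; this is a degree
function (`w(PQ) = w(P) + w(Q)`, the top forms multiply). `w(f) = δ d`, `w(g) ≥ δ deg g`,
`w(h) ≥ δ deg h`, so all are equalities. -/
theorem degree_le_of_mul {k : Type*} [Field k] {n : ℕ} (δ : ℕ)
    (g h : (MvPolynomial (Fin n) k)[X]) (hg : g.Monic) (hh : h.Monic)
    (hf : ∀ i ≤ (g * h).natDegree, ((g * h).coeff i).totalDegree ≤ δ * ((g * h).natDegree - i)) :
    ∀ i ≤ g.natDegree, (g.coeff i).totalDegree ≤ δ * (g.natDegree - i) := by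
  exact degree_le_of_mul_aux δ g h hg hh hf

/-- Bertini - Noether.

PROOF. Choose `δ` as in `degree_le_of_mul` for `f`. For `0 < d1 < d = deg f` and `d2 = d - d1` consider
the polynomials `g = Y ^ d1 + ∑ u_(i, α) X ^ α Y ^ i`, `h = Y ^ d2 + ∑ v_(i, α) X ^ α Y ^ i` with
unknown coefficients (finitely many by the bound on the degrees); `f = g h` is a finite system
of polynomial equations `E_l(u, v) = 0` over the ring generated by the coefficients of `f`. It has no
solution over `ℂ`, so by the Nullstellensatz `1 = ∑ c_l E_l` with `c_l ∈ ℂ[u, v]`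
(`MvPolynomial` Nullstellensatz in Mathlib, for an algebraically closed field). Let `S` be the set of all
coefficients of `f` and of the `c_l`. Over `B = closure S` the same equation holds, hence over every
field `k` with a homomorphism `ψ : B → k` the system has no solution, so `f^ψ` has no factorization
into two monic polynomials of positive degree in `Y` (a factor of a monic polynomial can be
made monic, its leading coefficient is a unit of `k[X]`). -/
theorem exists_irr {n : ℕ} (f : (MvPolynomial (Fin n) ℂ)[X]) (hf : f.Monic)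
    (hi : Irreducible f) :
    ∃ S : Finset ℂ, ∀ (B : Subring ℂ), (S : Set ℂ) ⊆ B → ∃ fB : (MvPolynomial (Fin n) B)[X],
      fB.map (MvPolynomial.map B.subtype) = f ∧ fB.Monic ∧
      ∀ (k : Type) [Field k] (ψ : B →+* k), Irreducible (fB.map (MvPolynomial.map ψ)) := by
  classical
  set d := f.natDegree with hd
  -- the slope
  set δ := ∑ i ∈ Finset.range d, (f.coeff i).totalDegree with hδ
  have hfδ : ∀ i ≤ d, (f.coeff i).totalDegree ≤ δ * (d - i) := by
    intro i hid
    rcases hid.lt_or_eq with hlt | rfl
    · calc (f.coeff i).totalDegree ≤ δ := by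
            rw [hδ]
            exact Finset.single_le_sum (f := fun i => (f.coeff i).totalDegree)
              (fun _ _ => Nat.zero_le _) (Finset.mem_range.mpr hlt)
        _ ≤ δ * (d - i) := Nat.le_mul_of_pos_right _ (by omega)
    · have : f.coeff d = 1 := hf.coeff_natDegree
      rw [this]
      simp
  set A : Finset (Fin n →₀ ℕ) :=
    Finset.Icc 0 (Finsupp.equivFunOnFinite.symm (fun _ => δ * d)) with hA
  have hmemA : ∀ {k : Type} [Field k] (P : MvPolynomial (Fin n) k), P.totalDegree ≤ δ * d →
      P.support ⊆ A := by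
    intro k _ P hP a ha
    rw [hA, Finset.mem_Icc]
    refine ⟨fun i => Nat.zero_le _, ?_⟩
    intro i
    have h1 := MvPolynomial.le_totalDegree ha
    have h2 : a i ≤ a.sum (fun _ e => e) := by
      by_cases hi : i ∈ a.support
      · exact Finset.single_le_sum (f := fun i => a i) (fun _ _ => Nat.zero_le _) hi
      · rw [Finsupp.notMem_support_iff.mp hi]; exact Nat.zero_le _
    simp only [Finsupp.equivFunOnFinite_symm_apply_apply]
    omega
  have hstep : ∀ x : ℕ × ℕ, ∃ S : Finset ℂ, 0 < x.1 → 0 < x.2 →
      ∀ (B : Subring ℂ), (S : Set ℂ) ⊆ B → ∀ fB : (MvPolynomial (Fin n) B)[X],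
      fB.map (MvPolynomial.map B.subtype) = f →
      ∀ (k : Type) [Field k] (ψ : B →+* k) (u : Fin x.1 × A → k) (v : Fin x.2 × A → k),
        irrGen A x.1 u * irrGen A x.2 v ≠ fB.map (MvPolynomial.map ψ) := by
    intro x
    by_cases h1 : 0 < x.1
    · by_cases h2 : 0 < x.2
      · obtain ⟨S, hS⟩ := irr_step f hi A x.1 x.2 h1 h2
        exact ⟨S, fun _ _ => hS⟩
      · exact ⟨∅, fun _ h => absurd h h2⟩
    · exact ⟨∅, fun h => absurd h h1⟩
  choose S hS using hstep
  refine ⟨((Finset.range (d + 1)).biUnion fun i => (f.coeff i).coeffs) ∪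
    (Finset.HasAntidiagonal.antidiagonal d).biUnion S, ?_⟩
  intro B hB
  rw [Finset.coe_union, Set.union_subset_iff] at hB
  obtain ⟨hB1, hB2⟩ := hB
  have hlift : f ∈ Polynomial.lifts (MvPolynomial.map B.subtype : MvPolynomial (Fin n) B →+* _) := by
    rw [Polynomial.lifts_iff_coeff_lifts]
    intro i
    rw [MvPolynomial.mem_range_map_iff_coeffs_subset]
    intro y hy
    by_cases hid : i < d + 1
    · have : y ∈ (B : Set ℂ) := hB1 (by
        simp only [Finset.coe_biUnion, Set.mem_iUnion]
        exact ⟨i, Finset.mem_coe.mpr (Finset.mem_range.mpr hid), hy⟩)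
      exact ⟨⟨y, this⟩, rfl⟩
    · rw [coeff_eq_zero_of_natDegree_lt (by omega)] at hy
      simp at hy
  rw [Polynomial.mem_lifts] at hlift
  obtain ⟨fB, hfB⟩ := hlift
  have hinj : Function.Injective (MvPolynomial.map B.subtype : MvPolynomial (Fin n) B →+* _) :=
    MvPolynomial.map_injective B.subtype Subtype.val_injective
  have hmon : fB.Monic := monic_of_injective hinj (by rw [hfB]; exact hf)
  have hdeg : fB.natDegree = d := by
    rw [hd, ← hfB, natDegree_map_eq_of_injective hinj]
  have hd0 : 0 < d := by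
    rcases Nat.eq_zero_or_pos d with h0 | h0
    · exact absurd (hf.natDegree_eq_zero.mp h0) hi.ne_one
    · exact h0
  refine ⟨fB, hfB, hmon, ?_⟩
  intro k _ ψ
  set F := fB.map (MvPolynomial.map ψ) with hF
  have hFm : F.Monic := hmon.map _
  have hFd : F.natDegree = d := by rw [hF, hmon.natDegree_map, hdeg]
  have hFδ : ∀ i ≤ F.natDegree, (F.coeff i).totalDegree ≤ δ * (F.natDegree - i) := by
    intro i hid
    rw [hFd] at hid ⊢
    refine le_trans ?_ (hfδ i hid)
    have hs1 : (F.coeff i).support ⊆ (fB.coeff i).support := by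
      rw [hF, Polynomial.coeff_map]
      exact MvPolynomial.support_map_subset _ _
    have hs2 : (f.coeff i).support = (fB.coeff i).support := by
      rw [← hfB, Polynomial.coeff_map]
      exact MvPolynomial.support_map_of_injective _ Subtype.val_injective
    unfold MvPolynomial.totalDegree
    apply Finset.sup_mono
    rw [hs2]
    exact hs1
  rw [hFm.irreducible_iff_natDegree]
  refine ⟨?_, ?_⟩
  · intro h1
    rw [h1, natDegree_one] at hFd
    omega
  intro g h hg hh hgh
  by_contra hcon
  push Not at hcon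
  obtain ⟨hg0, hh0⟩ := hcon
  have hsum : g.natDegree + h.natDegree = d := by
    rw [← hFd, ← hgh, hg.natDegree_mul hh]
  have hgA : ∀ i < g.natDegree, (g.coeff i).support ⊆ A := by
    intro i hlt
    apply hmemA
    refine (degree_le_of_mul δ g h hg hh (by rw [hgh]; exact hFδ) i hlt.le).trans ?_
    exact Nat.mul_le_mul_left _ (by omega)
  have hhA : ∀ i < h.natDegree, (h.coeff i).support ⊆ A := by
    intro i hlt
    apply hmemA
    refine (degree_le_of_mul δ h g hh hg (by rw [mul_comm, hgh]; exact hFδ) i hlt.le).trans ?_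
    exact Nat.mul_le_mul_left _ (by omega)
  obtain ⟨u, hu⟩ := irrGen_exists A g hg hgA
  obtain ⟨v, hv⟩ := irrGen_exists A h hh hhA
  refine hS (g.natDegree, h.natDegree) (by simpa [Nat.pos_iff_ne_zero] using hg0)
    (by simpa [Nat.pos_iff_ne_zero] using hh0) B ?_ fB hfB k ψ u v ?_
  · refine subset_trans ?_ hB2
    intro y hy
    simp only [Finset.coe_biUnion, Set.mem_iUnion]
    exact ⟨_, Finset.mem_coe.mpr (Finset.HasAntidiagonal.mem_antidiagonal.mpr hsum), hy⟩
  · change irrGen A g.natDegree u * irrGen A h.natDegree v = _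
    rw [hu, hv, hgh]

end Pool.Agent.KM
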