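import Pool.Agent.Lib.MP_732f67_ag.G.Red

/-!
The characteristic of the reductions.
-/

namespace Pool.Agent.KM

variable {L : Type} [Field L] [Algebra ℂ L] {n : ℕ} {t : Fin n → L} {y : L}

/-- PROOF. `Λ` contains the inverse of `N!`, so `N!` is not zero in `F`. -/
theorem ev_large (N : ℕ) : Ev t y fun R => N < R.p := by
  have hL : CharZero L := charZero_of_injective_algebraMap (algebraMap ℂ L).injective
  have h0 : ((N.factorial : ℕ) : L) ≠ 0 := Nat.cast_ne_zero.2 N.factorial_ne_zero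
  refine (ev_ne h0).mono fun R hR => ?_
  by_contra hle
  push Not at hle
  apply hR.2.2
  rw [R.r_natCast, CharP.cast_eq_zero_iff R.F R.p]
  exact Nat.dvd_factorial R.hp.out.pos hle

/-- PROOF. `Λ` contains a primitive `m`-th root of unity `ζ ∈ ℂ` and `m⁻¹`; `ψ ζ ∈ 𝔽_p` is a root of the
cyclotomic polynomial `Φ_m`, and `p` does not divide `m`, so `ψ ζ` is a primitive `m`-th root of
unity in `𝔽_p`, and `m ∣ p - 1`. -/
theorem ev_dvd (m : ℕ) (hm : 0 < m) : Ev t y fun R => m ∣ R.p - 1 := by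
  have hL : CharZero L := charZero_of_injective_algebraMap (algebraMap ℂ L).injective
  have h0 : ((m : ℕ) : L) ≠ 0 := Nat.cast_ne_zero.2 hm.ne'
  have hz := Complex.isPrimitiveRoot_exp m hm.ne'
  obtain ⟨z, hz'⟩ : ∃ z : ℂ, IsPrimitiveRoot z m := ⟨_, hz⟩
  refine ((ev_ne h0).and (ev_mem (algebraMap ℂ L z))).mono fun R hR => ?_
  obtain ⟨⟨-, -, h1⟩, h2⟩ := hR
  rw [R.r_natCast, Ne, CharP.cast_eq_zero_iff R.F R.p] at h1
  have hzC : z ∈ R.C := h2
  have h3 : (Polynomial.cyclotomic m ℂ).IsRoot z := by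
    have : NeZero ((m : ℕ) : ℂ) := ⟨Nat.cast_ne_zero.2 hm.ne'⟩
    exact Polynomial.isRoot_cyclotomic_iff.2 hz'
  have h4 : (Polynomial.cyclotomic m R.C).eval ⟨z, hzC⟩ = 0 := by
    apply Subtype.ext
    have h5 := Polynomial.hom_eval₂ (Polynomial.cyclotomic m R.C) (RingHom.id R.C) R.C.subtype
      ⟨z, hzC⟩
    rw [Polynomial.eval₂_id, RingHom.comp_id, ← Polynomial.eval_map,
      Polynomial.map_cyclotomic] at h5
    exact h5.trans h3
  have h6 : (Polynomial.cyclotomic m (ZMod R.p)).IsRoot (R.ψ ⟨z, hzC⟩) := by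
    have h5 := Polynomial.hom_eval₂ (Polynomial.cyclotomic m R.C) (RingHom.id R.C) R.ψ ⟨z, hzC⟩
    rw [Polynomial.eval₂_id, RingHom.comp_id, ← Polynomial.eval_map,
      Polynomial.map_cyclotomic, h4, map_zero] at h5
    exact h5.symm
  have h7 : NeZero ((m : ℕ) : ZMod R.p) := ⟨by
    rw [Ne, CharP.cast_eq_zero_iff (ZMod R.p) R.p]
    exact h1⟩
  have h8 : IsPrimitiveRoot (R.ψ ⟨z, hzC⟩) m := Polynomial.isRoot_cyclotomic_iff.1 h6
  refine h8.dvd_of_pow_eq_one _ (ZMod.pow_card_sub_one_eq_one ?_)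
  exact h8.ne_zero hm.ne'

end Pool.Agent.KM
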