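import Pool.Agent.Lib.MP_732f67_ag.G.MainThm
import Pool.Agent.Lib.MP_732f67_ag.T.Theorem

/-!
The main theorem: assembly.
-/

namespace Pool.Agent.KM

open Pool.Agent.Lib.MP_732f67_ag.T (KR ev_theorem)

/-- the theorem on the atlas -/
theorem tthm : TThm := by
  intro L _ _ n r Y hY hcd hN
  have h := ev_theorem hY hcd hN
  obtain ⟨R, Z, hZ, hG, h1, h2⟩ := h.exists hY.prim
  refine ⟨h1, fun h3 P hP => ?_⟩
  obtain ⟨R, hPR, Z, hZ, -, -, h4⟩ := (hP.and h).exists hY.prim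
  obtain ⟨J, hJ, h5, h6, h7⟩ := h4 h3
  exact ⟨R, hPR, J, hJ, KR R, Z, hZ.A, hZ.d, h5, h6, h7⟩

/-- **the main theorem** -/
theorem main : Main := main_of tthm

end Pool.Agent.KM
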