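import Mathlib

/-!
The local ring of an étale extension of `(ℤ / p ^ 2)[t]` at the prime ideal `p`.
-/

namespace Pool.Agent.KM

open Polynomial

/-- the reduction `ℤ / p ^ 2 → ℤ / p` -/
def red (p : ℕ) : ZMod (p ^ 2) →+* ZMod p := ZMod.castHom (dvd_pow_self p two_ne_zero) (ZMod p)

theorem loc2_red_surj (p : ℕ) : Function.Surjective (red p) :=
  ZMod.castHom_surjective _

theorem loc2_red_eq_zero_iff (p : ℕ) [Fact p.Prime] (z : ZMod (p ^ 2)) :
    red p z = 0 ↔ (p : ZMod (p ^ 2)) ∣ z := by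
  constructor
  · intro h
    obtain ⟨k, rfl⟩ := ZMod.intCast_surjective z
    rw [map_intCast, ZMod.intCast_zmod_eq_zero_iff_dvd] at h
    obtain ⟨m, rfl⟩ := h
    exact ⟨(m : ZMod (p ^ 2)), by push_cast; ring⟩
  · rintro ⟨w, rfl⟩
    rw [map_mul, map_natCast, CharP.cast_eq_zero, zero_mul]

theorem loc2_psq (p : ℕ) : (p : ZMod (p ^ 2)) * p = 0 := by
  have : ((p ^ 2 : ℕ) : ZMod (p ^ 2)) = 0 := CharP.cast_eq_zero _ _
  rw [← this]; push_cast; ring

theorem loc2_dvd_of_mul (p : ℕ) [hp : Fact p.Prime] (z : ZMod (p ^ 2))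
    (h : (p : ZMod (p ^ 2)) * z = 0) : (p : ZMod (p ^ 2)) ∣ z := by
  obtain ⟨k, rfl⟩ := ZMod.intCast_surjective z
  have h' : (((p : ℤ) * k : ℤ) : ZMod (p ^ 2)) = 0 := by push_cast; exact h
  rw [ZMod.intCast_zmod_eq_zero_iff_dvd] at h'
  have hp0 : (p : ℤ) ≠ 0 := by exact_mod_cast hp.out.ne_zero
  have : (p : ℤ) ∣ k := by
    have h2 : (p : ℤ) * p ∣ p * k := by
      have : ((p ^ 2 : ℕ) : ℤ) = p * p := by push_cast; ring
      rwa [this] at h'
    exact (mul_dvd_mul_iff_left hp0).mp h2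
  obtain ⟨m, rfl⟩ := this
  exact ⟨(m : ZMod (p ^ 2)), by push_cast; ring⟩

/-- divisibility in `P2` -/
theorem loc2_map_red_iff (p n : ℕ) [Fact p.Prime] (z : MvPolynomial (Fin n) (ZMod (p ^ 2))) :
    MvPolynomial.map (red p) z = 0 ↔ (p : MvPolynomial (Fin n) (ZMod (p ^ 2))) ∣ z := by
  have hC : (p : MvPolynomial (Fin n) (ZMod (p ^ 2))) = MvPolynomial.C (p : ZMod (p ^ 2)) := by
    rw [map_natCast]
  rw [hC, MvPolynomial.C_dvd_iff_dvd_coeff]
  constructor
  · intro h m
    rw [← loc2_red_eq_zero_iff, ← MvPolynomial.coeff_map, h, MvPolynomial.coeff_zero]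
  · intro h
    ext m
    rw [MvPolynomial.coeff_map, MvPolynomial.coeff_zero, loc2_red_eq_zero_iff]
    exact h m

theorem loc2_dvd_of_mul_P (p n : ℕ) [Fact p.Prime] (z : MvPolynomial (Fin n) (ZMod (p ^ 2)))
    (h : (p : MvPolynomial (Fin n) (ZMod (p ^ 2))) * z = 0) :
    (p : MvPolynomial (Fin n) (ZMod (p ^ 2))) ∣ z := by
  have hC : (p : MvPolynomial (Fin n) (ZMod (p ^ 2))) = MvPolynomial.C (p : ZMod (p ^ 2)) := by
    rw [map_natCast]
  rw [hC] at h ⊢
  rw [MvPolynomial.C_dvd_iff_dvd_coeff]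
  intro m
  apply loc2_dvd_of_mul
  rw [← MvPolynomial.coeff_C_mul, h, MvPolynomial.coeff_zero]

/-- divisibility in `P2[Y]` -/
theorem loc2_dvd_of_mul_X (p n : ℕ) [Fact p.Prime]
    (z : (MvPolynomial (Fin n) (ZMod (p ^ 2)))[X])
    (h : (p : (MvPolynomial (Fin n) (ZMod (p ^ 2)))[X]) * z = 0) :
    (p : (MvPolynomial (Fin n) (ZMod (p ^ 2)))[X]) ∣ z := by
  have hC : (p : (MvPolynomial (Fin n) (ZMod (p ^ 2)))[X])
      = C (p : MvPolynomial (Fin n) (ZMod (p ^ 2))) := by
    rw [map_natCast]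
  rw [hC] at h ⊢
  rw [Polynomial.C_dvd_iff_dvd_coeff]
  intro m
  apply loc2_dvd_of_mul_P
  rw [← Polynomial.coeff_C_mul, h, Polynomial.coeff_zero]

theorem loc2_psq_X (p n : ℕ) :
    (p : (MvPolynomial (Fin n) (ZMod (p ^ 2)))[X]) * p = 0 := by
  have := congrArg (fun z => C (MvPolynomial.C (σ := Fin n) z)) (loc2_psq p)
  simpa using this

/-- `P2 → K1` -/
noncomputable def loc2_iot (p n : ℕ) [Fact p.Prime] :
    MvPolynomial (Fin n) (ZMod (p ^ 2)) →+* FractionRing (MvPolynomial (Fin n) (ZMod p)) :=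
  (algebraMap (MvPolynomial (Fin n) (ZMod p)) _).comp (MvPolynomial.map (red p))

theorem loc2_iot_eq_zero (p n : ℕ) [Fact p.Prime] (z : MvPolynomial (Fin n) (ZMod (p ^ 2))) :
    loc2_iot p n z = 0 ↔ (p : MvPolynomial (Fin n) (ZMod (p ^ 2))) ∣ z := by
  rw [← loc2_map_red_iff]
  unfold loc2_iot
  rw [RingHom.comp_apply, map_eq_zero_iff _ (IsFractionRing.injective _ _)]

/-- `P2[Y] → K1[Y]` -/
noncomputable def loc2_phi (p n : ℕ) [Fact p.Prime] :
    (MvPolynomial (Fin n) (ZMod (p ^ 2)))[X] →+*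
      (FractionRing (MvPolynomial (Fin n) (ZMod p)))[X] :=
  mapRingHom (loc2_iot p n)

theorem loc2_phi_eq_zero (p n : ℕ) [Fact p.Prime]
    (z : (MvPolynomial (Fin n) (ZMod (p ^ 2)))[X]) :
    loc2_phi p n z = 0 ↔ (p : (MvPolynomial (Fin n) (ZMod (p ^ 2)))[X]) ∣ z := by
  have hC : (p : (MvPolynomial (Fin n) (ZMod (p ^ 2)))[X])
      = C (p : MvPolynomial (Fin n) (ZMod (p ^ 2))) := by
    rw [map_natCast]
  rw [hC, Polynomial.C_dvd_iff_dvd_coeff]
  constructor
  · intro h m
    rw [← loc2_iot_eq_zero]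
    have := congrArg (fun q => q.coeff m) h
    simpa [loc2_phi] using this
  · intro h
    ext m
    have := (loc2_iot_eq_zero p n _).mpr (h m)
    simpa [loc2_phi] using this

/-- common denominators -/
theorem loc2_den (p n : ℕ) [Fact p.Prime]
    (w : (FractionRing (MvPolynomial (Fin n) (ZMod p)))[X]) :
    ∃ (c : MvPolynomial (Fin n) (ZMod (p ^ 2))) (w' : (MvPolynomial (Fin n) (ZMod (p ^ 2)))[X]),
      loc2_iot p n c ≠ 0 ∧ C (loc2_iot p n c) * w = loc2_phi p n w' := by
  induction w using Polynomial.induction_on' with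
  | add a b ha hb =>
    obtain ⟨c, a', hc, h1⟩ := ha
    obtain ⟨d, b', hd, h2⟩ := hb
    refine ⟨c * d, C d * a' + C c * b', by rw [map_mul]; exact mul_ne_zero hc hd, ?_⟩
    have e1 : ∀ x, loc2_phi p n (C x) = C (loc2_iot p n x) := by
      intro x; simp [loc2_phi]
    rw [map_add, map_mul (loc2_phi p n), map_mul (loc2_phi p n), e1, e1, ← h1, ← h2,
      map_mul (loc2_iot p n), C_mul]
    ring
  | monomial m a =>
    obtain ⟨x, y, hy, rfl⟩ := IsFractionRing.div_surjective (A := MvPolynomial (Fin n) (ZMod p)) a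
    obtain ⟨y', rfl⟩ := MvPolynomial.map_surjective (red p) (loc2_red_surj p) y
    obtain ⟨x', rfl⟩ := MvPolynomial.map_surjective (red p) (loc2_red_surj p) x
    have hy0 : loc2_iot p n y' ≠ 0 := by
      unfold loc2_iot
      rw [RingHom.comp_apply, Ne, map_eq_zero_iff _ (IsFractionRing.injective _ _)]
      exact nonZeroDivisors.ne_zero hy
    refine ⟨y', monomial m x', hy0, ?_⟩
    have e2 : loc2_phi p n (monomial m x') = monomial m (loc2_iot p n x') := by
      simp [loc2_phi]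
    rw [e2, C_mul_monomial]
    congr 1
    change loc2_iot p n y' * (loc2_iot p n x' / loc2_iot p n y') = _
    field_simp


section Main

variable (p n : ℕ) [hp : Fact p.Prime] (f : (MvPolynomial (Fin n) (ZMod (p ^ 2)))[X])
  (g h : (FractionRing (MvPolynomial (Fin n) (ZMod p)))[X]) [hg : Fact (Irreducible g)]

/-- `P2[Y] → F` -/
noncomputable def loc2_eps : (MvPolynomial (Fin n) (ZMod (p ^ 2)))[X] →+* AdjoinRoot g :=
  (AdjoinRoot.mk g).comp (loc2_phi p n)

theorem loc2_mk_C_ne (x : FractionRing (MvPolynomial (Fin n) (ZMod p))) (hx : x ≠ 0) :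
    AdjoinRoot.mk g (C x) ≠ 0 := by
  intro h0
  have h1 : IsUnit (AdjoinRoot.mk g (C x)) :=
    ((isUnit_iff_ne_zero.mpr hx).map (C : _ →+* (FractionRing (MvPolynomial (Fin n) (ZMod p)))[X])).map
      (AdjoinRoot.mk g)
  exact h1.ne_zero h0

/-- the kernel, up to a denominator -/
theorem loc2_ker (hfg : loc2_phi p n f = g * h) (hc : IsCoprime g h)
    (a : (MvPolynomial (Fin n) (ZMod (p ^ 2)))[X]) (ha : loc2_eps p n g a = 0) :
    ∃ s b v : (MvPolynomial (Fin n) (ZMod (p ^ 2)))[X], loc2_eps p n g s ≠ 0 ∧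
      s * a = (p : (MvPolynomial (Fin n) (ZMod (p ^ 2)))[X]) * b + f * v := by
  have e1 : ∀ x, loc2_phi p n (C x) = C (loc2_iot p n x) := by
    intro x; simp [loc2_phi]
  unfold loc2_eps at ha
  rw [RingHom.comp_apply, AdjoinRoot.mk_eq_zero] at ha
  obtain ⟨w, hw⟩ := ha
  obtain ⟨c, h', hc0, hc1⟩ := loc2_den p n h
  obtain ⟨d, w', hd0, hd1⟩ := loc2_den p n w
  have hz : loc2_phi p n (C d * h' * a - C c * w' * f) = 0 := by
    rw [map_sub, map_mul, map_mul, map_mul, map_mul, e1, e1, ← hc1, ← hd1, hfg, hw]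
    ring
  rw [loc2_phi_eq_zero] at hz
  obtain ⟨b, hb⟩ := hz
  refine ⟨C d * h', b, C c * w', ?_, ?_⟩
  · unfold loc2_eps
    rw [RingHom.comp_apply, map_mul, e1, ← hc1, map_mul, map_mul]
    refine mul_ne_zero (loc2_mk_C_ne p n g _ hd0) (mul_ne_zero (loc2_mk_C_ne p n g _ hc0) ?_)
    obtain ⟨u, v, huv⟩ := hc
    have h2 := congrArg (AdjoinRoot.mk g) huv
    rw [map_add, map_mul, map_mul, AdjoinRoot.mk_self, mul_zero, zero_add, map_one] at h2
    intro h3
    rw [h3, mul_zero] at h2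
    exact zero_ne_one h2
  · linear_combination hb

/-- `T → F` -/
noncomputable def loc2_epsb (hfg : loc2_phi p n f = g * h) : AdjoinRoot f →+* AdjoinRoot g :=
  Ideal.Quotient.lift (Ideal.span {f}) (loc2_eps p n g) (by
    intro a ha
    rw [Ideal.mem_span_singleton] at ha
    obtain ⟨w, rfl⟩ := ha
    unfold loc2_eps
    rw [RingHom.comp_apply, map_mul, hfg, AdjoinRoot.mk_eq_zero, mul_assoc]
    exact dvd_mul_right _ _)

theorem loc2_epsb_mk (hfg : loc2_phi p n f = g * h)
    (a : (MvPolynomial (Fin n) (ZMod (p ^ 2)))[X]) :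
    loc2_epsb p n f g h hfg (AdjoinRoot.mk f a) = loc2_eps p n g a :=
  Ideal.Quotient.lift_mk _ _ _

/-- the flatness in `T` -/
theorem loc2_flat (hf : f.Monic) (t : AdjoinRoot f) (ht : (p : AdjoinRoot f) * t = 0) :
    ∃ b, t = (p : AdjoinRoot f) * b := by
  obtain ⟨a, rfl⟩ := AdjoinRoot.mk_surjective t
  have h1 : AdjoinRoot.mk f (a %ₘ f) = AdjoinRoot.mk f a := by
    conv_rhs => rw [← modByMonic_add_div a f]
    rw [map_add, map_mul, AdjoinRoot.mk_self, zero_mul, add_zero]
  rw [← h1] at ht ⊢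
  have h2 : AdjoinRoot.mk f ((p : (MvPolynomial (Fin n) (ZMod (p ^ 2)))[X]) * (a %ₘ f)) = 0 := by
    rw [map_mul, map_natCast, ht]
  rw [AdjoinRoot.mk_eq_zero] at h2
  have h3 : (p : (MvPolynomial (Fin n) (ZMod (p ^ 2)))[X]) * (a %ₘ f) = 0 := by
    by_contra hne
    refine hf.not_dvd_of_degree_lt hne ?_ h2
    have hntr : Nontrivial (MvPolynomial (Fin n) (ZMod (p ^ 2))) := by
      by_contra hn
      rw [not_nontrivial_iff_subsingleton] at hn
      exact hne (Subsingleton.elim _ _)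
    calc ((p : (MvPolynomial (Fin n) (ZMod (p ^ 2)))[X]) * (a %ₘ f)).degree
        ≤ (a %ₘ f).degree := by
          have : (p : (MvPolynomial (Fin n) (ZMod (p ^ 2)))[X])
            = C (p : MvPolynomial (Fin n) (ZMod (p ^ 2))) := by rw [map_natCast]
          rw [this, ← smul_eq_C_mul]
          exact degree_smul_le _ _
      _ < f.degree := degree_modByMonic_lt a hf
  obtain ⟨b, hb⟩ := loc2_dvd_of_mul_X p n _ h3
  exact ⟨AdjoinRoot.mk f b, by rw [hb, map_mul, map_natCast]⟩

theorem loc2_main (hf : f.Monic) (hfg : loc2_phi p n f = g * h) (hc : IsCoprime g h) :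
    ∃ (R2 : Type) (_ : CommRing R2)
      (π : R2 →+* AdjoinRoot g) (e : (MvPolynomial (Fin n) (ZMod (p ^ 2)))[X] →+* R2),
      Function.Surjective π ∧ (∀ x, π x = 0 ↔ ∃ y, x = p * y) ∧
      (∀ x, (p : R2) * x = 0 ↔ ∃ y, x = p * y) ∧ e f = 0 ∧
      (∀ a, π (e a) = loc2_eps p n g a) ∧
      (∀ z, ∃ a b, π (e b) ≠ 0 ∧ z * e b = e a) := by
  set E := loc2_epsb p n f g h hfg with hE
  set q : Ideal (AdjoinRoot f) := RingHom.ker E with hq
  have hqp : q.IsPrime := RingHom.ker_isPrime E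
  let R2 := Localization.AtPrime q
  have hu : ∀ y : q.primeCompl, IsUnit (E y) := by
    intro y
    rw [isUnit_iff_ne_zero]
    intro h0
    exact y.2 h0
  let π : R2 →+* AdjoinRoot g := IsLocalization.lift (M := q.primeCompl) hu
  have hπ : ∀ t, π (algebraMap (AdjoinRoot f) R2 t) = E t := fun t => IsLocalization.lift_eq hu t
  let e : (MvPolynomial (Fin n) (ZMod (p ^ 2)))[X] →+* R2 :=
    (algebraMap (AdjoinRoot f) R2).comp (AdjoinRoot.mk f)
  have he : ∀ a, e a = algebraMap (AdjoinRoot f) R2 (AdjoinRoot.mk f a) := fun a => rfl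
  have hπe : ∀ a, π (e a) = loc2_eps p n g a := by
    intro a
    rw [he, hπ, hE, loc2_epsb_mk]
  have hunit : ∀ t, E t ≠ 0 → IsUnit (algebraMap (AdjoinRoot f) R2 t) := by
    intro t ht
    exact IsLocalization.map_units R2 (⟨t, ht⟩ : q.primeCompl)
  have hchar : (p : AdjoinRoot g) = 0 := by
    have h1 : (p : FractionRing (MvPolynomial (Fin n) (ZMod p))) = 0 := by
      have : ((p : MvPolynomial (Fin n) (ZMod p)) : MvPolynomial (Fin n) (ZMod p)) = 0 := by
        have h2 : (p : ZMod p) = 0 := CharP.cast_eq_zero _ _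
        have h3 := congrArg (MvPolynomial.C (σ := Fin n)) h2
        rwa [map_natCast, map_zero] at h3
      have h4 := congrArg (algebraMap (MvPolynomial (Fin n) (ZMod p))
        (FractionRing (MvPolynomial (Fin n) (ZMod p)))) this
      rwa [map_natCast, map_zero] at h4
    have h5 := congrArg (AdjoinRoot.of g) h1
    rwa [map_natCast, map_zero] at h5
  have hden : ∀ z : R2, ∃ t s : AdjoinRoot f, E s ≠ 0 ∧
      z * algebraMap (AdjoinRoot f) R2 s = algebraMap (AdjoinRoot f) R2 t := by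
    intro z
    obtain ⟨⟨t, s⟩, hts⟩ := IsLocalization.surj (M := q.primeCompl) z
    exact ⟨t, s, fun h0 => s.2 h0, hts⟩
  have hpp : (p : R2) * p = 0 := by
    have := congrArg e (loc2_psq_X p n)
    rwa [map_mul, map_natCast, map_zero] at this
  refine ⟨R2, inferInstance, π, e, ?_, ?_, ?_, ?_, hπe, ?_⟩
  · intro x
    obtain ⟨w, rfl⟩ := AdjoinRoot.mk_surjective x
    obtain ⟨c, w', hc0, hw⟩ := loc2_den p n w
    have hC : loc2_eps p n g (C c) = AdjoinRoot.mk g (C (loc2_iot p n c)) := by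
      unfold loc2_eps
      rw [RingHom.comp_apply]
      congr 1
      simp [loc2_phi]
    have hne : loc2_eps p n g (C c) ≠ 0 := by
      rw [hC]
      exact loc2_mk_C_ne p n g _ hc0
    have hU := hunit (AdjoinRoot.mk f (C c)) (by rw [hE, loc2_epsb_mk]; exact hne)
    obtain ⟨u, hu'⟩ := hU
    refine ⟨e w' * (↑u⁻¹ : R2), ?_⟩
    have h1 : π (e w' * (↑u⁻¹ : R2)) * π (e (C c)) = π (e w') := by
      rw [← map_mul, he (C c), ← hu', mul_assoc, Units.inv_mul, mul_one]
    rw [hπe, hπe] at h1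
    have h2 : AdjoinRoot.mk g w * loc2_eps p n g (C c) = loc2_eps p n g w' := by
      rw [hC, ← map_mul]
      unfold loc2_eps
      rw [RingHom.comp_apply, ← hw, mul_comm]
    exact mul_right_cancel₀ hne (h1.trans h2.symm)
  · intro z
    constructor
    · intro hz
      obtain ⟨t, s, hs, hts⟩ := hden z
      have h1 : E t = 0 := by
        rw [← hπ, ← hts, map_mul, hz, zero_mul]
      obtain ⟨a, rfl⟩ := AdjoinRoot.mk_surjective t
      rw [hE, loc2_epsb_mk] at h1
      obtain ⟨s', b, v, hs', hb⟩ := loc2_ker p n f g h hfg hc a h1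
      have h2 : algebraMap (AdjoinRoot f) R2 (AdjoinRoot.mk f s') *
          algebraMap (AdjoinRoot f) R2 (AdjoinRoot.mk f a) =
          (p : R2) * algebraMap (AdjoinRoot f) R2 (AdjoinRoot.mk f b) := by
        rw [← map_mul, ← map_mul, hb, map_add, map_mul, map_mul, AdjoinRoot.mk_self, zero_mul,
          add_zero, map_mul, map_natCast, map_natCast]
      obtain ⟨u, hu1⟩ := hunit (AdjoinRoot.mk f s') (by rw [hE, loc2_epsb_mk]; exact hs')
      obtain ⟨v, hv1⟩ := hunit s hs
      refine ⟨algebraMap (AdjoinRoot f) R2 (AdjoinRoot.mk f b) * (↑u⁻¹ : R2) * (↑v⁻¹ : R2), ?_⟩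
      rw [← hu1] at h2
      rw [← hv1] at hts
      have h3 : z * ↑v * ↑u = (p : R2) * algebraMap (AdjoinRoot f) R2 (AdjoinRoot.mk f b) := by
        rw [hts, mul_comm, h2]
      have h4 := congrArg (fun x => x * (↑u⁻¹ : R2) * (↑v⁻¹ : R2)) h3
      beta_reduce at h4
      rw [Units.mul_inv_cancel_right, Units.mul_inv_cancel_right] at h4
      rw [h4]; ring
    · rintro ⟨y, rfl⟩
      rw [map_mul, map_natCast, hchar, zero_mul]
  · intro z
    constructor
    · intro hz
      obtain ⟨t, s, hs, hts⟩ := hden z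
      have h1 : algebraMap (AdjoinRoot f) R2 ((p : AdjoinRoot f) * t) =
          algebraMap (AdjoinRoot f) R2 0 := by
        rw [map_mul, ← hts, map_natCast, ← mul_assoc, hz, zero_mul, map_zero]
      obtain ⟨c, hc'⟩ := (IsLocalization.eq_iff_exists q.primeCompl R2).mp h1
      rw [mul_zero] at hc'
      obtain ⟨b, hb⟩ := loc2_flat p n f hf ((c : AdjoinRoot f) * t) (by rw [← hc']; ring)
      obtain ⟨u, hu1⟩ := hunit (c : AdjoinRoot f) (fun h0 => c.2 h0)
      obtain ⟨v, hv1⟩ := hunit s hs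
      refine ⟨algebraMap (AdjoinRoot f) R2 b * (↑u⁻¹ : R2) * (↑v⁻¹ : R2), ?_⟩
      have h2 := congrArg (algebraMap (AdjoinRoot f) R2) hb
      rw [map_mul, map_mul, map_natCast, ← hu1, ← hts, ← hv1] at h2
      have h3 : z * ↑v * ↑u = (p : R2) * algebraMap (AdjoinRoot f) R2 b := by
        rw [← h2]; ring
      have h4 := congrArg (fun x => x * (↑u⁻¹ : R2) * (↑v⁻¹ : R2)) h3
      beta_reduce at h4
      rw [Units.mul_inv_cancel_right, Units.mul_inv_cancel_right] at h4
      rw [h4]; ring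
    · rintro ⟨y, rfl⟩
      rw [← mul_assoc, hpp, zero_mul]
  · rw [he, AdjoinRoot.mk_self, map_zero]
  · intro z
    obtain ⟨t, s, hs, hts⟩ := hden z
    obtain ⟨a, rfl⟩ := AdjoinRoot.mk_surjective t
    obtain ⟨b, rfl⟩ := AdjoinRoot.mk_surjective s
    refine ⟨a, b, ?_, hts⟩
    rw [he, hπ]
    exact hs

theorem loc2_eps_X (i : Fin n) :
    loc2_eps p n g (C (MvPolynomial.X i)) =
      algebraMap (MvPolynomial (Fin n) (ZMod p)) (AdjoinRoot g) (MvPolynomial.X i) := by
  unfold loc2_eps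
  rw [RingHom.comp_apply]
  have : loc2_phi p n (C (MvPolynomial.X i)) = C (algebraMap (MvPolynomial (Fin n) (ZMod p))
      (FractionRing (MvPolynomial (Fin n) (ZMod p))) (MvPolynomial.X i)) := by
    simp [loc2_phi, loc2_iot]
  rw [this]
  rfl

theorem loc2_basis :
    IsTranscendenceBasis (ZMod p)
      (fun i : Fin n => loc2_eps p n g (C (MvPolynomial.X i))) := by
  have h1 : IsTranscendenceBasis (ZMod p)
      (MvPolynomial.X : Fin n → MvPolynomial (Fin n) (ZMod p)) :=
    IsTranscendenceBasis.mvPolynomial (Fin n) (ZMod p)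
  have : Algebra.IsAlgebraic (FractionRing (MvPolynomial (Fin n) (ZMod p))) (AdjoinRoot g) := by
    have hfin : FiniteDimensional (FractionRing (MvPolynomial (Fin n) (ZMod p))) (AdjoinRoot g) :=
      (AdjoinRoot.powerBasis hg.out.ne_zero).finite
    exact Algebra.IsAlgebraic.of_finite _ _
  have : Algebra.IsAlgebraic (MvPolynomial (Fin n) (ZMod p)) (AdjoinRoot g) :=
    (IsFractionRing.comap_isAlgebraic_iff (A := MvPolynomial (Fin n) (ZMod p))
      (K := FractionRing (MvPolynomial (Fin n) (ZMod p))) (C := AdjoinRoot g)).mpr this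
  have : FaithfulSMul (MvPolynomial (Fin n) (ZMod p)) (AdjoinRoot g) := by
    rw [faithfulSMul_iff_algebraMap_injective,
      IsScalarTower.algebraMap_eq (MvPolynomial (Fin n) (ZMod p))
        (FractionRing (MvPolynomial (Fin n) (ZMod p))) (AdjoinRoot g)]
    exact (algebraMap (FractionRing (MvPolynomial (Fin n) (ZMod p)))
      (AdjoinRoot g)).injective.comp (IsFractionRing.injective _ _)
  have h2 := h1.algebraMap_comp (A := AdjoinRoot g)
  convert h2 using 1
  ext i
  exact loc2_eps_X p n g i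

theorem loc2_fg : IntermediateField.adjoin (ZMod p) (insert (loc2_eps p n g X)
    (Set.range fun i : Fin n => loc2_eps p n g (C (MvPolynomial.X i)))) = ⊤ := by
  classical
  let m : MvPolynomial (Fin n) (ZMod p) → AdjoinRoot g := algebraMap _ _
  set I := IntermediateField.adjoin (ZMod p) (insert (loc2_eps p n g X)
    (Set.range fun i : Fin n => loc2_eps p n g (C (MvPolynomial.X i)))) with hI
  have hroot : AdjoinRoot.root g ∈ I := by
    have : AdjoinRoot.root g = loc2_eps p n g X := by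
      unfold loc2_eps
      rw [RingHom.comp_apply, ← AdjoinRoot.mk_X]
      congr 1
      simp [loc2_phi]
    rw [this]
    apply IntermediateField.subset_adjoin
    exact Set.mem_insert _ _
  have hX : ∀ i, m (MvPolynomial.X i) ∈ I := by
    intro i
    have : m (MvPolynomial.X i) = loc2_eps p n g (C (MvPolynomial.X i)) :=
      (loc2_eps_X p n g i).symm
    rw [this]
    apply IntermediateField.subset_adjoin
    exact Set.mem_insert_of_mem _ ⟨i, rfl⟩
  have hm : ∀ w, m w ∈ I := by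
    intro w
    induction w using MvPolynomial.induction_on with
    | C a =>
      have : m (MvPolynomial.C a) = algebraMap (ZMod p) (AdjoinRoot g) a := by
        change algebraMap _ _ (algebraMap _ _ a) = _
        rw [← IsScalarTower.algebraMap_apply]
      rw [this]
      exact I.algebraMap_mem a
    | add a b ha hb =>
      change algebraMap _ _ (a + b) ∈ I
      rw [map_add]
      exact I.add_mem ha hb
    | mul_X a i ha =>
      change algebraMap _ _ (a * MvPolynomial.X i) ∈ I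
      rw [map_mul]
      exact I.mul_mem ha (hX i)
  have hK : ∀ w : FractionRing (MvPolynomial (Fin n) (ZMod p)), AdjoinRoot.mk g (C w) ∈ I := by
    intro w
    obtain ⟨x, y, hy, rfl⟩ := IsFractionRing.div_surjective (A := MvPolynomial (Fin n) (ZMod p)) w
    have : AdjoinRoot.mk g (C (algebraMap _ (FractionRing (MvPolynomial (Fin n) (ZMod p))) x /
        algebraMap _ _ y)) = m x / m y := by
      change AdjoinRoot.of g _ = _
      rw [map_div₀]
      rfl
    rw [this]
    exact I.div_mem (hm x) (hm y)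
  rw [eq_top_iff]
  rintro x -
  obtain ⟨w, rfl⟩ := AdjoinRoot.mk_surjective x
  induction w using Polynomial.induction_on' with
  | add a b ha hb =>
    rw [map_add]
    exact I.add_mem ha hb
  | monomial k a =>
    rw [← C_mul_X_pow_eq_monomial, map_mul, map_pow, AdjoinRoot.mk_X]
    exact I.mul_mem (hK a) (pow_mem hroot k)

end Main

theorem loc2_sep (p : ℕ) [Fact p.Prime] (n : ℕ) (f : (MvPolynomial (Fin n) (ZMod (p ^ 2)))[X])
    (U V : (MvPolynomial (Fin n) (ZMod (p ^ 2)))[X])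
    (D : MvPolynomial (Fin n) (ZMod (p ^ 2))) (h : U * f + V * derivative f = C D)
    (hD : MvPolynomial.map (red p) D ≠ 0) : (loc2_phi p n f).Separable := by
  have h0 : loc2_iot p n D ≠ 0 := by
    unfold loc2_iot
    rw [RingHom.comp_apply, Ne, map_eq_zero_iff _ (IsFractionRing.injective _ _)]
    exact hD
  have h1 := congrArg (loc2_phi p n) h
  have e1 : ∀ x, loc2_phi p n (C x) = C (loc2_iot p n x) := by
    intro x; simp [loc2_phi]
  have e2 : loc2_phi p n (derivative f) = derivative (loc2_phi p n f) := by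
    simp [loc2_phi, derivative_map]
  rw [map_add, map_mul, map_mul, e1, e2] at h1
  refine ⟨C (loc2_iot p n D)⁻¹ * loc2_phi p n U, C (loc2_iot p n D)⁻¹ * loc2_phi p n V, ?_⟩
  have h2 : C (loc2_iot p n D)⁻¹ * C (loc2_iot p n D) = 1 := by
    rw [← C_mul, inv_mul_cancel₀ h0, C_1]
  linear_combination (C (loc2_iot p n D)⁻¹) * h1 + h2

/-- `Z2 = ZMod (p ^ 2)`, `P2 = Z2[t]`, `P1 = (ZMod p)[t]`, `K1 = Frac P1`. `f ∈ P2[Y]` monic,
separable over `K1`. The ring `R2` = localisation of `P2[Y] / (f)` at the prime ideal which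
corresponds to an irreducible factor of `f` over `K1`.

PROOF. Let `g` be an irreducible factor of (the image of) `f` in `K1[Y]`, `F = AdjoinRoot g`,
`ε : P2[Y] → F` (`t ↦ t`, `Y ↦ root`), `M` = `{b | ε b ≠ 0}`, `T = P2[Y] / (f)` (`AdjoinRoot f`),
`R2` = `Localization` of `T` at the image of `M`, `e : P2[Y] → T → R2`, `π : R2 → F` the lift of `ε`.
Surjective: the elements of `F` are `P(t, root) / Q(t)`.
Kernel: let `ε a = 0`. In `K1[Y]`: `f = g h`, `g` and `h` are coprime (`U f + V f' = D ≠ 0`), so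
`h(root) ≠ 0`, and `a = g w`, so `a h = w f`; after multiplication by some `c ∈ P1 - 0`:
`c h`, `c w` and `c h a = c w f` in `P1[Y]`; lift to `P2[Y]`: `s a - w' f ∈ p P2[Y]` (the kernel of
`P2[Y] → P1[Y]`) with `ε s ≠ 0`; so in `T`: `s a ∈ p T`, and `a ∈ p R2`.
Flat: if `p a = 0` in `T`, let `a` be represented by a polynomial of degree `< deg f`; `p a` is
divisible by the monic `f`, so `p a = 0` in `P2[Y]`, and all the coefficients of `a` are divisible
by `p`. If `p (a / s) = 0` in `R2`, then `s' p a = 0` in `T`, so `s' a ∈ p T`. And `p * p = 0`.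
Transcendence basis: the `t i` are algebraically independent in `K1 ⊆ F`, and `F` is algebraic over
`K1`. Generators of `F`: the `t i` and the root. -/
theorem exists_local (p : ℕ) [Fact p.Prime] (n : ℕ) (f : (MvPolynomial (Fin n) (ZMod (p ^ 2)))[X])
    (hf : f.Monic) (hd : 0 < f.natDegree) (U V : (MvPolynomial (Fin n) (ZMod (p ^ 2)))[X])
    (D : MvPolynomial (Fin n) (ZMod (p ^ 2))) (h : U * f + V * derivative f = C D)
    (hD : MvPolynomial.map (red p) D ≠ 0) :
    ∃ (R2 : Type) (_ : CommRing R2) (F : Type) (_ : Field F) (_ : Algebra (ZMod p) F)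
      (π : R2 →+* F) (e : (MvPolynomial (Fin n) (ZMod (p ^ 2)))[X] →+* R2),
      Function.Surjective π ∧ (∀ x, π x = 0 ↔ ∃ y, x = p * y) ∧
      (∀ x, (p : R2) * x = 0 ↔ ∃ y, x = p * y) ∧ e f = 0 ∧
      IsTranscendenceBasis (ZMod p) (fun i => π (e (C (MvPolynomial.X i)))) ∧
      (∀ z, ∃ a b, π (e b) ≠ 0 ∧ z * e b = e a) ∧
      IntermediateField.adjoin (ZMod p)
        (insert (π (e X)) (Set.range fun i => π (e (C (MvPolynomial.X i))))) = ⊤ := by
  have hsep := loc2_sep p n f U V D h hD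
  have hdeg : 0 < (loc2_phi p n f).natDegree := by
    have : (loc2_phi p n f).natDegree = f.natDegree := by
      unfold loc2_phi
      rw [coe_mapRingHom]
      exact hf.natDegree_map _
    omega
  obtain ⟨g, hgi, k, hk⟩ := exists_irreducible_of_natDegree_pos hdeg
  have : Fact (Irreducible g) := ⟨hgi⟩
  have hc : IsCoprime g k := by
    rw [hk] at hsep
    exact hsep.isCoprime
  obtain ⟨R2, hR, π, e, h1, h2, h3, h4, h5, h6⟩ := loc2_main p n f g k hf hk hc
  refine ⟨R2, hR, AdjoinRoot g, inferInstance, inferInstance, π, e, h1, h2, h3, h4, ?_, h6, ?_⟩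
  · have := loc2_basis p n g
    simpa only [h5] using this
  · have := loc2_fg p n g
    simpa only [h5] using this

end Pool.Agent.KM
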