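import Pool.Agent.Lib.MP_732f67_ag.G.EqD
import Pool.Agent.Lib.MP_732f67_ag.G.AtEx

/-!
The main theorem.
-/

namespace Pool.Agent.KM

variable {L : Type} [Field L] [Algebra ℂ L] {n : ℕ} {I : Type} [Fintype I] [DecidableEq I]

/-- the theorem on the atlas, from part C and `Atl.Good.asm` (to be replaced by `T/Theorem`) -/
def TThm : Prop :=
  ∀ (L : Type) [Field L] [Algebra ℂ L] (n r : ℕ) (Y : AtD L n (Fin r)), Y.Ok → Y.Cod → 0 < Y.N →
    ∑ i, (Y.c i : ℝ) / Y.q ≤ 2 * n ∧ (∑ i, (Y.c i : ℝ) / Y.q = 2 * n →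
      ∀ P, Ev Y.t Y.y0 P → ∃ R, P R ∧ ∃ J : Finset (Fin r), J.card = n ∧ EqData Y J R)

/-- the set `J` can be chosen independently of the reduction.

PROOF. Otherwise for every `J` with `n` elements there is `P J` in `Ev` without such a reduction; take the
conjunction of the finitely many `P J` (`Ev.all` for the finite type `Finset I`). -/
theorem exists_J {Y : AtD L n I} (h : ∀ P, Ev Y.t Y.y0 P → ∃ R, P R ∧
      ∃ J : Finset I, J.card = n ∧ EqData Y J R) :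
    ∃ J : Finset I, J.card = n ∧ ∀ P, Ev Y.t Y.y0 P → ∃ R, P R ∧ EqData Y J R := by
  classical
  by_contra hcon
  push Not at hcon
  have h1 : ∀ J : Finset I, ∃ P : Red L Y.t Y.y0 → Prop, Ev Y.t Y.y0 P ∧
      (J.card = n → ∀ R, P R → ¬ EqData Y J R) := by
    intro J
    by_cases hJ : J.card = n
    · obtain ⟨P, hP, hP'⟩ := hcon J hJ
      exact ⟨P, hP, fun _ => hP'⟩
    · exact ⟨fun _ => True, (ev_mem (0 : L)).mono fun _ _ => trivial, fun h => absurd h hJ⟩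
  choose P hP hP' using h1
  obtain ⟨R, hR, J, hJ, hE⟩ := h (fun R => ∀ J, P J R) (Ev.all hP)
  exact hP' J hJ R (hR J) hE

theorem main_of (hT : TThm) : Main := by
  intro L _ _ n X D m κ hX W s P E hW r a M hM
  have key : ∀ (q' : ℕ) (c : Fin r → ℕ) (u : Lˣ), 1 ≤ q' → (∀ i, 0 < c i) → QDec X κ q' c u M →
      ∑ i, (c i : ℝ) / (m * q') ≤ (2 * n : ℕ) ∧
        (∑ i, (c i : ℝ) / (m * q') = (2 * n : ℕ) → IsP1n X n) := by
    intro q' c u hq hc hu
    obtain ⟨Y, hY, hcd, hN, hYq, hYc, hS⟩ := exists_atlas hX hW hM.car hM.semi hM.ne hq hc hu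
    obtain ⟨h1, h2⟩ := hT L n r Y hY hcd hN
    have h3 : ∑ i, (Y.c i : ℝ) / Y.q = ∑ i, (c i : ℝ) / (m * q') := by
      rw [hYq, hYc]
      push_cast
      rfl
    have h4 : ((2 * n : ℕ) : ℝ) = 2 * n := by push_cast; ring
    rw [h4, ← h3]
    refine ⟨h1, fun h5 => ?_⟩
    obtain ⟨J, hJ, h6⟩ := exists_J (h2 h5)
    exact isP1n_of_eqData hX hq hc hu hY hN hS hJ h6
  obtain ⟨h1, h2⟩ := sum_le_of_qdec hX.proj hX.normal hX.can.1 hX.pos hM.car hM.pos hM.equiv (2 * n)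
    fun q' c u hq hc hu => (key q' c u hq hc hu).1
  have h4 : ((2 * n : ℕ) : ℝ) = 2 * n := by push_cast; ring
  rw [h4] at h1 h2
  refine ⟨h1, fun h3 => ?_⟩
  obtain ⟨q', c, u, hq, hc, hu, h5⟩ := h2 h3
  exact (key q' c u hq hc hu).2 (by rw [h4]; exact h5)

end Pool.Agent.KM
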