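import Pool.Agent.Lib.MP_732f67_ag.G.Ver

/-!
Basic open neighbourhoods of the points of a projective variety.
-/

namespace Pool.Agent.KM

variable {L : Type} [Field L] [Algebra ℂ L]

/-- `A` is a basic open neighbourhood of `O` on the variety `Pts V` -/
def Bn (V : Submodule ℂ L) (O A : Subalgebra ℂ L) : Prop :=
  ∃ (d : ℕ) (g : L), 1 ≤ d ∧ g ∈ V ^ d ∧ g ≠ 0 ∧ A = cht (V ^ d) g ∧ A ≤ O

theorem exists_bn {V : Submodule ℂ L} {O : Subalgebra ℂ L} (hO : O ∈ Pts V) :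
    ∃ (v : L) (A : Subalgebra ℂ L), v ∈ V ∧ v ≠ 0 ∧ A = cht V v ∧ Bn V O A ∧ LocAt A O := by
  obtain ⟨v, hv, hv0, hl⟩ := hO
  refine ⟨v, cht V v, hv, hv0, rfl, ⟨1, v, le_rfl, ?_, hv0, ?_, hl.le⟩, hl⟩
  · rwa [pow_one]
  · rw [pow_one]

/-- PROOF. `w = H / g ^ e` with `H ∈ V ^ (d e)` (`mem_cht_iff` for `V ^ d`), and
`A[w⁻¹] = cht (V ^ (d (e + 1))) (g H)` (`cht_mul`). -/
theorem Bn.away {V : Submodule ℂ L} {O A : Subalgebra ℂ L} (h : Bn V O A) {w : L} (hw : w ∈ A)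
    (hw0 : w ≠ 0) (hwO : w⁻¹ ∈ O) : Bn V O (Algebra.adjoin ℂ ((A : Set L) ∪ {w⁻¹})) := by
  obtain ⟨d, g, hd, hg, hg0, rfl, hAO⟩ := h
  obtain ⟨e, H, hH, rfl⟩ := (mem_cht_iff hg hg0 _).1 hw
  have hH0 : H ≠ 0 := by
    rintro rfl
    exact hw0 (zero_div _)
  refine ⟨d * (e + 1), g * H, Nat.mul_pos hd (Nat.succ_pos e), ?_, mul_ne_zero hg0 hH0, ?_, ?_⟩
  · rw [pow_mul, pow_succ']
    exact Submodule.mul_mem_mul hg hH
  · rw [pow_mul, cht_mul hg hg0 hH hH0]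
  · refine Algebra.adjoin_le ?_
    rintro x (hx | hx)
    · exact hAO hx
    · rw [Set.mem_singleton_iff] at hx
      rw [hx]
      exact hwO

theorem Bn.locAt {V : Submodule ℂ L} {O A : Subalgebra ℂ L} (hO : O ∈ Pts V) (h : Bn V O A) :
    LocAt A O := by
  obtain ⟨d, g, hd, hg, hg0, rfl, hAO⟩ := h
  rw [← Pts_pow V hd] at hO
  exact Pts.locAt hO hg hg0 hAO

/-- a smaller neighbourhood which contains given elements of `O` -/
theorem Bn.shrink {V : Submodule ℂ L} {O A : Subalgebra ℂ L} (hO : O ∈ Pts V) (h : Bn V O A)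
    (T : Finset L) (hT : ∀ w ∈ T, w ∈ O) : ∃ w ∈ A, w ≠ 0 ∧ w⁻¹ ∈ O ∧
      ∀ v ∈ T, v ∈ Algebra.adjoin ℂ ((A : Set L) ∪ {w⁻¹}) := by
  classical
  obtain ⟨_, _, h3⟩ := pt_locAt_iff.1 (h.locAt hO)
  induction T using Finset.induction_on with
  | empty =>
    exact ⟨1, A.one_mem, one_ne_zero, by rw [inv_one]; exact O.one_mem,
      fun v hv => absurd hv (Finset.notMem_empty v)⟩
  | insert t T _ ih =>
    obtain ⟨w, hw, hw0, hwO, hwT⟩ := ih fun v hv => hT v (Finset.mem_insert_of_mem hv)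
    obtain ⟨a, ha, b, hb, hb0, hbO, rfl⟩ := h3 t (hT t (Finset.mem_insert_self t T))
    have hbw : (w * b)⁻¹ ∈ Algebra.adjoin ℂ ((A : Set L) ∪ {(w * b)⁻¹}) :=
      Algebra.subset_adjoin (Or.inr rfl)
    have hA : A ≤ Algebra.adjoin ℂ ((A : Set L) ∪ {(w * b)⁻¹}) :=
      fun x hx => Algebra.subset_adjoin (Or.inl hx)
    refine ⟨w * b, A.mul_mem hw hb, mul_ne_zero hw0 hb0, ?_, fun v hv => ?_⟩
    · rw [mul_inv]
      exact O.mul_mem hwO hbO
    · rcases Finset.mem_insert.1 hv with rfl | hv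
      · have e : a / b = a * w * (w * b)⁻¹ := by
          field_simp
        rw [e]
        exact Subalgebra.mul_mem _ (Subalgebra.mul_mem _ (hA ha) (hA hw)) hbw
      · have hle : Algebra.adjoin ℂ ((A : Set L) ∪ {w⁻¹}) ≤
            Algebra.adjoin ℂ ((A : Set L) ∪ {(w * b)⁻¹}) := by
          refine Algebra.adjoin_le ?_
          rintro x (hx | hx)
          · exact hA hx
          · rw [Set.mem_singleton_iff] at hx
            have e : w⁻¹ = b * (w * b)⁻¹ := by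
              field_simp
            rw [hx, e]
            exact Subalgebra.mul_mem _ (hA hb) hbw
        exact hle (hwT v hv)

end Pool.Agent.KM
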