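import Pool.Agent.Lib.MP_732f67_ag.G.OrdP
import Pool.Agent.Lib.MP_732f67_ag.G.Et

/-!
The log resolution is normal; two exceptional divisors have different local equations.
-/

namespace Pool.Agent.KM

open scoped KaehlerDifferential

variable {L : Type} [Field L] [Algebra ℂ L]

/-- an element which is integral over a subalgebra is integral over a larger one -/
theorem nbh2_integral_mono {A B : Subalgebra ℂ L} (h : A ≤ B) {w : L} (hw : IsIntegral A w) :
    IsIntegral B w := by
  obtain ⟨p, hp, hpw⟩ := hw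
  refine ⟨p.map (Subalgebra.inclusion h).toRingHom, hp.map _, ?_⟩
  rw [Polynomial.eval₂_map]
  exact hpw

/-- a local ring of a subalgebra: elements which are integral over it -/
theorem nbh2_closed {A B O : Subalgebra ℂ L} (hO : LocAt A O) (hAB : A ≤ B) (hBO : B ≤ O)
    (hB : ∀ w : L, IsIntegral B w → w ∈ B) {w : L} (hw : IsIntegral O w) : w ∈ O := by
  have hle := hO.le
  obtain ⟨P, hP, h⟩ := hO
  let _ : Algebra A O := (Subalgebra.inclusion hle).toRingHom.toAlgebra
  have hmap : ∀ a : A, ((algebraMap A O a : O) : L) = a := fun _ => rfl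
  have htow : IsScalarTower A O L := IsScalarTower.of_algebraMap_eq fun _ => rfl
  have hb0 : ∀ b : A, b ∉ P → (b : L) ≠ 0 := fun b hb h0 => hb (by
    have : b = 0 := Subtype.ext h0
    rw [this]
    exact P.zero_mem)
  have hinv : ∀ b : A, b ∉ P → (b : L)⁻¹ ∈ O := fun b hb => by
    rw [h]
    exact ⟨1, b, hb, by
      change (b : L)⁻¹ = (1 : L) / b
      rw [one_div]⟩
  have hloc : IsLocalization P.primeCompl O := by
    refine ⟨?_, ?_, ?_⟩
    · rintro ⟨b, hb⟩
      rw [pt_isUnit_iff]
      exact ⟨hb0 b hb, hinv b hb⟩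
    · intro x
      obtain ⟨a, b, hb, hx⟩ := (h x).1 x.2
      refine ⟨(a, ⟨b, hb⟩), Subtype.ext ?_⟩
      change (x : L) * b = a
      rw [hx, div_mul_cancel₀ _ (hb0 b hb)]
    · intro x y hxy
      refine ⟨1, ?_⟩
      have h1 : x = y := Subtype.ext (by
        have := congrArg (fun z : O => (z : L)) hxy
        exact this)
      rw [h1]
  obtain ⟨m, hm⟩ := IsIntegral.exists_multiple_integral_of_isLocalization P.primeCompl w hw
  have h1 : (m : A) • w ∈ O := hBO (hB _ (nbh2_integral_mono hAB hm))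
  have h2 : (m : A) • w = ((m : A) : L) * w := rfl
  rw [h2] at h1
  have h3 := O.mul_mem (hinv m m.2) h1
  rwa [inv_mul_cancel_left₀ (hb0 m m.2)] at h3

variable {n s : ℕ}

/-- smooth varieties are normal -/
theorem LogRes.normal {X W : Set (Subalgebra ℂ L)} {P : Fin s → Subalgebra ℂ L}
    {E : Fin s → Subalgebra ℂ L → Lˣ} (hW : LogRes n X W P E) : Normal W := by
  intro O hO w hw
  obtain ⟨A, hA, hfr, hl, -⟩ := hW.proj.exists_chart hO
  obtain ⟨x, ⟨b, hb⟩, -⟩ := hW.snc O hO
  obtain ⟨h, -, -, hhO, y, u, hch⟩ := exists_isCh hA hfr hl (hW.smooth O hO) x b hb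
  refine nbh2_closed hl (fun a ha => Algebra.subset_adjoin (Or.inl ha)) ?_ hch.closed hw
  refine Algebra.adjoin_le ?_
  rintro a (ha | ha)
  · exact hl.le ha
  · rw [Set.mem_singleton_iff] at ha
    rw [ha]
    exact hhO

/-- two exceptional divisors do not have the same local equation at a point of them

PROOF. `E j O` and `E j' O` are not units of `O`. By normality of the smooth `W` (`O` is a local ring of a
standard étale chart, `exists_isCh`, `IsCh.closed`) and `IsProj.un_of_primDiv` there is a prime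
divisor `Q ≥ O`, `Q ∈ W`, at which `E j O` is not a unit; `E j O / E j Q` is a unit at `Q`
(`IsCar.un_of_le`), so `Q = P j` (`eqn`), and `E j' O` is not a unit at `Q` either, so
`Q = P j'`. -/
theorem LogRes.eq_of_eqn {X W : Set (Subalgebra ℂ L)} {P : Fin s → Subalgebra ℂ L}
    {E : Fin s → Subalgebra ℂ L → Lˣ} (hW : LogRes n X W P E) {O : Subalgebra ℂ L} (hO : O ∈ W)
    {j j' : Fin s} {x : L} (h : Un O (E j O / x)) (h' : Un O (E j' O / x))
    (hj : ¬ Un O (E j O)) : j = j' := by
  have hx : x ≠ 0 := fun h0 => h.1 (by rw [h0, div_zero])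
  obtain ⟨Q, hQ, hQd, hle, hQj⟩ : ∃ Q ∈ W, PrimDiv Q ∧ O ≤ Q ∧ ¬ Un Q (E j O) := by
    by_contra hcon
    push Not at hcon
    exact hj (hW.proj.un_of_primDiv hW.normal hO (E j O).ne_zero hcon)
  have key : ∀ i, ¬ Un Q (E i O) → Q = P i := by
    intro i hi
    by_contra hne
    apply hi
    have h1 := (hW.eqn i Q hQ hQd).2 hne
    have h2 := (hW.car i).un_of_le hO hQ hle
    have h3 := h2.mul h1
    rw [Units.val_div_eq_div_val, div_mul_cancel₀ _ (E i Q).ne_zero] at h3
    exact h3
  have hQj' : ¬ Un Q (E j' O) := by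
    intro hu
    apply hQj
    have h1 := (h.mono hle).mul ((h'.mono hle).inv.mul hu)
    have h2 : (E j O : L) / x * (((E j' O : L) / x)⁻¹ * (E j' O : L)) = E j O := by
      rw [inv_div, div_mul_cancel₀ _ (E j' O).ne_zero, div_mul_cancel₀ _ hx]
    rwa [h2] at h1
  exact hW.inj ((key j hQj).symm.trans (key j' hQj'))

end Pool.Agent.KM
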