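import Pool.Agent.Lib.MP_732f67_ag.G.Pol
import Pool.Agent.Lib.MP_732f67_ag.G.Et
import Pool.Agent.Lib.MP_732f67_ag.G.Nbh2
import Pool.Agent.Lib.MP_732f67_ag.G.Nbh1

/-!
Good neighbourhoods of the points of the log resolution.
-/

namespace Pool.Agent.KM

open scoped KaehlerDifferential

variable {L : Type} [Field L] [Algebra ℂ L]

variable {n s r : ℕ}

/-- `A` is a good chart of `W` -/
def Nb (X W : Set (Subalgebra ℂ L)) (cen : Subalgebra ℂ L → Subalgebra ℂ L)
    (E : Fin s → Subalgebra ℂ L → Lˣ) (M : Fin r → Subalgebra ℂ L → Lˣ) (m : ℕ)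
    (A : Subalgebra ℂ L) (x : Fin n → L) (y u : L) (co : Fin s → Option (Fin n))
    (d f f' : Fin r → L) : Prop :=
  IsCh A x y u ∧ (∀ j, ∀ Q ∈ W, A ≤ Q → Un Q (E j Q / eps x (co j))) ∧
  (∀ j j' l, co j = some l → co j' = some l → j = j') ∧
  (∀ i, d i ≠ 0) ∧ (∀ i, ∀ Q ∈ W, A ≤ Q → Un Q (M i (cen Q) / d i)) ∧
  (∀ i, f i ∈ Sec X (M i ^ m)) ∧
  (∀ i, ∀ Q ∈ W, A ≤ Q → Un Q (f i * M i (cen Q) ^ m)) ∧
  (∀ i, f' i ∈ Sec X (M i ^ (m + 1))) ∧
  ∀ i, ∀ Q ∈ W, A ≤ Q → Un Q (f' i * M i (cen Q) ^ (m + 1))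

theorem nb_frac {A O : Subalgebra ℂ L} (h : LocAt A O) (hO : FracEq O) : FracEq A := by
  intro x
  obtain ⟨p, q, hq, hx⟩ := hO x
  obtain ⟨-, -, h1⟩ := pt_locAt_iff.1 h
  obtain ⟨a, ha, b, hb, hb0, -, hp⟩ := h1 p p.2
  obtain ⟨c, hc, d, hd, hd0, -, hq'⟩ := h1 q q.2
  have hc0 : c ≠ 0 := by
    rintro rfl
    exact hq (by rw [hq', zero_div])
  refine ⟨⟨a * d, A.mul_mem ha hd⟩, ⟨b * c, A.mul_mem hb hc⟩, mul_ne_zero hb0 hc0, ?_⟩
  rw [hx, hp, hq']
  field_simp

/-- Every point of the log resolution has a good basic open neighbourhood.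

PROOF. `A0 = cht V v` with `LocAt A0 O`. `snc` gives `x`, the basis, and for every `j` either `E j O`
is a unit (`co j = none`) or `E j O / x i` is one (`co j = some i`); `co` is injective in the
sense above by `LogRes.eq_of_eqn`. `exists_isCh` gives `h` with `A1 = A0[h⁻¹]` standard étale.
Local equations: for every `j` let `S_j ⊆ O` be the finite set of `IsCar W (E j)` at `O`. On `X`:
`X = Pts VX`, `cen O` is a local ring of `BX = cht VX w`; let `S'_i ⊆ cen O` be the finite set of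
`IsCar X (M i)` at `cen O`, `f i`, `f' i` the sections given by `Semi` (`m` large) at `cen O`;
choose `b ∈ BX`, `b ≠ 0`, `b⁻¹ ∈ cen O` such that `AX = BX[b⁻¹]` contains all the `S'_i` and
the `f i * M i (cen O) ^ m`, `f' i * M i (cen O) ^ (m + 1)` and their inverses. `AX` is finitely
generated and `AX ≤ cen O ≤ O`. `Bn.shrink` gives `w ∈ A1` such that `A = A1[w⁻¹]` contains the `S_j`,
the `E j O / eps x (co j)` and their inverses, and generators of `AX`; `IsCh.away` shows that `A`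
is standard étale with the same `x`, `y`. Let `Q ∈ W`, `A ≤ Q`: `E j O / E j Q` is a unit of `Q`. And
`AX ≤ cen Q` by `Pts.le_of_dom`, so `M i (cen O) / M i (cen Q)` is a unit of `cen Q`,
hence of `Q`; `d i = M i (cen O)`. -/
theorem exists_nb {X W : Set (Subalgebra ℂ L)} {P : Fin s → Subalgebra ℂ L}
    {E : Fin s → Subalgebra ℂ L → Lˣ} (hX : IsProj X) (hW : LogRes n X W P E)
    (cen : Subalgebra ℂ L → Subalgebra ℂ L) (hc : ∀ O ∈ W, cen O ∈ X ∧ Dom (cen O) O)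
    {M : Fin r → Subalgebra ℂ L → Lˣ} (hM : ∀ i, IsCar X (M i)) {m : ℕ}
    (hm : ∀ i, Free X (M i ^ m)) (hm' : ∀ i, Free X (M i ^ (m + 1))) {V : Submodule ℂ L}
    (hV : Module.Finite ℂ V) (hWV : W = Pts V) {O : Subalgebra ℂ L} (hO : O ∈ W) :
    ∃ (d : ℕ) (g : L), 1 ≤ d ∧ g ∈ V ^ d ∧ g ≠ 0 ∧ cht (V ^ d) g ≤ O ∧
      ∃ (x : Fin n → L) (y u : L) (co : Fin s → Option (Fin n)) (δ f f' : Fin r → L),
        Nb X W cen E M m (cht (V ^ d) g) x y u co δ f f' := by
  classical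
  obtain ⟨VX, hVX, hVX0, -, hXP⟩ := id hX
  have hO' : O ∈ Pts V := hWV ▸ hO
  -- the first neighbourhood
  obtain ⟨v, A0, hv, hv0, hA0, hBn0, hloc0⟩ := exists_bn hO'
  have hA0fg : A0.FG := hA0 ▸ cht_fg hV v
  have hfr0 : FracEq A0 := nb_frac hloc0 (hW.proj.fracEq hO)
  obtain ⟨x, ⟨bb, hb⟩, hsnc⟩ := hW.snc O hO
  obtain ⟨h, hh, hh0, hhO, y, u, hch⟩ := exists_isCh hA0fg hfr0 hloc0 (hW.smooth O hO) x bb hb
  have hBn1 := hBn0.away hh hh0 hhO
  set A1 : Subalgebra ℂ L := Algebra.adjoin ℂ ((A0 : Set L) ∪ {h⁻¹}) with hA1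
  set xx : Fin n → L := fun i => (x i : L) with hxx
  -- the components
  have hco : ∀ j, ∃ c : Option (Fin n), Un O (E j O / eps xx c) ∧
      ∀ l, c = some l → ¬ Un O (E j O) := by
    intro j
    by_cases h1 : Un O (E j O)
    · refine ⟨none, ?_, fun l hl => by simp at hl⟩
      have h2 : ((E j O : Lˣ) : L) / eps xx none = E j O := div_one _
      rw [h2]
      exact h1
    · rcases hsnc j with h2 | ⟨i, hi⟩
      · exact absurd h2 h1
      · exact ⟨some i, hi, fun _ _ => h1⟩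
  choose co hco1 hco2 using hco
  have hinj : ∀ j j' l, co j = some l → co j' = some l → j = j' := by
    intro j j' l h1 h2
    have h3 := hco1 j
    have h4 := hco1 j'
    rw [h1] at h3
    rw [h2] at h4
    exact hW.eq_of_eqn hO h3 h4 (hco2 j l h1)
  choose S hS1 hS2 using fun j => hW.car j O hO
  -- on `X`
  obtain ⟨hC1, hC2⟩ := hc O hO
  set C : Subalgebra ℂ L := cen O with hC
  have hC' : C ∈ Pts VX := hXP ▸ hC1
  obtain ⟨w, BX, hw, hw0, hBX, hBnX, hlocX⟩ := exists_bn hC'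
  choose S' hS'1 hS'2 using fun i => hM i C hC1
  choose f hf1 hf2 using fun i => hm i C hC1
  choose f' hf'1 hf'2 using fun i => hm' i C hC1
  have hf3 : ∀ i, Un C (f i * (M i C : L) ^ m) := fun i => by
    have := hf2 i
    rwa [Pi.pow_apply, Units.val_pow_eq_pow_val] at this
  have hf'3 : ∀ i, Un C (f' i * (M i C : L) ^ (m + 1)) := fun i => by
    have := hf'2 i
    rwa [Pi.pow_apply, Units.val_pow_eq_pow_val] at this
  set TX : Finset L := (Finset.univ.biUnion S') ∪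
    ((Finset.univ.image fun i => f i * (M i C : L) ^ m) ∪
    ((Finset.univ.image fun i => (f i * (M i C : L) ^ m)⁻¹) ∪
    ((Finset.univ.image fun i => f' i * (M i C : L) ^ (m + 1)) ∪
    (Finset.univ.image fun i => (f' i * (M i C : L) ^ (m + 1))⁻¹)))) with hTX
  have hTX1 : ∀ t ∈ TX, t ∈ C := by
    intro t ht
    simp only [hTX, Finset.mem_union, Finset.mem_biUnion, Finset.mem_image, Finset.mem_univ,
      true_and] at ht
    rcases ht with ⟨i, hi⟩ | ⟨i, rfl⟩ | ⟨i, rfl⟩ | ⟨i, rfl⟩ | ⟨i, rfl⟩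
    · exact hS'1 i t hi
    · exact (hf3 i).2.1
    · exact (hf3 i).2.2
    · exact (hf'3 i).2.1
    · exact (hf'3 i).2.2
  obtain ⟨b, hb1, hb0, hbC, hbT⟩ := hBnX.shrink hC' TX hTX1
  have hBnA := hBnX.away hb1 hb0 hbC
  set AX : Subalgebra ℂ L := Algebra.adjoin ℂ ((BX : Set L) ∪ {b⁻¹}) with hAX
  have hBA : BX ≤ AX := fun t ht => Algebra.subset_adjoin (Or.inl ht)
  obtain ⟨dX, gX, hdX, hgX, hgX0, hAX', hAXC⟩ := hBnA
  have hAXfg : AX.FG := by
    rw [hAX']
    have : Module.Finite ℂ (VX ^ dX : Submodule ℂ L) :=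
      Module.Finite.iff_fg.2 ((Module.Finite.iff_fg.1 hVX).pow dX)
    exact cht_fg this gX
  obtain ⟨GX, hGX⟩ := hAXfg
  have hAXf : ∀ t ∈ AX, ∃ a ∈ cht VX w, ∃ c ∈ cht VX w, c ≠ 0 ∧ c⁻¹ ∈ AX ∧ t = a / c := by
    have h1 : cht VX w ≤ cht (VX ^ dX) gX := by
      rw [← hAX', ← hBX]
      exact hBA
    have h2 := frac_cht hw hw0 hgX hgX0 h1
    rwa [← hAX'] at h2
  -- the final neighbourhood
  set T : Finset L := (Finset.univ.biUnion S) ∪
    ((Finset.univ.image fun j => (E j O : L) / eps xx (co j)) ∪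
    ((Finset.univ.image fun j => ((E j O : L) / eps xx (co j))⁻¹) ∪ GX)) with hT
  have hT1 : ∀ t ∈ T, t ∈ O := by
    intro t ht
    simp only [hT, Finset.mem_union, Finset.mem_biUnion, Finset.mem_image, Finset.mem_univ,
      true_and] at ht
    rcases ht with ⟨j, hj⟩ | ⟨j, rfl⟩ | ⟨j, rfl⟩ | h1
    · exact hS1 j t hj
    · exact (hco1 j).2.1
    · exact (hco1 j).2.2
    · refine hC2.1 (hAXC ?_)
      rw [← hGX]
      exact Algebra.subset_adjoin h1
  obtain ⟨q, hq1, hq0, hqO, hqT⟩ := hBn1.shrink hO' T hT1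
  have hBn2 := hBn1.away hq1 hq0 hqO
  obtain ⟨u', hch'⟩ := hch.away hq1 hq0
  set A : Subalgebra ℂ L := Algebra.adjoin ℂ ((A1 : Set L) ∪ {q⁻¹}) with hA
  obtain ⟨d, g, hd, hg, hg0, hAg, hAO⟩ := hBn2
  have hSA : ∀ j, ∀ t ∈ S j, t ∈ A := fun j t ht => hqT t (by
    rw [hT]
    exact Finset.mem_union_left _ (Finset.mem_biUnion.2 ⟨j, Finset.mem_univ j, ht⟩))
  have hEA : ∀ j, (E j O : L) / eps xx (co j) ∈ A := fun j => hqT _ (by
    rw [hT]
    exact Finset.mem_union_right _ (Finset.mem_union_left _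
      (Finset.mem_image.2 ⟨j, Finset.mem_univ j, rfl⟩)))
  have hEA' : ∀ j, ((E j O : L) / eps xx (co j))⁻¹ ∈ A := fun j => hqT _ (by
    rw [hT]
    exact Finset.mem_union_right _ (Finset.mem_union_right _ (Finset.mem_union_left _
      (Finset.mem_image.2 ⟨j, Finset.mem_univ j, rfl⟩))))
  have hAXA : AX ≤ A := by
    rw [← hGX]
    refine Algebra.adjoin_le fun t ht => hqT t ?_
    rw [hT]
    exact Finset.mem_union_right _ (Finset.mem_union_right _ (Finset.mem_union_right _ ht))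
  have hTXA : ∀ t ∈ TX, t ∈ AX := hbT
  have hcQ : ∀ Q ∈ W, A ≤ Q → AX ≤ cen Q := by
    intro Q hQ hAQ
    obtain ⟨h1, h2⟩ := hc Q hQ
    refine Pts.le_of_dom (hXP ▸ h1) h2 hw hw0 ?_ hAXf (hAXA.trans hAQ) (hW.proj.isLocalRing hQ)
    rw [← hBX]
    exact hBA
  have hMQ : ∀ i, ∀ Q ∈ W, A ≤ Q → Un Q ((M i (cen Q) : L) / (M i C : L)) := by
    intro i Q hQ hAQ
    obtain ⟨h1, h2⟩ := hc Q hQ
    have h3 := hS'2 i (cen Q) h1 fun t ht => hcQ Q hQ hAQ (hTXA t (by
      rw [hTX]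
      exact Finset.mem_union_left _ (Finset.mem_biUnion.2 ⟨i, Finset.mem_univ i, ht⟩)))
    rw [Units.val_div_eq_div_val] at h3
    have h4 := (h3.mono h2.1).inv
    rwa [inv_div] at h4
  refine ⟨d, g, hd, hg, hg0, hAg ▸ hAO, xx, y, u', co, fun i => (M i C : L), f, f', ?_⟩
  rw [← hAg]
  refine ⟨hch', ?_, hinj, fun i => Units.ne_zero _, hMQ, hf1, ?_, hf'1, ?_⟩
  · intro j Q hQ hAQ
    have h1 : Un Q ((E j O : L) / eps xx (co j)) :=
      ⟨(hco1 j).1, hAQ (hEA j), hAQ (hEA' j)⟩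
    have h2 := hS2 j Q hQ fun t ht => hAQ (hSA j t ht)
    rw [Units.val_div_eq_div_val] at h2
    have h3 := h1.div h2
    have h4 : (E j O : L) / eps xx (co j) / ((E j O : L) / (E j Q : L)) =
        (E j Q : L) / eps xx (co j) := by
      have h5 : (E j O : L) ≠ 0 := Units.ne_zero _
      have h6 : (E j Q : L) ≠ 0 := Units.ne_zero _
      have h7 : eps xx (co j) ≠ 0 := by
        intro h8
        have := (hco1 j).1
        rw [h8, div_zero] at this
        exact this rfl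
      field_simp
    rwa [h4] at h3
  · intro i Q hQ hAQ
    have h1 : Un Q (f i * (M i C : L) ^ m) := by
      refine ⟨(hf3 i).1, hAQ (hAXA (hTXA _ ?_)), hAQ (hAXA (hTXA _ ?_))⟩
      · rw [hTX]
        exact Finset.mem_union_right _ (Finset.mem_union_left _
          (Finset.mem_image.2 ⟨i, Finset.mem_univ i, rfl⟩))
      · rw [hTX]
        exact Finset.mem_union_right _ (Finset.mem_union_right _ (Finset.mem_union_left _
          (Finset.mem_image.2 ⟨i, Finset.mem_univ i, rfl⟩)))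
    have h2 := h1.mul ((hMQ i Q hQ hAQ).pow m)
    have h3 : f i * (M i C : L) ^ m * ((M i (cen Q) : L) / (M i C : L)) ^ m =
        f i * (M i (cen Q) : L) ^ m := by
      have h5 : (M i C : L) ≠ 0 := Units.ne_zero _
      rw [div_pow]
      field_simp
    rwa [h3] at h2
  · intro i Q hQ hAQ
    have h1 : Un Q (f' i * (M i C : L) ^ (m + 1)) := by
      refine ⟨(hf'3 i).1, hAQ (hAXA (hTXA _ ?_)), hAQ (hAXA (hTXA _ ?_))⟩
      · rw [hTX]
        exact Finset.mem_union_right _ (Finset.mem_union_right _ (Finset.mem_union_right _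
          (Finset.mem_union_left _ (Finset.mem_image.2 ⟨i, Finset.mem_univ i, rfl⟩))))
      · rw [hTX]
        exact Finset.mem_union_right _ (Finset.mem_union_right _ (Finset.mem_union_right _
          (Finset.mem_union_right _ (Finset.mem_image.2 ⟨i, Finset.mem_univ i, rfl⟩))))
    have h2 := h1.mul ((hMQ i Q hQ hAQ).pow (m + 1))
    have h3 : f' i * (M i C : L) ^ (m + 1) * ((M i (cen Q) : L) / (M i C : L)) ^ (m + 1) =
        f' i * (M i (cen Q) : L) ^ (m + 1) := by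
      have h5 : (M i C : L) ≠ 0 := Units.ne_zero _
      rw [div_pow]
      field_simp
    rwa [h3] at h2

end Pool.Agent.KM
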