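import Pool.Agent.Lib.MP_732f67_ag.G.VA

/-!
The polarization of the log resolution: `- a q' K_X - b Θ` is very ample, with `a / b` large.
-/

namespace Pool.Agent.KM

variable {L : Type*} [Field L] [Algebra ℂ L]

/-- centers on `X` -/
theorem LogRes.exists_cen {n s : ℕ} {X W : Set (Subalgebra ℂ L)} {P : Fin s → Subalgebra ℂ L}
    {E : Fin s → Subalgebra ℂ L → Lˣ} (hW : LogRes n X W P E) :
    ∃ cen : Subalgebra ℂ L → Subalgebra ℂ L, ∀ O ∈ W, cen O ∈ X ∧ Dom (cen O) O := by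
  classical
  have h : ∀ O, ∃ O', O ∈ W → O' ∈ X ∧ Dom O' O := fun O => by
    by_cases hO : O ∈ W
    · obtain ⟨O', h1, h2⟩ := hW.dom O hO
      exact ⟨O', fun _ => ⟨h1, h2⟩⟩
    · exact ⟨O, fun h => absurd h hO⟩
  choose f hf using h
  exact ⟨f, hf⟩

theorem pol_group {G : Type*} [CommGroup G] (p q x y : G) :
    p / q * (x⁻¹ / y) / (x * q)⁻¹ = p / y := by
  rw [div_inv_eq_mul, div_eq_mul_inv, div_eq_mul_inv, div_eq_mul_inv]
  calc p * q⁻¹ * (x⁻¹ * y⁻¹) * (x * q) = p * y⁻¹ * (x⁻¹ * x) * (q⁻¹ * q) := by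
        simp only [mul_assoc, mul_comm, mul_left_comm]
    _ = p * y⁻¹ := by
        rw [inv_mul_cancel, inv_mul_cancel, mul_one, mul_one]

section car

variable {k K : Type*} [Field k] [Field K] [Algebra k K]

theorem pol_car_mul {X : Set (Subalgebra k K)} {D D' : Subalgebra k K → Kˣ} (h : IsCar X D)
    (h' : IsCar X D') : IsCar X (D * D') := by
  classical
  intro O hO
  obtain ⟨S, h1, h2⟩ := h O hO
  obtain ⟨S', h1', h2'⟩ := h' O hO
  refine ⟨S ∪ S', fun s hs => ?_, fun O' hO' hs => ?_⟩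
  · rcases Finset.mem_union.1 hs with hs | hs
    · exact h1 s hs
    · exact h1' s hs
  · have e1 := h2 O' hO' fun s hs' => hs s (Finset.mem_union_left _ hs')
    have e2 := h2' O' hO' fun s hs' => hs s (Finset.mem_union_right _ hs')
    have e3 := e1.mul e2
    rw [← Units.val_mul, div_mul_div_comm] at e3
    exact e3

theorem pol_car_inv {X : Set (Subalgebra k K)} {D : Subalgebra k K → Kˣ} (h : IsCar X D) :
    IsCar X D⁻¹ := by
  intro O hO
  obtain ⟨S, h1, h2⟩ := h O hO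
  refine ⟨S, h1, fun O' hO' hs => ?_⟩
  have e1 := (h2 O' hO' hs).inv
  have e2 : ((D⁻¹ O / D⁻¹ O' : Kˣ) : K) = ((D O / D O' : Kˣ) : K)⁻¹ := by
    rw [← Units.val_inv_eq_inv_val, Pi.inv_apply, Pi.inv_apply, inv_div, inv_div_inv]
  rw [e2]
  exact e1

theorem pol_car_one (X : Set (Subalgebra k K)) : IsCar X (1 : Subalgebra k K → Kˣ) := by
  intro O _
  refine ⟨∅, fun s hs => absurd hs (Finset.notMem_empty s), fun O' _ _ => ?_⟩
  rw [Pi.one_apply, Pi.one_apply, div_one, Units.val_one]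
  exact Un.one O'

theorem pol_car_pow {X : Set (Subalgebra k K)} {D : Subalgebra k K → Kˣ} (h : IsCar X D) (m : ℕ) :
    IsCar X (D ^ m) := by
  induction m with
  | zero =>
    rw [pow_zero]
    exact pol_car_one X
  | succ m ih =>
    rw [pow_succ]
    exact pol_car_mul ih h

theorem pol_car_congr {X : Set (Subalgebra k K)} {D D' : Subalgebra k K → Kˣ} (h : IsCar X D)
    (hD : ∀ O ∈ X, Un O (D' O / D O : Kˣ)) : IsCar X D' := by
  classical
  intro O hO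
  obtain ⟨S, h1, h2⟩ := h O hO
  have hu := hD O hO
  refine ⟨S ∪ {((D' O / D O : Kˣ) : K), ((D' O / D O : Kˣ) : K)⁻¹}, fun s hs => ?_,
    fun O' hO' hs => ?_⟩
  · rcases Finset.mem_union.1 hs with hs | hs
    · exact h1 s hs
    · rcases Finset.mem_insert.1 hs with hs | hs
      · rw [hs]
        exact hu.2.1
      · rw [Finset.mem_singleton.1 hs]
        exact hu.2.2
  · have e1 := h2 O' hO' fun s hs' => hs s (Finset.mem_union_left _ hs')
    have e2 : Un O' ((D' O / D O : Kˣ) : K) := ⟨hu.1,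
      hs _ (Finset.mem_union_right _ (Finset.mem_insert_self _ _)),
      hs _ (Finset.mem_union_right _ (Finset.mem_insert_of_mem (Finset.mem_singleton_self _)))⟩
    have e3 := (e1.mul e2).mul (hD O' hO').inv
    have e4 : ((D' O / D' O' : Kˣ) : K) = ((D O / D O' : Kˣ) : K) * ((D' O / D O : Kˣ) : K) *
        ((D' O' / D O' : Kˣ) : K)⁻¹ := by
      rw [Units.val_div_eq_div_val, Units.val_div_eq_div_val, Units.val_div_eq_div_val,
        Units.val_div_eq_div_val]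
      have h3 := (D O).ne_zero
      have h4 := (D O').ne_zero
      have h5 := (D' O').ne_zero
      field_simp
    rw [e4]
    exact e3

/-- the pull back of a Cartier divisor is Cartier -/
theorem pol_car_pull {X W : Set (Subalgebra k K)} {D : Subalgebra k K → Kˣ} (hX : IsProj X)
    (h : IsCar X D) (cen : Subalgebra k K → Subalgebra k K)
    (hc : ∀ O ∈ W, cen O ∈ X ∧ Dom (cen O) O) (hW : ∀ O ∈ W, IsLocalRing O) :
    IsCar W (fun O => D (cen O)) := by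
  classical
  intro O hO
  obtain ⟨hcX, hcO⟩ := hc O hO
  obtain ⟨S, hS, hS'⟩ := h _ hcX
  obtain ⟨V, hV, -, -, hXV⟩ := hX
  have hc1 := hcX
  rw [hXV] at hc1
  obtain ⟨v, hv, hv0, hl⟩ := hc1
  obtain ⟨G, hG⟩ := cht_fg hV v
  obtain ⟨hle, -, hfr⟩ := pt_locAt_iff.1 hl
  have h1 : ∀ s : K, ∃ a b : K, s ∈ S → a ∈ cht V v ∧ b ∈ cht V v ∧ b ≠ 0 ∧ b⁻¹ ∈ cen O ∧
      s = a / b := by
    intro s
    by_cases hs : s ∈ S
    · obtain ⟨a, ha, b, hb, hb0, hbO, hab⟩ := hfr s (hS s hs)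
      exact ⟨a, b, fun _ => ⟨ha, hb, hb0, hbO, hab⟩⟩
    · exact ⟨0, 0, fun h => absurd h hs⟩
  choose a b hab using h1
  refine ⟨G ∪ S.image fun s => (b s)⁻¹, fun s hs => ?_, fun Q hQ hs => ?_⟩
  · rcases Finset.mem_union.1 hs with hs | hs
    · refine hcO.1 (hle ?_)
      rw [← hG]
      exact Algebra.subset_adjoin hs
    · obtain ⟨s', hs', rfl⟩ := Finset.mem_image.1 hs
      exact hcO.1 (hab s' hs').2.2.2.1
  · have hAQ : cht V v ≤ Q := by
      rw [← hG]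
      exact Algebra.adjoin_le fun x hx => hs x (Finset.mem_union_left _ hx)
    obtain ⟨hQX, hQc⟩ := hc Q hQ
    have h2 : cen Q = locOf (cht V v) Q hAQ := by
      have hQX' := hQX
      rw [hXV] at hQX'
      exact Pts.eq_of_dom hQX' ⟨v, hv, hv0, locAt_locOf hAQ (hW Q hQ)⟩ hQc (dom_locOf hAQ)
    have h3 : ∀ s ∈ S, s ∈ cen Q := by
      intro s hs'
      rw [h2]
      obtain ⟨ha, hb, hb0, hbO, hab'⟩ := hab s hs'
      exact ⟨a s, ha, b s, hb, hb0, hs _ (Finset.mem_union_right _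
        (Finset.mem_image.2 ⟨s, hs', rfl⟩)), hab'⟩
    exact (hS' _ hQX h3).mono hQc.1

end car

/-- PROOF. `m1`: `Free X (κ⁻¹ ^ m1)`, `X = Pts (Sec X (κ⁻¹ ^ m1))`; `exists_va` gives `V1`. `m2`: `B / Θ` on
`W`; `exists_va` gives `V2`. `exists_bf_sub` for `κ⁻¹ ^ m1` and `A ^ m2` gives `d`, `r0`; choose
`r ≥ r0`, a multiple of `q'` with `m1 d r = a q'` and `K m2 ≤ a`. The pull back of the base
point free system of `κ⁻¹ ^ (m1 d r) / A ^ m2` (`BF.pull`) times `V2` is very ample (`VA.mul`), and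
`B O / A (cen O)` is a unit (`BF.congr`). `b = m2`. -/
theorem exists_pol {n s : ℕ} {X W : Set (Subalgebra ℂ L)} {D : Fin n → Derivation ℂ L L} {m : ℕ}
    {κ : Subalgebra ℂ L → Lˣ} (hX : KltFano X D m κ) {A B Θ : Subalgebra ℂ L → Lˣ}
    (hA : IsCar X A) (hΘ : IsCar W Θ) (hW : IsProj W)
    (hB : ∀ O ∈ W, ∀ O' ∈ X, Dom O' O → Un O (B O / A O' : Lˣ))
    (hBΘ : Ample W (B / Θ)) (cen : Subalgebra ℂ L → Subalgebra ℂ L)
    (hc : ∀ O ∈ W, cen O ∈ X ∧ Dom (cen O) O) (q' : ℕ) (hq : 1 ≤ q') (K : ℕ) :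
    ∃ (a b : ℕ) (V : Submodule ℂ L), 1 ≤ a ∧ 1 ≤ b ∧ K * b ≤ a ∧
      VA W (fun O => (κ (cen O) ^ (a * q') * Θ O ^ b)⁻¹) V := by
  obtain ⟨m1, hm1, hF1, hP1⟩ := hX.fano
  obtain ⟨m2, hm2, hF2, hP2⟩ := hBΘ
  have hκ : IsCar X (κ⁻¹ ^ m1) := pol_car_pow (pol_car_inv hX.can.1) m1
  obtain ⟨V1, hV1⟩ := exists_va hX.proj hκ hF1 hP1
  have hBc : IsCar W B := pol_car_congr (pol_car_pull hX.proj hA cen hc fun O hO => hW.isLocalRing hO)
    fun O hO => hB O hO _ (hc O hO).1 (hc O hO).2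
  have hBT : IsCar W ((B / Θ) ^ m2) := by
    rw [div_eq_mul_inv]
    exact pol_car_pow (pol_car_mul hBc (pol_car_inv hΘ)) m2
  obtain ⟨V2, hV2⟩ := exists_va hW hBT hF2 hP2
  obtain ⟨d, r0, hd, hbf⟩ := exists_bf_sub hX.proj hV1 (pol_car_pow hA m2)
  obtain ⟨t, ht1, ht2, ht3⟩ : ∃ t : ℕ, r0 ≤ t ∧ K * m2 ≤ t ∧ 1 ≤ t :=
    ⟨r0 + K * m2 + 1, by omega, by omega, by omega⟩
  obtain ⟨V', hV'⟩ := hbf (q' * t) (ht1.trans (Nat.le_mul_of_pos_left _ hq))
  have hat : t ≤ m1 * d * t := Nat.le_mul_of_pos_left _ (Nat.mul_pos hm1 hd)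
  refine ⟨m1 * d * t, m2, V2 * V', ht3.trans hat, hm2, ht2.trans hat, ?_⟩
  have h1 := VA.mul hW hV2 (hV'.pull cen hc)
  refine ⟨h1.toBF.congr fun O hO => ?_, h1.eq⟩
  have h2 := (hB O hO _ (hc O hO).1 (hc O hO).2).pow m2
  rw [← Units.val_pow_eq_pow_val] at h2
  have h3 : ((B / Θ) ^ m2 * fun O => ((κ⁻¹ ^ m1) ^ (d * (q' * t)) / A ^ m2) (cen O)) O /
      (κ (cen O) ^ (m1 * d * t * q') * Θ O ^ m2)⁻¹ = (B O / A (cen O)) ^ m2 := by
    simp only [Pi.mul_apply, Pi.pow_apply, Pi.div_apply, Pi.inv_apply]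
    have e : (κ (cen O) ^ (m1 * d * t * q')) = (κ (cen O) ^ m1) ^ (d * (q' * t)) := by
      rw [← pow_mul]
      congr 1
      ring
    rw [e, inv_pow, inv_pow, div_pow, div_pow]
    exact pol_group _ _ _ _
  rw [h3]
  exact h2

end Pool.Agent.KM
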