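import Pool.Agent.Lib.MP_732f67_ag.G.Nbh

/-!
The preliminary atlas of the log resolution: finitely many good charts `z (σ a) ≠ 0`.
-/

namespace Pool.Agent.KM

variable {L : Type} [Field L] [Algebra ℂ L] {n s r : ℕ}

/-- finitely many good charts; `z` is a very ample system of sections of the divisor `DD` -/
structure Pre (n : ℕ) (X W : Set (Subalgebra ℂ L)) (cen : Subalgebra ℂ L → Subalgebra ℂ L)
    (E : Fin s → Subalgebra ℂ L → Lˣ) (M : Fin r → Subalgebra ℂ L → Lˣ) (m : ℕ)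
    (DD : Subalgebra ℂ L → Lˣ) where
  N : ℕ
  k : ℕ
  z : Fin N → L
  σ : Fin k → Fin N
  x : Fin k → Fin n → L
  y : Fin k → L
  u : Fin k → L
  co : Fin k → Fin s → Option (Fin n)
  d : Fin k → Fin r → L
  f : Fin k → Fin r → L
  f' : Fin k → Fin r → L
  z_ne : ∀ j, z j ≠ 0
  cov : ∃ M : ℕ, ∀ j, z j ^ (M + 1) ∈
    Submodule.span ℂ (Set.range fun a => z (σ a)) * (Submodule.span ℂ (Set.range z)) ^ M
  va : VA W DD (Submodule.span ℂ (Set.range z))
  nb : ∀ a, Nb X W cen E M m (chA z (σ a)) (x a) (y a) (u a) (co a) (d a) (f a) (f' a)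

/-- PROOF. Choose a finite non-empty spanning family `z0` of `V` of non-zero elements; `exists_cover` with
`P d g` = the conclusion of `exists_nb` for `cht (V ^ d) g`. `z' (σ a) = g ^ r` with `g ∈ V ^ e`,
`d = e r`, and `chA z' (σ a) = cht (V ^ (e r)) (g ^ r) = cht (V ^ e) g` (`cht_span`, `cht_pow`);
`VA.pow`. -/
theorem exists_pre {X W : Set (Subalgebra ℂ L)} {P : Fin s → Subalgebra ℂ L}
    {E : Fin s → Subalgebra ℂ L → Lˣ} (hX : IsProj X) (hW : LogRes n X W P E)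
    (cen : Subalgebra ℂ L → Subalgebra ℂ L) (hc : ∀ O ∈ W, cen O ∈ X ∧ Dom (cen O) O)
    {M : Fin r → Subalgebra ℂ L → Lˣ} (hM : ∀ i, IsCar X (M i)) {m : ℕ}
    (hm : ∀ i, Free X (M i ^ m)) (hm' : ∀ i, Free X (M i ^ (m + 1))) {V : Submodule ℂ L}
    {DD : Subalgebra ℂ L → Lˣ} (hV : VA W DD V) :
    ∃ d : ℕ, 1 ≤ d ∧ Nonempty (Pre n X W cen E M m (DD ^ d)) := by
  classical
  have hVf := hV.fin
  have hspan : Submodule.span ℂ (Set.range fun i => ((Module.finBasis ℂ V i : V) : L)) = V := by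
    have h1 := congrArg (Submodule.map V.subtype) (Module.finBasis ℂ V).span_eq
    rw [Submodule.map_span, ← Set.range_comp, Submodule.map_subtype_top] at h1
    exact h1
  have hz : ∀ i, ((Module.finBasis ℂ V i : V) : L) ≠ 0 := fun i h0 =>
    (Module.finBasis ℂ V).ne_zero i (Subtype.ext h0)
  rcases Nat.eq_zero_or_pos (Module.finrank ℂ V) with hN | hN
  · have hV0 : V = ⊥ := Submodule.finrank_eq_zero.1 hN
    refine ⟨1, le_rfl, ⟨{
      N := 0
      k := 0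
      z := fun i => i.elim0
      σ := fun i => i.elim0
      x := fun i => i.elim0
      y := fun i => i.elim0
      u := fun i => i.elim0
      co := fun i => i.elim0
      d := fun i => i.elim0
      f := fun i => i.elim0
      f' := fun i => i.elim0
      z_ne := fun i => i.elim0
      cov := ⟨0, fun i => i.elim0⟩
      va := ?_
      nb := fun i => i.elim0 }⟩⟩
    rw [Set.range_eq_empty, Submodule.span_empty, pow_one, ← hV0]
    exact hV
  obtain ⟨d, N', K, z, σ, hd, hz0, hs, hM, hP⟩ := exists_cover (k := ℂ) hN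
    (fun i => ((Module.finBasis ℂ V i : V) : L)) hz
    (fun e g => ∃ (x : Fin n → L) (y u : L) (co : Fin s → Option (Fin n)) (δ f f' : Fin r → L),
      Nb X W cen E M m (cht (V ^ e) g) x y u co δ f f') (by
      rw [hspan]
      intro O hO
      exact exists_nb hX hW cen hc hM hm hm' hV.fin hV.eq (by
        rw [hV.eq]
        exact hO))
  rw [hspan] at hs hP
  have hnb : ∀ a, ∃ (x : Fin n → L) (y u : L) (co : Fin s → Option (Fin n))
      (δ f f' : Fin r → L), Nb X W cen E M m (chA z (σ a)) x y u co δ f f' := by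
    intro a
    obtain ⟨e, r', g, hr, he, hder, hzg, hg, hnb⟩ := hP a
    have hg0 : g ≠ 0 := by
      rintro rfl
      rw [zero_pow (by omega)] at hzg
      exact hz0 _ hzg
    have h1 : chA z (σ a) = cht (V ^ e) g := by
      rw [← cht_pow hr hg hg0, ← hder, ← hzg, ← hs, cht_span]
      rfl
    rw [h1]
    exact hnb
  choose x y u co δ f f' hnb using hnb
  exact ⟨d, hd, ⟨{
      N := N'
      k := K
      z := z
      σ := σ
      x := x
      y := y
      u := u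
      co := co
      d := δ
      f := f
      f' := f'
      z_ne := hz0
      cov := hM
      va := by
        rw [hs]
        exact VA.pow hW.proj hV hd
      nb := hnb }⟩⟩

namespace Pre

variable {X W : Set (Subalgebra ℂ L)} {cen : Subalgebra ℂ L → Subalgebra ℂ L}
  {E : Fin s → Subalgebra ℂ L → Lˣ} {M : Fin r → Subalgebra ℂ L → Lˣ} {m : ℕ}
  {DD : Subalgebra ℂ L → Lˣ} (Y : Pre n X W cen E M m DD)

/-- the ring of the chart -/
def A (a : Fin Y.k) : Subalgebra ℂ L := chA Y.z (Y.σ a)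

theorem A_eq (a : Fin Y.k) :
    Y.A a = cht (Submodule.span ℂ (Set.range Y.z)) (Y.z (Y.σ a)) := (cht_span _ _).symm

theorem z_mem (j : Fin Y.N) : Y.z j ∈ Submodule.span ℂ (Set.range Y.z) :=
  Submodule.subset_span ⟨j, rfl⟩

/-- the local rings of a chart are points of `W`, and conversely -/
theorem locAt_iff (_hW : IsProj W) (a : Fin Y.k) (Q : Subalgebra ℂ L) :
    LocAt (Y.A a) Q ↔ Q ∈ W ∧ Y.A a ≤ Q := by
  have hV := Y.va.eq
  constructor
  · intro h
    refine ⟨?_, h.le⟩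
    rw [hV]
    rw [A_eq] at h
    exact ⟨_, Y.z_mem _, Y.z_ne _, h⟩
  · rintro ⟨h1, h2⟩
    rw [hV] at h1
    rw [A_eq] at h2 ⊢
    exact Pts.locAt h1 (Y.z_mem _) (Y.z_ne _) h2

/-- the maximal ideal, as a space -/
theorem exists_max {O : Subalgebra ℂ L} (hO : IsLocalRing O) : ∃ I : Submodule ℂ L,
    (∀ x, x ∈ I ↔ x ∈ O ∧ ¬ Un O x) ∧ ∀ x ∈ I, ∀ y ∈ O, x * y ∈ I := by
  have key : ∀ x : L, (x ∈ O ∧ ¬ Un O x) ↔
      ∃ h : x ∈ O, (⟨x, h⟩ : O) ∈ IsLocalRing.maximalIdeal O := by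
    intro x
    constructor
    · rintro ⟨h, hu⟩
      refine ⟨h, ?_⟩
      rw [IsLocalRing.mem_maximalIdeal, mem_nonunits_iff, pt_isUnit_iff]
      rintro ⟨h0, h1⟩
      exact hu ⟨h0, h, h1⟩
    · rintro ⟨h, hm⟩
      rw [IsLocalRing.mem_maximalIdeal, mem_nonunits_iff, pt_isUnit_iff] at hm
      exact ⟨h, fun hu => hm ⟨hu.1, hu.2.2⟩⟩
  refine ⟨{ carrier := {x | x ∈ O ∧ ¬ Un O x}
            zero_mem' := ⟨O.zero_mem, fun h => h.1 rfl⟩
            add_mem' := ?_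
            smul_mem' := ?_ }, fun x => Iff.rfl, ?_⟩
  · intro x y hx hy
    obtain ⟨h1, h1'⟩ := (key x).1 hx
    obtain ⟨h2, h2'⟩ := (key y).1 hy
    exact (key _).2 ⟨O.add_mem h1 h2, Ideal.add_mem _ h1' h2'⟩
  · intro c x hx
    obtain ⟨h1, h1'⟩ := (key x).1 hx
    refine (key _).2 ⟨O.smul_mem h1 c, ?_⟩
    have h3 := Ideal.mul_mem_left (IsLocalRing.maximalIdeal O) (algebraMap ℂ O c) h1'
    have h4 : (⟨c • x, O.smul_mem h1 c⟩ : O) = algebraMap ℂ O c * ⟨x, h1⟩ := by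
      apply Subtype.ext
      exact Algebra.smul_def c x
    rw [h4]
    exact h3
  · intro x hx y hy
    obtain ⟨h1, h1'⟩ := (key x).1 hx
    exact (key _).2 ⟨O.mul_mem h1 hy, Ideal.mul_mem_right ⟨y, hy⟩ _ h1'⟩

/-- every point is on a chart -/
theorem exists_le (hW : IsProj W) {Q : Subalgebra ℂ L} (hQ : Q ∈ W) : ∃ a, Y.A a ≤ Q := by
  by_contra hcon
  push Not at hcon
  have hb := Y.va.toBF
  obtain ⟨I, hI, hI'⟩ := exists_max (hW.isLocalRing hQ)
  have h1 : ∀ w ∈ Submodule.span ℂ (Set.range fun a => Y.z (Y.σ a)), w * (DD Q : L) ∈ I := by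
    intro w hw
    induction hw using Submodule.span_induction with
    | mem w hw =>
      obtain ⟨a, rfl⟩ := hw
      refine (hI _).2 ⟨hb.sec (Y.z_mem _) Q hQ, fun hu => hcon a ?_⟩
      rw [A_eq]
      exact hb.cht_le hQ (Y.z_mem _) hu
    | zero =>
      rw [zero_mul]
      exact I.zero_mem
    | add x y _ _ hx hy =>
      rw [add_mul]
      exact I.add_mem hx hy
    | smul c x _ hx =>
      rw [smul_mul_assoc]
      exact I.smul_mem c hx
  obtain ⟨M', hM'⟩ := Y.cov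
  have h2 : ∀ w ∈ Submodule.span ℂ (Set.range fun a => Y.z (Y.σ a)) *
      (Submodule.span ℂ (Set.range Y.z)) ^ M', w * (DD Q : L) ^ (M' + 1) ∈ I := by
    intro w hw
    refine Submodule.mul_induction_on hw ?_ ?_
    · intro f hf g hg
      have h3 := (hb.pow M').sec hg Q hQ
      rw [Pi.pow_apply, Units.val_pow_eq_pow_val] at h3
      have h4 := hI' _ (h1 f hf) _ h3
      have h5 : f * (DD Q : L) * (g * (DD Q : L) ^ M') = f * g * (DD Q : L) ^ (M' + 1) := by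
        ring
      rwa [h5] at h4
    · intro x y hx hy
      rw [add_mul]
      exact I.add_mem hx hy
  have h3 : ∀ w ∈ Submodule.span ℂ (Set.range Y.z), w * (DD Q : L) ∈ I := by
    intro w hw
    induction hw using Submodule.span_induction with
    | mem w hw =>
      obtain ⟨j, rfl⟩ := hw
      refine (hI _).2 ⟨hb.sec (Y.z_mem _) Q hQ, fun hu => ?_⟩
      have h4 := h2 _ (hM' j)
      rw [← mul_pow, hI] at h4
      exact h4.2 (hu.pow _)
    | zero =>
      rw [zero_mul]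
      exact I.zero_mem
    | add x y _ _ hx hy =>
      rw [add_mul]
      exact I.add_mem hx hy
    | smul c x _ hx =>
      rw [smul_mul_assoc]
      exact I.smul_mem c hx
  obtain ⟨f, hf, hu⟩ := hb.gen Q hQ
  exact ((hI _).1 (h3 f hf)).2 hu

/-- an element of all the points of the intersection of two charts belongs to the ring of the
intersection

PROOF. A local ring `Q` of `A a ⊔ A b` at a prime ideal contains `A a`, so it has the center
`Q' = locOf (A a) Q ∈ W`, which is also the center on the chart `b`; so `A a ⊔ A b ≤ Q'`, and `Q = Q'`.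
Then `mem_of_locAt`. -/
theorem mem_sup (hW : IsProj W) (a b : Fin Y.k) {w : L}
    (h : ∀ Q ∈ W, Y.A a ≤ Q → Y.A b ≤ Q → w ∈ Q) : w ∈ Y.A a ⊔ Y.A b := by
  refine mem_of_locAt fun P hP => ?_
  have hl := hP.isLocalRing
  have ha : Y.A a ≤ P := le_sup_left.trans hP.le
  have hb : Y.A b ≤ P := le_sup_right.trans hP.le
  obtain ⟨h1, h2⟩ := (Y.locAt_iff hW a _).1 (locAt_locOf ha hl)
  obtain ⟨h1', h2'⟩ := (Y.locAt_iff hW b _).1 (locAt_locOf hb hl)
  have h3 := hW.eq_of_dom h1 h1' (dom_locOf ha) (dom_locOf hb)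
  refine (dom_locOf ha).1 (h _ h1 h2 ?_)
  rw [h3]
  exact h2'

/-- an element of all the points of a chart belongs to its ring -/
theorem mem_A (hW : IsProj W) (a : Fin Y.k) {w : L} (h : ∀ Q ∈ W, Y.A a ≤ Q → w ∈ Q) :
    w ∈ Y.A a := by
  refine mem_of_locAt fun P hP => ?_
  obtain ⟨h1, h2⟩ := (Y.locAt_iff hW a _).1 hP
  exact h _ h1 h2

theorem exists_pt (hW : IsProj W) (a : Fin Y.k) : ∃ Q ∈ W, Y.A a ≤ Q := by
  have h : IsLocalRing (⊤ : Subalgebra ℂ L) :=
    IsLocalRing.of_surjective' (Subalgebra.topEquiv (R := ℂ) (A := L)).symm.toRingHom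
      (Subalgebra.topEquiv (R := ℂ) (A := L)).symm.surjective
  obtain ⟨h1, h2⟩ := (Y.locAt_iff hW a _).1 (locAt_locOf (le_top : Y.A a ≤ ⊤) h)
  exact ⟨_, h1, h2⟩

/-- an element which is a unit at all points of a chart is a unit of its ring -/
theorem un_of_pt (hW : IsProj W) (a : Fin Y.k) {w : L} (h : ∀ Q ∈ W, Y.A a ≤ Q → Un Q w) :
    Un (Y.A a) w := by
  obtain ⟨Q, hQ, hQ'⟩ := Y.exists_pt hW a
  exact ⟨(h Q hQ hQ').1, Y.mem_A hW a fun Q hQ hQ' => (h Q hQ hQ').2.1,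
    Y.mem_A hW a fun Q hQ hQ' => (h Q hQ hQ').2.2⟩

theorem A_fg (a : Fin Y.k) : (Y.A a).FG := by
  rw [A_eq]
  exact cht_fg Y.va.fin _

theorem isCh (a : Fin Y.k) : IsCh (Y.A a) (Y.x a) (Y.y a) (Y.u a) := (Y.nb a).1

theorem fracEq (a : Fin Y.k) : FracEq (Y.A a) := by
  have h := Y.isCh a
  have hle : Algebra.adjoin ℂ (Set.range (Y.x a) ∪ {Y.y a}) ≤ Y.A a := by
    rw [h.A_eq]
    refine Algebra.adjoin_mono (Set.union_subset_union_right _ ?_)
    intro z hz
    exact Or.inl hz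
  intro w
  obtain ⟨b, hb, c, hc, hc0, hw⟩ := h.gen w
  exact ⟨⟨b, hle hb⟩, ⟨c, hle hc⟩, hc0, hw⟩

/-- a unit at all prime divisors of a chart is a unit of its ring -/
theorem un_A (hW : IsProj W) (a : Fin Y.k) {w : L} (hw : w ≠ 0)
    (h : ∀ Q ∈ W, PrimDiv Q → Y.A a ≤ Q → Un Q w) : Un (Y.A a) w := by
  refine un_of_primDiv (Y.A_fg a) (Y.fracEq a) (Y.isCh a).closed hw fun P hP hP' => ?_
  obtain ⟨h1, h2⟩ := (Y.locAt_iff hW a _).1 hP
  exact h P h1 hP' h2

theorem mem_A_of_primDiv (hW : IsProj W) (a : Fin Y.k) {w : L}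
    (h : ∀ Q ∈ W, PrimDiv Q → Y.A a ≤ Q → w ∈ Q) : w ∈ Y.A a := by
  refine mem_of_primDiv (Y.A_fg a) (Y.fracEq a) (Y.isCh a).closed fun P hP hP' => ?_
  obtain ⟨h1, h2⟩ := (Y.locAt_iff hW a _).1 hP
  exact h P h1 hP' h2

/-- the transition functions of the exceptional divisors -/
theorem ε_trans (hW : IsProj W) (a b : Fin Y.k) (j : Fin s) :
    eps (Y.x a) (Y.co a j) / eps (Y.x b) (Y.co b j) ∈ Y.A a ⊔ Y.A b := by
  refine Y.mem_sup hW a b fun Q hQ ha hb => ?_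
  have h1 := (Y.nb a).2.1 j Q hQ ha
  have h2 := (Y.nb b).2.1 j Q hQ hb
  have h3 := h2.div h1
  have h4 : (E j Q : L) / eps (Y.x b) (Y.co b j) / ((E j Q : L) / eps (Y.x a) (Y.co a j)) =
      eps (Y.x a) (Y.co a j) / eps (Y.x b) (Y.co b j) := by
    have h5 := (E j Q).ne_zero
    rw [div_div_div_cancel_left' _ _ h5]
  rw [← h4]
  exact h3.2.1

/-- the transition functions of the divisors `M i` -/
theorem d_trans (hW : IsProj W) (a b : Fin Y.k) (i : Fin r) :
    Y.d a i / Y.d b i ∈ Y.A a ⊔ Y.A b := by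
  refine Y.mem_sup hW a b fun Q hQ ha hb => ?_
  have h1 := (Y.nb a).2.2.2.2.1 i Q hQ ha
  have h2 := (Y.nb b).2.2.2.2.1 i Q hQ hb
  have h3 := h2.div h1
  have h4 : (M i (cen Q) : L) / Y.d b i / ((M i (cen Q) : L) / Y.d a i) =
      Y.d a i / Y.d b i := by
    rw [div_div_div_cancel_left' _ _ (M i (cen Q)).ne_zero]
  rw [← h4]
  exact h3.2.1

theorem d_ne (a : Fin Y.k) (i : Fin r) : Y.d a i ≠ 0 := (Y.nb a).2.2.2.1 i

/-- the local equations `d a i` and `M i` -/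
theorem un_M {a : Fin Y.k} (i : Fin r) {Q : Subalgebra ℂ L} (hQ : Q ∈ W) (ha : Y.A a ≤ Q) :
    Un Q (M i (cen Q) / Y.d a i) := (Y.nb a).2.2.2.2.1 i Q hQ ha

/-- products with powers of the local equations -/
theorem mul_d_pow {a : Fin Y.k} (i : Fin r) {Q : Subalgebra ℂ L} (hQ : Q ∈ W)
    (ha : Y.A a ≤ Q) (f : L) (e : ℕ) : ∃ v, Un Q v ∧
      f * Y.d a i ^ e = f * (M i (cen Q) : L) ^ e * v := by
  refine ⟨((M i (cen Q) / Y.d a i : L) ^ e)⁻¹, ((Y.un_M i hQ ha).pow e).inv, ?_⟩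
  have h1 := (M i (cen Q)).ne_zero
  have h2 := Y.d_ne a i
  rw [div_pow]
  field_simp

/-- global sections on the charts -/
theorem sec_mem (hW : IsProj W) (hc : ∀ O ∈ W, cen O ∈ X ∧ Dom (cen O) O) {i : Fin r} {e : ℕ}
    {f : L} (hf : f ∈ Sec X (M i ^ e)) (a : Fin Y.k) : f * Y.d a i ^ e ∈ Y.A a := by
  refine Y.mem_A hW a fun Q hQ ha => ?_
  obtain ⟨v, hv, h⟩ := Y.mul_d_pow i hQ ha f e
  have h1 := (hc Q hQ).2.1 (hf (cen Q) (hc Q hQ).1)
  rw [Pi.pow_apply, Units.val_pow_eq_pow_val] at h1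
  rw [h]
  exact Q.mul_mem h1 hv.2.1

/-- the sections `f a` generate on the chart `a` -/
theorem f_un (hW : IsProj W) (a : Fin Y.k) (i : Fin r) : Un (Y.A a) (Y.f a i * Y.d a i ^ m) := by
  refine Y.un_of_pt hW a fun Q hQ ha => ?_
  obtain ⟨v, hv, h⟩ := Y.mul_d_pow i hQ ha (Y.f a i) m
  rw [h]
  exact ((Y.nb a).2.2.2.2.2.2.1 i Q hQ ha).mul hv

theorem f'_un (hW : IsProj W) (a : Fin Y.k) (i : Fin r) :
    Un (Y.A a) (Y.f' a i * Y.d a i ^ (m + 1)) := by
  refine Y.un_of_pt hW a fun Q hQ ha => ?_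
  obtain ⟨v, hv, h⟩ := Y.mul_d_pow i hQ ha (Y.f' a i) (m + 1)
  rw [h]
  exact ((Y.nb a).2.2.2.2.2.2.2.2 i Q hQ ha).mul hv

/-- the elements `z (σ a)` generate `DD` on the chart `a` -/
theorem z_un (a : Fin Y.k) {Q : Subalgebra ℂ L} (hQ : Q ∈ W) (h : Y.A a ≤ Q) :
    Un Q (Y.z (Y.σ a) * DD Q) := by
  rw [A_eq] at h
  exact Y.va.toBF.un_of_cht_le hQ (Y.z_mem _) (Y.z_ne _) h

end Pre

end Pool.Agent.KM
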