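import Pool.Agent.Lib.MP_732f67_ag.G.Pt

/-!
Points of a projective variety `Pts V` in its function field: centers of valuation rings and of
local rings, uniqueness of the center.
-/

namespace Pool.Agent.KM

variable {k L : Type*} [Field k] [Field L] [Algebra k L]

theorem ptc_cht_span (T : Set L) (v : L) :
    cht (Submodule.span k T) v = Algebra.adjoin k ((fun w => w / v) '' T) := by
  apply le_antisymm
  · refine Algebra.adjoin_le ?_
    rintro x ⟨w, hw, rfl⟩
    change w / v ∈ Algebra.adjoin k ((fun w => w / v) '' T)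
    induction hw using Submodule.span_induction with
    | mem w hw => exact Algebra.subset_adjoin ⟨w, hw, rfl⟩
    | zero =>
      rw [zero_div]
      exact Subalgebra.zero_mem _
    | add w w' _ _ h h' =>
      rw [add_div]
      exact Subalgebra.add_mem _ h h'
    | smul c w _ h =>
      rw [smul_div_assoc]
      exact Subalgebra.smul_mem _ h c
  · refine Algebra.adjoin_mono ?_
    rintro x ⟨w, hw, rfl⟩
    exact ⟨w, Submodule.subset_span hw, rfl⟩

theorem ptc_div_mem {V : Submodule k L} {v w : L} (hw : w ∈ V) : w / v ∈ cht V v :=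
  Algebra.subset_adjoin ⟨w, hw, rfl⟩

theorem ptc_adjoin_le (R : ValuationSubring L) (hR : ∀ c : k, algebraMap k L c ∈ R) (T : Set L)
    (hT : ∀ x ∈ T, x ∈ R) : ∀ x ∈ Algebra.adjoin k T, x ∈ R := by
  intro x hx
  induction hx using Algebra.adjoin_induction with
  | mem x hx => exact hT x hx
  | algebraMap c => exact hR c
  | add x y _ _ h h' => exact R.add_mem _ _ h h'
  | mul x y _ _ h h' => exact R.mul_mem _ _ h h'

/-- `cht V w` for `w ≠ 0`, basic facts -/
theorem cht_fg {V : Submodule k L} (hV : Module.Finite k V) (v : L) : (cht V v).FG := by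
  classical
  obtain ⟨T, hT⟩ := hV.fg_top.map V.subtype
  rw [Submodule.map_subtype_top] at hT
  rw [← hT, ptc_cht_span]
  exact ⟨T.image (fun w => w / v), by rw [Finset.coe_image]⟩

/-- Every valuation ring which contains `k` contains one of the charts.

PROOF. Take an element `v` of a finite set of generators of `V`, not zero, of minimal
value: then `w / v ∈ R` for all generators `w`, hence for all `w ∈ V`. -/
theorem exists_cht_le (V : Submodule k L) (hV : Module.Finite k V) (h0 : V ≠ ⊥)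
    (R : ValuationSubring L) (hR : ∀ c : k, algebraMap k L c ∈ R) :
    ∃ v ∈ V, v ≠ 0 ∧ ∀ x ∈ cht V v, x ∈ R := by
  classical
  obtain ⟨T, hT⟩ := hV.fg_top.map V.subtype
  rw [Submodule.map_subtype_top] at hT
  have hne : (T.filter fun x => x ≠ 0).Nonempty := by
    by_contra hcon
    rw [Finset.not_nonempty_iff_eq_empty] at hcon
    apply h0
    rw [← hT, Submodule.span_eq_bot]
    intro x hx
    by_contra hx0
    have : x ∈ T.filter fun x => x ≠ 0 := Finset.mem_filter.2 ⟨hx, hx0⟩
    rw [hcon] at this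
    exact Finset.notMem_empty x this
  obtain ⟨v, hv, hmax⟩ := Finset.exists_max_image _ (fun x => R.valuation x) hne
  obtain ⟨hvT, hv0⟩ := Finset.mem_filter.1 hv
  refine ⟨v, ?_, hv0, ?_⟩
  · rw [← hT]
    exact Submodule.subset_span hvT
  · rw [← hT, ptc_cht_span]
    refine ptc_adjoin_le R hR _ ?_
    rintro x ⟨w, hw, rfl⟩
    change w / v ∈ R
    by_cases hw0 : w = 0
    · rw [hw0, zero_div]
      exact R.zero_mem
    · rw [← R.valuation_le_one_iff, map_div₀]
      have h1 := hmax w (Finset.mem_filter.2 ⟨hw, hw0⟩)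
      exact div_le_one_of_le₀ h1 zero_le

/-- the same for a family which spans `V` -/
theorem exists_cht_le_of_span {ι : Type*} [Finite ι] [Nonempty ι] (z : ι → L) (hz : ∀ i, z i ≠ 0)
    (R : ValuationSubring L) (hR : ∀ c : k, algebraMap k L c ∈ R) :
    ∃ i, ∀ x ∈ cht (Submodule.span k (Set.range z)) (z i), x ∈ R := by
  obtain ⟨i, hi⟩ := Finite.exists_max (fun i => R.valuation (z i))
  refine ⟨i, ?_⟩
  rw [ptc_cht_span]
  refine ptc_adjoin_le R hR _ ?_
  rintro x ⟨w, ⟨j, rfl⟩, rfl⟩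
  change z j / z i ∈ R
  rw [← R.valuation_le_one_iff, map_div₀]
  exact div_le_one_of_le₀ (hi j) zero_le

theorem ptc_le {V : Submodule k L} {O O' R : Subalgebra k L} {v v' : L} (hv : v ∈ V) (hv0 : v ≠ 0)
    (hl : LocAt (cht V v) O) (hv' : v' ∈ V) (hv0' : v' ≠ 0) (hl' : LocAt (cht V v') O')
    (h : Dom O R) (h' : Dom O' R) : O' ≤ O := by
  have h1 : v' / v ∈ O := hl.le (ptc_div_mem hv')
  have h2 : v / v' ∈ R := h'.1 (hl'.le (ptc_div_mem hv))
  have h3 : v / v' ∈ O := by
    have := h.2 (v' / v) h1 (by rwa [inv_div])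
    rwa [inv_div] at this
  have h4 : cht V v' ≤ O := by
    refine Algebra.adjoin_le ?_
    rintro x ⟨w, hw, rfl⟩
    have h5 : w / v' = w / v * (v / v') := by
      field_simp
    change w / v' ∈ O
    rw [h5]
    exact O.mul_mem (hl.le (ptc_div_mem hw)) h3
  rw [hl'.eq_locOf h' (hl'.le.trans h'.1)]
  rintro x ⟨a, ha, b, hb, hb0, hbR, rfl⟩
  rw [div_eq_mul_inv]
  exact O.mul_mem (h4 ha) (h.2 b (h4 hb) hbR)

/-- Uniqueness of the center (separatedness).

PROOF. `O` is a local ring of `cht V v` and `O'` of `cht V v'`; `v' / v ∈ O ≤ R` and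
`v / v' ∈ O' ≤ R`, so by domination `v / v' ∈ O`; hence `cht V v' ≤ O`, and
`O = locOf (cht V v') R = O'` (`LocAt.eq_locOf`). -/
theorem Pts.eq_of_dom {V : Submodule k L} {O O' R : Subalgebra k L} (hO : O ∈ Pts V)
    (hO' : O' ∈ Pts V) (h : Dom O R) (h' : Dom O' R) : O = O' := by
  obtain ⟨v, hv, hv0, hl⟩ := hO
  obtain ⟨v', hv', hv0', hl'⟩ := hO'
  exact le_antisymm (ptc_le hv' hv0' hl' hv hv0 hl h' h) (ptc_le hv hv0 hl hv' hv0' hl' h h')

/-- the charts in terms of generators -/
theorem cht_span {ι : Type*} (z : ι → L) (v : L) :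
    cht (Submodule.span k (Set.range z)) v = Algebra.adjoin k (Set.range fun i => z i / v) := by
  rw [ptc_cht_span, ← Set.range_comp]
  rfl

/-- Uniqueness of the center, for a point which contains another chart.

PROOF. `cht V v ≤ O` and `O` is a local ring of a chart `cht V v'`; `O` has a center `O'` on
`cht V v`, and `O`, `O'` are both dominated by `O`: `Pts.eq_of_dom`. -/
theorem Pts.locAt {V : Submodule k L} {O : Subalgebra k L} (hO : O ∈ Pts V) {v : L} (hv : v ∈ V)
    (hv0 : v ≠ 0) (h : cht V v ≤ O) : LocAt (cht V v) O := by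
  have hloc : IsLocalRing O := by
    obtain ⟨v', _, _, hl⟩ := hO
    exact hl.isLocalRing
  have h1 : locOf (cht V v) O h ∈ Pts V := ⟨v, hv, hv0, locAt_locOf h hloc⟩
  have h2 := Pts.eq_of_dom hO h1 (Dom.refl O) (dom_locOf h)
  have h3 := locAt_locOf h hloc
  rwa [← h2] at h3

/-- a local ring which contains a basic open subset of a chart: its center is the same on `W` and on
the basic open subset -/
theorem Pts.le_of_dom {V : Submodule k L} {O R A : Subalgebra k L} {v : L} (hO : O ∈ Pts V)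
    (h : Dom O R) (hv : v ∈ V) (hv0 : v ≠ 0) (hA : cht V v ≤ A)
    (hA' : ∀ x ∈ A, ∃ a ∈ cht V v, ∃ b ∈ cht V v, b ≠ 0 ∧ b⁻¹ ∈ A ∧ x = a / b) (hR : A ≤ R)
    (hR' : IsLocalRing R) : A ≤ O := by
  have h1 : locOf (cht V v) R (hA.trans hR) ∈ Pts V := ⟨v, hv, hv0, locAt_locOf _ hR'⟩
  rw [Pts.eq_of_dom hO h1 h (dom_locOf _)]
  intro x hx
  obtain ⟨a, ha, b, hb, hb0, hbA, rfl⟩ := hA' x hx
  exact ⟨a, ha, b, hb, hb0, hR hbA, rfl⟩

/-- every local ring which contains a chart has a center -/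
theorem exists_center {V : Submodule k L} {v : L} (hv : v ∈ V) (hv0 : v ≠ 0) {R : Subalgebra k L}
    (hR : IsLocalRing R) (h : cht V v ≤ R) : ∃ O ∈ Pts V, Dom O R :=
  ⟨locOf (cht V v) R h, ⟨v, hv, hv0, locAt_locOf h hR⟩, dom_locOf h⟩

/-- Existence of valuation rings which dominate a local ring (`exists_factor_valuationRing` or
`LocalSubring.exists_le_valuationSubring` in Mathlib) -/
theorem exists_val {O : Subalgebra k L} (hO : IsLocalRing O) : ∃ R : ValuationSubring L,
    (∀ x ∈ O, x ∈ R) ∧ ∀ x ∈ O, x⁻¹ ∈ R → x⁻¹ ∈ O := by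
  let A : LocalSubring L := @LocalSubring.mk L _ O.toSubring hO
  obtain ⟨R, hR⟩ := A.exists_le_valuationSubring
  obtain ⟨h1, h2⟩ := hR
  refine ⟨R, fun x hx => h1 hx, fun x hx hx' => ?_⟩
  by_cases hx0 : x = 0
  · rw [hx0, inv_zero]
    exact O.zero_mem
  · have h3 : IsUnit (Subring.inclusion h1 ⟨x, hx⟩) := by
      refine IsUnit.of_mul_eq_one (⟨x⁻¹, hx'⟩ : R.toLocalSubring.toSubring) ?_
      exact Subtype.ext (mul_inv_cancel₀ hx0)
    have h4 : IsUnit (⟨x, hx⟩ : O) := h2.map_nonunit _ h3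
    exact ((pt_isUnit_iff _).1 h4).2

end Pool.Agent.KM
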