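import Mathlib

/-!
Rational approximation of the real solutions of a system of linear equations with rational
coefficients.
-/

namespace Pool.Agent.KM

/-- a `ℚ`-linear map of a finite dimensional `ℚ`-subspace `W` of `ℝ` to `ℚ`, which is the identity on
`1` and close to the identity on finitely many elements -/
theorem exists_rat_map {r : ℕ} (W : Submodule ℚ ℝ) [FiniteDimensional ℚ W] (o : W)
    (ho : (o : ℝ) = 1) (a : Fin r → W) (δ : ℝ) (hδ : 0 < δ) :
    ∃ φ : W →ₗ[ℚ] ℚ, φ o = 1 ∧ ∀ i, |(φ (a i) : ℝ) - a i| < δ := by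
  set c := Module.finBasis ℚ W with hc
  set h := Module.finrank ℚ W
  let Φ : W → (Fin h → ℝ) → ℝ := fun w t => ∑ k, (c.repr w k : ℝ) * t k
  let τ : Fin h → ℝ := fun k => (c k : ℝ)
  have hΦτ : ∀ w : W, Φ w τ = w := by
    intro w
    have h1 := congrArg (fun v : W => (v : ℝ)) (c.sum_repr w)
    simp only [Submodule.coe_sum, Submodule.coe_smul, Rat.smul_def] at h1
    exact h1
  have hcont : ∀ w : W, Continuous (Φ w) := by
    intro w
    exact continuous_finsetSum _ fun k _ => continuous_const.mul (continuous_apply k)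
  have ho0 : Φ o τ ≠ 0 := by
    rw [hΦτ, ho]
    exact one_ne_zero
  have hev : ∀ᶠ t in nhds τ, Φ o t ≠ 0 ∧ ∀ i, |Φ (a i) t / Φ o t - a i| < δ := by
    refine ((hcont o).continuousAt.eventually_ne ho0).and ?_
    rw [Filter.eventually_all]
    intro i
    have h2 : ContinuousAt (fun t => |Φ (a i) t / Φ o t - a i|) τ :=
      (((hcont (a i)).continuousAt.div (hcont o).continuousAt ho0).sub continuousAt_const).abs
    refine h2.eventually_lt continuousAt_const ?_
    simp only [hΦτ, ho, div_one, sub_self, abs_zero]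
    exact hδ
  have hd : DenseRange (Pi.map fun (_ : Fin h) (q : ℚ) => (q : ℝ)) :=
    DenseRange.piMap fun _ => Rat.denseRange_cast
  obtain ⟨q, hq0, hq⟩ := hd.mem_nhds hev
  let ψ : W →ₗ[ℚ] ℚ := c.constr ℚ q
  have hψ : ∀ w : W, (ψ w : ℝ) = Φ w (Pi.map (fun (_ : Fin h) (q : ℚ) => (q : ℝ)) q) := by
    intro w
    have h3 : ψ w = ∑ k, c.equivFun w k • q k := c.constr_apply_fintype ℚ q w
    rw [h3, Rat.cast_sum]
    refine Finset.sum_congr rfl fun k _ => ?_
    rw [smul_eq_mul, Rat.cast_mul]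
    rfl
  have hψ0 : ψ o ≠ 0 := by
    intro h0
    apply hq0
    rw [← hψ, h0, Rat.cast_zero]
  refine ⟨(ψ o)⁻¹ • ψ, ?_, fun i => ?_⟩
  · rw [LinearMap.smul_apply, smul_eq_mul, inv_mul_cancel₀ hψ0]
  · have h4 := hq i
    rw [← hψ, ← hψ] at h4
    rw [LinearMap.smul_apply, smul_eq_mul, Rat.cast_mul, Rat.cast_inv, mul_comm, ← div_eq_mul_inv]
    exact h4

/-- PROOF. Let `τ_0 = 1, τ_1, ..., τ_h` be a basis over `ℚ` of the span of `1` and of the numbers `a i`,
`b j` in `ℝ`; `a i = ∑ a_ik τ_k`, `b j = ∑ b_jk τ_k` with rational `a_ik`, `b_jk`. The equations hold for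
all the coefficients of the `τ_k`. Replace `τ_k`, `k ≥ 1`, by a rational number which is close to
it. If `∑ a i = B` is rational then `∑ a_ik = 0` for `k ≥ 1`. -/
theorem rational_approx {ι : Type*} {r s : ℕ} (E : ι → Fin r → ℤ) (F : ι → Fin s → ℤ) (G : ι → ℚ)
    (a : Fin r → ℝ) (b : Fin s → ℝ)
    (h : ∀ o, ∑ i, a i * E o i + ∑ j, b j * F o j = G o) (δ : ℝ) (hδ : 0 < δ) :
    ∃ (a' : Fin r → ℚ) (b' : Fin s → ℚ),
      (∀ o, ∑ i, a' i * E o i + ∑ j, b' j * F o j = G o) ∧ (∀ i, |(a' i : ℝ) - a i| < δ) ∧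
      ∀ B : ℚ, ∑ i, a i = B → ∑ i, a' i = B := by
  let S : Set ℝ := {1} ∪ (Set.range a ∪ Set.range b)
  have hS : S.Finite := (Set.finite_singleton _).union ((Set.finite_range a).union
    (Set.finite_range b))
  let W : Submodule ℚ ℝ := Submodule.span ℚ S
  have : FiniteDimensional ℚ W := FiniteDimensional.span_of_finite ℚ hS
  let w1 : W := ⟨1, Submodule.subset_span (Or.inl rfl)⟩
  let wa : Fin r → W := fun i => ⟨a i, Submodule.subset_span (Or.inr (Or.inl ⟨i, rfl⟩))⟩
  let wb : Fin s → W := fun j => ⟨b j, Submodule.subset_span (Or.inr (Or.inr ⟨j, rfl⟩))⟩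
  obtain ⟨φ, h1, h2⟩ := exists_rat_map W w1 rfl wa δ hδ
  refine ⟨fun i => φ (wa i), fun j => φ (wb j), fun o => ?_, h2, fun B hB => ?_⟩
  · have e : ∑ i, (E o i : ℚ) • wa i + ∑ j, (F o j : ℚ) • wb j = G o • w1 := by
      apply Subtype.ext
      simp only [Submodule.coe_add, Submodule.coe_sum, Submodule.coe_smul, Rat.smul_def,
        Rat.cast_intCast]
      rw [← show (∑ i, a i * E o i + ∑ j, b j * F o j : ℝ) = G o * 1 by rw [h o, mul_one]]
      congr 1
      · exact Finset.sum_congr rfl fun i _ => mul_comm _ _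
      · exact Finset.sum_congr rfl fun i _ => mul_comm _ _
    have e2 := congrArg φ e
    rw [map_add, map_sum, map_sum, map_smul, h1, smul_eq_mul, mul_one] at e2
    rw [← e2]
    congr 1
    · exact Finset.sum_congr rfl fun i _ => by rw [map_smul, smul_eq_mul, mul_comm]
    · exact Finset.sum_congr rfl fun i _ => by rw [map_smul, smul_eq_mul, mul_comm]
  · have e : ∑ i, wa i = B • w1 := by
      apply Subtype.ext
      simp only [Submodule.coe_sum, Submodule.coe_smul, Rat.smul_def]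
      rw [← hB]
      exact (mul_one _).symm
    have e2 := congrArg φ e
    rw [map_sum, map_smul, h1, smul_eq_mul, mul_one] at e2
    exact e2

end Pool.Agent.KM
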