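import Mathlib

/-!
Reduction modulo `p` and modulo `p ^ 2` of a finitely generated field `L ⊇ ℂ`.

A reduction `R : Red L t y` consists of a prime number `p`, a subring `Λ` of `L`, and a ring
homomorphism `ρ2` from `Λ` to a local ring `R2`, flat over `ℤ / p ^ 2`, with residue field `F`,
finitely generated over `𝔽_p`, such that the transcendence basis `t` of `L` goes to a transcendence
basis of `F`, the primitive element `y` of `L` over `ℂ(t)` goes to one of `F`, and the constants of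
`Λ` go to `ℤ / p ^ 2`.

`Ev t y P`: the property `P` holds for all reductions whose ring `Λ` contains a certain finite set.
-/

namespace Pool.Agent.KM

/-- a reduction of `L` modulo `p` and `p ^ 2` -/
structure Red (L : Type) [Field L] [Algebra ℂ L] {n : ℕ} (t : Fin n → L) (y : L) where
  p : ℕ
  [hp : Fact p.Prime]
  Λ : Subring L
  R2 : Type
  [cr : CommRing R2]
  F : Type
  [fd : Field F]
  [al : Algebra (ZMod p) F]
  ρ2 : Λ →+* R2
  π : R2 →+* F
  surj : Function.Surjective π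
  ker : ∀ x, π x = 0 ↔ ∃ y, x = p * y
  flat : ∀ x, (p : R2) * x = 0 ↔ ∃ y, x = p * y
  const : ∀ c : Λ, (c : L) ∈ (algebraMap ℂ L).range → ∃ z : ℤ, ρ2 c = z
  t_mem : ∀ i, t i ∈ Λ
  trans : IsTranscendenceBasis (ZMod p) fun i => π (ρ2 ⟨t i, t_mem i⟩)
  gen : ∀ z : R2, ∃ a b : Λ, π (ρ2 b) ≠ 0 ∧ z * ρ2 b = ρ2 a
  y_mem : y ∈ Λ
  fg : IntermediateField.adjoin (ZMod p) (insert (π (ρ2 ⟨y, y_mem⟩))
    (Set.range fun i => π (ρ2 ⟨t i, t_mem i⟩))) = ⊤

attribute [instance] Red.hp Red.cr Red.fd Red.al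

variable {L : Type} [Field L] [Algebra ℂ L] {n : ℕ} {t : Fin n → L} {y : L}

namespace Red

variable (R : Red L t y)

open Classical in
/-- the reduction modulo `p ^ 2`, extended by zero -/
noncomputable def r2 (x : L) : R.R2 := if h : x ∈ R.Λ then R.ρ2 ⟨x, h⟩ else 0

/-- the reduction modulo `p`, extended by zero -/
noncomputable def r (x : L) : R.F := R.π (R.r2 x)

/-- the ring homomorphism on `Λ` -/
def ρ : R.Λ →+* R.F := R.π.comp R.ρ2

theorem r2_of {x : L} (h : x ∈ R.Λ) : R.r2 x = R.ρ2 ⟨x, h⟩ := dif_pos h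

theorem r_of {x : L} (h : x ∈ R.Λ) : R.r x = R.ρ ⟨x, h⟩ := by
  rw [r, R.r2_of h]
  rfl

@[simp] theorem r2_coe (x : R.Λ) : R.r2 x = R.ρ2 x := R.r2_of x.2

@[simp] theorem r_coe (x : R.Λ) : R.r x = R.ρ x := R.r_of x.2

theorem r2_add {x y : L} (hx : x ∈ R.Λ) (hy : y ∈ R.Λ) : R.r2 (x + y) = R.r2 x + R.r2 y := by
  rw [R.r2_of hx, R.r2_of hy, R.r2_of (R.Λ.add_mem hx hy), ← map_add]
  rfl

theorem r2_sub {x y : L} (hx : x ∈ R.Λ) (hy : y ∈ R.Λ) : R.r2 (x - y) = R.r2 x - R.r2 y := by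
  rw [R.r2_of hx, R.r2_of hy, R.r2_of (R.Λ.sub_mem hx hy), ← map_sub]
  rfl

theorem r2_mul {x y : L} (hx : x ∈ R.Λ) (hy : y ∈ R.Λ) : R.r2 (x * y) = R.r2 x * R.r2 y := by
  rw [R.r2_of hx, R.r2_of hy, R.r2_of (R.Λ.mul_mem hx hy), ← map_mul]
  rfl

theorem r2_neg {x : L} (hx : x ∈ R.Λ) : R.r2 (-x) = -R.r2 x := by
  rw [R.r2_of hx, R.r2_of (R.Λ.neg_mem hx), ← map_neg]
  rfl

theorem r2_pow {x : L} (hx : x ∈ R.Λ) (k : ℕ) : R.r2 (x ^ k) = R.r2 x ^ k := by
  rw [R.r2_of hx, R.r2_of (R.Λ.pow_mem hx k), ← map_pow]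
  rfl

@[simp] theorem r2_zero : R.r2 0 = 0 := by
  rw [R.r2_of R.Λ.zero_mem]
  exact map_zero _

@[simp] theorem r2_one : R.r2 1 = 1 := by
  rw [R.r2_of R.Λ.one_mem]
  exact map_one _

theorem r2_natCast (k : ℕ) : R.r2 (k : L) = k := by
  rw [R.r2_of (natCast_mem R.Λ k)]
  exact map_natCast R.ρ2 k

theorem r2_intCast (k : ℤ) : R.r2 (k : L) = k := by
  rw [R.r2_of (intCast_mem R.Λ k)]
  exact map_intCast R.ρ2 k

theorem r2_sum {ι : Type*} (s : Finset ι) (f : ι → L) (h : ∀ i ∈ s, f i ∈ R.Λ) :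
    R.r2 (∑ i ∈ s, f i) = ∑ i ∈ s, R.r2 (f i) := by
  classical
  induction s using Finset.induction_on with
  | empty => rw [Finset.sum_empty, Finset.sum_empty, r2_zero]
  | insert a s ha ih =>
    rw [Finset.sum_insert ha, Finset.sum_insert ha, R.r2_add (h a (Finset.mem_insert_self a s))
      (R.Λ.sum_mem fun i hi => h i (Finset.mem_insert_of_mem hi)),
      ih fun i hi => h i (Finset.mem_insert_of_mem hi)]

theorem r2_prod {ι : Type*} (s : Finset ι) (f : ι → L) (h : ∀ i ∈ s, f i ∈ R.Λ) :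
    R.r2 (∏ i ∈ s, f i) = ∏ i ∈ s, R.r2 (f i) := by
  classical
  induction s using Finset.induction_on with
  | empty => rw [Finset.prod_empty, Finset.prod_empty, r2_one]
  | insert a s ha ih =>
    rw [Finset.prod_insert ha, Finset.prod_insert ha, R.r2_mul (h a (Finset.mem_insert_self a s))
      (R.Λ.prod_mem fun i hi => h i (Finset.mem_insert_of_mem hi)),
      ih fun i hi => h i (Finset.mem_insert_of_mem hi)]

theorem r_add {x y : L} (hx : x ∈ R.Λ) (hy : y ∈ R.Λ) : R.r (x + y) = R.r x + R.r y := by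
  simp only [r, R.r2_add hx hy, map_add]

theorem r_sub {x y : L} (hx : x ∈ R.Λ) (hy : y ∈ R.Λ) : R.r (x - y) = R.r x - R.r y := by
  simp only [r, R.r2_sub hx hy, map_sub]

theorem r_mul {x y : L} (hx : x ∈ R.Λ) (hy : y ∈ R.Λ) : R.r (x * y) = R.r x * R.r y := by
  simp only [r, R.r2_mul hx hy, map_mul]

theorem r_neg {x : L} (hx : x ∈ R.Λ) : R.r (-x) = -R.r x := by
  simp only [r, R.r2_neg hx, map_neg]

theorem r_pow {x : L} (hx : x ∈ R.Λ) (k : ℕ) : R.r (x ^ k) = R.r x ^ k := by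
  simp only [r, R.r2_pow hx, map_pow]

@[simp] theorem r_zero : R.r 0 = 0 := by
  simp only [r, r2_zero, map_zero]

@[simp] theorem r_one : R.r 1 = 1 := by
  simp only [r, r2_one, map_one]

theorem r_natCast (k : ℕ) : R.r (k : L) = k := by
  simp only [r, r2_natCast, map_natCast]

theorem r_sum {ι : Type*} (s : Finset ι) (f : ι → L) (h : ∀ i ∈ s, f i ∈ R.Λ) :
    R.r (∑ i ∈ s, f i) = ∑ i ∈ s, R.r (f i) := by
  simp only [r, R.r2_sum s f h, map_sum]

theorem r_prod {ι : Type*} (s : Finset ι) (f : ι → L) (h : ∀ i ∈ s, f i ∈ R.Λ) :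
    R.r (∏ i ∈ s, f i) = ∏ i ∈ s, R.r (f i) := by
  simp only [r, R.r2_prod s f h, map_prod]

theorem r2_inv {x : L} (h0 : x ≠ 0) (hx : x ∈ R.Λ) (hi : x⁻¹ ∈ R.Λ) :
    R.r2 x * R.r2 x⁻¹ = 1 := by
  rw [← R.r2_mul hx hi, mul_inv_cancel₀ h0, r2_one]

theorem r_ne {x : L} (h0 : x ≠ 0) (hx : x ∈ R.Λ) (hi : x⁻¹ ∈ R.Λ) : R.r x ≠ 0 := by
  intro h
  have h1 := congrArg R.π (R.r2_inv h0 hx hi)
  rw [map_mul, map_one] at h1
  have h2 : R.π (R.r2 x) = 0 := h
  rw [h2, zero_mul] at h1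
  exact zero_ne_one h1

theorem r_inv {x : L} (h0 : x ≠ 0) (hx : x ∈ R.Λ) (hi : x⁻¹ ∈ R.Λ) :
    R.r x⁻¹ = (R.r x)⁻¹ := by
  have h1 := congrArg R.π (R.r2_inv h0 hx hi)
  rw [map_mul, map_one] at h1
  exact eq_inv_of_mul_eq_one_right h1

/-- `R2` is a local ring -/
theorem isUnit_iff (x : R.R2) : IsUnit x ↔ R.π x ≠ 0 := by
  constructor
  · intro h h1
    have h2 := h.map R.π
    rw [h1] at h2
    exact not_isUnit_zero h2
  · intro h
    obtain ⟨y, hy⟩ := R.surj (R.π x)⁻¹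
    have h1 : R.π (x * y - 1) = 0 := by
      rw [map_sub, map_mul, hy, mul_inv_cancel₀ h, map_one, sub_self]
    obtain ⟨z, hz⟩ := (R.ker _).1 h1
    have h2 : (R.p : R.R2) * ((R.p : R.R2) * z) = 0 := (R.flat _).2 ⟨z, rfl⟩
    refine IsUnit.of_mul_eq_one (y * (1 - R.p * z)) ?_
    have h3 : x * y = 1 + R.p * z := by rw [← hz]; ring
    calc x * (y * (1 - R.p * z)) = (x * y) * (1 - R.p * z) := by ring
      _ = 1 - (R.p : R.R2) * ((R.p : R.R2) * z) * z := by rw [h3]; ring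
      _ = 1 := by rw [h2]; ring

instance charF : CharP R.F R.p := by
  have h := charP_of_injective_algebraMap (algebraMap (ZMod R.p) R.F).injective R.p
  exact h

/-- the ring of constants in `Λ` -/
def C : Subring ℂ := R.Λ.comap (algebraMap ℂ L)

theorem mem_C {c : ℂ} : c ∈ R.C ↔ algebraMap ℂ L c ∈ R.Λ := Iff.rfl

/-- the reduction of the constants -/
theorem exists_ψ : ∃ ψ : R.C →+* ZMod R.p,
    ∀ c : R.C, R.r (algebraMap ℂ L c) = algebraMap (ZMod R.p) R.F (ψ c) := by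
  have h1 : ∀ c : R.C, ∃ z : ZMod R.p, algebraMap (ZMod R.p) R.F z = R.ρ ⟨algebraMap ℂ L c, c.2⟩ := by
    intro c
    obtain ⟨z, hz⟩ := R.const ⟨algebraMap ℂ L c, c.2⟩ ⟨c, rfl⟩
    refine ⟨z, ?_⟩
    have h2 : R.ρ ⟨algebraMap ℂ L c, c.2⟩ = R.π (R.ρ2 ⟨algebraMap ℂ L c, c.2⟩) := rfl
    rw [h2, hz, map_intCast, map_intCast]
  choose f hf using h1
  have hinj := (algebraMap (ZMod R.p) R.F).injective
  refine ⟨⟨⟨⟨f, ?_⟩, ?_⟩, ?_, ?_⟩, fun c => ?_⟩
  · apply hinj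
    rw [hf, map_one, ← map_one R.ρ]
    congr 1
    exact Subtype.ext (map_one (algebraMap ℂ L))
  · intro x y
    apply hinj
    simp only
    rw [hf, map_mul, hf, hf, ← map_mul R.ρ]
    congr 1
    exact Subtype.ext (map_mul (algebraMap ℂ L) _ _)
  · apply hinj
    simp only
    rw [hf, map_zero, ← map_zero R.ρ]
    congr 1
    exact Subtype.ext (map_zero (algebraMap ℂ L))
  · intro x y
    apply hinj
    simp only
    rw [hf, map_add, hf, hf, ← map_add R.ρ]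
    congr 1
    exact Subtype.ext (map_add (algebraMap ℂ L) _ _)
  · rw [R.r_of c.2]
    exact (hf c).symm

/-- the reduction of the constants modulo `p` -/
noncomputable def ψ : R.C →+* ZMod R.p := R.exists_ψ.choose

theorem ψ_spec (c : R.C) : R.r (algebraMap ℂ L c) = algebraMap (ZMod R.p) R.F (R.ψ c) :=
  R.exists_ψ.choose_spec c

/-- the reduction of the constants of a subring `B` -/
noncomputable def ψB (B : Subring ℂ) (h : B ≤ R.C) : B →+* ZMod R.p :=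
  R.ψ.comp (Subring.inclusion h)

end Red

/-- the property `P` holds for all reductions whose ring contains a certain finite set -/
def Ev (t : Fin n → L) (y : L) (P : Red L t y → Prop) : Prop :=
  ∃ S : Finset L, ∀ R : Red L t y, (∀ s ∈ S, s ∈ R.Λ) → P R

theorem Ev.mono {P Q : Red L t y → Prop} (h : Ev t y P) (hPQ : ∀ R, P R → Q R) : Ev t y Q := by
  obtain ⟨S, hS⟩ := h
  exact ⟨S, fun R hR => hPQ R (hS R hR)⟩

theorem Ev.and {P Q : Red L t y → Prop} (h : Ev t y P) (h' : Ev t y Q) : Ev t y fun R => P R ∧ Q R := by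
  classical
  obtain ⟨S, hS⟩ := h
  obtain ⟨S', hS'⟩ := h'
  exact ⟨S ∪ S', fun R hR => ⟨hS R fun s hs => hR s (Finset.mem_union_left _ hs),
    hS' R fun s hs => hR s (Finset.mem_union_right _ hs)⟩⟩

theorem Ev.of_forall {P : Red L t y → Prop} (h : ∀ R, P R) : Ev t y P := ⟨∅, fun R _ => h R⟩

theorem Ev.all {ι : Type*} [Finite ι] {P : ι → Red L t y → Prop} (h : ∀ i, Ev t y (P i)) :
    Ev t y fun R => ∀ i, P i R := by
  classical
  cases nonempty_fintype ι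
  choose S hS using h
  exact ⟨Finset.univ.biUnion S, fun R hR i => hS i R fun s hs =>
    hR s (Finset.mem_biUnion.2 ⟨i, Finset.mem_univ i, hs⟩)⟩

theorem Ev.all_mem {ι : Type*} (s : Finset ι) {P : ι → Red L t y → Prop} (h : ∀ i ∈ s, Ev t y (P i)) :
    Ev t y fun R => ∀ i ∈ s, P i R := by
  have h1 : Ev t y fun R => ∀ i : s, P i R := Ev.all fun i => h i i.2
  exact h1.mono fun R hR i hi => hR ⟨i, hi⟩

theorem ev_mem (x : L) : Ev t y fun R => x ∈ R.Λ :=
  ⟨{x}, fun _ hR => hR x (Finset.mem_singleton_self x)⟩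

theorem ev_ne {x : L} (h0 : x ≠ 0) : Ev t y fun R => x ∈ R.Λ ∧ x⁻¹ ∈ R.Λ ∧ R.r x ≠ 0 :=
  ((ev_mem x).and (ev_mem x⁻¹)).mono fun R hR => ⟨hR.1, hR.2, R.r_ne h0 hR.1 hR.2⟩

/-- the constants of a finitely generated ring belong to `Λ` -/
theorem ev_B (S : Finset ℂ) : Ev t y fun R => Subring.closure (S : Set ℂ) ≤ R.C := by
  classical
  refine ⟨S.image (algebraMap ℂ L), fun R hR => ?_⟩
  show Subring.closure (S : Set ℂ) ≤ R.C
  rw [Subring.closure_le]
  intro c hc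
  exact hR _ (Finset.mem_image_of_mem _ hc)

end Pool.Agent.KM
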