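import Pool.Agent.Lib.MP_732f67_ag.G.RedEv
import Pool.Agent.Lib.MP_732f67_ag.G.Irr

/-!
The degree of `L` over `ℂ(x)` is preserved by reduction.
-/

namespace Pool.Agent.KM

open Polynomial

/-- Gauss: a polynomial of smaller degree which vanishes at a root of a monic irreducible
polynomial over an integrally closed domain is zero. -/
theorem eq_zero_of_natDegree_lt {A F : Type} [CommRing A] [IsDomain A] [IsIntegrallyClosed A]
    [Field F] (φ : A →+* F) (hφ : Function.Injective φ) (f : A[X]) (hf : f.Monic)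
    (hi : Irreducible f) (α : F) (h0 : f.eval₂ φ α = 0) (g : A[X])
    (hg : g.natDegree < f.natDegree) (hg0 : g.eval₂ φ α = 0) : g = 0 := by
  let _ : Algebra A F := φ.toAlgebra
  have hfs : FaithfulSMul A F := (faithfulSMul_iff_algebraMap_injective A F).2 hφ
  have hint : IsIntegral A α := ⟨f, hf, h0⟩
  by_contra hne
  have h1 : minpoly A α ∣ f := minpoly.isIntegrallyClosed_dvd hint h0
  have h2 : minpoly A α ∣ g := minpoly.isIntegrallyClosed_dvd hint hg0
  have h3 : (minpoly A α).natDegree = f.natDegree := by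
    obtain ⟨c, hc⟩ := h1
    rcases hi.isUnit_or_isUnit hc with hu | hu
    · exact absurd hu (minpoly.not_isUnit A α)
    · have hc0 : c.natDegree = 0 := natDegree_eq_zero_of_isUnit hu
      have hm := minpoly.monic hint
      have hcne : c ≠ 0 := hu.ne_zero
      rw [hc, hm.natDegree_mul' hcne, hc0, add_zero]
  have h4 := natDegree_le_of_dvd h2 hne
  omega

variable {L : Type} [Field L] [Algebra ℂ L] {n : ℕ} {t : Fin n → L} {y : L}

/-- Evaluation of polynomials with coefficients in `B` commutes with the reduction. -/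
theorem Red.r_eval₂ (R : Red L t y) {x : Fin n → L} {w : L} (hx : ∀ i, x i ∈ R.Λ) (hw : w ∈ R.Λ)
    (B : Subring ℂ) (hB : B ≤ R.C) (g : (MvPolynomial (Fin n) B)[X]) :
    (g.map (MvPolynomial.map B.subtype)).eval₂
        (MvPolynomial.aeval x : MvPolynomial (Fin n) ℂ →ₐ[ℂ] L).toRingHom w ∈ R.Λ ∧
    R.r ((g.map (MvPolynomial.map B.subtype)).eval₂
        (MvPolynomial.aeval x : MvPolynomial (Fin n) ℂ →ₐ[ℂ] L).toRingHom w) =
      (g.map (MvPolynomial.map (R.ψB B hB))).eval₂
        (MvPolynomial.aeval (fun i => R.r (x i)) :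
          MvPolynomial (Fin n) (ZMod R.p) →ₐ[ZMod R.p] R.F).toRingHom (R.r w) := by
  -- the map to `Λ`
  let j : B →+* R.Λ :=
    { toFun := fun c => ⟨algebraMap ℂ L c, hB c.2⟩
      map_one' := Subtype.ext (map_one (algebraMap ℂ L))
      map_mul' := fun a b => Subtype.ext (map_mul (algebraMap ℂ L) _ _)
      map_zero' := Subtype.ext (map_zero (algebraMap ℂ L))
      map_add' := fun a b => Subtype.ext (map_add (algebraMap ℂ L) _ _) }
  let E : (MvPolynomial (Fin n) B)[X] →+* R.Λ :=
    eval₂RingHom (MvPolynomial.eval₂Hom j fun i => ⟨x i, hx i⟩) ⟨w, hw⟩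
  have h1 : R.Λ.subtype.comp E =
      (eval₂RingHom (MvPolynomial.aeval x : MvPolynomial (Fin n) ℂ →ₐ[ℂ] L).toRingHom w).comp
        (mapRingHom (MvPolynomial.map B.subtype)) := by
    apply Polynomial.ringHom_ext'
    · apply MvPolynomial.ringHom_ext
      · intro c
        simp [E, j]
      · intro i
        simp [E]
    · simp [E]
  have h2 : R.ρ.comp E =
      (eval₂RingHom (MvPolynomial.aeval (fun i => R.r (x i)) :
        MvPolynomial (Fin n) (ZMod R.p) →ₐ[ZMod R.p] R.F).toRingHom (R.r w)).comp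
        (mapRingHom (MvPolynomial.map (R.ψB B hB))) := by
    apply Polynomial.ringHom_ext'
    · apply MvPolynomial.ringHom_ext
      · intro c
        have h : R.r (algebraMap ℂ L c) = algebraMap (ZMod R.p) R.F (R.ψB B hB c) :=
          R.ψ_spec ⟨c, hB c.2⟩
        rw [R.r_of (hB c.2)] at h
        simpa [E, j] using h
      · intro i
        simpa [E] using (R.r_of (hx i)).symm
    · simpa [E] using (R.r_of hw).symm
  have h3 := RingHom.congr_fun h1 g
  have h4 := RingHom.congr_fun h2 g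
  simp only [RingHom.comp_apply, coe_mapRingHom, coe_eval₂RingHom] at h3 h4
  rw [← h3, ← h4]
  exact ⟨(E g).2, R.r_coe (E g)⟩

/-- If `f(x, w) = 0` with `f ∈ ℂ[X][Y]` monic and irreducible, then the elements
`ρ(x) ^ α ρ(w) ^ j`, `j < deg f`, are linearly independent over `𝔽_p`.

PROOF. `S` from `exists_irr`; `Λ` contains `S`, the `x i` and `w`; `B = closure S ≤ R.C` (as in `ev_B`)
and `ψ = R.ψB B`. Then `f^ψ ∈ 𝔽_p[X][Y]` is monic and irreducible, `f^ψ(ρ x, ρ w) = 0`, and the
`ρ (x i)` are algebraically independent (`ev_trans`); `𝔽_p[X]` is factorial, so `f^ψ` is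
irreducible over the field of fractions (Gauss), the minimal polynomial of `ρ w` over `𝔽_p(ρ x)`, and
a polynomial of smaller degree does not vanish at `ρ w` unless it is zero. -/
theorem ev_deg (ht : IsTranscendenceBasis ℂ t) {x : Fin n → L} (hx : IsTranscendenceBasis ℂ x)
    {w : L} (f : (MvPolynomial (Fin n) ℂ)[X]) (hf : f.Monic) (hi : Irreducible f)
    (h0 : f.eval₂ (MvPolynomial.aeval x : MvPolynomial (Fin n) ℂ →ₐ[ℂ] L).toRingHom w = 0) :
    Ev t y fun R => ∀ g : (MvPolynomial (Fin n) (ZMod R.p))[X], g.natDegree < f.natDegree →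
      g.eval₂ (MvPolynomial.aeval (fun i => R.r (x i)) :
        MvPolynomial (Fin n) (ZMod R.p) →ₐ[ZMod R.p] R.F).toRingHom (R.r w) = 0 → g = 0 := by
  obtain ⟨S, hS⟩ := exists_irr f hf hi
  refine ((ev_B S).and ((ev_trans ht hx).and (ev_mem w))).mono fun R hR => ?_
  obtain ⟨hB, ⟨hxm, htr⟩, hw⟩ := hR
  obtain ⟨fB, hfB, hmon, hirr⟩ := hS (Subring.closure (S : Set ℂ)) Subring.subset_closure
  intro g hg hg0
  have hdeg : (fB.map (MvPolynomial.map (R.ψB _ hB))).natDegree = f.natDegree := by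
    rw [hmon.natDegree_map, ← hfB, hmon.natDegree_map]
  refine eq_zero_of_natDegree_lt _ htr.1 (fB.map (MvPolynomial.map (R.ψB _ hB)))
    (hmon.map _) (hirr (ZMod R.p) (R.ψB _ hB)) (R.r w) ?_ g (by rw [hdeg]; exact hg) hg0
  have h1 := (R.r_eval₂ hxm hw _ hB fB).2
  rw [hfB, h0, R.r_zero] at h1
  exact h1.symm

/-- The polynomials over `𝔽_p` which vanish at `(ρ x, ρ w)` are the multiples of the reduction of
`f`, and the polynomials over `B` whose reduction vanishes are obtained from `f` and the kernel of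
`B → 𝔽_p`.

PROOF. Division of `g` by the monic polynomial `fB`, and `ev_deg` for the remainder. -/
theorem ev_ker (ht : IsTranscendenceBasis ℂ t) {x : Fin n → L} (hx : IsTranscendenceBasis ℂ x)
    {w : L} (f : (MvPolynomial (Fin n) ℂ)[X]) (hf : f.Monic) (hi : Irreducible f)
    (h0 : f.eval₂ (MvPolynomial.aeval x : MvPolynomial (Fin n) ℂ →ₐ[ℂ] L).toRingHom w = 0) :
    Ev t y fun R => (∀ i, x i ∈ R.Λ) ∧ w ∈ R.Λ ∧
      ∀ (B : Subring ℂ) (hB : B ≤ R.C) (g : (MvPolynomial (Fin n) B)[X]),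
        R.r ((g.map (MvPolynomial.map B.subtype)).eval₂
          (MvPolynomial.aeval x : MvPolynomial (Fin n) ℂ →ₐ[ℂ] L).toRingHom w) = 0 →
        (g.map (MvPolynomial.map B.subtype)).natDegree < f.natDegree →
        g.map (MvPolynomial.map (R.ψB B hB)) = 0 := by
  refine ((ev_deg ht hx f hf hi h0).and ((ev_trans ht hx).and (ev_mem w))).mono fun R hR => ?_
  obtain ⟨hdeg, ⟨hxm, -⟩, hw⟩ := hR
  refine ⟨hxm, hw, fun B hB g hg hgd => ?_⟩
  refine hdeg _ (lt_of_le_of_lt natDegree_map_le ?_) ?_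
  · rwa [natDegree_map_eq_of_injective (MvPolynomial.map_injective _ B.subtype_injective)] at hgd
  · rw [← (R.r_eval₂ hxm hw B hB g).2]
    exact hg

end Pool.Agent.KM
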