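import Pool.Agent.Lib.MP_732f67_ag.G.Red

/-!
Properties which hold for all reductions with large `Λ`: membership in finitely generated
subalgebras, transcendence bases.
-/

namespace Pool.Agent.KM

open Polynomial

variable {L : Type} [Field L] [Algebra ℂ L] {n : ℕ} {t : Fin n → L} {y : L}

theorem Red.r_mem_closure (R : Red L t y) {G : Set L} {z : L}
    (h : R.r2 z ∈ Subring.closure (R.r2 '' G)) : R.r z ∈ Subring.closure (R.r '' G) := by
  have h1 : R.r '' G = R.π '' (R.r2 '' G) := by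
    rw [Set.image_image]
    rfl
  rw [h1, ← RingHom.map_closure]
  exact ⟨_, h, rfl⟩

/-- membership in finitely generated subalgebras is preserved -/
theorem ev_adjoin (G : Finset L) {z : L} (hz : z ∈ Algebra.adjoin ℂ (G : Set L)) :
    Ev t y fun R => (∀ g ∈ G, g ∈ R.Λ) ∧ z ∈ R.Λ ∧
      R.r2 z ∈ Subring.closure (R.r2 '' (G : Set L)) ∧
      R.r z ∈ Subring.closure (R.r '' (G : Set L)) := by
  have hG : Ev t y fun R => ∀ g ∈ G, g ∈ R.Λ := Ev.all_mem G fun g _ => ev_mem g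
  suffices h : Ev t y fun R => z ∈ R.Λ ∧ R.r2 z ∈ Subring.closure (R.r2 '' (G : Set L)) from
    (hG.and h).mono fun R hR => ⟨hR.1, hR.2.1, hR.2.2, R.r_mem_closure hR.2.2⟩
  induction hz using Algebra.adjoin_induction with
  | mem x hx => exact (ev_mem x).mono fun R hR => ⟨hR, Subring.subset_closure ⟨x, hx, rfl⟩⟩
  | algebraMap c =>
    refine (ev_mem (algebraMap ℂ L c)).mono fun R hR => ⟨hR, ?_⟩
    obtain ⟨z, hz⟩ := R.const ⟨algebraMap ℂ L c, hR⟩ ⟨c, rfl⟩
    rw [R.r2_of hR, hz]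
    exact intCast_mem _ z
  | add a b _ _ ha hb =>
    refine (ha.and hb).mono fun R hR => ⟨R.Λ.add_mem hR.1.1 hR.2.1, ?_⟩
    rw [R.r2_add hR.1.1 hR.2.1]
    exact Subring.add_mem _ hR.1.2 hR.2.2
  | mul a b _ _ ha hb =>
    refine (ha.and hb).mono fun R hR => ⟨R.Λ.mul_mem hR.1.1 hR.2.1, ?_⟩
    rw [R.r2_mul hR.1.1 hR.2.1]
    exact Subring.mul_mem _ hR.1.2 hR.2.2

/-- algebraic dependence is preserved -/
theorem ev_trans_one {x : Fin n → L} {z : L}
    (h : IsAlgebraic (Algebra.adjoin ℂ (Set.range x)) z) :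
    Ev t y fun R => (∀ i, x i ∈ R.Λ) ∧
      IsAlgebraic (Algebra.adjoin (ZMod R.p) (Set.range fun i => R.r (x i))) (R.r z) := by
  classical
  obtain ⟨P, hP0, hP⟩ := h
  let G : Finset L := Finset.univ.image x
  have hG : (G : Set L) = Set.range x := by
    ext a
    simp [G]
  have h1 : Ev t y fun R => ∀ k ∈ P.support,
      (∀ g ∈ G, g ∈ R.Λ) ∧ ((P.coeff k : Algebra.adjoin ℂ (Set.range x)) : L) ∈ R.Λ ∧
      R.r2 ((P.coeff k : Algebra.adjoin ℂ (Set.range x)) : L) ∈
        Subring.closure (R.r2 '' (G : Set L)) ∧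
      R.r ((P.coeff k : Algebra.adjoin ℂ (Set.range x)) : L) ∈
        Subring.closure (R.r '' (G : Set L)) := by
    refine Ev.all_mem P.support fun k _ => ev_adjoin G ?_
    rw [hG]
    exact (P.coeff k).2
  have hlc : ((P.leadingCoeff : Algebra.adjoin ℂ (Set.range x)) : L) ≠ 0 := by
    intro h0
    exact hP0 (leadingCoeff_eq_zero.1 (Subtype.ext h0))
  refine ((h1.and (ev_ne hlc)).and ((ev_mem z).and (Ev.all fun i => ev_mem (x i)))).mono ?_
  rintro R ⟨⟨hc, -, -, hlcR⟩, hz, hx⟩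
  refine ⟨hx, ?_⟩
  have hmem : ∀ k, ((P.coeff k : Algebra.adjoin ℂ (Set.range x)) : L) ∈ R.Λ := by
    intro k
    by_cases hk : k ∈ P.support
    · exact (hc k hk).2.1
    · rw [notMem_support_iff.1 hk]
      exact R.Λ.zero_mem
  have hex : ∀ k, ∃ a : Algebra.adjoin (ZMod R.p) (Set.range fun i => R.r (x i)),
      (a : R.F) = R.r ((P.coeff k : Algebra.adjoin ℂ (Set.range x)) : L) := by
    intro k
    by_cases hk : k ∈ P.support
    · have h2 := (hc k hk).2.2.2
      have h3 : Subring.closure (R.r '' (G : Set L)) ≤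
          (Algebra.adjoin (ZMod R.p) (Set.range fun i => R.r (x i))).toSubring := by
        rw [Subring.closure_le, hG]
        rintro _ ⟨_, ⟨i, rfl⟩, rfl⟩
        exact Algebra.subset_adjoin ⟨i, rfl⟩
      exact ⟨⟨_, h3 h2⟩, rfl⟩
    · refine ⟨0, ?_⟩
      rw [notMem_support_iff.1 hk]
      exact R.r_zero.symm
  choose a ha using hex
  refine ⟨∑ k ∈ Finset.range (P.natDegree + 1), monomial k (a k), ?_, ?_⟩
  · intro h0
    have h2 := congrArg (fun q => coeff q P.natDegree) h0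
    simp only [finsetSum_coeff, coeff_monomial, coeff_zero] at h2
    rw [Finset.sum_ite_eq' (Finset.range (P.natDegree + 1)) P.natDegree,
      if_pos (Finset.self_mem_range_succ _)] at h2
    apply hlcR
    rw [leadingCoeff, ← ha, h2]
    rfl
  · have h2 := congrArg R.r hP
    rw [aeval_eq_sum_range, R.r_sum, R.r_zero] at h2
    · rw [map_sum, ← h2]
      refine Finset.sum_congr rfl fun k _ => ?_
      have h3 : R.r (P.coeff k • z ^ k) =
          R.r ((P.coeff k : Algebra.adjoin ℂ (Set.range x)) : L) * R.r z ^ k := by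
        rw [← R.r_pow hz, ← R.r_mul (hmem k) (R.Λ.pow_mem hz k)]
        rfl
      rw [aeval_monomial, h3, ← ha k]
      rfl
    · intro k _
      rw [Algebra.smul_def]
      exact R.Λ.mul_mem (hmem k) (R.Λ.pow_mem hz k)

/-- Transcendence bases are preserved.

PROOF. Every `t j` is algebraic over `ℂ(x)`: `P j (x, t j) = 0` for a polynomial in `T` with
coefficients in `ℂ[X]` and with a non-zero coefficient `a j ∈ ℂ[X]`, `a j (x) ≠ 0`. If `Λ` contains
all coefficients of the `P j`, the `x i` and the inverses of the `a j (x)`, then `ρ (t j)` is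
algebraic over `𝔽_p(ρ x)`. So `F` is algebraic over `𝔽_p(ρ x)`, and the `n` elements `ρ (x i)` form
a transcendence basis, because `F` has transcendence degree `n`. -/
theorem ev_trans (ht : IsTranscendenceBasis ℂ t) {x : Fin n → L}
    (hx : IsTranscendenceBasis ℂ x) :
    Ev t y fun R => (∀ i, x i ∈ R.Λ) ∧ IsTranscendenceBasis (ZMod R.p) fun i => R.r (x i) := by
  have hxt : ∀ j, IsAlgebraic (Algebra.adjoin ℂ (Set.range x)) (t j) := fun j =>
    hx.isAlgebraic.isAlgebraic (t j)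
  refine ((Ev.all fun j => ev_trans_one (hxt j)).and (Ev.all fun i => ev_mem (x i))).mono ?_
  rintro R ⟨h, hxR⟩
  refine ⟨hxR, ?_⟩
  have : Algebra.IsAlgebraic (Algebra.adjoin (ZMod R.p) (Set.range fun i => R.r (x i))) R.F := by
    refine ⟨fun a => ?_⟩
    refine (R.trans.isAlgebraic.isAlgebraic a).adjoin_of_forall_isAlgebraic ?_
    rintro _ ⟨⟨j, rfl⟩, -⟩
    have h1 := (h j).2
    rw [R.r_of (R.t_mem j)] at h1
    exact h1
  refine Algebra.IsAlgebraic.isTranscendenceBasis_of_le_trdeg_of_finite (ZMod R.p) _ ?_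
  exact R.trans.cardinalMk_eq_trdeg.le

/-- one element of `ℂ(x, w)` -/
theorem ev_gen_one {x : Fin n → L} {w z : L}
    (h : ∃ (q : MvPolynomial (Fin n) ℂ) (g : (MvPolynomial (Fin n) ℂ)[X]),
      MvPolynomial.aeval x q ≠ 0 ∧ MvPolynomial.aeval x q * z =
        g.eval₂ (MvPolynomial.aeval x : MvPolynomial (Fin n) ℂ →ₐ[ℂ] L).toRingHom w) :
    Ev t y fun R => R.r z ∈ IntermediateField.adjoin (ZMod R.p)
      (insert (R.r w) (Set.range fun i => R.r (x i))) := by
  classical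
  obtain ⟨q, g, hq, hg⟩ := h
  let G : Finset L := insert w (Finset.univ.image x)
  have hxG : ∀ i, x i ∈ (G : Set L) := fun i =>
    Finset.mem_coe.2 (Finset.mem_insert_of_mem (Finset.mem_image_of_mem x (Finset.mem_univ i)))
  have hwG : w ∈ (G : Set L) := Finset.mem_coe.2 (Finset.mem_insert_self w _)
  have hmv : ∀ f : MvPolynomial (Fin n) ℂ,
      MvPolynomial.aeval x f ∈ Algebra.adjoin ℂ (G : Set L) := by
    intro f
    have h1 : Algebra.adjoin ℂ (Set.range x) ≤ Algebra.adjoin ℂ (G : Set L) := by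
      apply Algebra.adjoin_mono
      rintro _ ⟨i, rfl⟩
      exact hxG i
    apply h1
    rw [Algebra.adjoin_range_eq_range_aeval]
    exact ⟨f, rfl⟩
  have hB : g.eval₂ (MvPolynomial.aeval x : MvPolynomial (Fin n) ℂ →ₐ[ℂ] L).toRingHom w ∈
      Algebra.adjoin ℂ (G : Set L) := by
    rw [Polynomial.eval₂_eq_sum_range]
    exact Subalgebra.sum_mem _ fun i _ =>
      Subalgebra.mul_mem _ (hmv _) (Subalgebra.pow_mem _ (Algebra.subset_adjoin hwG) _)
  refine (((ev_adjoin G (hmv q)).and (ev_adjoin G hB)).and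
    ((ev_ne hq).and (ev_mem z))).mono fun R hR => ?_
  obtain ⟨⟨⟨-, hA, -, hAr⟩, ⟨-, -, -, hBr⟩⟩, ⟨-, -, hA0⟩, hz⟩ := hR
  have hsub : ∀ a ∈ Subring.closure (R.r '' (G : Set L)),
      a ∈ IntermediateField.adjoin (ZMod R.p)
        (insert (R.r w) (Set.range fun i => R.r (x i))) := by
    intro a ha
    have h1 : Subring.closure (R.r '' (G : Set L)) ≤
        (IntermediateField.adjoin (ZMod R.p)
          (insert (R.r w) (Set.range fun i => R.r (x i)))).toSubfield.toSubring := by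
      rw [Subring.closure_le]
      rintro _ ⟨b, hb, rfl⟩
      apply IntermediateField.subset_adjoin
      rcases Finset.mem_insert.1 (Finset.mem_coe.1 hb) with rfl | hb
      · exact Set.mem_insert _ _
      · obtain ⟨i, -, rfl⟩ := Finset.mem_image.1 hb
        exact Set.mem_insert_of_mem _ ⟨i, rfl⟩
    exact h1 ha
  have hmul := congrArg R.r hg
  rw [R.r_mul hA hz] at hmul
  have hz' : R.r z = R.r (g.eval₂
      (MvPolynomial.aeval x : MvPolynomial (Fin n) ℂ →ₐ[ℂ] L).toRingHom w) *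
      (R.r (MvPolynomial.aeval x q))⁻¹ := by
    rw [← hmul, mul_comm (R.r (MvPolynomial.aeval x q)), mul_assoc, mul_inv_cancel₀ hA0, mul_one]
  rw [hz']
  exact mul_mem (hsub _ hBr) (inv_mem (hsub _ hAr))

/-- Generators are preserved: if `L = ℂ(x, w)`, then `F = 𝔽_p(ρ x, ρ w)`.

PROOF. `q(x) t j = g(x, w)` and `q(x) y = g(x, w)` with `q(x) ≠ 0`: these equations reduce, and
`F = 𝔽_p(ρ t, ρ y)` (`Red.fg`). -/
theorem ev_gen {x : Fin n → L} {w : L}
    (h : ∀ z : L, ∃ (q : MvPolynomial (Fin n) ℂ) (g : (MvPolynomial (Fin n) ℂ)[X]),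
      MvPolynomial.aeval x q ≠ 0 ∧ MvPolynomial.aeval x q * z =
        g.eval₂ (MvPolynomial.aeval x : MvPolynomial (Fin n) ℂ →ₐ[ℂ] L).toRingHom w) :
    Ev t y fun R => IntermediateField.adjoin (ZMod R.p)
      (insert (R.r w) (Set.range fun i => R.r (x i))) = ⊤ := by
  have h1 : Ev t y fun R => ∀ j, R.r (t j) ∈ IntermediateField.adjoin (ZMod R.p)
      (insert (R.r w) (Set.range fun i => R.r (x i))) := Ev.all fun j => ev_gen_one (h (t j))
  refine (h1.and (ev_gen_one (h y))).mono fun R hR => ?_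
  rw [eq_top_iff, ← R.fg, IntermediateField.adjoin_le_iff]
  have ht : ∀ {z : L} (hz : z ∈ R.Λ), R.π (R.ρ2 ⟨z, hz⟩) = R.r z := fun hz => (R.r_of hz).symm
  rintro a (rfl | ⟨j, rfl⟩)
  · rw [ht]
    exact hR.2
  · show R.π (R.ρ2 ⟨t j, R.t_mem j⟩) ∈ _
    rw [ht]
    exact hR.1 j

end Pool.Agent.KM
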