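import Pool.Agent.Lib.MP_732f67_ag.G.RedMk

/-!
Lifting of polynomials over `ℂ` to the subrings which contain their coefficients.
-/

namespace Pool.Agent.KM

open Polynomial

variable {L : Type} [Field L] [Algebra ℂ L] {n : ℕ} {t : Fin n → L} {y : L}

/-- a polynomial in several variables lifts to all subrings containing a certain finite set -/
theorem redLift_mv (g : MvPolynomial (Fin n) ℂ) (B : Subring ℂ) (h : (g.coeffs : Set ℂ) ⊆ B) :
    ∃ G : MvPolynomial (Fin n) B, MvPolynomial.map B.subtype G = g := by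
  have h1 : g ∈ Set.range (MvPolynomial.map B.subtype) := by
    rw [MvPolynomial.mem_range_map_iff_coeffs_subset]
    intro c hc
    exact ⟨⟨c, h hc⟩, rfl⟩
  exact h1

/-- a polynomial lifts to all subrings containing a certain finite set -/
theorem redLift_exists (g : (MvPolynomial (Fin n) ℂ)[X]) :
    ∃ S : Finset ℂ, ∀ B : Subring ℂ, (S : Set ℂ) ⊆ B →
      ∃ G : (MvPolynomial (Fin n) B)[X], G.map (MvPolynomial.map B.subtype) = g := by
  classical
  refine ⟨g.coeffs.biUnion MvPolynomial.coeffs, fun B hB => ?_⟩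
  rw [← Polynomial.mem_lifts, Polynomial.lifts_iff_coeffs_subset_range]
  intro c hc
  obtain ⟨G, hG⟩ := redLift_mv c B fun x hx => hB (by
    rw [Finset.mem_coe, Finset.mem_biUnion]
    exact ⟨c, hc, hx⟩)
  exact ⟨G, hG⟩

/-- a nonzero polynomial stays nonzero if the inverse of one of its coefficients is in `B` -/
theorem redLift_ne (D : MvPolynomial (Fin n) ℂ) (hD : D ≠ 0) :
    ∃ c : ℂ, ∀ B : Subring ℂ, c ∈ B → ∀ D' : MvPolynomial (Fin n) B,
      MvPolynomial.map B.subtype D' = D → ∀ (K : Type) [Field K] (φ : B →+* K),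
        MvPolynomial.map φ D' ≠ 0 := by
  obtain ⟨m, hm⟩ := MvPolynomial.ne_zero_iff.1 hD
  refine ⟨(D.coeff m)⁻¹, fun B hB D' hD' K _ φ h => ?_⟩
  have h1 : ((D'.coeff m : B) : ℂ) = D.coeff m := by
    rw [← hD', MvPolynomial.coeff_map]
    rfl
  have h2 : D'.coeff m * ⟨(D.coeff m)⁻¹, hB⟩ = 1 := by
    apply Subtype.ext
    change ((D'.coeff m : B) : ℂ) * (D.coeff m)⁻¹ = 1
    rw [h1, mul_inv_cancel₀ hm]
  have h3 := congrArg φ h2
  rw [map_mul, map_one, ← MvPolynomial.coeff_map, h, MvPolynomial.coeff_zero, zero_mul] at h3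
  exact zero_ne_one h3

/-- common denominators -/
theorem redLift_common (h : ∀ x : L, ∃ (q : MvPolynomial (Fin n) ℂ)
      (g : (MvPolynomial (Fin n) ℂ)[X]), q ≠ 0 ∧ MvPolynomial.aeval t q * x =
        g.eval₂ (MvPolynomial.aeval t : MvPolynomial (Fin n) ℂ →ₐ[ℂ] L).toRingHom y)
    (S : Finset L) : ∃ q : MvPolynomial (Fin n) ℂ, q ≠ 0 ∧ ∀ s ∈ S,
      ∃ g : (MvPolynomial (Fin n) ℂ)[X], MvPolynomial.aeval t q * s =
        g.eval₂ (MvPolynomial.aeval t : MvPolynomial (Fin n) ℂ →ₐ[ℂ] L).toRingHom y := by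
  let _ : Algebra (MvPolynomial (Fin n) ℂ) L :=
    (MvPolynomial.aeval t : MvPolynomial (Fin n) ℂ →ₐ[ℂ] L).toRingHom.toAlgebra
  refine pres_common y S fun s _ => ?_
  obtain ⟨q, g, hq, hg⟩ := h s
  exact ⟨q, hq, g, hg⟩

end Pool.Agent.KM
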