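import Pool.Agent.Lib.MP_732f67_ag.G.Red
import Pool.Agent.Lib.MP_732f67_ag.G.Cas
import Pool.Agent.Lib.MP_732f67_ag.G.Loc2

/-!
The reduction defined by a presentation.
-/

namespace Pool.Agent.KM

open Polynomial

variable {L : Type} [Field L] [Algebra ℂ L] {n : ℕ} {t : Fin n → L} {y : L}

/-- the ring of the elements `g(y) / q ^ N` -/
def mkRing {P K : Type*} [CommRing P] [Field K] (i : P →+* K) (y : K) (q : P) : Subring K where
  carrier := {x | ∃ (N : ℕ) (g : P[X]), i q ^ N * x = g.eval₂ i y}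
  one_mem' := ⟨0, 1, by simp⟩
  zero_mem' := ⟨0, 0, by simp⟩
  mul_mem' := by
    rintro x x' ⟨N, g, h⟩ ⟨N', g', h'⟩
    refine ⟨N + N', g * g', ?_⟩
    rw [eval₂_mul, ← h, ← h']
    ring
  add_mem' := by
    rintro x x' ⟨N, g, h⟩ ⟨N', g', h'⟩
    refine ⟨N + N', Polynomial.C (q ^ N') * g + Polynomial.C (q ^ N) * g', ?_⟩
    rw [eval₂_add, eval₂_mul, eval₂_mul, eval₂_C, eval₂_C, ← h, ← h', map_pow, map_pow]
    ring
  neg_mem' := by
    rintro x ⟨N, g, h⟩
    refine ⟨N, -g, ?_⟩
    rw [eval₂_neg, ← h]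
    ring

theorem mem_mkRing {P K : Type*} [CommRing P] [Field K] {i : P →+* K} {y : K} {q : P} {x : K} :
    x ∈ mkRing i y q ↔ ∃ (N : ℕ) (g : P[X]), i q ^ N * x = g.eval₂ i y := Iff.rfl

theorem unit_of_red {p : ℕ} [hp : Fact p.Prime] {w : ZMod (p ^ 2)} (h : red p w ≠ 0) :
    IsUnit w := by
  have hp2 : NeZero (p ^ 2) := ⟨pow_ne_zero _ hp.out.ne_zero⟩
  have h1 : w = ((w.val : ℕ) : ZMod (p ^ 2)) := (ZMod.natCast_zmod_val w).symm
  rw [h1] at h ⊢
  rw [map_natCast] at h
  rw [ZMod.isUnit_iff_coprime]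
  apply Nat.Coprime.pow_right
  rw [Nat.coprime_comm, hp.out.coprime_iff_not_dvd]
  intro h2
  exact h ((ZMod.natCast_eq_zero_iff _ _).2 h2)

/-- units of a ring with nilpotent ideal `p` and residue field `F` -/
theorem unit_of_res {p : ℕ} {R2 F : Type*} [CommRing R2] [Field F] (π : R2 →+* F)
    (surj : Function.Surjective π) (ker : ∀ x, π x = 0 ↔ ∃ y, x = p * y)
    (flat : ∀ x, (p : R2) * x = 0 ↔ ∃ y, x = p * y) {x : R2} (h : π x ≠ 0) : IsUnit x := by
  obtain ⟨y, hy⟩ := surj (π x)⁻¹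
  have h1 : π (x * y - 1) = 0 := by
    rw [map_sub, map_mul, hy, mul_inv_cancel₀ h, map_one, sub_self]
  obtain ⟨z, hz⟩ := (ker _).1 h1
  have h2 : (p : R2) * ((p : R2) * z) = 0 := (flat _).2 ⟨z, rfl⟩
  refine IsUnit.of_mul_eq_one (y * (1 - p * z)) ?_
  have h3 : x * y = 1 + p * z := by rw [← hz]; ring
  calc x * (y * (1 - p * z)) = (x * y) * (1 - p * z) := by ring
    _ = 1 - (p : R2) * ((p : R2) * z) * z := by rw [h3]; ring
    _ = 1 := by rw [h2]; ring

/-- The reduction defined by a presentation over a subring `B` of `ℂ` and a homomorphism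
`φ : B → ℤ / p ^ 2`.

PROOF. `exists_local` for the image of `f` by `φ`. `Λ` = `{x | ∃ N g, q(t) ^ N x = g(t, y)}` with
`g ∈ B[t][Y]` (a subring). `ρ2` by `ext_hom` with `P = MvPolynomial (Fin n) B`, `i : t i ↦ t i`,
`G = f`, `φ : P → (ℤ / p ^ 2)[t] → R2`, `τ = e Y`; `φ q` is a unit of `R2` because its image in `F`
is not zero (`hq`, and `t` is algebraically independent in `F`), see the proof of
`Red.isUnit_iff`. `const`: let `c ∈ ℂ` with `q ^ N c = g(t, y)`. By `hker` the polynomial
`g - C (q ^ N) c` over `ℂ`, which vanishes at `y`, is divisible by `f`, and by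
division by the monic `f` we may take `deg g < deg f`; so `g = c q ^ N` in `ℂ[t]`, that is, all
coefficients of `g` of positive degree in `Y` vanish, and for all `α` the coefficients satisfy
`g_α = c (q ^ N)_α`. For some `α` the number `φ ((q ^ N)_α)` is a unit of `ℤ / p ^ 2` (not zero
modulo `p`, by `hq`), and `ρ2 (g_α) = ρ2 c * ρ2 ((q ^ N)_α)` with `ρ2 = φ` on `B`.
`gen`: the elements of `P2[Y]` are images of elements of `B[t][Y]`, since `ℤ → ℤ / p ^ 2` is
surjective. -/
theorem Red.mk_of (ht : IsTranscendenceBasis ℂ t) (B : Subring ℂ) (p : ℕ) [Fact p.Prime]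
    (φ : B →+* ZMod (p ^ 2)) (f : (MvPolynomial (Fin n) B)[X]) (hf : f.Monic)
    (hd : 0 < f.natDegree)
    (hy : (f.map (MvPolynomial.map B.subtype)).eval₂
      (MvPolynomial.aeval t : MvPolynomial (Fin n) ℂ →ₐ[ℂ] L).toRingHom y = 0)
    (hker : ∀ g : (MvPolynomial (Fin n) ℂ)[X],
      g.eval₂ (MvPolynomial.aeval t : MvPolynomial (Fin n) ℂ →ₐ[ℂ] L).toRingHom y = 0 →
        f.map (MvPolynomial.map B.subtype) ∣ g)
    (U V : (MvPolynomial (Fin n) B)[X]) (D : MvPolynomial (Fin n) B)
    (h : U * f + V * derivative f = Polynomial.C D)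
    (hD : MvPolynomial.map ((red p).comp φ) D ≠ 0) (q : MvPolynomial (Fin n) B)
    (hq : MvPolynomial.map ((red p).comp φ) q ≠ 0) :
    ∃ R : Red L t y, ∀ (x : L) (g : (MvPolynomial (Fin n) B)[X]),
      MvPolynomial.aeval t (MvPolynomial.map B.subtype q) * x =
        (g.map (MvPolynomial.map B.subtype)).eval₂
          (MvPolynomial.aeval t : MvPolynomial (Fin n) ℂ →ₐ[ℂ] L).toRingHom y → x ∈ R.Λ := by
  classical
  have hp : Fact p.Prime := inferInstance
  set ι : MvPolynomial (Fin n) B →+* MvPolynomial (Fin n) ℂ := MvPolynomial.map B.subtype with hι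
  set at' : MvPolynomial (Fin n) ℂ →+* L :=
    (MvPolynomial.aeval t : MvPolynomial (Fin n) ℂ →ₐ[ℂ] L).toRingHom with hat
  set i : MvPolynomial (Fin n) B →+* L := at'.comp ι with hi
  set φn : MvPolynomial (Fin n) B →+* MvPolynomial (Fin n) (ZMod (p ^ 2)) :=
    MvPolynomial.map φ with hφn
  have hιinj : Function.Injective ι := MvPolynomial.map_injective _ Subtype.val_injective
  have hatinj : Function.Injective at' := ht.1
  have hiinj : Function.Injective i := hatinj.comp hιinj
  have hp2 : Fact (1 < p ^ 2) := ⟨Nat.one_lt_pow two_ne_zero hp.out.one_lt⟩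
  -- the local ring
  have hD' : MvPolynomial.map (red p) (φn D) ≠ 0 := by
    rw [hφn, MvPolynomial.map_map]
    exact hD
  have hq' : MvPolynomial.map (red p) (φn q) ≠ 0 := by
    rw [hφn, MvPolynomial.map_map]
    exact hq
  obtain ⟨R2, _, F, _, _, π, e, surj, ker, flat, ef, trans, gen, fg⟩ :=
    exists_local p n (f.map φn) (hf.map φn) (by rw [hf.natDegree_map]; exact hd) (U.map φn)
      (V.map φn) (φn D) (by
        rw [← Polynomial.map_mul, Polynomial.derivative_map, ← Polynomial.map_mul,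
          ← Polynomial.map_add, h, Polynomial.map_C]) hD'
  set φT : MvPolynomial (Fin n) B →+* R2 := (e.comp Polynomial.C).comp φn with hφT
  have hev : ∀ g : (MvPolynomial (Fin n) B)[X], g.eval₂ φT (e X) = e (g.map φn) := by
    intro g
    rw [hφT, ← Polynomial.eval₂_map, ← Polynomial.hom_eval₂, Polynomial.eval₂_C_X]
  have hcomp : ∀ u : MvPolynomial (Fin n) (ZMod (p ^ 2)), π (e (Polynomial.C u)) =
      MvPolynomial.aeval (fun j => π (e (Polynomial.C (MvPolynomial.X j))))
        (MvPolynomial.map (red p) u) := by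
    intro u
    have h1 : (π.comp (e.comp Polynomial.C)) =
        ((MvPolynomial.aeval (fun j => π (e (Polynomial.C (MvPolynomial.X j)))) :
          MvPolynomial (Fin n) (ZMod p) →ₐ[ZMod p] F).toRingHom).comp
          (MvPolynomial.map (red p)) := by
      apply MvPolynomial.ringHom_ext'
      · exact Subsingleton.elim _ _
      · intro j
        simp
    exact congrArg (fun ψ : MvPolynomial (Fin n) (ZMod (p ^ 2)) →+* F => ψ u) h1
  have htinj : Function.Injective (MvPolynomial.aeval (fun j =>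
      π (e (Polynomial.C (MvPolynomial.X j)))) : MvPolynomial (Fin n) (ZMod p) →ₐ[ZMod p] F) :=
    trans.1
  have huq : IsUnit (φT q) := by
    apply unit_of_res π surj ker flat
    have h1 : φT q = e (Polynomial.C (φn q)) := rfl
    rw [h1, hcomp]
    intro h2
    exact hq' (htinj (by rw [h2, map_zero]))
  have hq0 : q ≠ 0 := by
    rintro rfl
    exact hq (map_zero _)
  have hiq : i q ≠ 0 := by
    intro h1
    exact hq0 (hiinj (by rw [h1, map_zero]))
  have hfy : f.eval₂ i y = 0 := by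
    rw [hi, ← Polynomial.eval₂_map]
    exact hy
  have hG : ∀ g : (MvPolynomial (Fin n) B)[X], g.eval₂ i y = 0 → f ∣ g := by
    intro g hg
    rw [hi, ← Polynomial.eval₂_map] at hg
    exact (Polynomial.map_dvd_map ι hιinj hf).1 (hker _ hg)
  have hfτ : f.eval₂ φT (e X) = 0 := by rw [hev, ef]
  set Λ : Subring L := mkRing i y q with hΛ
  obtain ⟨Φ, hΦ⟩ := ext_hom i y f hG q hiq φT huq (e X) hfτ Λ (fun x hx => hx)
  have hmem : ∀ g : (MvPolynomial (Fin n) B)[X], g.eval₂ i y ∈ Λ := fun g => ⟨0, g, by simp⟩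
  have hΦg : ∀ (g : (MvPolynomial (Fin n) B)[X]) (hg : g.eval₂ i y ∈ Λ),
      Φ ⟨g.eval₂ i y, hg⟩ = e (g.map φn) := by
    intro g hg
    have h1 := hΦ ⟨g.eval₂ i y, hg⟩ 0 g (by simp)
    rw [pow_zero, one_mul, hev] at h1
    exact h1
  have hφs : Function.Surjective φ := by
    intro z
    obtain ⟨m, hm⟩ := ZMod.intCast_surjective z
    exact ⟨(m : B), by rw [map_intCast, hm]⟩
  have hφns : Function.Surjective φn := MvPolynomial.map_surjective φ hφs
  have htm : ∀ j, t j ∈ Λ := by
    intro j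
    have h1 := hmem (Polynomial.C (MvPolynomial.X j))
    rw [Polynomial.eval₂_C] at h1
    have h2 : i (MvPolynomial.X j) = t j := by
      rw [hi, hι, hat]
      simp
    rwa [h2] at h1
  have hΦt : ∀ j, Φ ⟨t j, htm j⟩ = e (Polynomial.C (MvPolynomial.X j)) := by
    intro j
    have h2 : i (MvPolynomial.X j) = t j := by
      rw [hi, hι, hat]
      simp
    have h3 := hΦ ⟨t j, htm j⟩ 0 (Polynomial.C (MvPolynomial.X j)) (by
      rw [Polynomial.eval₂_C, h2, pow_zero, one_mul])
    rw [pow_zero, one_mul, hev, Polynomial.map_C, hφn, MvPolynomial.map_X] at h3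
    exact h3
  have hconst : ∀ c : Λ, (c : L) ∈ (algebraMap ℂ L).range → ∃ z : ℤ, Φ c = z := by
    rintro c ⟨c0, hc0⟩
    obtain ⟨N, g, hg⟩ := c.2
    -- reduce the degree
    set g' := g %ₘ f with hg'
    have hgg' : g'.eval₂ i y = g.eval₂ i y := by
      have h1 := Polynomial.modByMonic_add_div g f
      have h2 := congrArg (fun w : (MvPolynomial (Fin n) B)[X] => w.eval₂ i y) h1
      simp only [Polynomial.eval₂_add, Polynomial.eval₂_mul, hfy, zero_mul, add_zero] at h2
      exact h2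
    have hg2 : i q ^ N * c = g'.eval₂ i y := by rw [hgg']; exact hg
    -- the polynomial over `ℂ`
    have h3 : g'.map ι - Polynomial.C (ι q ^ N * MvPolynomial.C c0) = 0 := by
      by_contra hne
      have h4 : f.map ι ∣ g'.map ι - Polynomial.C (ι q ^ N * MvPolynomial.C c0) := by
        apply hker
        rw [Polynomial.eval₂_sub, Polynomial.eval₂_C, Polynomial.eval₂_map, ← hi, ← hg2,
          map_mul, map_pow]
        have h5 : at' (MvPolynomial.C c0) = c := by
          rw [hat, ← hc0]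
          simp
        rw [h5]
        exact sub_self _
      refine (hf.map ι).not_dvd_of_degree_lt hne ?_ h4
      refine lt_of_le_of_lt (Polynomial.degree_sub_le _ _) (max_lt ?_ ?_)
      · refine lt_of_le_of_lt (Polynomial.degree_map_le) ?_
        rw [hf.degree_map]
        exact Polynomial.degree_modByMonic_lt g hf
      · refine lt_of_le_of_lt Polynomial.degree_C_le ?_
        rw [hf.degree_map]
        exact Polynomial.natDegree_pos_iff_degree_pos.1 hd
    have h6 : g'.map ι = Polynomial.C (ι q ^ N * MvPolynomial.C c0) := sub_eq_zero.1 h3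
    set u := g'.coeff 0 with hu
    have h7 : g' = Polynomial.C u := by
      ext1 k
      apply hιinj
      rw [← Polynomial.coeff_map, h6, Polynomial.coeff_C, Polynomial.coeff_C]
      split_ifs with hk
      · rw [hu, ← Polynomial.coeff_map, h6, Polynomial.coeff_C_zero]
      · exact (map_zero ι).symm
    have h8 : ι u = ι (q ^ N) * MvPolynomial.C c0 := by
      rw [hu, ← Polynomial.coeff_map, h6, Polynomial.coeff_C_zero, map_pow]
    have h9 : ∀ α, ((u.coeff α : B) : ℂ) = ((q ^ N).coeff α : B) * c0 := by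
      intro α
      have h10 := congrArg (MvPolynomial.coeff α) h8
      rw [mul_comm, MvPolynomial.coeff_C_mul, hι, MvPolynomial.coeff_map,
        MvPolynomial.coeff_map, mul_comm] at h10
      exact h10
    -- a coefficient which is a unit
    obtain ⟨α, hα⟩ : ∃ α, red p (φ ((q ^ N).coeff α)) ≠ 0 := by
      by_contra hcon
      push Not at hcon
      have h10 : MvPolynomial.map ((red p).comp φ) (q ^ N) ≠ 0 := by
        rw [map_pow]
        exact pow_ne_zero _ hq
      apply h10
      ext1 α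
      rw [MvPolynomial.coeff_map, MvPolynomial.coeff_zero]
      exact hcon α
    have h11 : u * MvPolynomial.C ((q ^ N).coeff α) = q ^ N * MvPolynomial.C (u.coeff α) := by
      ext1 β
      rw [mul_comm u, mul_comm (q ^ N), MvPolynomial.coeff_C_mul, MvPolynomial.coeff_C_mul]
      apply Subtype.val_injective
      push_cast
      rw [h9 β, h9 α]
      ring
    have hβu : IsUnit (φ ((q ^ N).coeff α)) := unit_of_red hα
    obtain ⟨β, hβ⟩ := hβu
    set z0 : ZMod (p ^ 2) := ((β⁻¹ : (ZMod (p ^ 2))ˣ) : ZMod (p ^ 2)) * φ (u.coeff α) with hz0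
    have h12 : φn u = φn (q ^ N) * MvPolynomial.C z0 := by
      have h13 := congrArg φn h11
      rw [map_mul, map_mul, hφn, MvPolynomial.map_C, MvPolynomial.map_C, ← hφn, ← hβ] at h13
      have h14 : (MvPolynomial.C (β : ZMod (p ^ 2)) : MvPolynomial (Fin n) (ZMod (p ^ 2))) *
          MvPolynomial.C ((β⁻¹ : (ZMod (p ^ 2))ˣ) : ZMod (p ^ 2)) = 1 := by
        rw [← MvPolynomial.C_mul, Units.mul_inv, MvPolynomial.C_1]
      calc φn u = φn u * (MvPolynomial.C (β : ZMod (p ^ 2)) *
            MvPolynomial.C ((β⁻¹ : (ZMod (p ^ 2))ˣ) : ZMod (p ^ 2))) := by rw [h14, mul_one]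
        _ = (φn u * MvPolynomial.C (β : ZMod (p ^ 2))) *
            MvPolynomial.C ((β⁻¹ : (ZMod (p ^ 2))ˣ) : ZMod (p ^ 2)) := by ring
        _ = φn (q ^ N) * (MvPolynomial.C ((β⁻¹ : (ZMod (p ^ 2))ˣ) : ZMod (p ^ 2)) *
            MvPolynomial.C (φ (u.coeff α))) := by rw [h13]; ring
        _ = _ := by rw [← MvPolynomial.C_mul, ← hz0]
    obtain ⟨z, hz⟩ := ZMod.intCast_surjective z0
    refine ⟨z, ?_⟩
    have h15 := hΦ c N g' hg2
    rw [hev, h7, Polynomial.map_C, h12, ← hz, Polynomial.C_mul, map_mul] at h15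
    have h16 : e (Polynomial.C (φn (q ^ N))) = φT q ^ N := by
      rw [map_pow, map_pow, map_pow]
      rfl
    have h17 : e (Polynomial.C (MvPolynomial.C (z : ZMod (p ^ 2)))) = (z : R2) := by
      simp
    rw [h16, h17] at h15
    exact (huq.pow N).mul_left_cancel h15
  have hgen : ∀ z : R2, ∃ a b : Λ, π (Φ b) ≠ 0 ∧ z * Φ b = Φ a := by
    intro z
    obtain ⟨a, b, hb, hab⟩ := gen z
    obtain ⟨a', rfl⟩ := Polynomial.map_surjective φn hφns a
    obtain ⟨b', rfl⟩ := Polynomial.map_surjective φn hφns b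
    refine ⟨⟨_, hmem a'⟩, ⟨_, hmem b'⟩, ?_, ?_⟩
    · rw [hΦg]
      exact hb
    · rw [hΦg, hΦg]
      exact hab
  have hym : y ∈ Λ := by
    have h1 := hmem Polynomial.X
    rwa [Polynomial.eval₂_X] at h1
  have hΦy : Φ ⟨y, hym⟩ = e Polynomial.X := by
    have h3 := hΦ ⟨y, hym⟩ 0 Polynomial.X (by rw [Polynomial.eval₂_X, pow_zero, one_mul])
    rw [pow_zero, one_mul, hev, Polynomial.map_X] at h3
    exact h3
  have htr : IsTranscendenceBasis (ZMod p) fun j => π (Φ ⟨t j, htm j⟩) := by
    have h1 : (fun j => π (Φ ⟨t j, htm j⟩)) =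
        fun j => π (e (Polynomial.C (MvPolynomial.X j))) := funext fun j => by rw [hΦt]
    rw [h1]
    exact trans
  have hfg : IntermediateField.adjoin (ZMod p) (insert (π (Φ ⟨y, hym⟩))
      (Set.range fun j => π (Φ ⟨t j, htm j⟩))) = ⊤ := by
    have h1 : (fun j => π (Φ ⟨t j, htm j⟩)) =
        fun j => π (e (Polynomial.C (MvPolynomial.X j))) := funext fun j => by rw [hΦt]
    rw [h1, hΦy]
    exact fg
  refine ⟨{ p := p, Λ := Λ, R2 := R2, F := F, ρ2 := Φ, π := π, surj := surj, ker := ker,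
            flat := flat, const := hconst, t_mem := htm, trans := htr, gen := hgen,
            y_mem := hym, fg := hfg }, ?_⟩
  · intro x g hx
    refine ⟨1, g, ?_⟩
    rw [pow_one, hi, ← Polynomial.eval₂_map]
    exact hx

end Pool.Agent.KM
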