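import Mathlib

/-!
Projective varieties with a given function field, as sets of local rings; Cartier divisors,
canonical divisors, klt Fano varieties.
-/

namespace Pool.Agent.KM

section var

variable {k L : Type*} [Field k] [Field L] [Algebra k L]

/-- `x` is a unit of the subring `O` of the field `L` -/
def Un (O : Subalgebra k L) (x : L) : Prop := x ≠ 0 ∧ x ∈ O ∧ x⁻¹ ∈ O

/-- `O` is the local ring of `A` at a prime ideal -/
def LocAt (A O : Subalgebra k L) : Prop :=
  ∃ P : Ideal A, P.IsPrime ∧ ∀ x : L, x ∈ O ↔ ∃ a b : A, b ∉ P ∧ x = a / b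

/-- `L` is the field of fractions of `A` -/
def FracEq (A : Subalgebra k L) : Prop := ∀ x : L, ∃ a b : A, (b : L) ≠ 0 ∧ x = a / b

/-- the affine chart `v ≠ 0` of the image of the rational map given by the linear system `V` -/
def cht (V : Submodule k L) (v : L) : Subalgebra k L :=
  Algebra.adjoin k {x | ∃ w ∈ V, x = w / v}

/-- the local rings of the closure of the image of the rational map given by the linear
system `V` -/
def Pts (V : Submodule k L) : Set (Subalgebra k L) :=
  {O | ∃ v ∈ V, v ≠ 0 ∧ LocAt (cht V v) O}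

/-- `X` is (the set of the local rings of) a projective variety over `k` with function
field `L` -/
def IsProj (X : Set (Subalgebra k L)) : Prop :=
  ∃ V : Submodule k L, Module.Finite k V ∧ V ≠ ⊥ ∧ (∀ v ∈ V, v ≠ 0 → FracEq (cht V v)) ∧
    X = Pts V

/-- all local rings are integrally closed -/
def Normal (X : Set (Subalgebra k L)) : Prop := ∀ O ∈ X, ∀ x : L, IsIntegral O x → x ∈ O

/-- `D` is a Cartier divisor on `X`, given by local equations `D O` -/
def IsCar (X : Set (Subalgebra k L)) (D : Subalgebra k L → Lˣ) : Prop :=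
  ∀ O ∈ X, ∃ S : Finset L, (∀ s ∈ S, s ∈ O) ∧
    ∀ O' ∈ X, (∀ s ∈ S, s ∈ O') → Un O' (D O / D O' : Lˣ)

/-- the global sections of `O(D)` -/
def Sec (X : Set (Subalgebra k L)) (D : Subalgebra k L → Lˣ) : Submodule k L where
  carrier := {f | ∀ O ∈ X, f * D O ∈ O}
  zero_mem' O _ := by
    rw [zero_mul]
    exact O.zero_mem
  add_mem' hf hg O hO := by
    rw [add_mul]
    exact O.add_mem (hf O hO) (hg O hO)
  smul_mem' c f hf O hO := by
    rw [smul_mul_assoc]
    exact O.smul_mem (hf O hO) c

/-- the linear system `|D|` has no base points -/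
def Free (X : Set (Subalgebra k L)) (D : Subalgebra k L → Lˣ) : Prop :=
  ∀ O ∈ X, ∃ f ∈ Sec X D, Un O (f * D O)

/-- some `m D`, `m ≥ 1`, is very ample -/
def Ample (X : Set (Subalgebra k L)) (D : Subalgebra k L → Lˣ) : Prop :=
  ∃ m : ℕ, 1 ≤ m ∧ Free X (D ^ m) ∧ X = Pts (Sec X (D ^ m))

/-- `O` is a discrete valuation ring with field of fractions `L`, the local ring of a finitely
generated algebra: a prime divisor on a variety with function field `L` -/
def PrimDiv (O : Subalgebra k L) : Prop :=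
  IsDiscreteValuationRing O ∧ FracEq O ∧ ∃ A : Subalgebra k L, A.FG ∧ LocAt A O

/-- `π` generates the maximal ideal of `O` -/
def Unif (O : Subalgebra k L) (π : L) : Prop :=
  π ∈ O ∧ π⁻¹ ∉ O ∧ ∀ x ∈ O, x⁻¹ ∈ O ∨ x / π ∈ O

/-- the order of `x` along `O` is `e` -/
def IsOrd (O : Subalgebra k L) (x : L) (e : ℤ) : Prop := ∃ π, Unif O π ∧ Un O (x / π ^ e)

/-- Let `η` be the form of degree `n` with `η (D 1, ..., D n) = 1`. These are the functions `f`
such that `f η` is regular on `O`, that is, in the `O`-module generated by the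
`dy 1 ∧ ... ∧ dy n = det (D i (y j)) η`, `y j ∈ O` -/
def lat {n : ℕ} (D : Fin n → Derivation k L L) (O : Subalgebra k L) : Submodule O L :=
  Submodule.span O {f | ∃ y : Fin n → O, f = Matrix.det (Matrix.of fun i j => D i (y j))}

/-- the order of the form `η` along `O` is `e` -/
def IsOrdF {n : ℕ} (D : Fin n → Derivation k L L) (O : Subalgebra k L) (e : ℤ) : Prop :=
  ∃ π, Unif O π ∧ ∀ f : L, f ∈ lat D O ↔ f * π ^ e ∈ O

/-- `κ` is the Cartier divisor `m K_X`, where `K_X` is the divisor of the form `η` -/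
def IsCan {n : ℕ} (X : Set (Subalgebra k L)) (D : Fin n → Derivation k L L) (m : ℕ)
    (κ : Subalgebra k L → Lˣ) : Prop :=
  IsCar X κ ∧ ∀ O ∈ X, PrimDiv O → ∀ e, IsOrdF D O e → IsOrd O (κ O) (m * e)

/-- `O` dominates `O'` -/
def Dom (O' O : Subalgebra k L) : Prop := O' ≤ O ∧ ∀ x ∈ O', x⁻¹ ∈ O → x⁻¹ ∈ O'

/-- `X` has klt singularities: the discrepancies `ord η - ord κ / m` of all prime divisors over
`X` are greater than `-1` -/
def Klt {n : ℕ} (X : Set (Subalgebra k L)) (D : Fin n → Derivation k L L) (m : ℕ)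
    (κ : Subalgebra k L → Lˣ) : Prop :=
  ∀ O, PrimDiv O → ∀ O' ∈ X, Dom O' O → ∀ e l, IsOrdF D O e → IsOrd O (κ O') l →
    -(m : ℤ) < m * e - l

/-- `X` is a klt Fano variety of dimension `n`, `η` a rational form of degree `n` and `κ` the
Cartier divisor `m K_X` -/
structure KltFano {n : ℕ} (X : Set (Subalgebra k L)) (D : Fin n → Derivation k L L) (m : ℕ)
    (κ : Subalgebra k L → Lˣ) : Prop where
  proj : IsProj X
  normal : Normal X
  dim : Algebra.trdeg k L = n
  frame : LinearIndependent L D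
  pos : 1 ≤ m
  can : IsCan X D m κ
  klt : Klt X D m κ
  fano : Ample X κ⁻¹

/-- `X` is isomorphic to `(ℙ^1)^n`, embedded by the products of some of the coordinates `x i` -/
def IsP1n (X : Set (Subalgebra k L)) (n : ℕ) : Prop :=
  ∃ x : Fin n → L, AlgebraicIndependent k x ∧
    X = Pts (Submodule.span k (Set.range fun s : Finset (Fin n) => ∏ i ∈ s, x i))

end var

end Pool.Agent.KM
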