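import Pool.Agent.Lib.MP_732f67_ag.G.Stmt

/-!
Log resolutions, with the condition on the differentials stated for a general ring.
-/

namespace Pool.Agent.KM

open scoped KaehlerDifferential

/-- the differentials of the `x i` form a basis of the module of differentials of `O` over `k` -/
def Coords (k : Type*) {O : Type*} [CommRing k] [CommRing O] [Algebra k O] {n : ℕ}
    (x : Fin n → O) : Prop :=
  ∃ b : Module.Basis (Fin n) O Ω[O⁄k], ∀ i, b i = KaehlerDifferential.D k O (x i)

variable {k L : Type*} [Field k] [Field L] [Algebra k L]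

/-- some divisor `μ^* A - Θ` is ample, where `Θ ≥ 0` has the exceptional divisors as its support -/
def ExcAmple (X W : Set (Subalgebra k L)) : Prop :=
  ∃ A B Θ : Subalgebra k L → Lˣ, IsCar X A ∧ (∀ O ∈ W, ∀ O' ∈ X, Dom O' O →
    Un O (B O / A O' : Lˣ)) ∧ IsCar W Θ ∧ (∀ O ∈ W, PrimDiv O → ∀ e, IsOrd O (Θ O) e →
      0 ≤ e ∧ (e = 0 ↔ O ∈ X)) ∧ Ample W (B / Θ)

/-- `W` is a log resolution of `X`, with the exceptional prime divisors `P j` and their local
equations `E j`: it is a smooth projective variety with a birational morphism to `X`, everywhere the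
`P j` are given by some of the elements `x i` of a family whose differentials form a basis
of the differentials, and some divisor `μ^* A - Θ` is ample, where `Θ ≥ 0` has the support
`∑ P j` -/
structure LogResolution (n : ℕ) {s : ℕ} (X W : Set (Subalgebra k L)) (P : Fin s → Subalgebra k L)
    (E : Fin s → Subalgebra k L → Lˣ) : Prop where
  proj : IsProj W
  dom : ∀ O ∈ W, ∃ O' ∈ X, Dom O' O
  smooth : ∀ O ∈ W, Algebra.FormallySmooth k O
  exc : ∀ O, (∃ j, O = P j) ↔ O ∈ W ∧ PrimDiv O ∧ O ∉ X
  inj : Function.Injective P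
  car : ∀ j, IsCar W (E j)
  eqn : ∀ j, ∀ O ∈ W, PrimDiv O → (O = P j → Unif O (E j O)) ∧ (O ≠ P j → Un O (E j O))
  snc : ∀ O ∈ W, ∃ x : Fin n → O, Coords k x ∧
    ∀ j, Un O (E j O) ∨ ∃ i, Un O (E j O / x i)
  ample : ExcAmple X W

theorem LogResolution.logRes {n s : ℕ} {X W : Set (Subalgebra k L)} {P : Fin s → Subalgebra k L}
    {E : Fin s → Subalgebra k L → Lˣ} (h : LogResolution n X W P E) : LogRes n X W P E where
  proj := h.proj
  dom := h.dom
  smooth := h.smooth
  exc := h.exc
  inj := h.inj
  car := h.car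
  eqn := h.eqn
  snc := h.snc
  ample := h.ample

end Pool.Agent.KM
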