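import Pool.Agent.Lib.MP_732f67_ag.G.Stm0

/-!
Semiample divisors, log resolutions, decompositions into semiample divisors.
-/

namespace Pool.Agent.KM

open scoped KaehlerDifferential

section var

variable {k L : Type*} [Field k] [Field L] [Algebra k L]

/-- `|m D|` has no base points for all large `m` -/
def Semi (X : Set (Subalgebra k L)) (D : Subalgebra k L → Lˣ) : Prop :=
  ∃ m₀ : ℕ, ∀ m, m₀ ≤ m → Free X (D ^ m)

/-- `W` is a log resolution of `X`, with the exceptional prime divisors `P j` and their local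
equations `E j`: it is a smooth projective variety with a birational morphism to `X`, everywhere the
`P j` are given by some of the elements `x i` of a family whose differentials form a basis
of the differentials, and some divisor `μ^* A - Θ` is ample, where `Θ ≥ 0` has the support
`∑ P j` -/
structure LogRes (n : ℕ) {s : ℕ} (X W : Set (Subalgebra k L)) (P : Fin s → Subalgebra k L)
    (E : Fin s → Subalgebra k L → Lˣ) : Prop where
  proj : IsProj W
  dom : ∀ O ∈ W, ∃ O' ∈ X, Dom O' O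
  smooth : ∀ O ∈ W, Algebra.FormallySmooth k O
  exc : ∀ O, (∃ j, O = P j) ↔ O ∈ W ∧ PrimDiv O ∧ O ∉ X
  inj : Function.Injective P
  car : ∀ j, IsCar W (E j)
  eqn : ∀ j, ∀ O ∈ W, PrimDiv O → (O = P j → Unif O (E j O)) ∧ (O ≠ P j → Un O (E j O))
  snc : ∀ O ∈ W, ∃ x : Fin n → O,
    (∃ b : Module.Basis (Fin n) O Ω[O⁄k], ∀ i, b i = KaehlerDifferential.D k O (x i)) ∧
    ∀ j, Un O (E j O) ∨ ∃ i, Un O (E j O / x i)
  ample : ∃ A B Θ : Subalgebra k L → Lˣ, IsCar X A ∧ (∀ O ∈ W, ∀ O' ∈ X, Dom O' O →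
    Un O (B O / A O' : Lˣ)) ∧ IsCar W Θ ∧ (∀ O ∈ W, PrimDiv O → ∀ e, IsOrd O (Θ O) e →
      0 ≤ e ∧ (e = 0 ↔ O ∈ X)) ∧ Ample W (B / Θ)

/-- `D` is trivial up to torsion -/
def Triv (X : Set (Subalgebra k L)) (D : Subalgebra k L → Lˣ) : Prop :=
  ∃ m : ℕ, 1 ≤ m ∧ ∃ u : Lˣ, ∀ O ∈ X, Un O (u * D O ^ m : Lˣ)

/-- `- κ / m` is `ℝ`-linearly equivalent to `∑ a i * M i` -/
def RLin {r : ℕ} (X : Set (Subalgebra k L)) (m : ℕ) (κ : Subalgebra k L → Lˣ) (a : Fin r → ℝ)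
    (M : Fin r → Subalgebra k L → Lˣ) : Prop :=
  ∃ (s : ℕ) (b : Fin s → ℝ) (u : Fin s → Lˣ), ∀ O ∈ X, PrimDiv O →
    ∀ (c : ℤ) (e : Fin r → ℤ) (f : Fin s → ℤ), IsOrd O (κ O) c → (∀ i, IsOrd O (M i O) (e i)) →
      (∀ j, IsOrd O (u j) (f j)) → -(c : ℝ) / m = ∑ i, a i * e i + ∑ j, b j * f j

/-- `- K_X ~ ∑ a i * M i` is a decomposition into semiample divisors `M i` with positive real
coefficients `a i` -/
structure Dec {r : ℕ} (X : Set (Subalgebra k L)) (m : ℕ) (κ : Subalgebra k L → Lˣ)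
    (a : Fin r → ℝ) (M : Fin r → Subalgebra k L → Lˣ) : Prop where
  pos : ∀ i, 0 < a i
  car : ∀ i, IsCar X (M i)
  semi : ∀ i, Semi X (M i)
  ne : ∀ i, ¬ Triv X (M i)
  equiv : RLin X m κ a M

end var

/-- the statement -/
def Main : Prop :=
  ∀ (L : Type) [Field L] [Algebra ℂ L] (n : ℕ) (X : Set (Subalgebra ℂ L))
    (D : Fin n → Derivation ℂ L L) (m : ℕ) (κ : Subalgebra ℂ L → Lˣ), KltFano X D m κ →
    ∀ (W : Set (Subalgebra ℂ L)) (s : ℕ) (P : Fin s → Subalgebra ℂ L)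
      (E : Fin s → Subalgebra ℂ L → Lˣ), LogRes n X W P E →
    ∀ (r : ℕ) (a : Fin r → ℝ) (M : Fin r → Subalgebra ℂ L → Lˣ), Dec X m κ a M →
      ∑ i, a i ≤ 2 * n ∧ (∑ i, a i = 2 * n → IsP1n X n)

end Pool.Agent.KM
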