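import Pool.Agent.Lib.MP_732f67_ag.G.Ver
import Pool.Agent.Lib.MP_732f67_ag.G.OrdP

/-!
Compactness of projective varieties; finite dimensional subsystems of complete linear systems.
-/

namespace Pool.Agent.KM

variable {k L : Type*} [Field k] [Field L] [Algebra k L]

/-- Compactness of an affine chart: if `N O` is a finite set of elements of `O`, for every local ring
`O` of `A`, then finitely many of the neighbourhoods `N O ⊆ Q` cover the chart. -/
theorem va2_aff (A : Subalgebra k L) (N : Subalgebra k L → Set L)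
    (hN : ∀ O, LocAt A O → (N O).Finite ∧ ∀ s ∈ N O, s ∈ O) :
    ∃ T : Set (Subalgebra k L), T.Finite ∧ (∀ O ∈ T, LocAt A O) ∧
      ∀ Q, LocAt A Q → ∃ O ∈ T, ∀ s ∈ N O, s ∈ Q := by
  classical
  obtain ⟨S, hS⟩ : ∃ S : Set A, S = {b : A | ∃ O, LocAt A O ∧
    ∀ Q : Subalgebra k L, A ≤ Q → (b : L)⁻¹ ∈ Q → ∀ s ∈ N O, s ∈ Q} := ⟨_, rfl⟩
  have htop : Ideal.span S = ⊤ := by
    by_contra hne
    obtain ⟨P, hP, hle⟩ := Ideal.exists_le_maximal _ hne
    have hPp : P.IsPrime := hP.isPrime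
    have hl : LocAt A (covLoc A P) := covLoc_locAt A P
    obtain ⟨hfin, hmem⟩ := hN _ hl
    have h1 : ∀ s : L, ∃ a b : A, s ∈ N (covLoc A P) → b ∉ P ∧ s = a / b := by
      intro s
      by_cases hs : s ∈ N (covLoc A P)
      · obtain ⟨a, b, hb, hab⟩ := hmem s hs
        exact ⟨a, b, fun _ => ⟨hb, hab⟩⟩
      · exact ⟨0, 0, fun h => absurd h hs⟩
    choose a b hab using h1
    have hbP : ∏ s ∈ hfin.toFinset, b s ∉ P := by
      intro h
      obtain ⟨s, hs, hs'⟩ := hPp.prod_mem_iff.1 h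
      exact (hab s (hfin.mem_toFinset.1 hs)).1 hs'
    apply hbP
    refine hle (Ideal.subset_span ?_)
    rw [hS]
    refine ⟨_, hl, fun Q hQ hb s hs => ?_⟩
    have hb0 : (b s : L) ≠ 0 := by
      intro h0
      apply (hab s hs).1
      rw [show b s = 0 from Subtype.ext h0]
      exact P.zero_mem
    have hsf : s ∈ hfin.toFinset := hfin.mem_toFinset.2 hs
    have h2 : ((∏ s ∈ hfin.toFinset, b s : A) : L) =
        (b s : L) * ((∏ s ∈ hfin.toFinset.erase s, b s : A) : L) := by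
      rw [← Finset.mul_prod_erase _ _ hsf]
      rfl
    have hp0 : ((∏ s ∈ hfin.toFinset.erase s, b s : A) : L) ≠ 0 := by
      intro h0
      apply hbP
      rw [← Finset.mul_prod_erase _ _ hsf,
        show (∏ s ∈ hfin.toFinset.erase s, b s : A) = 0 from Subtype.ext h0, mul_zero]
      exact P.zero_mem
    have h3 : s = (a s : L) * ((∏ s ∈ hfin.toFinset.erase s, b s : A) : L) *
        ((∏ s ∈ hfin.toFinset, b s : A) : L)⁻¹ := by
      rw [h2]
      conv_lhs => rw [(hab s hs).2]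
      field_simp
    rw [h3]
    exact Q.mul_mem (Q.mul_mem (hQ (a s).2) (hQ (Subtype.prop _))) hb
  obtain ⟨t, htS, ht1⟩ := Submodule.mem_span_finite_of_mem_span
    (show (1 : A) ∈ Submodule.span A S by
      have : (1 : A) ∈ Ideal.span S := by
        rw [htop]
        trivial
      exact this)
  have h2 : ∀ b : t, ∃ O, LocAt A O ∧
      ∀ Q : Subalgebra k L, A ≤ Q → ((b : A) : L)⁻¹ ∈ Q → ∀ s ∈ N O, s ∈ Q := by
    intro b
    have h3 := htS b.2
    rw [hS] at h3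
    exact h3
  choose O hO hO' using h2
  refine ⟨Set.range O, Set.finite_range O, ?_, ?_⟩
  · rintro _ ⟨b, rfl⟩
    exact hO b
  · intro Q hQ
    obtain ⟨P, hP, hPQ⟩ := id hQ
    have h4 : ∃ b ∈ t, b ∉ P := by
      by_contra hcon
      push Not at hcon
      have h5 : Submodule.span A (t : Set A) ≤ P := Submodule.span_le.2 fun b hb => hcon b hb
      exact hP.ne_top ((Ideal.eq_top_iff_one _).2 (h5 ht1))
    obtain ⟨b, hb, hbP⟩ := h4
    refine ⟨O ⟨b, hb⟩, ⟨_, rfl⟩, hO' ⟨b, hb⟩ Q hQ.le ?_⟩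
    refine (hPQ _).2 ⟨1, b, hbP, ?_⟩
    simp

/-- Compactness of a projective variety. -/
theorem va2_compact {W : Set (Subalgebra k L)} (hW : IsProj W) (N : Subalgebra k L → Set L)
    (hN : ∀ O ∈ W, (N O).Finite ∧ ∀ s ∈ N O, s ∈ O) :
    ∃ T : Set (Subalgebra k L), T.Finite ∧ T ⊆ W ∧ ∀ Q ∈ W, ∃ O ∈ T, ∀ s ∈ N O, s ∈ Q := by
  classical
  obtain ⟨V, hV, hV0, hfr, rfl⟩ := hW
  obtain ⟨G, hG⟩ := (Module.Finite.iff_fg.1 hV : V.FG)
  obtain ⟨G0, hG0⟩ : ∃ G0 : Finset L, G0 = G.erase 0 := ⟨_, rfl⟩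
  have hspan : Submodule.span k (Set.range (fun g : G0 => (g : L))) = V := by
    rw [Subtype.range_coe_subtype, ← hG, hG0]
    apply le_antisymm
    · refine Submodule.span_mono ?_
      intro x hx
      exact (Finset.mem_erase.1 hx).2
    · refine Submodule.span_le.2 ?_
      intro x hx
      by_cases hx0 : x = 0
      · rw [hx0]
        exact Submodule.zero_mem _
      · exact Submodule.subset_span (Finset.mem_erase.2 ⟨hx0, hx⟩)
  have hne : Nonempty G0 := by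
    by_contra hcon
    rw [not_nonempty_iff] at hcon
    apply hV0
    rw [← hspan, Set.range_eq_empty, Submodule.span_empty]
  have hz0 : ∀ x ∈ G0, x ≠ 0 := by
    rw [hG0]
    exact fun x hx => (Finset.mem_erase.1 hx).1
  have hz : ∀ g : G0, (g : L) ≠ 0 := fun g => hz0 g g.2
  have hgV : ∀ g : G0, (g : L) ∈ V := by
    intro g
    rw [← hspan]
    exact Submodule.subset_span ⟨g, rfl⟩
  have h1 : ∀ g : G0, ∃ T : Set (Subalgebra k L), T.Finite ∧ (∀ O ∈ T, LocAt (cht V (g : L)) O) ∧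
      ∀ Q, LocAt (cht V (g : L)) Q → ∃ O ∈ T, ∀ s ∈ N O, s ∈ Q := fun g =>
    va2_aff (cht V (g : L)) N fun O hO => hN O ⟨g, hgV g, hz g, hO⟩
  choose T hTf hTW hTQ using h1
  refine ⟨⋃ g, T g, Set.finite_iUnion hTf, ?_, ?_⟩
  · refine Set.iUnion_subset fun g O hO => ⟨g, hgV g, hz g, hTW g O hO⟩
  · intro Q hQ
    have hQl : IsLocalRing Q := by
      obtain ⟨v, hv, hv0, hl⟩ := hQ
      exact hl.isLocalRing
    obtain ⟨R, hR1, hR2⟩ := exists_val hQl
    have hRk : ∀ c : k, algebraMap k L c ∈ R := fun c => hR1 _ (Q.algebraMap_mem c)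
    obtain ⟨g, hg⟩ := exists_cht_le_of_span (k := k) (fun g : G0 => (g : L)) hz R hRk
    rw [hspan] at hg
    let R' : Subalgebra k L := { R.toSubring with algebraMap_mem' := hRk }
    have hR' : IsLocalRing R' := (inferInstance : IsLocalRing R)
    have h2 : cht V (g : L) ≤ Q := by
      refine Pts.le_of_dom (R := R') hQ ⟨fun x hx => hR1 x hx, fun x hx hx' => hR2 x hx hx'⟩
        (hgV g) (hz g) le_rfl ?_ (fun x hx => hg x hx) hR'
      intro x hx
      exact ⟨x, hx, 1, Subalgebra.one_mem _, one_ne_zero, by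
        rw [inv_one]
        exact Subalgebra.one_mem _, (div_one x).symm⟩
    obtain ⟨O, hO, hO'⟩ := hTQ g Q (Pts.locAt hQ (hgV g) (hz g) h2)
    exact ⟨O, Set.mem_iUnion.2 ⟨g, hO⟩, hO'⟩

/-- near a point a generator generates -/
theorem va2_gen {W : Set (Subalgebra k L)} {D : Subalgebra k L → Lˣ} (hD : IsCar W D)
    {O : Subalgebra k L} (hO : O ∈ W) {f : L} (hu : Un O (f * D O)) :
    ∃ N : Set L, N.Finite ∧ (∀ s ∈ N, s ∈ O) ∧ ∀ Q ∈ W, (∀ s ∈ N, s ∈ Q) → Un Q (f * D Q) := by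
  obtain ⟨S, hS, hS'⟩ := hD O hO
  refine ⟨(S : Set L) ∪ {f * (D O : L), (f * (D O : L))⁻¹}, ?_, ?_, ?_⟩
  · exact S.finite_toSet.union (by simp)
  · rintro s (hs | hs)
    · exact hS s hs
    · rcases hs with hs | hs
      · rw [hs]
        exact hu.2.1
      · rw [Set.mem_singleton_iff.1 hs]
        exact hu.2.2
  · intro Q hQ h
    have h1 : Un Q (f * (D O : L)) := ⟨hu.1, h _ (Or.inr (Or.inl rfl)), h _ (Or.inr (Or.inr rfl))⟩
    have h2 := hS' Q hQ fun s hs => h s (Or.inl hs)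
    have h3 : f * (D Q : L) = f * (D O : L) * ((D O / D Q : Lˣ) : L)⁻¹ := by
      rw [Units.val_div_eq_div_val, inv_div, mul_assoc, mul_div_cancel₀ _ (D O).ne_zero]
    rw [h3]
    exact h1.mul h2.inv

/-- an element of the chart of a big linear system belongs to the chart of a finite dimensional
subsystem -/
theorem va2_fin {V : Submodule k L} {v : L} {x : L} (hx : x ∈ cht V v) :
    ∃ F : Set L, F.Finite ∧ F ⊆ V ∧ ∀ V' : Submodule k L, F ⊆ V' → x ∈ cht V' v := by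
  induction hx using Algebra.adjoin_induction with
  | mem x hx =>
    obtain ⟨w, hw, rfl⟩ := hx
    refine ⟨{w}, Set.finite_singleton w, by simpa using hw, fun V' hV' => ?_⟩
    exact ptc_div_mem (hV' rfl)
  | algebraMap c =>
    exact ⟨∅, Set.finite_empty, Set.empty_subset _, fun V' _ => (cht V' v).algebraMap_mem c⟩
  | add x y _ _ hx hy =>
    obtain ⟨F, h1, h2, h3⟩ := hx
    obtain ⟨F', h1', h2', h3'⟩ := hy
    exact ⟨F ∪ F', h1.union h1', Set.union_subset h2 h2', fun V' hV' =>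
      (cht V' v).add_mem (h3 V' (Set.subset_union_left.trans hV'))
        (h3' V' (Set.subset_union_right.trans hV'))⟩
  | mul x y _ _ hx hy =>
    obtain ⟨F, h1, h2, h3⟩ := hx
    obtain ⟨F', h1', h2', h3'⟩ := hy
    exact ⟨F ∪ F', h1.union h1', Set.union_subset h2 h2', fun V' hV' =>
      (cht V' v).mul_mem (h3 V' (Set.subset_union_left.trans hV'))
        (h3' V' (Set.subset_union_right.trans hV'))⟩

/-- the same for the elements of a local ring -/
theorem va2_loc {V : Submodule k L} {v : L} {O : Subalgebra k L} (hl : LocAt (cht V v) O) {x : L}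
    (hx : x ∈ O) : ∃ F N : Set L, F.Finite ∧ F ⊆ V ∧ N.Finite ∧ (∀ s ∈ N, s ∈ O) ∧
      ∀ (V' : Submodule k L) (Q : Subalgebra k L) (h : cht V' v ≤ Q), F ⊆ V' →
        (∀ s ∈ N, s ∈ Q) → x ∈ locOf (cht V' v) Q h := by
  obtain ⟨-, -, h3⟩ := pt_locAt_iff.1 hl
  obtain ⟨a, ha, b, hb, hb0, hbO, rfl⟩ := h3 x hx
  obtain ⟨F, hF1, hF2, hF3⟩ := va2_fin ha
  obtain ⟨F', hF1', hF2', hF3'⟩ := va2_fin hb
  refine ⟨F ∪ F', {b⁻¹}, hF1.union hF1', Set.union_subset hF2 hF2', Set.finite_singleton _, ?_, ?_⟩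
  · intro s hs
    rw [Set.mem_singleton_iff.1 hs]
    exact hbO
  · intro V' Q h hV' hN
    exact ⟨a, hF3 V' (Set.subset_union_left.trans hV'), b,
      hF3' V' (Set.subset_union_right.trans hV'), hb0, hN _ rfl, rfl⟩

/-- the local statement for very ample linear systems -/
theorem va2_near {W : Set (Subalgebra k L)} (hW : IsProj W) {D : Subalgebra k L → Lˣ}
    (hD : IsCar W D) (hF : Free W D) (h : W = Pts (Sec W D)) {O : Subalgebra k L} (hO : O ∈ W) :
    ∃ (f : L) (F N : Set L), f ∈ F ∧ F.Finite ∧ F ⊆ Sec W D ∧ N.Finite ∧ (∀ s ∈ N, s ∈ O) ∧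
      ∀ Q ∈ W, (∀ s ∈ N, s ∈ Q) → Un Q (f * D Q) ∧
        ∀ V : Submodule k L, F ⊆ V → V ≤ Sec W D → LocAt (cht V f) Q := by
  classical
  have hO1 := hO
  rw [h] at hO1
  obtain ⟨v, hv, hv0, hl⟩ := hO1
  obtain ⟨g, hg, hgu⟩ := hF O hO
  have hg0 : g ≠ 0 := left_ne_zero_of_mul hgu.1
  have hDO : (D O : L) ≠ 0 := (D O).ne_zero
  have hvu : Un O (v * D O) := by
    refine ⟨mul_ne_zero hv0 hDO, hv O hO, ?_⟩
    have h1 : (v * (D O : L))⁻¹ = g / v * (g * (D O : L))⁻¹ := by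
      field_simp
    rw [h1]
    exact O.mul_mem (hl.le (ptc_div_mem hg)) hgu.2.2
  obtain ⟨N1, hN1, hN1', hN1''⟩ := va2_gen hD hO hvu
  obtain ⟨V0, hV0, -, -, hWV⟩ := hW
  have hO2 := hO
  rw [hWV] at hO2
  obtain ⟨v0, hv1, hv2, hl0⟩ := hO2
  obtain ⟨G, hG⟩ := cht_fg hV0 v0
  have hGO : ∀ x : G, (x : L) ∈ O := fun x => hl0.le (by
    rw [← hG]
    exact Algebra.subset_adjoin x.2)
  have h1 : ∀ x : G, _ := fun x => va2_loc hl (hGO x)
  choose F N hFf hFV hNf hNO hmem using h1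
  refine ⟨v, {v} ∪ ⋃ x, F x, N1 ∪ ⋃ x, N x, Or.inl rfl,
    (Set.finite_singleton v).union (Set.finite_iUnion hFf), ?_,
    hN1.union (Set.finite_iUnion hNf), ?_, ?_⟩
  · refine Set.union_subset ?_ (Set.iUnion_subset hFV)
    intro x hx
    rw [Set.mem_singleton_iff.1 hx]
    exact hv
  · rintro s (hs | hs)
    · exact hN1' s hs
    · obtain ⟨x, hx⟩ := Set.mem_iUnion.1 hs
      exact hNO x s hx
  · intro Q hQ hs
    have hvQ : Un Q (v * D Q) := hN1'' Q hQ fun s hs' => hs s (Or.inl hs')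
    refine ⟨hvQ, fun V hFV' hV => ?_⟩
    have hvV : v ∈ V := hFV' (Or.inl rfl)
    have hle : cht V v ≤ Q := by
      refine Algebra.adjoin_le ?_
      rintro _ ⟨w, hw, rfl⟩
      have h2 : w / v = w * (D Q : L) * (v * (D Q : L))⁻¹ := by
        have := (D Q).ne_zero
        field_simp
      change w / v ∈ Q
      rw [h2]
      exact Q.mul_mem (hV hw Q hQ) hvQ.2.2
    have hA0 : cht V0 v0 ≤ locOf (cht V v) Q hle := by
      rw [← hG]
      refine Algebra.adjoin_le ?_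
      intro x hx
      refine hmem ⟨x, hx⟩ V Q hle ?_ ?_
      · intro y hy
        exact hFV' (Or.inr (Set.mem_iUnion.2 ⟨_, hy⟩))
      · intro s hs'
        exact hs s (Or.inr (Set.mem_iUnion.2 ⟨_, hs'⟩))
    have hA0Q : cht V0 v0 ≤ Q := hA0.trans (dom_locOf hle).1
    rw [hWV] at hQ
    obtain ⟨-, hQl, hfr⟩ := pt_locAt_iff.1 (Pts.locAt hQ hv1 hv2 hA0Q)
    refine pt_locAt_iff.2 ⟨hle, hQl, fun x hx => ?_⟩
    obtain ⟨a, ha, b, hb, hb0, hbQ, rfl⟩ := hfr x hx
    have h3 : b⁻¹ ∈ locOf (cht V v) Q hle := (dom_locOf hle).2 b (hA0 hb) hbQ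
    have h4 : a / b ∈ locOf (cht V v) Q hle := by
      rw [div_eq_mul_inv]
      exact Subalgebra.mul_mem _ (hA0 ha) h3
    exact h4

end Pool.Agent.KM
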