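import Pool.Agent.Lib.MP_732f67_ag.G.Ver
import Pool.Agent.Lib.MP_732f67_ag.G.OrdP

/-!
Auxiliary lemmas for `exists_bf_sub`: basic open neighbourhoods, the points of a covering, fractions on
the intersection of two charts.
-/

namespace Pool.Agent.KM

variable {k L : Type*} [Field k] [Field L] [Algebra k L]

/-- finitely many elements of a point are contained in a basic open neighbourhood -/
theorem va3_nb {V : Submodule k L} {O : Subalgebra k L} (hO : O ∈ Pts V) (S : Finset L)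
    (hS : ∀ s ∈ S, s ∈ O) : ∃ (d : ℕ) (g : L), 1 ≤ d ∧ g ∈ V ^ d ∧ g ≠ 0 ∧
      cht (V ^ d) g ≤ O ∧ ∀ s ∈ S, s ∈ cht (V ^ d) g := by
  classical
  obtain ⟨v, hv, hv0, hl⟩ := hO
  have h3 := (pt_locAt_iff.1 hl).2.2
  have key : ∃ b ∈ cht V v, b ≠ 0 ∧ b⁻¹ ∈ O ∧ ∀ s ∈ S, s * b ∈ cht V v := by
    induction S using Finset.induction_on with
    | empty =>
      refine ⟨1, Subalgebra.one_mem _, one_ne_zero, ?_, fun s hs => absurd hs (by simp)⟩
      rw [inv_one]
      exact O.one_mem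
    | insert x S hx ih =>
      obtain ⟨b, hb, hb0, hbO, hbS⟩ := ih fun s hs => hS s (Finset.mem_insert_of_mem hs)
      obtain ⟨a, ha, c, hc, hc0, hcO, hac⟩ := h3 x (hS x (Finset.mem_insert_self _ _))
      refine ⟨b * c, Subalgebra.mul_mem _ hb hc, mul_ne_zero hb0 hc0, ?_, fun s hs => ?_⟩
      · rw [mul_inv]
        exact O.mul_mem hbO hcO
      · rcases Finset.mem_insert.1 hs with rfl | hs
        · rw [hac, mul_comm b c, ← mul_assoc, div_mul_cancel₀ _ hc0]
          exact Subalgebra.mul_mem _ ha hb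
        · rw [← mul_assoc]
          exact Subalgebra.mul_mem _ (hbS s hs) hc
  obtain ⟨b, hb, hb0, hbO, hbS⟩ := key
  obtain ⟨e, H, hH, rfl⟩ := (mem_cht_iff hv hv0 _).1 hb
  have hH0 : H ≠ 0 := fun h => hb0 (by rw [h, zero_div])
  refine ⟨e + 1, v * H, by omega, ?_, mul_ne_zero hv0 hH0, ?_, fun s hs => ?_⟩
  · rw [pow_succ, mul_comm v H]
    exact Submodule.mul_mem_mul hH hv
  · rw [cht_mul hv hv0 hH hH0]
    refine Algebra.adjoin_le ?_
    rintro x (hx | hx)
    · exact hl.le hx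
    · rw [Set.mem_singleton_iff.1 hx]
      exact hbO
  · rw [cht_mul hv hv0 hH hH0]
    have h1 : s = s * (H / v ^ e) * (H / v ^ e)⁻¹ := by
      rw [mul_inv_cancel_right₀ hb0]
    rw [h1]
    exact Subalgebra.mul_mem _ (Algebra.subset_adjoin (Or.inl (hbS s hs)))
      (Algebra.subset_adjoin (Or.inr rfl))

/-- the maximal ideal of a local subring, as a subspace of the field -/
def va3_mx (O : Subalgebra k L) [IsLocalRing O] : Submodule k L where
  carrier := {x | ∃ h : x ∈ O, (⟨x, h⟩ : O) ∈ IsLocalRing.maximalIdeal O}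
  zero_mem' := ⟨O.zero_mem, Ideal.zero_mem _⟩
  add_mem' := by
    rintro x y ⟨hx, hx'⟩ ⟨hy, hy'⟩
    exact ⟨O.add_mem hx hy, Ideal.add_mem _ hx' hy'⟩
  smul_mem' := by
    rintro c x ⟨hx, hx'⟩
    refine ⟨O.smul_mem hx c, ?_⟩
    have h1 : (⟨c • x, O.smul_mem hx c⟩ : O) = algebraMap k O c * ⟨x, hx⟩ :=
      Subtype.ext (Algebra.smul_def c x)
    rw [h1]
    exact Ideal.mul_mem_left _ _ hx'

theorem va3_mx_mul {O : Subalgebra k L} [IsLocalRing O] {x y : L} (hx : x ∈ va3_mx O)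
    (hy : y ∈ O) : x * y ∈ va3_mx O := by
  obtain ⟨h, h'⟩ := hx
  exact ⟨O.mul_mem h hy, Ideal.mul_mem_right (⟨y, hy⟩ : O) _ h'⟩

theorem va3_mx_one {O : Subalgebra k L} [IsLocalRing O] : (1 : L) ∉ va3_mx O := by
  rintro ⟨h, h'⟩
  exact (Ideal.ne_top_iff_one _).1 (IsLocalRing.maximalIdeal.isMaximal O).ne_top h'

theorem va3_mx_pow {O : Subalgebra k L} [IsLocalRing O] {x : L} (hx : x ∈ O) {m : ℕ}
    (h : x ^ m ∈ va3_mx O) : x ∈ va3_mx O := by
  obtain ⟨h1, h2⟩ := h
  refine ⟨hx, Ideal.IsPrime.mem_of_pow_mem (IsLocalRing.maximalIdeal.isMaximal O).isPrime m ?_⟩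
  exact h2

theorem va3_mx_or {O : Subalgebra k L} [IsLocalRing O] {x : L} (hx : x ∈ O)
    (h : x ∉ va3_mx O) : x ≠ 0 ∧ x⁻¹ ∈ O := by
  by_contra hcon
  refine h ⟨hx, ?_⟩
  rw [IsLocalRing.mem_maximalIdeal, mem_nonunits_iff, pt_isUnit_iff]
  exact hcon

/-- every point is on one of the charts of a covering -/
theorem va3_cover {V : Submodule k L} {N K : ℕ} {z : Fin N → L} {σ : Fin K → Fin N}
    (hs : Submodule.span k (Set.range z) = V)
    (hM : ∃ M : ℕ, ∀ j, z j ^ (M + 1) ∈ Submodule.span k (Set.range fun a => z (σ a)) * V ^ M)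
    {O : Subalgebra k L} (hO : O ∈ Pts V) : ∃ a, z (σ a) ≠ 0 ∧ cht V (z (σ a)) ≤ O := by
  obtain ⟨w, hw, hw0, hl⟩ := hO
  obtain ⟨M, hM⟩ := hM
  have hloc := hl.isLocalRing
  have hzV : ∀ j, z j ∈ V := fun j => by
    rw [← hs]
    exact Submodule.subset_span ⟨j, rfl⟩
  have hmem : ∀ x ∈ V, x / w ∈ O := fun x hx => hl.le (Algebra.subset_adjoin ⟨x, hx, rfl⟩)
  by_cases hcon : ∃ a, z (σ a) / w ∉ va3_mx O
  · obtain ⟨a, ha⟩ := hcon
    obtain ⟨h0, h1⟩ := va3_mx_or (hmem _ (hzV _)) ha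
    have hz0 : z (σ a) ≠ 0 := fun h => h0 (by rw [h, zero_div])
    refine ⟨a, hz0, Algebra.adjoin_le ?_⟩
    rintro _ ⟨x, hx, rfl⟩
    have h2 : x / z (σ a) = x / w * (z (σ a) / w)⁻¹ := by
      field_simp
    show x / z (σ a) ∈ O
    rw [h2]
    exact O.mul_mem (hmem x hx) h1
  · exfalso
    push Not at hcon
    have h1 : ∀ s ∈ Submodule.span k (Set.range fun a => z (σ a)), s / w ∈ va3_mx O := by
      intro s hs
      induction hs using Submodule.span_induction with
      | mem x hx =>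
        obtain ⟨a, rfl⟩ := hx
        exact hcon a
      | zero =>
        rw [zero_div]
        exact Submodule.zero_mem _
      | add x y _ _ hx hy =>
        rw [add_div]
        exact Submodule.add_mem _ hx hy
      | smul c x _ hx =>
        rw [smul_div_assoc]
        exact Submodule.smul_mem _ c hx
    have h2 : ∀ x ∈ Submodule.span k (Set.range fun a => z (σ a)) * V ^ M,
        x / w ^ (M + 1) ∈ va3_mx O := by
      intro x hx
      refine Submodule.mul_induction_on hx ?_ ?_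
      · intro s hs t ht
        rw [pow_succ', mul_div_mul_comm]
        exact va3_mx_mul (h1 s hs) (hl.le ((mem_cht_iff hw hw0 _).2 ⟨M, t, ht, rfl⟩))
      · intro x y hx hy
        rw [add_div]
        exact Submodule.add_mem _ hx hy
    have h3 : ∀ j, z j / w ∈ va3_mx O := by
      intro j
      refine va3_mx_pow (hmem _ (hzV j)) (m := M + 1) ?_
      rw [div_pow]
      exact h2 _ (hM j)
    have h4 : ∀ x ∈ V, x / w ∈ va3_mx O := by
      intro x hx
      rw [← hs] at hx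
      induction hx using Submodule.span_induction with
      | mem x hx =>
        obtain ⟨a, rfl⟩ := hx
        exact h3 a
      | zero =>
        rw [zero_div]
        exact Submodule.zero_mem _
      | add x y _ _ hx hy =>
        rw [add_div]
        exact Submodule.add_mem _ hx hy
      | smul c x _ hx =>
        rw [smul_div_assoc]
        exact Submodule.smul_mem _ c hx
    have h5 := h4 w hw
    rw [div_self hw0] at h5
    exact va3_mx_one h5

/-- an element of all points of the intersection of two charts -/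
theorem va3_frac {V : Submodule k L} {g h : L} (hg : g ∈ V) (hg0 : g ≠ 0) (hh : h ∈ V)
    (hh0 : h ≠ 0) {β : L}
    (hβ : ∀ P ∈ Pts V, cht V g ≤ P → cht V h ≤ P → β ∈ P) :
    ∃ e : ℕ, ∀ r, e ≤ r → h ^ r * β / g ^ r ∈ cht V g := by
  have hgh : g * h ∈ V ^ 2 := by
    rw [sq]
    exact Submodule.mul_mem_mul hg hh
  have hgh0 : g * h ≠ 0 := mul_ne_zero hg0 hh0
  have h1 : β ∈ cht (V ^ 2) (g * h) := by
    refine mem_of_locAt fun P hP => hβ P ?_ ?_ ?_
    · rw [← Pts_pow V (d := 2) (by norm_num)]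
      exact ⟨g * h, hgh, hgh0, hP⟩
    · refine Algebra.adjoin_le ?_
      rintro _ ⟨x, hx, rfl⟩
      refine hP.le (Algebra.subset_adjoin ⟨x * h, ?_, ?_⟩)
      · rw [sq]
        exact Submodule.mul_mem_mul hx hh
      · rw [mul_div_mul_right _ _ hh0]
    · refine Algebra.adjoin_le ?_
      rintro _ ⟨x, hx, rfl⟩
      refine hP.le (Algebra.subset_adjoin ⟨g * x, ?_, ?_⟩)
      · rw [sq]
        exact Submodule.mul_mem_mul hg hx
      · rw [mul_div_mul_left _ _ hg0]
  obtain ⟨e, H, hH, rfl⟩ := (mem_cht_iff hgh hgh0 _).1 h1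
  refine ⟨e, fun r hr => ?_⟩
  obtain ⟨c, rfl⟩ := Nat.exists_eq_add_of_le hr
  refine (mem_cht_iff hg hg0 _).2 ⟨e + c + e, h ^ c * H, ?_, ?_⟩
  · have h2 := Submodule.mul_mem_mul (Submodule.pow_mem_pow V hh c) hH
    rw [← pow_mul, ← pow_add] at h2
    rwa [show e + c + e = c + 2 * e by ring]
  · rw [pow_add h, pow_add g (e + c) e, mul_pow]
    field_simp

end Pool.Agent.KM
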