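import Pool.Agent.Lib.MP_732f67_ag.G.Ver
import Pool.Agent.Lib.MP_732f67_ag.G.OrdP
import Pool.Agent.Lib.MP_732f67_ag.G.VA2
import Pool.Agent.Lib.MP_732f67_ag.G.VA3

/-!
Very ample linear systems: products, powers, pull back; ample divisors dominate.
-/

namespace Pool.Agent.KM

variable {k L : Type*} [Field k] [Field L] [Algebra k L]

/-- the finite dimensional linear system `V` of sections of `D` has no base points -/
structure BF (W : Set (Subalgebra k L)) (D : Subalgebra k L → Lˣ) (V : Submodule k L) : Prop where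
  fin : Module.Finite k V
  sec : V ≤ Sec W D
  gen : ∀ O ∈ W, ∃ f ∈ V, Un O (f * D O)

/-- the finite dimensional linear system `V` of sections of `D` is very ample -/
structure VA (W : Set (Subalgebra k L)) (D : Subalgebra k L → Lˣ) (V : Submodule k L) : Prop
    extends BF W D V where
  eq : W = Pts V

/-- only the local equations up to units matter -/
theorem BF.congr {W : Set (Subalgebra k L)} {D D' : Subalgebra k L → Lˣ} {V : Submodule k L}
    (h : BF W D V) (hD : ∀ O ∈ W, Un O (D O / D' O : Lˣ)) : BF W D' V := by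
  have key : ∀ (O : Subalgebra k L) (f : L), f * (D' O : L) =
      f * (D O : L) * ((D O / D' O : Lˣ) : L)⁻¹ := by
    intro O f
    rw [Units.val_div_eq_div_val, inv_div, mul_assoc, mul_div_cancel₀ _ (D O).ne_zero]
  refine ⟨h.fin, fun f hf O hO => ?_, fun O hO => ?_⟩
  · rw [key]
    exact O.mul_mem (h.sec hf O hO) (hD O hO).2.2
  · obtain ⟨f, hf, hu⟩ := h.gen O hO
    refine ⟨f, hf, ?_⟩
    rw [key]
    exact hu.mul (hD O hO).inv

theorem BF.mul {W : Set (Subalgebra k L)} {D D' : Subalgebra k L → Lˣ} {V V' : Submodule k L}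
    (h : BF W D V) (h' : BF W D' V') : BF W (D * D') (V * V') := by
  have key : ∀ (O : Subalgebra k L) (f g : L), f * g * (((D * D') O : Lˣ) : L) =
      f * (D O : L) * (g * (D' O : L)) := by
    intro O f g
    rw [Pi.mul_apply, Units.val_mul]
    ring
  refine ⟨?_, Submodule.mul_le.2 fun m hm n hn O hO => ?_, fun O hO => ?_⟩
  · have h1 : V.FG := Module.Finite.iff_fg.1 h.fin
    have h2 : V'.FG := Module.Finite.iff_fg.1 h'.fin
    exact Module.Finite.iff_fg.2 (h1.mul h2)
  · rw [key]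
    exact O.mul_mem (h.sec hm O hO) (h'.sec hn O hO)
  · obtain ⟨f, hf, hu⟩ := h.gen O hO
    obtain ⟨g, hg, hu'⟩ := h'.gen O hO
    refine ⟨f * g, Submodule.mul_mem_mul hf hg, ?_⟩
    rw [key]
    exact hu.mul hu'

theorem BF.pow {W : Set (Subalgebra k L)} {D : Subalgebra k L → Lˣ} {V : Submodule k L}
    (h : BF W D V) (d : ℕ) : BF W (D ^ d) (V ^ d) := by
  induction d with
  | zero =>
    rw [pow_zero, pow_zero]
    refine ⟨?_, fun f hf O hO => ?_, fun O hO => ⟨1, Submodule.one_le.1 le_rfl, ?_⟩⟩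
    · refine Module.Finite.iff_fg.2 ?_
      rw [Submodule.one_eq_span]
      exact Submodule.fg_span_singleton 1
    · obtain ⟨c, rfl⟩ := Submodule.mem_one.1 hf
      rw [Pi.one_apply, Units.val_one, mul_one]
      exact O.algebraMap_mem c
    · rw [Pi.one_apply, Units.val_one, mul_one]
      exact Un.one O
  | succ d ih =>
    rw [pow_succ, pow_succ]
    exact ih.mul h

/-- pull back by a birational morphism -/
theorem BF.pull {X W : Set (Subalgebra k L)} {D : Subalgebra k L → Lˣ} {V : Submodule k L}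
    (h : BF X D V) (cen : Subalgebra k L → Subalgebra k L)
    (hc : ∀ O ∈ W, cen O ∈ X ∧ Dom (cen O) O) : BF W (fun O => D (cen O)) V := by
  refine ⟨h.fin, fun f hf O hO => (hc O hO).2.1 (h.sec hf _ (hc O hO).1), fun O hO => ?_⟩
  obtain ⟨f, hf, hu⟩ := h.gen _ (hc O hO).1
  exact ⟨f, hf, hu.mono (hc O hO).2.1⟩

/-- an element of the linear system which generates at `O` gives a chart containing `O` -/
theorem BF.cht_le {W : Set (Subalgebra k L)} {D : Subalgebra k L → Lˣ} {V : Submodule k L}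
    (h : BF W D V) {O : Subalgebra k L} (hO : O ∈ W) {f : L} (hf : f ∈ V) (hu : Un O (f * D O)) :
    cht V f ≤ O := by
  refine Algebra.adjoin_le ?_
  rintro _ ⟨w, hw, rfl⟩
  have h1 : w / f = w * (D O : L) * (f * (D O : L))⁻¹ := by
    rw [← div_eq_mul_inv, mul_div_mul_right _ _ (D O).ne_zero]
  show w / f ∈ O
  rw [h1]
  exact O.mul_mem (h.sec hw O hO) hu.2.2

/-- conversely, a chart through the point `O` belongs to a generator at `O` -/
theorem BF.un_of_cht_le {W : Set (Subalgebra k L)} {D : Subalgebra k L → Lˣ} {V : Submodule k L}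
    (h : BF W D V) {O : Subalgebra k L} (hO : O ∈ W) {f : L} (hf : f ∈ V) (hf0 : f ≠ 0)
    (hc : cht V f ≤ O) : Un O (f * D O) := by
  obtain ⟨g, hg, hu⟩ := h.gen O hO
  refine ⟨mul_ne_zero hf0 (D O).ne_zero, h.sec hf O hO, ?_⟩
  have hg0 : g ≠ 0 := left_ne_zero_of_mul hu.1
  have h1 : (f * (D O : L))⁻¹ = g / f * (g * (D O : L))⁻¹ := by
    have := (D O).ne_zero
    field_simp
  rw [h1]
  exact O.mul_mem (hc (Algebra.subset_adjoin ⟨g, hg, rfl⟩)) hu.2.2

/-- If `W ⊆ Pts V` and `W` is a projective variety, then `W = Pts V`.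

PROOF. Let `O ∈ Pts V`, a local ring of `cht V v`; choose a valuation ring `R` which dominates `O`
(`exists_val`), and the center `O' ∈ W` of `R` (`IsProj.exists_center`); `O' ∈ Pts V`, and `O = O'`
by `Pts.eq_of_dom`. -/
theorem IsProj.eq_pts {W : Set (Subalgebra k L)} (hW : IsProj W) {V : Submodule k L}
    (h : W ⊆ Pts V) : W = Pts V := by
  refine Set.Subset.antisymm h fun O hO => ?_
  have hO' := hO
  obtain ⟨v, hv, hv0, hl⟩ := hO'
  obtain ⟨R, hR, hR'⟩ := exists_val hl.isLocalRing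
  have hRk : ∀ c : k, algebraMap k L c ∈ R := fun c => hR _ (O.algebraMap_mem c)
  obtain ⟨O', hO', h1, h2⟩ := hW.exists_center R hRk
  let R' : Subalgebra k L := { R.toSubring with algebraMap_mem' := hRk }
  have e : O = O' := Pts.eq_of_dom (R := R') hO (h hO') ⟨fun x hx => hR x hx, fun x hx hx' =>
    hR' x hx hx'⟩ ⟨fun x hx => h1 x hx, fun x hx hx' => h2 x hx hx'⟩
  rw [e]
  exact hO'

/-- Segre: very ample plus base point free is very ample. -/
theorem VA.mul {W : Set (Subalgebra k L)} (hW : IsProj W) {D D' : Subalgebra k L → Lˣ}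
    {V V' : Submodule k L} (h : VA W D V) (h' : BF W D' V') : VA W (D * D') (V * V') := by
  have hb := h.toBF.mul h'
  refine ⟨hb, hW.eq_pts fun O hO => ?_⟩
  have hO1 := hO
  rw [h.eq] at hO1
  obtain ⟨v, hv, hv0, hl⟩ := hO1
  obtain ⟨g, hg, hu⟩ := h'.gen O hO
  have hg0 : g ≠ 0 := left_ne_zero_of_mul hu.1
  have hu1 := h.toBF.un_of_cht_le hO hv hv0 hl.le
  refine ⟨v * g, Submodule.mul_mem_mul hv hg, mul_ne_zero hv0 hg0, hl.of_le ?_ ?_⟩
  · refine Algebra.adjoin_le ?_
    rintro _ ⟨w, hw, rfl⟩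
    exact Algebra.subset_adjoin ⟨w * g, Submodule.mul_mem_mul hw hg,
      (mul_div_mul_right _ _ hg0).symm⟩
  · refine hb.cht_le hO (Submodule.mul_mem_mul hv hg) ?_
    have h1 : v * g * (((D * D') O : Lˣ) : L) = v * (D O : L) * (g * (D' O : L)) := by
      rw [Pi.mul_apply, Units.val_mul]
      ring
    rw [h1]
    exact hu1.mul hu

theorem VA.pow {W : Set (Subalgebra k L)} (hW : IsProj W) {D : Subalgebra k L → Lˣ}
    {V : Submodule k L} (h : VA W D V) {d : ℕ} (hd : 1 ≤ d) : VA W (D ^ d) (V ^ d) := by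
  induction d, hd using Nat.le_induction with
  | base =>
    rw [pow_one, pow_one]
    exact h
  | succ d _ ih =>
    rw [pow_succ, pow_succ]
    exact VA.mul hW ih h.toBF

/-- A complete very ample linear system contains a finite dimensional very ample one.

PROOF. `W = Pts V0` with `V0` finite dimensional, `V∞ = Sec W D`. For `O ∈ W`: `O` is a local ring of
`A0 = cht V0 v0`, finitely generated, and of `cht V∞ v`; `v` is a generator at `O` (compare with the
generator given by `Free`). The finitely many generators of `A0` are fractions `a / b`,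
`a, b ∈ cht V∞ v`, `b` a unit of `O`; they only involve a finite dimensional `V_O ≤ V∞` with `v ∈ V_O`. For
`Q ∈ W` which contains `cht V_O v` and the inverses of the `b`: `A0 ≤ Q`, so `Q` is a local
ring of `A0` (`Pts.locAt`) and of `cht V_O v` (`LocAt.of_frac`). By compactness (`exists_cover` for
`W = Pts V0`; the neighbourhoods of `O` are basic open subsets of `cht V0 v0`) finitely many `O` are enough; `V`
= the sum of their `V_O`. Then `W ⊆ Pts V`, and `IsProj.eq_pts`. -/
theorem exists_va {W : Set (Subalgebra k L)} (hW : IsProj W) {D : Subalgebra k L → Lˣ}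
    (hD : IsCar W D) (hF : Free W D) (h : W = Pts (Sec W D)) :
    ∃ V : Submodule k L, VA W D V := by
  classical
  have h1 : ∀ O : Subalgebra k L, ∃ (f : L) (F N : Set L), O ∈ W → f ∈ F ∧ F.Finite ∧
      F ⊆ Sec W D ∧ N.Finite ∧ (∀ s ∈ N, s ∈ O) ∧
      ∀ Q ∈ W, (∀ s ∈ N, s ∈ Q) → Un Q (f * D Q) ∧
        ∀ V : Submodule k L, F ⊆ V → V ≤ Sec W D → LocAt (cht V f) Q := by
    intro O
    by_cases hO : O ∈ W
    · obtain ⟨f, F, N, h2⟩ := va2_near hW hD hF h hO
      exact ⟨f, F, N, fun _ => h2⟩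
    · exact ⟨0, ∅, ∅, fun h2 => absurd h2 hO⟩
  choose f F N h2 using h1
  obtain ⟨T, hTf, hTW, hT⟩ := va2_compact hW N fun O hO =>
    ⟨(h2 O hO).2.2.2.1, (h2 O hO).2.2.2.2.1⟩
  obtain ⟨V, hV⟩ : ∃ V : Submodule k L, V = Submodule.span k (⋃ O ∈ T, F O) := ⟨_, rfl⟩
  have hFV : ∀ O ∈ T, F O ⊆ V := by
    intro O hO
    rw [hV]
    exact (Set.subset_biUnion_of_mem (u := F) hO).trans Submodule.subset_span
  have hVS : V ≤ Sec W D := by
    rw [hV, Submodule.span_le]
    exact Set.iUnion₂_subset fun O hO => (h2 O (hTW hO)).2.2.1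
  have hfin : Module.Finite k V := by
    rw [hV]
    exact FiniteDimensional.span_of_finite k (hTf.biUnion fun O hO => (h2 O (hTW hO)).2.1)
  refine ⟨V, ⟨hfin, hVS, fun Q hQ => ?_⟩, hW.eq_pts fun Q hQ => ?_⟩
  · obtain ⟨O, hO, hs⟩ := hT Q hQ
    exact ⟨f O, hFV O hO (h2 O (hTW hO)).1, ((h2 O (hTW hO)).2.2.2.2.2 Q hQ hs).1⟩
  · obtain ⟨O, hO, hs⟩ := hT Q hQ
    obtain ⟨h3, h4⟩ := (h2 O (hTW hO)).2.2.2.2.2 Q hQ hs
    exact ⟨f O, hFV O hO (h2 O (hTW hO)).1, left_ne_zero_of_mul h3.1, h4 V (hFV O hO) hVS⟩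

/-- a base point free complete linear system contains a finite dimensional one -/
theorem exists_bf {W : Set (Subalgebra k L)} (hW : IsProj W) {D : Subalgebra k L → Lˣ}
    (hD : IsCar W D) (hF : Free W D) : ∃ V : Submodule k L, BF W D V := by
  classical
  have h1 : ∀ O : Subalgebra k L, ∃ (f : L) (N : Set L), O ∈ W → f ∈ Sec W D ∧ N.Finite ∧
      (∀ s ∈ N, s ∈ O) ∧ ∀ Q ∈ W, (∀ s ∈ N, s ∈ Q) → Un Q (f * D Q) := by
    intro O
    by_cases hO : O ∈ W
    · obtain ⟨f, hf, hu⟩ := hF O hO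
      obtain ⟨N, h2, h3, h4⟩ := va2_gen hD hO hu
      exact ⟨f, N, fun _ => ⟨hf, h2, h3, h4⟩⟩
    · exact ⟨0, ∅, fun h2 => absurd h2 hO⟩
  choose f N h2 using h1
  obtain ⟨T, hTf, hTW, hT⟩ := va2_compact hW N fun O hO => ⟨(h2 O hO).2.1, (h2 O hO).2.2.1⟩
  refine ⟨Submodule.span k (f '' T), FiniteDimensional.span_of_finite k (hTf.image f), ?_,
    fun Q hQ => ?_⟩
  · rw [Submodule.span_le]
    rintro _ ⟨O, hO, rfl⟩
    exact (h2 O (hTW hO)).1
  · obtain ⟨O, hO, hs⟩ := hT Q hQ
    exact ⟨f O, Submodule.subset_span ⟨O, hO, rfl⟩, (h2 O (hTW hO)).2.2.2 Q hQ hs⟩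

/-- A very ample divisor dominates: `d r D - A` has no base points for all large `r`.

PROOF. By compactness (`exists_cover`) there are `d` and finitely many `g_j ∈ V ^ d` whose charts
`B_j = cht (V ^ d) g_j` cover `X`, and `α_j` with `A O / α_j` a unit for all `O ∈ X`, `B_j ≤ O`. The
element `α_j / α_i` is a unit at all points which contain `B_i` and `B_j`, so it belongs to
`B_i[(g_j / g_i)⁻¹]` (`mem_of_locAt`), and `(g_j / g_i) ^ r α_j / α_i ∈ B_i` for `r ≥ r0`. So
`g_j ^ r α_j` is a section of `d r D - A` which generates at the points of the chart `B_j`. -/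
theorem exists_bf_sub {X : Set (Subalgebra k L)} (hX : IsProj X) {D A : Subalgebra k L → Lˣ}
    {V : Submodule k L} (h : VA X D V) (hA : IsCar X A) :
    ∃ d r0 : ℕ, 1 ≤ d ∧ ∀ r, r0 ≤ r → ∃ V' : Submodule k L, BF X (D ^ (d * r) / A) V' := by
  classical
  have _ := hX
  have hVf := h.fin
  have hspan : Submodule.span k (Set.range fun i => ((Module.finBasis k V i : V) : L)) = V := by
    have h1 := congrArg (Submodule.map V.subtype) (Module.finBasis k V).span_eq
    rw [Submodule.map_span, ← Set.range_comp, Submodule.map_subtype_top] at h1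
    exact h1
  have hz : ∀ i, ((Module.finBasis k V i : V) : L) ≠ 0 := fun i h0 =>
    (Module.finBasis k V).ne_zero i (Subtype.ext h0)
  rcases Nat.eq_zero_or_pos (Module.finrank k V) with hN | hN
  · refine ⟨1, 0, le_rfl, fun r _ => ⟨⊥, inferInstance, bot_le, fun O hO => ?_⟩⟩
    have hV : V = ⊥ := Submodule.finrank_eq_zero.1 hN
    rw [h.eq] at hO
    obtain ⟨v, hv, hv0, -⟩ := hO
    rw [hV, Submodule.mem_bot] at hv
    exact absurd hv hv0
  obtain ⟨d, N', K, z, σ, hd, hz0, hs, hM, hP⟩ := exists_cover (k := k) hN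
    (fun i => ((Module.finBasis k V i : V) : L)) hz
    (fun e g => ∃ α : Lˣ, ∀ O ∈ X, cht (V ^ e) g ≤ O → Un O ((A O / α : Lˣ) : L)) (by
      rw [hspan]
      intro O hO
      have hO' : O ∈ X := by
        rw [h.eq]
        exact hO
      obtain ⟨S, hS, hS'⟩ := hA O hO'
      obtain ⟨e, g, he, hg, hg0, hle, hmem⟩ := va3_nb hO S hS
      refine ⟨e, g, he, hg, hg0, hle, A O, fun O' hO' hle' => ?_⟩
      have h1 := (hS' O' hO' fun s hs => hle' (hmem s hs)).inv
      rwa [← Units.val_inv_eq_inv_val, inv_div] at h1)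
  rw [hspan] at hs hP
  have hloc : ∀ a, ∃ α : Lˣ, ∀ O ∈ X, cht (V ^ d) (z (σ a)) ≤ O → Un O ((A O / α : Lˣ) : L) := by
    intro a
    obtain ⟨e, r, g, hr, he, hder, hzg, hg, α, hα⟩ := hP a
    have hg0 : g ≠ 0 := by
      rintro rfl
      rw [zero_pow (by omega)] at hzg
      exact hz0 _ hzg
    refine ⟨α, fun O hO hle => hα O hO ?_⟩
    rwa [hder, hzg, cht_pow hr hg hg0] at hle
  choose α hα using hloc
  have hXd : X = Pts (V ^ d) := by
    rw [Pts_pow V hd]
    exact h.eq
  have hzV : ∀ a, z (σ a) ∈ V ^ d := fun a => by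
    rw [← hs]
    exact Submodule.subset_span ⟨_, rfl⟩
  have hBF := h.toBF.pow d
  rw [hs] at hM
  have hfr : ∀ i j, ∃ e : ℕ, ∀ r, e ≤ r →
      z (σ j) ^ r * ((α j / α i : Lˣ) : L) / z (σ i) ^ r ∈ cht (V ^ d) (z (σ i)) := by
    intro i j
    refine va3_frac (hzV i) (hz0 _) (hzV j) (hz0 _) fun O hO hi hj => ?_
    rw [← hXd] at hO
    have h1 := (hα i O hO hi).div (hα j O hO hj)
    rw [← Units.val_div_eq_div_val, div_div_div_cancel_left] at h1
    exact h1.2.1
  choose e he using hfr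
  refine ⟨d, ∑ i, ∑ j, e i j, hd, fun r hr => ?_⟩
  have her : ∀ i j, e i j ≤ r := by
    intro i j
    refine le_trans ?_ hr
    refine le_trans ?_ (Finset.single_le_sum (f := fun i => ∑ j, e i j)
      (fun _ _ => Nat.zero_le _) (Finset.mem_univ i))
    exact Finset.single_le_sum (f := fun j => e i j) (fun _ _ => Nat.zero_le _)
      (Finset.mem_univ j)
  have hkey : ∀ O ∈ X, ∃ i, Un O (z (σ i) * ((D ^ d) O : Lˣ)) ∧ cht (V ^ d) (z (σ i)) ≤ O ∧
      Un O ((α i / A O : Lˣ) : L) := by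
    intro O hO
    have hO' := hO
    rw [hXd] at hO'
    obtain ⟨i, -, hi⟩ := va3_cover hs hM hO'
    refine ⟨i, hBF.un_of_cht_le hO (hzV i) (hz0 _) hi, hi, ?_⟩
    have h1 := (hα i O hO hi).inv
    rwa [← Units.val_inv_eq_inv_val, inv_div] at h1
  have hid : ∀ (O : Subalgebra k L) (i j : Fin K),
      z (σ j) ^ r * (α j : L) * ((((D ^ (d * r) / A) O : Lˣ)) : L) =
      z (σ j) ^ r * ((α j / α i : Lˣ) : L) / z (σ i) ^ r *
        ((z (σ i) * ((D ^ d) O : Lˣ)) ^ r * ((α i / A O : Lˣ) : L)) := by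
    intro O i j
    have h1 := hz0 (σ i)
    have h2 := (α i).ne_zero
    have h3 := (A O).ne_zero
    rw [Pi.div_apply, pow_mul, Pi.pow_apply, Units.val_div_eq_div_val, Units.val_div_eq_div_val,
      Units.val_div_eq_div_val, Units.val_pow_eq_pow_val, mul_pow]
    field_simp
  refine ⟨Submodule.span k (Set.range fun j => z (σ j) ^ r * (α j : L)), ?_, ?_, fun O hO => ?_⟩
  · exact Module.Finite.span_of_finite k (Set.finite_range _)
  · rw [Submodule.span_le]
    rintro _ ⟨j, rfl⟩ O hO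
    obtain ⟨i, hu, hi, hu'⟩ := hkey O hO
    show z (σ j) ^ r * (α j : L) * ((((D ^ (d * r) / A) O : Lˣ)) : L) ∈ O
    rw [hid O i j]
    exact O.mul_mem (hi (he i j r (her i j))) ((hu.pow r).mul hu').2.1
  · obtain ⟨i, hu, hi, hu'⟩ := hkey O hO
    refine ⟨_, Submodule.subset_span ⟨i, rfl⟩, ?_⟩
    show Un O (z (σ i) ^ r * (α i : L) * ((((D ^ (d * r) / A) O : Lˣ)) : L))
    rw [hid O i i, div_self', Units.val_one, mul_one, div_self (pow_ne_zero _ (hz0 _)), one_mul]
    exact (hu.pow r).mul hu'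

end Pool.Agent.KM
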