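import Pool.Agent.Lib.MP_732f67_ag.G.PtC

/-!
Veronese embeddings and compactness: a projective variety is covered by finitely many of given
basic open neighbourhoods of its points, which after a Veronese embedding are of the form
`z (σ a) ≠ 0`.
-/

namespace Pool.Agent.KM

variable {k L : Type*} [Field k] [Field L] [Algebra k L]

/-- the elements of the chart are of the form `H / v ^ e`, `H ∈ V ^ e` -/
theorem mem_cht_iff {V : Submodule k L} {v : L} (hv : v ∈ V) (hv0 : v ≠ 0) (x : L) :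
    x ∈ cht V v ↔ ∃ (e : ℕ) (H : L), H ∈ V ^ e ∧ x = H / v ^ e := by
  constructor
  · intro hx
    induction hx using Algebra.adjoin_induction with
    | mem x hx =>
      obtain ⟨w, hw, rfl⟩ := hx
      exact ⟨1, w, by rwa [pow_one], by rw [pow_one]⟩
    | algebraMap c =>
      exact ⟨0, algebraMap k L c, by rw [pow_zero]; exact Submodule.algebraMap_mem c,
        by rw [pow_zero, div_one]⟩
    | add x y _ _ hx hy =>
      obtain ⟨e, H, hH, rfl⟩ := hx
      obtain ⟨e', H', hH', rfl⟩ := hy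
      refine ⟨e + e', H * v ^ e' + v ^ e * H', ?_, div_add_div _ _ (pow_ne_zero _ hv0)
        (pow_ne_zero _ hv0) |>.trans (by rw [pow_add])⟩
      rw [pow_add]
      exact Submodule.add_mem _ (Submodule.mul_mem_mul hH (Submodule.pow_mem_pow _ hv _))
        (Submodule.mul_mem_mul (Submodule.pow_mem_pow _ hv _) hH')
    | mul x y _ _ hx hy =>
      obtain ⟨e, H, hH, rfl⟩ := hx
      obtain ⟨e', H', hH', rfl⟩ := hy
      refine ⟨e + e', H * H', ?_, by rw [pow_add, div_mul_div_comm]⟩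
      rw [pow_add]
      exact Submodule.mul_mem_mul hH hH'
  · rintro ⟨e, H, hH, rfl⟩
    induction e generalizing H with
    | zero =>
      rw [pow_zero] at hH
      obtain ⟨c, rfl⟩ := Submodule.mem_one.1 hH
      rw [pow_zero, div_one]
      exact (cht V v).algebraMap_mem c
    | succ e ih =>
      rw [pow_succ] at hH
      refine Submodule.mul_induction_on hH ?_ ?_
      · intro m hm n hn
        rw [pow_succ, mul_div_mul_comm]
        exact (cht V v).mul_mem (ih m hm) (Algebra.subset_adjoin ⟨n, hn, rfl⟩)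
      · intro a b ha hb
        rw [add_div]
        exact (cht V v).add_mem ha hb

/-- `(V ^ d) ^ r` with the chart of `g ^ r` -/
theorem cht_pow {V : Submodule k L} {d r : ℕ} (hr : 1 ≤ r) {g : L} (hg : g ∈ V ^ d) (hg0 : g ≠ 0) :
    cht (V ^ (d * r)) (g ^ r) = cht (V ^ d) g := by
  rw [pow_mul]
  apply le_antisymm
  · refine Algebra.adjoin_le ?_
    rintro _ ⟨H, hH, rfl⟩
    exact (mem_cht_iff hg hg0 _).2 ⟨r, H, hH, rfl⟩
  · refine Algebra.adjoin_le ?_
    rintro _ ⟨w, hw, rfl⟩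
    obtain ⟨r, rfl⟩ := Nat.exists_eq_add_of_le' hr
    refine Algebra.subset_adjoin ⟨g ^ r * w, ?_, ?_⟩
    · rw [pow_succ]
      exact Submodule.mul_mem_mul (Submodule.pow_mem_pow _ hg _) hw
    · rw [pow_succ, mul_div_mul_left _ _ (pow_ne_zero _ hg0)]

/-- basic open subsets of the charts: `C[V ^ (e + 1) / (v H)] = C[V / v][(H / v ^ e)⁻¹]` -/
theorem cht_mul {V : Submodule k L} {e : ℕ} {v H : L} (hv : v ∈ V) (hv0 : v ≠ 0) (hH : H ∈ V ^ e)
    (hH0 : H ≠ 0) :
    cht (V ^ (e + 1)) (v * H) = Algebra.adjoin k ((cht V v : Set L) ∪ {(H / v ^ e)⁻¹}) := by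
  have hve : v ^ e ≠ 0 := pow_ne_zero _ hv0
  apply le_antisymm
  · refine Algebra.adjoin_le ?_
    rintro _ ⟨G, hG, rfl⟩
    have h1 : G / (v * H) = G / v ^ (e + 1) * (H / v ^ e)⁻¹ := by
      rw [pow_succ]
      field_simp
    rw [h1]
    exact Subalgebra.mul_mem _ (Algebra.subset_adjoin (Or.inl
      ((mem_cht_iff hv hv0 _).2 ⟨e + 1, G, hG, rfl⟩))) (Algebra.subset_adjoin (Or.inr rfl))
  · refine Algebra.adjoin_le ?_
    rintro x (hx | hx)
    · have h1 : cht V v ≤ cht (V ^ (e + 1)) (v * H) := by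
        refine Algebra.adjoin_le ?_
        rintro _ ⟨w, hw, rfl⟩
        refine Algebra.subset_adjoin ⟨H * w, ?_, ?_⟩
        · rw [pow_succ]
          exact Submodule.mul_mem_mul hH hw
        · rw [mul_comm v H, mul_div_mul_left _ _ hH0]
      exact h1 hx
    · rw [Set.mem_singleton_iff] at hx
      subst hx
      refine Algebra.subset_adjoin ⟨v ^ (e + 1), Submodule.pow_mem_pow _ hv _, ?_⟩
      rw [pow_succ]
      field_simp

/-- a chart which is contained in another chart is a basic open subset of it -/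
theorem frac_cht {V : Submodule k L} {v : L} (hv : v ∈ V) (hv0 : v ≠ 0) {d : ℕ} {g : L}
    (hg : g ∈ V ^ d) (hg0 : g ≠ 0) (h : cht V v ≤ cht (V ^ d) g) :
    ∀ x ∈ cht (V ^ d) g, ∃ a ∈ cht V v, ∃ b ∈ cht V v, b ≠ 0 ∧ b⁻¹ ∈ cht (V ^ d) g ∧ x = a / b := by
  intro x hx
  obtain ⟨e, H, hH, rfl⟩ := (mem_cht_iff hg hg0 _).1 hx
  have hvd : v ^ d ≠ 0 := pow_ne_zero _ hv0
  have hb : g / v ^ d ∈ cht V v := (mem_cht_iff hv hv0 _).2 ⟨d, g, hg, rfl⟩
  have hb' : (g / v ^ d)⁻¹ ∈ cht (V ^ d) g := by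
    rw [inv_div]
    exact Algebra.subset_adjoin ⟨v ^ d, Submodule.pow_mem_pow _ hv _, rfl⟩
  refine ⟨H / v ^ (d * e), (mem_cht_iff hv hv0 _).2 ⟨d * e, H, by rwa [pow_mul], rfl⟩,
    (g / v ^ d) ^ e, (cht V v).pow_mem hb e, pow_ne_zero _ (div_ne_zero hg0 hvd), ?_, ?_⟩
  · rw [← inv_pow]
    exact (cht (V ^ d) g).pow_mem hb' e
  · rw [div_pow, ← pow_mul]
    have h1 : v ^ (d * e) ≠ 0 := pow_ne_zero _ hv0
    have h2 : g ^ e ≠ 0 := pow_ne_zero _ hg0
    field_simp

open scoped Pointwise in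
/-- one of the powers `v ^ d` is a unit multiple of `g` -/
theorem exists_un_pow {V : Submodule k L} {d : ℕ} (hd : 1 ≤ d) {g : L} (hg : g ∈ V ^ d)
    (hg0 : g ≠ 0) {O : Subalgebra k L} (hO : IsLocalRing O) (hle : cht (V ^ d) g ≤ O) :
    ∃ v ∈ V, v ≠ 0 ∧ g / v ^ d ∈ O := by
  by_contra hcon
  push Not at hcon
  have hmem : ∀ x ∈ V ^ d, x / g ∈ O := fun x hx => hle (Algebra.subset_adjoin ⟨x, hx, rfl⟩)
  have hV : ∀ v (hv : v ∈ V), (⟨v ^ d / g, hmem _ (Submodule.pow_mem_pow _ hv d)⟩ : O) ∈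
      IsLocalRing.maximalIdeal O := by
    intro v hv
    rw [IsLocalRing.mem_maximalIdeal, mem_nonunits_iff]
    intro hu
    obtain ⟨u, hu⟩ := hu.exists_right_inv
    have h1 : v ^ d / g * (u : L) = 1 := congrArg Subtype.val hu
    have hv0 : v ≠ 0 := by
      rintro rfl
      rw [zero_pow (by omega), zero_div, zero_mul] at h1
      exact zero_ne_one h1
    apply hcon v hv hv0
    have h2 : g / v ^ d = u := by
      rw [← inv_div]
      exact inv_eq_of_mul_eq_one_right h1
    rw [h2]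
    exact u.2
  have key : ∀ x (hx : x ∈ V ^ d), (⟨x / g, hmem x hx⟩ : O) ∈ IsLocalRing.maximalIdeal O := by
    intro x hx
    have hx' := hx
    rw [Submodule.pow_eq_span_pow_set] at hx'
    have hsp : ∀ y ∈ Submodule.span k ((V : Set L) ^ d), ∃ h : y / g ∈ O,
        (⟨y / g, h⟩ : O) ∈ IsLocalRing.maximalIdeal O := by
      intro y hy
      induction hy using Submodule.span_induction with
      | mem y hy =>
        obtain ⟨f, rfl⟩ := Set.mem_pow.1 hy
        rw [List.prod_ofFn] at hy ⊢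
        have hprod : (∏ i, (f i : L)) ∈ V ^ d := by
          rw [Submodule.pow_eq_span_pow_set]
          exact Submodule.subset_span hy
        refine ⟨hmem _ hprod, ?_⟩
        have hpow : (⟨(∏ i, (f i : L)) / g, hmem _ hprod⟩ : O) ^ d =
            ∏ i, (⟨(f i : L) ^ d / g, hmem _ (Submodule.pow_mem_pow _ (f i).2 d)⟩ : O) := by
          apply Subtype.ext
          rw [SubmonoidClass.coe_pow]
          rw [show ((∏ i, (⟨(f i : L) ^ d / g, hmem _ (Submodule.pow_mem_pow _ (f i).2 d)⟩ : O) :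
            O) : L) = ∏ i, ((f i : L) ^ d / g) from map_prod O.val _ _]
          rw [Finset.prod_div_distrib, Finset.prod_pow, Finset.prod_const, Finset.card_univ,
            Fintype.card_fin, div_pow]
        have h1 : (⟨(∏ i, (f i : L)) / g, hmem _ hprod⟩ : O) ^ d ∈
            IsLocalRing.maximalIdeal O := by
          rw [hpow]
          have h0 : (⟨0, by omega⟩ : Fin d) ∈ Finset.univ := Finset.mem_univ _
          rw [← Finset.mul_prod_erase _ _ h0]
          exact Ideal.mul_mem_right _ _ (hV _ (f _).2)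
        exact Ideal.IsPrime.mem_of_pow_mem (IsLocalRing.maximalIdeal.isMaximal O).isPrime _ h1
      | zero =>
        refine ⟨by rw [zero_div]; exact O.zero_mem, ?_⟩
        have : (⟨0 / g, by rw [zero_div]; exact O.zero_mem⟩ : O) = 0 :=
          Subtype.ext (zero_div g)
        rw [this]
        exact Ideal.zero_mem _
      | add y z _ _ hy hz =>
        obtain ⟨h1, h1'⟩ := hy
        obtain ⟨h2, h2'⟩ := hz
        refine ⟨by rw [add_div]; exact O.add_mem h1 h2, ?_⟩
        have : (⟨(y + z) / g, by rw [add_div]; exact O.add_mem h1 h2⟩ : O) =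
            ⟨y / g, h1⟩ + ⟨z / g, h2⟩ := Subtype.ext (add_div y z g)
        rw [this]
        exact Ideal.add_mem _ h1' h2'
      | smul c y _ hy =>
        obtain ⟨h1, h1'⟩ := hy
        refine ⟨by rw [smul_div_assoc]; exact O.smul_mem h1 c, ?_⟩
        have : (⟨(c • y) / g, by rw [smul_div_assoc]; exact O.smul_mem h1 c⟩ : O) =
            algebraMap k O c * ⟨y / g, h1⟩ := Subtype.ext (by
          show c • y / g = algebraMap k L c * (y / g)
          rw [smul_div_assoc, Algebra.smul_def])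
        rw [this]
        exact Ideal.mul_mem_left _ _ h1'
    obtain ⟨_, h⟩ := hsp x hx'
    exact h
  have h1 := key g hg
  have h2 : (⟨g / g, hmem g hg⟩ : O) = 1 := Subtype.ext (div_self hg0)
  rw [h2] at h1
  exact (Ideal.ne_top_iff_one _).1 (IsLocalRing.maximalIdeal.isMaximal O).ne_top h1

/-- PROOF. `O ∈ Pts V`, `O` a local ring of `cht V v = cht (V ^ d) (v ^ d)`. Conversely let `O` be a local
ring of `cht (V ^ d) g`: `1 = g / g` is a sum of elements `c v_1 ... v_d / g`, `v_j ∈ V`, so one of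
them is a unit of the local ring `O`, and then every `v_j ^ d / g ∈ O` is a unit of `O` (their
product is a unit). Let `v = v_1`: `w / v = (w v ^ (d-1) / g) (g / v ^ d) ∈ O` for `w ∈ V`, and `O` is a
local ring of `cht V v` (`LocAt.of_frac`). -/
theorem Pts_pow (V : Submodule k L) {d : ℕ} (hd : 1 ≤ d) : Pts (V ^ d) = Pts V := by
  ext O
  constructor
  · rintro ⟨g, hg, hg0, hO⟩
    obtain ⟨v, hv, hv0, hu⟩ := exists_un_pow hd hg hg0 hO.isLocalRing hO.le
    refine ⟨v, hv, hv0, ?_⟩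
    have hvd : v ^ d ≠ 0 := pow_ne_zero _ hv0
    let B : Subalgebra k L := Algebra.adjoin k ((cht (V ^ d) g : Set L) ∪ {g / v ^ d})
    have hB1 : cht (V ^ d) g ≤ B := fun x hx => Algebra.subset_adjoin (Or.inl hx)
    have hB2 : g / v ^ d ∈ B := Algebra.subset_adjoin (Or.inr rfl)
    have hBO : B ≤ O := by
      refine Algebra.adjoin_le ?_
      rintro x (hx | hx)
      · exact hO.le hx
      · rw [Set.mem_singleton_iff] at hx
        subst hx
        exact hu
    have hAB : cht V v ≤ B := by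
      refine Algebra.adjoin_le ?_
      rintro _ ⟨w, hw, rfl⟩
      obtain ⟨d, rfl⟩ := Nat.exists_eq_add_of_le' hd
      have h1 : w / v = v ^ d * w / g * (g / v ^ (d + 1)) := by
        have h2 : v ^ d ≠ 0 := pow_ne_zero _ hv0
        rw [pow_succ]
        field_simp
      rw [h1]
      refine B.mul_mem (hB1 (Algebra.subset_adjoin ⟨v ^ d * w, ?_, rfl⟩)) hB2
      rw [pow_succ]
      exact Submodule.mul_mem_mul (Submodule.pow_mem_pow _ hv _) hw
    have hb : g / v ^ d ∈ cht V v := (mem_cht_iff hv hv0 _).2 ⟨d, g, hg, rfl⟩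
    have hb' : (g / v ^ d)⁻¹ ∈ B := by
      rw [inv_div]
      exact hB1 (Algebra.subset_adjoin ⟨v ^ d, Submodule.pow_mem_pow _ hv _, rfl⟩)
    have hloc : B ≤ locOf (cht V v) B hAB := by
      refine Algebra.adjoin_le ?_
      rintro x (hx | hx)
      · have h1 : cht (V ^ d) g ≤ locOf (cht V v) B hAB := by
          refine Algebra.adjoin_le ?_
          rintro _ ⟨H, hH, rfl⟩
          refine ⟨H / v ^ d, (mem_cht_iff hv hv0 _).2 ⟨d, H, hH, rfl⟩, g / v ^ d, hb,
            div_ne_zero hg0 hvd, hb', ?_⟩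
          field_simp
        exact h1 hx
      · rw [Set.mem_singleton_iff] at hx
        subst hx
        exact ⟨_, hb, 1, (cht V v).one_mem, one_ne_zero, by rw [inv_one]; exact B.one_mem,
          (div_one _).symm⟩
    exact LocAt.of_frac hAB (fun x hx => hloc hx) (hO.of_le hB1 hBO)
  · rintro ⟨v, hv, hv0, hO⟩
    refine ⟨v ^ d, Submodule.pow_mem_pow _ hv d, pow_ne_zero _ hv0, ?_⟩
    have h1 : cht (V ^ d) (v ^ d) = cht V v := by
      have h2 := cht_pow (V := V) (d := 1) hd (by rwa [pow_one]) hv0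
      rwa [one_mul, pow_one] at h2
    rwa [h1]

open scoped Pointwise

/-- the localization of `A` at a prime ideal -/
def covLoc (A : Subalgebra k L) (Q : Ideal A) [hQ : Q.IsPrime] : Subalgebra k L where
  carrier := {x | ∃ a b : A, b ∉ Q ∧ x = a / b}
  mul_mem' := by
    rintro x y ⟨a, b, hb, rfl⟩ ⟨a', b', hb', rfl⟩
    refine ⟨a * a', b * b', fun h => (hQ.mem_or_mem h).elim hb hb', ?_⟩
    push_cast
    exact div_mul_div_comm _ _ _ _
  add_mem' := by
    rintro x y ⟨a, b, hb, rfl⟩ ⟨a', b', hb', rfl⟩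
    have h0 : (b : L) ≠ 0 := fun h => hb (by
      rw [show b = 0 from Subtype.ext h]
      exact Q.zero_mem)
    have h0' : (b' : L) ≠ 0 := fun h => hb' (by
      rw [show b' = 0 from Subtype.ext h]
      exact Q.zero_mem)
    refine ⟨a * b' + b * a', b * b', fun h => (hQ.mem_or_mem h).elim hb hb', ?_⟩
    push_cast
    exact div_add_div _ _ h0 h0'
  algebraMap_mem' c := ⟨algebraMap k A c, 1, fun h => hQ.ne_top ((Ideal.eq_top_iff_one _).2 h), by
    push_cast
    rw [div_one]⟩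

theorem covLoc_locAt (A : Subalgebra k L) (Q : Ideal A) [hQ : Q.IsPrime] :
    LocAt A (covLoc A Q) := ⟨Q, hQ, fun _ => Iff.rfl⟩

/-- the elements `g / v ^ d`, `P d g`, generate the unit ideal of the chart `cht V v` -/
theorem cov_top {V : Submodule k L} {v : L} (hv : v ∈ V) (hv0 : v ≠ 0) (P : ℕ → L → Prop)
    (hP : ∀ O ∈ Pts V, ∃ (d : ℕ) (g : L), 1 ≤ d ∧ g ∈ V ^ d ∧ g ≠ 0 ∧ cht (V ^ d) g ≤ O ∧ P d g) :
    Ideal.span {x : cht V v | ∃ (d : ℕ) (g : L), 1 ≤ d ∧ g ∈ V ^ d ∧ g ≠ 0 ∧ P d g ∧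
      (x : L) = g / v ^ d} = ⊤ := by
  by_contra hne
  obtain ⟨Q, hQ, hle⟩ := Ideal.exists_le_maximal _ hne
  have hQp : Q.IsPrime := hQ.isPrime
  obtain ⟨d, g, hd, hg, hg0, hO, hPg⟩ := hP (covLoc (cht V v) Q)
    ⟨v, hv, hv0, covLoc_locAt _ Q⟩
  have hx : g / v ^ d ∈ cht V v := (mem_cht_iff hv hv0 _).2 ⟨d, g, hg, rfl⟩
  have hxQ : (⟨g / v ^ d, hx⟩ : cht V v) ∈ Q :=
    hle (Ideal.subset_span ⟨d, g, hd, hg, hg0, hPg, rfl⟩)
  have h1 : v ^ d / g ∈ cht (V ^ d) g :=
    Algebra.subset_adjoin ⟨v ^ d, Submodule.pow_mem_pow V hv d, rfl⟩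
  obtain ⟨a, b, hb, hab⟩ := hO h1
  have hb0 : (b : L) ≠ 0 := fun h => hb (by
    rw [show b = 0 from Subtype.ext h]
    exact Q.zero_mem)
  apply hb
  have : b = a * ⟨g / v ^ d, hx⟩ := by
    apply Subtype.ext
    push_cast
    rw [div_eq_div_iff hg0 hb0] at hab
    rw [mul_div_assoc', eq_div_iff (pow_ne_zero d hv0), ← hab, mul_comm]
  rw [this]
  exact Q.mul_mem_left _ hxQ

/-- a power of `v` is in the ideal generated by `G`, if `G / v ^ D` generates the unit ideal -/
theorem cov_pow {V : Submodule k L} {v : L} (hv : v ∈ V) (hv0 : v ≠ 0) (G : Submodule k L) (D : ℕ)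
    (h : Ideal.span {x : cht V v | ∃ g ∈ G, (x : L) = g / v ^ D} = ⊤) :
    ∃ m : ℕ, v ^ (m + D) ∈ G * V ^ m := by
  have key : ∀ x : cht V v, x ∈ Ideal.span {x : cht V v | ∃ g ∈ G, (x : L) = g / v ^ D} →
      ∃ m : ℕ, (x : L) * v ^ (m + D) ∈ G * V ^ m := by
    intro x hx
    induction hx using Submodule.span_induction with
    | mem x hx =>
      obtain ⟨g, hg, hx⟩ := hx
      refine ⟨0, ?_⟩
      rw [hx, zero_add, div_mul_cancel₀ _ (pow_ne_zero D hv0), pow_zero, mul_one]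
      exact hg
    | zero => exact ⟨0, by simp⟩
    | add x y _ _ hx hy =>
      obtain ⟨m, hm⟩ := hx
      obtain ⟨m', hm'⟩ := hy
      refine ⟨m + m', ?_⟩
      have h1 : (x : L) * v ^ (m + D) * v ^ m' ∈ G * V ^ (m + m') := by
        rw [pow_add, ← mul_assoc]
        exact Submodule.mul_mem_mul hm (Submodule.pow_mem_pow V hv m')
      have h2 : (y : L) * v ^ (m' + D) * v ^ m ∈ G * V ^ (m + m') := by
        rw [add_comm m, pow_add, ← mul_assoc]
        exact Submodule.mul_mem_mul hm' (Submodule.pow_mem_pow V hv m)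
      have h3 := Submodule.add_mem _ h1 h2
      have h4 : ((x + y : cht V v) : L) * v ^ (m + m' + D) =
          (x : L) * v ^ (m + D) * v ^ m' + (y : L) * v ^ (m' + D) * v ^ m := by
        push_cast
        ring
      rw [h4]
      exact h3
    | smul c x _ hx =>
      obtain ⟨m, hm⟩ := hx
      obtain ⟨e, H, hH, hc⟩ := (mem_cht_iff hv hv0 _).1 c.2
      refine ⟨m + e, ?_⟩
      have h1 : (x : L) * v ^ (m + D) * H ∈ G * V ^ (m + e) := by
        rw [pow_add, ← mul_assoc]
        exact Submodule.mul_mem_mul hm hH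
      have h4 : ((c • x : cht V v) : L) * v ^ (m + e + D) = (x : L) * v ^ (m + D) * H := by
        rw [smul_eq_mul]
        push_cast
        rw [hc]
        field_simp
        ring
      rw [h4]
      exact h1
  obtain ⟨m, hm⟩ := key 1 (by rw [h]; trivial)
  refine ⟨m, ?_⟩
  have h5 : ((1 : cht V v) : L) * v ^ (m + D) = v ^ (m + D) := by
    push_cast
    rw [one_mul]
  rw [← h5]
  exact hm

/-- large powers of `V` are in the ideal generated by `G` -/
theorem cov_large {N : ℕ} (z : Fin N → L) (G : Submodule k L) (D m : ℕ)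
    (h : ∀ j, z j ^ (m + D) ∈ G * Submodule.span k (Set.range z) ^ m) (n : ℕ)
    (hn : N * (m + D) ≤ n) (hN : 0 < N) :
    Submodule.span k (Set.range z) ^ n ≤ G * Submodule.span k (Set.range z) ^ (n - D) := by
  classical
  rw [Submodule.span_pow]
  rw [Submodule.span_le]
  intro x hx
  rw [Set.mem_pow] at hx
  obtain ⟨f, rfl⟩ := hx
  rw [List.prod_ofFn]
  choose φ hφ using fun i => (f i).2
  have h1 : ∏ i, (f i : L) = ∏ i, z (φ i) := Finset.prod_congr rfl (fun i _ => (hφ i).symm)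
  rw [h1]
  obtain ⟨j, -, hj⟩ := Finset.exists_le_card_fiber_of_mul_le_card_of_maps_to
    (s := (Finset.univ : Finset (Fin n))) (t := (Finset.univ : Finset (Fin N))) (f := φ)
    (n := m + D) (fun _ _ => Finset.mem_univ _) ⟨⟨0, hN⟩, Finset.mem_univ _⟩ (by
      rw [Finset.card_univ, Finset.card_univ, Fintype.card_fin, Fintype.card_fin]
      exact hn)
  obtain ⟨s, hs, hsc⟩ := Finset.exists_subset_card_eq hj
  rw [← Finset.prod_mul_prod_compl s]
  have h2 : ∏ i ∈ s, z (φ i) = z j ^ (m + D) := by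
    rw [← hsc]
    refine Finset.prod_eq_pow_card (fun i hi => ?_)
    rw [(Finset.mem_filter.1 (hs hi)).2]
  have h3 : ∏ i ∈ sᶜ, z (φ i) ∈ Submodule.span k (Set.range z) ^ (n - (m + D)) := by
    have h4 : (sᶜ).card = n - (m + D) := by
      rw [Finset.card_compl, hsc, Fintype.card_fin]
    rw [← h4]
    generalize sᶜ = t
    induction t using Finset.induction_on with
    | empty =>
      rw [Finset.prod_empty, Finset.card_empty, pow_zero]
      exact Submodule.one_le.1 le_rfl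
    | insert a t ha ih =>
      rw [Finset.prod_insert ha, Finset.card_insert_of_notMem ha, pow_succ']
      exact Submodule.mul_mem_mul (Submodule.subset_span ⟨φ a, rfl⟩) ih
  rw [h2]
  have hn' : m + D ≤ n := le_trans (Nat.le_mul_of_pos_left _ hN) hn
  have h5 : n - D = m + (n - (m + D)) := by omega
  rw [h5, pow_add, ← mul_assoc]
  exact Submodule.mul_mem_mul (h j) h3

/-- finitely many of the `g` generate the unit ideal of all charts -/
theorem cov_fin {N : ℕ} (z : Fin N → L) (hz : ∀ i, z i ≠ 0) (P : ℕ → L → Prop)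
    (hP : ∀ O ∈ Pts (Submodule.span k (Set.range z)), ∃ (d : ℕ) (g : L), 1 ≤ d ∧
      g ∈ Submodule.span k (Set.range z) ^ d ∧ g ≠ 0 ∧
      cht (Submodule.span k (Set.range z) ^ d) g ≤ O ∧ P d g) :
    ∃ S : Finset (ℕ × L), (∀ p ∈ S, 1 ≤ p.1 ∧ p.2 ∈ Submodule.span k (Set.range z) ^ p.1 ∧
      p.2 ≠ 0 ∧ P p.1 p.2) ∧ ∀ j, Ideal.span {x : cht (Submodule.span k (Set.range z)) (z j) |
        ∃ p ∈ S, (x : L) = p.2 / z j ^ p.1} = ⊤ := by
  classical
  have h : ∀ j, ∃ S : Finset (ℕ × L), (∀ p ∈ S, 1 ≤ p.1 ∧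
      p.2 ∈ Submodule.span k (Set.range z) ^ p.1 ∧ p.2 ≠ 0 ∧ P p.1 p.2) ∧
      Ideal.span {x : cht (Submodule.span k (Set.range z)) (z j) |
        ∃ p ∈ S, (x : L) = p.2 / z j ^ p.1} = ⊤ := by
    intro j
    have h1 := cov_top (V := Submodule.span k (Set.range z)) (v := z j)
      (Submodule.subset_span ⟨j, rfl⟩) (hz j) P hP
    obtain ⟨s, hs, hst⟩ := (Ideal.span_eq_top_iff_finite _).1 h1
    choose d g hd hg hg0 hPg hx using fun x : s => hs x.2
    refine ⟨s.attach.image (fun x => (d x, g x)), ?_, ?_⟩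
    · intro p hp
      obtain ⟨x, -, rfl⟩ := Finset.mem_image.1 hp
      exact ⟨hd x, hg x, hg0 x, hPg x⟩
    · rw [eq_top_iff, ← hst]
      refine Ideal.span_mono (fun x hxs => ?_)
      exact ⟨(d ⟨x, hxs⟩, g ⟨x, hxs⟩), Finset.mem_image.2 ⟨⟨x, hxs⟩, Finset.mem_attach _ _, rfl⟩,
        hx ⟨x, hxs⟩⟩
  choose S hS hSt using h
  refine ⟨Finset.univ.biUnion S, ?_, ?_⟩
  · intro p hp
    obtain ⟨j, -, hj⟩ := Finset.mem_biUnion.1 hp
    exact hS j p hj
  · intro j
    rw [eq_top_iff, ← hSt j]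
    refine Ideal.span_mono ?_
    rintro x ⟨p, hp, hx⟩
    exact ⟨p, Finset.mem_biUnion.2 ⟨j, Finset.mem_univ _, hp⟩, hx⟩

/-- Compactness. `P d g` is a set of basic open subsets `g ≠ 0`, `g ∈ V ^ d`, such that every point
is in one of them.

PROOF. For every `j` the elements `g / z j ^ d`, `P d g`, of the noetherian ring
`cht V (z j)` generate the unit ideal: for a prime ideal let `O ∈ Pts V` be the local ring, take
`d`, `g` from `hP`; `O ∈ Pts (V ^ d)` is a local ring of `cht (V ^ d) g` and of `cht (V ^ d) (z j ^ d)`, so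
`g / z j ^ d` is a unit of `O`. So `1 = ∑ c g / z j ^ d` for finitely many `g`, and
`z j ^ M ∈ ∑ g V ^ (M - d)` for a large `M` (`mem_cht_iff`). Let `d'` be a common multiple of
the degrees of all these `g` for all `j`; replace `g` of degree `e` by `g ^ (d' / e)`: some power of `z j`
is in the ideal generated by these (a power of a finitely generated ideal). The family `z'`:
all monomials of degree `d'` in the `z j`, and the `g ^ (d' / e)`. For a large `M` the space
`V ^ (d' (M + 1))` is spanned by monomials which contain a high power of some `z j`. -/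
theorem exists_cover {N : ℕ} (hN : 0 < N) (z : Fin N → L) (hz : ∀ i, z i ≠ 0)
    (P : ℕ → L → Prop)
    (hP : ∀ O ∈ Pts (Submodule.span k (Set.range z)), ∃ (d : ℕ) (g : L), 1 ≤ d ∧
      g ∈ Submodule.span k (Set.range z) ^ d ∧ g ≠ 0 ∧
      cht (Submodule.span k (Set.range z) ^ d) g ≤ O ∧ P d g) :
    ∃ (d N' K : ℕ) (z' : Fin N' → L) (σ : Fin K → Fin N'), 1 ≤ d ∧ (∀ j, z' j ≠ 0) ∧
      Submodule.span k (Set.range z') = Submodule.span k (Set.range z) ^ d ∧
      (∃ M : ℕ, ∀ j, z' j ^ (M + 1) ∈ Submodule.span k (Set.range fun a => z' (σ a)) *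
        (Submodule.span k (Set.range z')) ^ M) ∧
      ∀ a, ∃ (e r : ℕ) (g : L), 1 ≤ r ∧ 1 ≤ e ∧ d = e * r ∧ z' (σ a) = g ^ r ∧
        g ∈ Submodule.span k (Set.range z) ^ e ∧ P e g := by
  classical
  obtain ⟨S, hS, hSt⟩ := cov_fin z hz P hP
  set V := Submodule.span k (Set.range z) with hV
  have hzV : ∀ j, z j ∈ V := fun j => Submodule.subset_span ⟨j, rfl⟩
  obtain ⟨D, hD, hSD⟩ : ∃ D : ℕ, 1 ≤ D ∧ ∀ p ∈ S, p.1 ∣ D := by
    refine ⟨∏ p ∈ S, p.1, ?_, fun p hp => Finset.dvd_prod_of_mem _ hp⟩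
    exact Nat.one_le_iff_ne_zero.2 (Finset.prod_ne_zero_iff.2 (fun p hp =>
      Nat.one_le_iff_ne_zero.1 (hS p hp).1))
  have hr : ∀ p ∈ S, 1 ≤ D / p.1 ∧ D = p.1 * (D / p.1) ∧ D / p.1 ≤ D := by
    intro p hp
    refine ⟨?_, (Nat.mul_div_cancel' (hSD p hp)).symm, Nat.div_le_self _ _⟩
    exact Nat.div_pos (Nat.le_of_dvd hD (hSD p hp)) (hS p hp).1
  set T2 : Set L := {y | ∃ p ∈ S, y = p.2 ^ (D / p.1)} with hT2
  set G := Submodule.span k T2 with hG
  have hT2V : T2 ⊆ (V ^ D : Submodule k L) := by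
    rintro y ⟨p, hp, rfl⟩
    have h1 := Submodule.pow_mem_pow (V ^ p.1) (hS p hp).2.1 (D / p.1)
    rw [← pow_mul, ← (hr p hp).2.1] at h1
    exact h1
  have hm : ∀ j, ∃ m : ℕ, z j ^ (m + D) ∈ G * V ^ m := by
    intro j
    refine cov_pow (hzV j) (hz j) G D ?_
    rw [eq_top_iff, ← Ideal.span_pow_eq_top _ (hSt j) D, Ideal.span_le]
    rintro _ ⟨x, ⟨p, hp, hx⟩, rfl⟩
    have h1 : x ^ D = x ^ (D - D / p.1) * x ^ (D / p.1) := by
      rw [← pow_add, Nat.sub_add_cancel (hr p hp).2.2]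
    change x ^ D ∈ _
    rw [h1]
    refine Ideal.mul_mem_left _ _ (Ideal.subset_span ⟨p.2 ^ (D / p.1),
      Submodule.subset_span ⟨p, hp, rfl⟩, ?_⟩)
    push_cast
    rw [hx, div_pow, ← pow_mul, ← (hr p hp).2.1]
  choose m' hm' using hm
  obtain ⟨m, hm⟩ : ∃ m : ℕ, ∀ j, z j ^ (m + D) ∈ G * V ^ m := by
    refine ⟨∑ j, m' j, fun j => ?_⟩
    have h1 : m' j ≤ ∑ j, m' j := Finset.single_le_sum (fun _ _ => Nat.zero_le _)
      (Finset.mem_univ j)
    obtain ⟨c, hc⟩ := Nat.exists_eq_add_of_le h1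
    rw [hc]
    have h2 := Submodule.mul_mem_mul (hm' j) (Submodule.pow_mem_pow V (hzV j) c)
    rw [mul_assoc, ← pow_add, ← pow_add] at h2
    rw [show m' j + c + D = m' j + D + c by ring]
    exact h2
  have hT1 : ∀ n : ℕ, ((Set.range z) ^ n : Set L).Finite := by
    intro n
    induction n with
    | zero =>
      rw [pow_zero]
      exact Set.finite_one
    | succ n ih =>
      rw [pow_succ]
      exact ih.mul (Set.finite_range z)
  have hT2f : T2.Finite := by
    have : T2 = ((S.image (fun p => p.2 ^ (D / p.1)) : Finset L) : Set L) := by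
      ext y
      rw [Finset.coe_image]
      constructor
      · rintro ⟨p, hp, rfl⟩
        exact ⟨p, hp, rfl⟩
      · rintro ⟨p, hp, rfl⟩
        exact ⟨p, hp, rfl⟩
    rw [this]
    exact Finset.finite_toSet _
  set t : Finset L := ((hT1 D).union hT2f).toFinset with ht
  have htc : (t : Set L) = (Set.range z) ^ D ∪ T2 := Set.Finite.coe_toFinset _
  have hspan : Submodule.span k (t : Set L) = V ^ D := by
    rw [htc, Submodule.span_union, ← Submodule.span_pow, ← hV]
    exact sup_eq_left.2 (Submodule.span_le.2 hT2V)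
  have hrange : Set.range (fun i => ((t.equivFin.symm i : t) : L)) = (t : Set L) := by
    ext y
    constructor
    · rintro ⟨i, rfl⟩
      exact (t.equivFin.symm i).2
    · intro hy
      exact ⟨t.equivFin ⟨y, hy⟩, by simp⟩
  have hmem : ∀ p ∈ S, p.2 ^ (D / p.1) ∈ t := by
    intro p hp
    rw [← Finset.mem_coe, htc]
    exact Or.inr ⟨p, hp, rfl⟩
  refine ⟨D, t.card, S.card, fun i => ((t.equivFin.symm i : t) : L),
    fun a => t.equivFin ⟨_, hmem (S.equivFin.symm a).1 (S.equivFin.symm a).2⟩, hD, ?_, ?_,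
    ⟨N * (m + D), ?_⟩, ?_⟩
  · intro j h0
    replace h0 : ((t.equivFin.symm j : t) : L) = 0 := h0
    have h1 : ((t.equivFin.symm j : t) : L) ∈ (t : Set L) := (t.equivFin.symm j).2
    rw [htc] at h1
    rcases h1 with h1 | ⟨p, hp, h1⟩
    · rw [Set.mem_pow] at h1
      obtain ⟨f, hf⟩ := h1
      rw [← hf, List.prod_ofFn] at h0
      obtain ⟨i, -, hi⟩ := Finset.prod_eq_zero_iff.1 h0
      obtain ⟨l, hl⟩ := (f i).2
      exact hz l (hl.trans hi)
    · rw [h0] at h1
      exact pow_ne_zero _ (hS p hp).2.2.1 h1.symm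
  · rw [hrange, hspan]
  · intro j
    rw [hrange, hspan]
    have h1 : ((t.equivFin.symm j : t) : L) ∈ V ^ D := by
      rw [← hspan]
      exact Submodule.subset_span (t.equivFin.symm j).2
    have h2 := Submodule.pow_mem_pow (V ^ D) h1 (N * (m + D) + 1)
    rw [← pow_mul] at h2
    have h3 := cov_large z G D m hm (D * (N * (m + D) + 1))
      ((Nat.le_succ _).trans (Nat.le_mul_of_pos_left _ hD)) hN h2
    have h4 : D * (N * (m + D) + 1) - D = D * (N * (m + D)) := by
      rw [mul_add, mul_one, Nat.add_sub_cancel]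
    rw [h4, pow_mul, ← hV] at h3
    refine (mul_le_mul' ?_ le_rfl : G * (V ^ D) ^ (N * (m + D)) ≤ _) h3
    refine Submodule.span_le.2 ?_
    rintro y ⟨p, hp, rfl⟩
    refine Submodule.subset_span ⟨S.equivFin ⟨p, hp⟩, ?_⟩
    simp
  · intro a
    refine ⟨(S.equivFin.symm a).1.1, D / (S.equivFin.symm a).1.1, (S.equivFin.symm a).1.2,
      (hr _ (S.equivFin.symm a).2).1, (hS _ (S.equivFin.symm a).2).1,
      (hr _ (S.equivFin.symm a).2).2.1, ?_, (hS _ (S.equivFin.symm a).2).2.1,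
      (hS _ (S.equivFin.symm a).2).2.2.2⟩
    simp

end Pool.Agent.KM
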